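import Mathlib
import Pool.Agent.H5.ML.Defs

section S_Base

/-!
# Auxiliary notions (not used in the final statement)
-/

open scoped TensorProduct

namespace H5ML

attribute [instance] DivisorialContraction.integral DivisorialContraction.proper

section Ord

variable {K : Type} [Field K]

/-- The value of `h ≠ 0` with respect to the uniformizer `t` is `n`. -/
def OrdEq (O : ValuationSubring K) (t h : K) (n : ℤ) : Prop :=
  h ≠ 0 ∧ h * t ^ (-n) ∈ O ∧ (h * t ^ (-n))⁻¹ ∈ O

end Ord

section Inert

variable {F : Type} [Field F]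

theorem nonunit_mem {W : ValuationSubring F} {x : F} (hx : x ∈ W.nonunits) : x ∈ W :=
  W.nonunits_subset hx

theorem nonunit_mul {W : ValuationSubring F} {x y : F} (hx : x ∈ W.nonunits) (hy : y ∈ W) :
    x * y ∈ W.nonunits := by
  rw [W.mem_nonunits_iff] at hx ⊢
  rw [map_mul]
  exact mul_lt_one_of_lt_of_le hx ((W.valuation_le_one_iff y).mpr hy)

/-- The inertia group of `W`: the elements which act trivially on the residue field. -/
def inert (G : Type) [Group G] [MulSemiringAction G F] (W : ValuationSubring F) : Subgroup G where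
  carrier := {g | ∀ h ∈ W, g • h - h ∈ W.nonunits}
  one_mem' := by
    intro h _
    simp [W.nonunits.zero_mem]
  mul_mem' := by
    intro a b ha hb h hh
    have h1 : b • h ∈ W := by
      have := W.add_mem _ _ (nonunit_mem (hb h hh)) hh
      simpa using this
    have h2 := W.nonunits.add_mem (ha _ h1) (hb h hh)
    simpa [mul_smul] using h2
  inv_mem' := by
    intro a ha h hh
    have key : a⁻¹ • h ∈ W := by
      by_contra hc
      have h0 : a⁻¹ • h ≠ 0 := by
        intro h0
        exact hc (h0 ▸ W.zero_mem)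
      have h1 : (a⁻¹ • h)⁻¹ ∈ W.nonunits := W.inv_mem_nonunits_iff.mpr (Or.inr hc)
      have h2 : a • (a⁻¹ • h)⁻¹ ∈ W.nonunits := by
        have := W.nonunits.add_mem (ha _ (nonunit_mem h1)) h1
        simpa using this
      rw [smul_inv'', smul_inv_smul] at h2
      rw [W.inv_mem_nonunits_iff] at h2
      rcases h2 with h2 | h2
      · exact h0 (by rw [h2, smul_zero])
      · exact h2 hh
    have h3 := ha _ key
    rw [smul_inv_smul] at h3
    have := W.nonunits.neg_mem h3
    simpa using this

theorem mem_inert {G : Type} [Group G] [MulSemiringAction G F] {W : ValuationSubring F} {g : G} :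
    g ∈ inert G W ↔ ∀ h ∈ W, g • h - h ∈ W.nonunits := Iff.rfl

variable [Algebra ℂ F]

/-- `D` is the tuple of derivations dual to a system `(T, y_1, …, y_n)`, `T` a uniformizer of `W`
and the `y_i` with independent residues; the derivations preserve `W`. -/
def IsFrame {n : ℕ} (W : ValuationSubring F) (T : F) (D : Fin (n + 1) → Derivation ℂ F F) : Prop :=
  IsUnif W T ∧ (∀ i, ∀ h ∈ W, D i h ∈ W) ∧ ∃ y : Fin n → F, ResIndep W y ∧
    ∀ i j, D i ((Fin.cons T y : Fin (n + 1) → F) j) = if i = j then 1 else 0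

end Inert

section Jac

variable {K F : Type} [Field K] [Field F] [Algebra ℂ K] [Algebra ℂ F] [Algebra K F]
  [IsScalarTower ℂ K F]

/-- The Jacobian determinant of `z` with respect to the derivations `D`. -/
noncomputable def jac {N : ℕ} (D : Fin N → Derivation ℂ F F) (z : Fin N → F) : F :=
  Matrix.det (Matrix.of fun j i => D i (z j))

/-- The alternating map behind `detFun`. -/
noncomputable def detAlt (K : Type) {F : Type} [Field K] [Field F] [Algebra ℂ K] [Algebra ℂ F]
    [Algebra K F] [IsScalarTower ℂ K F] {N : ℕ} (D : Fin N → Derivation ℂ F F) :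
    Ω[K⁄ℂ] [⋀^Fin N]→ₗ[K] F :=
  { (MultilinearMap.restrictScalars K
      (Matrix.detRowAlternating (R := F) (n := Fin N)).toMultilinearMap).compLinearMap
      (fun _ => LinearMap.pi fun i => ((D i).compAlgebraMap K).liftKaehlerDifferential) with
    map_eq_zero_of_eq' := by
      intro v i j h hij
      refine Matrix.det_zero_of_row_eq hij ?_
      funext k
      simp [h] }

/-- The functional on top forms of `K` given by `N` derivations of `F`. -/
noncomputable def detFun {N : ℕ} (D : Fin N → Derivation ℂ F F) : ⋀[K]^N Ω[K⁄ℂ] →ₗ[K] F :=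
  exteriorPower.alternatingMapLinearEquiv (detAlt K D)

theorem detFun_dwedge {N : ℕ} (D : Fin N → Derivation ℂ F F) (z : Fin N → K) :
    detFun D (dwedge z) = jac D fun j => algebraMap K F (z j) := by
  unfold detFun dwedge jac
  rw [exteriorPower.alternatingMapLinearEquiv_apply_ιMulti]
  change Matrix.det _ = _
  congr 1
  ext j i
  simp

end Jac

end H5ML

end S_Base

section S_Ord

/-!
# Calculus of orders with respect to a uniformizer
-/

namespace H5ML

variable {K : Type} [Field K] {O : ValuationSubring K} {t g h : K} {m n : ℤ}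

theorem unit_mul {a b : K} (ha : a ∈ O) (ha' : a⁻¹ ∈ O) (hb : b ∈ O) (hb' : b⁻¹ ∈ O) :
    a * b ∈ O ∧ (a * b)⁻¹ ∈ O :=
  ⟨O.mul_mem _ _ ha hb, by rw [mul_inv]; exact O.mul_mem _ _ ha' hb'⟩

theorem IsUnif.pow_mem_iff (ht : IsUnif O t) (k : ℤ) : t ^ k ∈ O ↔ 0 ≤ k := by
  constructor
  · intro hk
    by_contra hc
    push Not at hc
    apply ht.2.2.1
    obtain ⟨j, rfl⟩ : ∃ j : ℕ, k = -(j + 1 : ℕ) := ⟨(-k - 1).toNat, by omega⟩
    rw [zpow_neg, zpow_natCast] at hk
    have h1 : t⁻¹ = t ^ j * (t ^ (j + 1))⁻¹ := by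
      field_simp [ht.1]
      ring
    rw [h1]
    exact O.mul_mem _ _ (pow_mem ht.2.1 j) hk
  · intro hk
    obtain ⟨j, rfl⟩ := Int.eq_ofNat_of_zero_le hk
    rw [zpow_natCast]
    exact pow_mem ht.2.1 j

theorem exists_ordEq (ht : IsUnif O t) (hh : h ≠ 0) : ∃ n, OrdEq O t h n := by
  obtain ⟨n, h1, h2⟩ := ht.2.2.2 h hh
  exact ⟨-n, hh, by simpa using h1, by simpa using h2⟩

theorem OrdEq.mul (h1 : OrdEq O t g m) (h2 : OrdEq O t h n) (ht : IsUnif O t) :
    OrdEq O t (g * h) (m + n) := by
  have e : g * h * t ^ (-(m + n)) = (g * t ^ (-m)) * (h * t ^ (-n)) := by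
    rw [neg_add, zpow_add₀ ht.1]
    ring
  refine ⟨mul_ne_zero h1.1 h2.1, ?_, ?_⟩
  · rw [e]
    exact (unit_mul h1.2.1 h1.2.2 h2.2.1 h2.2.2).1
  · rw [e]
    exact (unit_mul h1.2.1 h1.2.2 h2.2.1 h2.2.2).2

theorem OrdEq.inv (h1 : OrdEq O t g m) : OrdEq O t g⁻¹ (-m) := by
  have e : g⁻¹ * t ^ (-(-m)) = (g * t ^ (-m))⁻¹ := by
    rw [mul_inv, ← zpow_neg]
  refine ⟨inv_ne_zero h1.1, ?_, ?_⟩
  · rw [e]
    exact h1.2.2
  · rw [e, inv_inv]
    exact h1.2.1

theorem ordEq_zero_iff : OrdEq O t h 0 ↔ h ≠ 0 ∧ h ∈ O ∧ h⁻¹ ∈ O := by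
  simp [OrdEq]

theorem ordEq_one : OrdEq O t 1 0 := by
  rw [ordEq_zero_iff]
  exact ⟨one_ne_zero, O.one_mem, by rw [inv_one]; exact O.one_mem⟩

theorem ordEq_zpow (ht : IsUnif O t) (k : ℤ) : OrdEq O t (t ^ k) k := by
  have e : t ^ k * t ^ (-k) = 1 := by rw [← zpow_add₀ ht.1]; simp
  refine ⟨zpow_ne_zero _ ht.1, ?_, ?_⟩
  · rw [e]; exact O.one_mem
  · rw [e, inv_one]; exact O.one_mem

theorem ordEq_self (ht : IsUnif O t) : OrdEq O t t 1 := by
  simpa using ordEq_zpow ht 1

theorem OrdEq.pow (h1 : OrdEq O t g m) (ht : IsUnif O t) (k : ℕ) :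
    OrdEq O t (g ^ k) (k * m) := by
  induction k with
  | zero => simpa using ordEq_one
  | succ k ih =>
    rw [pow_succ]
    have := ih.mul h1 ht
    push_cast
    rwa [add_mul, one_mul]

theorem OrdEq.zpow (h1 : OrdEq O t g m) (ht : IsUnif O t) (k : ℤ) :
    OrdEq O t (g ^ k) (k * m) := by
  obtain ⟨j, rfl | rfl⟩ := Int.eq_nat_or_neg k
  · rw [zpow_natCast]
    exact h1.pow ht j
  · rw [zpow_neg, zpow_natCast, neg_mul]
    exact (h1.pow ht j).inv

theorem OrdEq.prod (ht : IsUnif O t) {ι : Type} (s : Finset ι) (f : ι → K) (a : ι → ℤ)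
    (h : ∀ i ∈ s, OrdEq O t (f i) (a i)) : OrdEq O t (∏ i ∈ s, f i) (∑ i ∈ s, a i) := by
  classical
  induction s using Finset.induction_on with
  | empty => simpa using ordEq_one
  | insert i s hi ih =>
    rw [Finset.prod_insert hi, Finset.sum_insert hi]
    exact (h i (Finset.mem_insert_self _ _)).mul
      (ih fun j hj => h j (Finset.mem_insert_of_mem hj)) ht

theorem OrdEq.mem_iff (h1 : OrdEq O t h n) (ht : IsUnif O t) : h ∈ O ↔ 0 ≤ n := by
  have e : h = (h * t ^ (-n)) * t ^ n := by
    rw [mul_assoc, ← zpow_add₀ ht.1]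
    simp
  constructor
  · intro hh
    have : t ^ n ∈ O := by
      have e2 : t ^ n = h * (h * t ^ (-n))⁻¹ := by
        rw [mul_inv, ← mul_assoc, mul_inv_cancel₀ h1.1, one_mul, ← zpow_neg, neg_neg]
      rw [e2]
      exact O.mul_mem _ _ hh h1.2.2
    exact (ht.pow_mem_iff n).1 this
  · intro hn
    rw [e]
    exact O.mul_mem _ _ h1.2.1 ((ht.pow_mem_iff n).2 hn)

theorem OrdEq.mul_mem_iff (h1 : OrdEq O t h n) (ht : IsUnif O t) (k : ℤ) :
    h * t ^ (-k) ∈ O ↔ k ≤ n := by
  rw [(h1.mul (ordEq_zpow ht (-k)) ht).mem_iff ht]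
  omega

theorem OrdEq.unique (h1 : OrdEq O t h m) (h2 : OrdEq O t h n) (ht : IsUnif O t) : m = n := by
  have a := (h1.mul_mem_iff ht n).1 h2.2.1
  have b := (h2.mul_mem_iff ht m).1 h1.2.1
  omega

theorem OrdEq.nonunit_iff (h1 : OrdEq O t h n) (ht : IsUnif O t) : h ∈ O.nonunits ↔ 1 ≤ n := by
  rw [O.mem_nonunits_iff_or, h1.inv.mem_iff ht]
  constructor
  · rintro (h0 | h0)
    · exact absurd h0 h1.1
    · omega
  · intro h0
    right
    omega

theorem OrdEq.isUnif_iff (h1 : OrdEq O t h n) (ht : IsUnif O t) : IsUnif O h ↔ n = 1 := by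
  constructor
  · intro hh
    obtain ⟨k, hk⟩ := exists_ordEq hh ht.1
    have h2 := (ht.2.2.2 t ht.1)
    -- `t = unit * h ^ k`, so `1 = k * n`
    have h3 : OrdEq O t (t * h ^ (-k)) 0 := by
      rw [ordEq_zero_iff]
      exact ⟨mul_ne_zero ht.1 (zpow_ne_zero _ hh.1), hk.2.1, hk.2.2⟩
    have h4 := (ordEq_self ht).mul (h1.zpow ht (-k)) ht
    have h5 : (1 : ℤ) + -k * n = 0 := h4.unique h3 ht
    have h6 : 1 ≤ n := by
      have := (h1.nonunit_iff ht).1 (by
        rw [O.mem_nonunits_iff_or]
        exact Or.inr hh.2.2.1)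
      exact this
    have h7 : k * n = 1 := by linarith
    exact Int.eq_one_or_neg_one_of_mul_eq_one' h7 |>.elim (fun h => h.2) fun h => by omega
  · rintro rfl
    refine ⟨h1.1, (h1.mem_iff ht).2 (by norm_num), ?_, ?_⟩
    · rw [h1.inv.mem_iff ht]
      norm_num
    · intro g hg
      obtain ⟨k, hk⟩ := exists_ordEq ht hg
      have h2 := hk.mul (h1.zpow ht (-k)) ht
      have h3 : k + -k * 1 = 0 := by ring
      rw [h3, ordEq_zero_iff] at h2
      exact ⟨-k, h2.2⟩

theorem OrdEq.congr_unif {t' : K} (h1 : OrdEq O t h n) (ht : IsUnif O t) (ht' : IsUnif O t') :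
    OrdEq O t' h n := by
  obtain ⟨k, hk⟩ := exists_ordEq ht' h1.1
  obtain ⟨j, hj⟩ := exists_ordEq ht ht'.1
  have hj1 : j = 1 := (hj.isUnif_iff ht).1 ht'
  subst hj1
  -- `h = unit * t' ^ k`
  have h2 : OrdEq O t (h * t' ^ (-k)) 0 := by
    rw [ordEq_zero_iff]
    exact ⟨mul_ne_zero h1.1 (zpow_ne_zero _ ht'.1), hk.2.1, hk.2.2⟩
  have h3 := (h1.mul (hj.zpow ht (-k)) ht).unique h2 ht
  have h4 : n = k := by omega
  rw [h4]
  exact hk

theorem ordGe_iff (ht : IsUnif O t) (k : ℕ) (h : K) : OrdGe O k h ↔ h * (t ^ k)⁻¹ ∈ O := by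
  constructor
  · rintro ⟨t', ht', hh⟩
    rcases eq_or_ne h 0 with rfl | h0
    · rw [zero_mul]
      exact O.zero_mem
    · obtain ⟨n, hn⟩ := exists_ordEq ht' h0
      have h1 := (hn.mul_mem_iff ht' k).1 (by rwa [zpow_neg, zpow_natCast])
      have h2 := ((hn.congr_unif ht' ht).mul_mem_iff ht k).2 h1
      rwa [zpow_neg, zpow_natCast] at h2
  · intro hh
    exact ⟨t, ht, hh⟩

theorem OrdEq.ordGe_iff (h1 : OrdEq O t h n) (ht : IsUnif O t) (k : ℕ) :
    OrdGe O k h ↔ (k : ℤ) ≤ n := by
  rw [H5ML.ordGe_iff ht, ← zpow_natCast, ← zpow_neg, h1.mul_mem_iff ht]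

theorem OrdEq.unit_mul (h1 : OrdEq O t g m) (hh : h ≠ 0) (ho : h ∈ O) (ho' : h⁻¹ ∈ O)
    (ht : IsUnif O t) : OrdEq O t (h * g) m := by
  have h2 : OrdEq O t h 0 := ordEq_zero_iff.2 ⟨hh, ho, ho'⟩
  have := h2.mul h1 ht
  rwa [zero_add] at this

theorem OrdEq.of_ne_zero_of_const [Algebra ℂ K] (hC : ∀ c : ℂ, algebraMap ℂ K c ∈ O) (c : ℂ)
    (hc : c ≠ 0) : OrdEq O t (algebraMap ℂ K c) 0 := by
  rw [ordEq_zero_iff]
  refine ⟨by simpa using hc, hC c, ?_⟩
  rw [← map_inv₀]
  exact hC _

/-- Ultrametric inequality in the form used below. -/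
theorem ordGe_sum {ι : Type} (s : Finset ι) (f : ι → K) (k : ℤ)
    (h : ∀ i ∈ s, f i * t ^ (-k) ∈ O) : (∑ i ∈ s, f i) * t ^ (-k) ∈ O := by
  rw [Finset.sum_mul]
  exact sum_mem h

/-- A sum `g + h` with `ord g = m` and `h` of larger order has order `m`. -/
theorem OrdEq.add (h1 : OrdEq O t g m) (ht : IsUnif O t) (h2 : h * t ^ (-(m + 1)) ∈ O) :
    OrdEq O t (g + h) m := by
  have e : h * t ^ (-m) = (h * t ^ (-(m + 1))) * t := by
    rw [mul_assoc, ← zpow_add_one₀ ht.1]
    congr 2
    ring
  have hn : h * t ^ (-m) ∈ O.nonunits := by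
    rw [e, mul_comm]
    refine nonunit_mul ?_ h2
    rw [O.mem_nonunits_iff_or]
    exact Or.inr ht.2.2.1
  have hu : O.valuation (g * t ^ (-m)) = 1 := by
    have : IsUnit (⟨g * t ^ (-m), h1.2.1⟩ : O) := by
      rw [isUnit_iff_exists_inv]
      refine ⟨⟨_, h1.2.2⟩, ?_⟩
      ext
      change g * t ^ (-m) * (g * t ^ (-m))⁻¹ = 1
      exact mul_inv_cancel₀ (mul_ne_zero h1.1 (zpow_ne_zero _ ht.1))
    exact (O.valuation_eq_one_iff _).1 this
  have hv : O.valuation (g * t ^ (-m) + h * t ^ (-m)) = 1 := by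
    rw [O.mem_nonunits_iff] at hn
    rw [Valuation.map_add_eq_of_lt_left _ (by rw [hu]; exact hn), hu]
  have hne : g * t ^ (-m) + h * t ^ (-m) ≠ 0 := by
    intro h0
    rw [h0, map_zero] at hv
    exact zero_ne_one hv
  rw [← add_mul] at hv hne
  refine ⟨fun h0 => hne (by rw [h0, zero_mul]), ?_, ?_⟩
  · rw [← O.valuation_le_one_iff, hv]
  · rw [← O.valuation_le_one_iff, map_inv₀, hv, inv_one]

end H5ML

end S_Ord

section S_DualA

/-!
# DUALA: differentials of a transcendence basis
-/

open scoped TensorProduct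

namespace H5ML

variable {M : Type} [Field M] [Algebra ℂ M]

open scoped IntermediateField.algebraAdjoinAdjoin in
theorem exists_basis {N : ℕ} (z : Fin N → M) (hz : AlgebraicIndependent ℂ z)
    (halg : Algebra.IsAlgebraic (IntermediateField.adjoin ℂ (Set.range z)) M) :
    ∃ b : Module.Basis (Fin N) M Ω[M⁄ℂ], ∀ i, b i = KaehlerDifferential.D ℂ M (z i) := by
  let P := MvPolynomial (Fin N) ℂ
  let S₀ := Algebra.adjoin ℂ (Set.range z)
  let E := IntermediateField.adjoin ℂ (Set.range z)
  let _ : Algebra P M := (MvPolynomial.aeval z).toAlgebra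
  let _ : Algebra P S₀ := (hz.aevalEquiv : P →ₐ[ℂ] S₀).toAlgebra
  let _ : Algebra P E := ((algebraMap S₀ E).comp (algebraMap P S₀)).toAlgebra
  have t1 : IsScalarTower ℂ P M := IsScalarTower.of_algebraMap_eq fun c => by
    change algebraMap ℂ M c = MvPolynomial.aeval z (algebraMap ℂ P c)
    rw [AlgHom.commutes]
  have t2 : IsScalarTower P S₀ E := IsScalarTower.of_algebraMap_eq fun _ => rfl
  have t3 : IsScalarTower P E M := IsScalarTower.of_algebraMap_eq fun p => by
    exact (hz.algebraMap_aevalEquiv p).symm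
  have e1 : Algebra.FormallyEtale P S₀ := by
    let f : P ≃ₐ[P] S₀ := AlgEquiv.ofBijective (Algebra.ofId P S₀) hz.aevalEquiv.bijective
    exact Algebra.FormallyEtale.of_equiv f
  have e2 : Algebra.FormallyEtale S₀ E := .of_isLocalization (nonZeroDivisors _)
  have e3 : Algebra.FormallyEtale P E := .comp P S₀ E
  have e4 : Algebra.FormallyEtale E M := by
    have : CharZero E := charZero_of_injective_algebraMap (algebraMap ℂ E).injective
    exact Algebra.FormallyEtale.of_isSeparable _ M
  have e5 : Algebra.FormallyEtale P M := .comp P E M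
  let b₀ := (KaehlerDifferential.mvPolynomialBasis ℂ (Fin N)).baseChange M
  refine ⟨b₀.map (KaehlerDifferential.tensorKaehlerEquivOfFormallyEtale ℂ P M), fun i => ?_⟩
  rw [Module.Basis.map_apply, Module.Basis.baseChange_apply,
    KaehlerDifferential.mvPolynomialBasis_apply,
    ← KaehlerDifferential.tensorKaehlerEquivOfFormallyEtale_symm_D_algebraMap ℂ P M,
    LinearEquiv.apply_symm_apply]
  congr 1
  change MvPolynomial.aeval z (MvPolynomial.X i) = z i
  simp

end H5ML

end S_DualA

section S_Dual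

/-!
# DUAL: derivations dual to a transcendence basis
-/

open scoped TensorProduct

namespace H5ML

variable {M : Type} [Field M] [Algebra ℂ M]

/-- Proof. The dual basis of the basis of `exists_basis`, composed with `D`. -/
theorem exists_dual {N : ℕ} (z : Fin N → M) (hz : AlgebraicIndependent ℂ z)
    (halg : Algebra.IsAlgebraic (IntermediateField.adjoin ℂ (Set.range z)) M) :
    ∃ D : Fin N → Derivation ℂ M M, ∀ i j, D i (z j) = if i = j then 1 else 0 := by
  obtain ⟨b, hb⟩ := exists_basis z hz halg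
  refine ⟨fun i => (b.coord i).compDer (KaehlerDifferential.D ℂ M), fun i j => ?_⟩
  change b.coord i (KaehlerDifferential.D ℂ M (z j)) = _
  rw [← hb, Module.Basis.coord_apply, Module.Basis.repr_self, Finsupp.single_apply]
  simp [eq_comm]

/-- Proof. `D` and `∑ k, D (z k) • D' k` agree on the `z j`, and a derivation which vanishes on
the `z j` vanishes (its linear form on `Ω` vanishes on the basis). -/
theorem deriv_expand {N : ℕ} (z : Fin N → M) (hz : AlgebraicIndependent ℂ z)
    (halg : Algebra.IsAlgebraic (IntermediateField.adjoin ℂ (Set.range z)) M)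
    (D' : Fin N → Derivation ℂ M M) (hD' : ∀ i j, D' i (z j) = if i = j then 1 else 0)
    (D : Derivation ℂ M M) (h : M) : D h = ∑ k, D (z k) * D' k h := by
  obtain ⟨b, hb⟩ := exists_basis z hz halg
  have key : D.liftKaehlerDifferential =
      ∑ k, D (z k) • (D' k).liftKaehlerDifferential := by
    refine b.ext fun j => ?_
    rw [hb, LinearMap.sum_apply]
    simp only [LinearMap.smul_apply, Derivation.liftKaehlerDifferential_comp_D, hD', smul_eq_mul]
    simp
  have h1 := congrArg (fun f => f (KaehlerDifferential.D ℂ M h)) key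
  simp only [LinearMap.sum_apply, LinearMap.smul_apply, Derivation.liftKaehlerDifferential_comp_D,
    smul_eq_mul] at h1
  exact h1

/-- Proof. `⋀[M]^N Ω` is spanned by the values of `ιMulti` on families taken from the basis
`d z_i`, and such a value is zero (two equal entries) or, up to sign, `dwedge z`. -/
theorem dwedge_span {N : ℕ} (z : Fin N → M) (hz : AlgebraicIndependent ℂ z)
    (halg : Algebra.IsAlgebraic (IntermediateField.adjoin ℂ (Set.range z)) M)
    (ω : ⋀[M]^N Ω[M⁄ℂ]) : ∃ h : M, ω = h • dwedge z := by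
  obtain ⟨b, hb⟩ := exists_basis z hz halg
  have hspan := exteriorPower.ιMulti_span_of_span (R := M) (n := N) (M := Ω[M⁄ℂ])
    (s := Set.range b) b.span_eq
  have hzb : dwedge z = exteriorPower.ιMulti M N (fun i => b i) := by
    unfold dwedge
    congr 1
    funext i
    rw [hb]
  have hle : Submodule.span M (exteriorPower.ιMulti M N '' {a | Set.range a ⊆ Set.range b}) ≤
      Submodule.span M {dwedge z} := by
    rw [Submodule.span_le]
    rintro - ⟨a, ha, rfl⟩
    have hf : ∀ i, ∃ j, b j = a i := fun i => ha (Set.mem_range_self i)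
    choose f hf using hf
    have haf : a = (fun i => b i) ∘ f := by
      funext i
      exact (hf i).symm
    by_cases hinj : Function.Injective f
    · let σ : Equiv.Perm (Fin N) := Equiv.ofBijective f (Finite.injective_iff_bijective.1 hinj)
      have h1 := (exteriorPower.ιMulti M N (M := Ω[M⁄ℂ])).map_perm (fun i => b i) σ
      have h2 : a = (fun i => b i) ∘ σ := haf
      rw [h2, h1, ← hzb]
      exact Submodule.smul_of_tower_mem _ _ (Submodule.mem_span_singleton_self _)
    · rw [Function.not_injective_iff] at hinj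
      obtain ⟨i, j, hij, hne⟩ := hinj
      have h1 : exteriorPower.ιMulti M N a = 0 :=
        AlternatingMap.map_eq_zero_of_eq _ a (by rw [haf]; simp [hij]) hne
      rw [h1]
      exact Submodule.zero_mem _
  have hmem : ω ∈ Submodule.span M {dwedge z} := hle (by rw [hspan]; trivial)
  obtain ⟨h, hh⟩ := Submodule.mem_span_singleton.1 hmem
  exact ⟨h, hh.symm⟩

end H5ML

end S_Dual

section S_Val

/-!
# VAL: the valuation ring given by an injective homomorphism to a polynomial ring
-/

namespace H5ML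

/-- Auxiliary: divisibility in a power series ring over a field by orders. -/
theorem val_dvd_iff {K : Type} [Field K] (p q : PowerSeries K) (hp : p ≠ 0) :
    p ∣ q ↔ ∀ M : ℕ, (PowerSeries.X : PowerSeries K) ^ M ∣ p → PowerSeries.X ^ M ∣ q := by
  constructor
  · intro h M hM
    exact hM.trans h
  · intro h
    obtain ⟨n, hn⟩ := IsDiscreteValuationRing.associated_pow_irreducible hp
      (PowerSeries.X_irreducible (R := K))
    exact hn.dvd.trans (h n hn.symm.dvd)

/-- Auxiliary: the map from polynomials over a domain to power series over its fraction field. -/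
theorem val_X_pow_dvd {B K : Type} [CommRing B] [IsDomain B] [Field K] [Algebra B K]
    [IsFractionRing B K] (p : Polynomial B) (M : ℕ) :
    (PowerSeries.X : PowerSeries K) ^ M ∣
      ((p.map (algebraMap B K) : Polynomial K) : PowerSeries K) ↔ Polynomial.X ^ M ∣ p := by
  rw [PowerSeries.X_pow_dvd_iff, Polynomial.X_pow_dvd_iff]
  constructor
  · intro h i hi
    have := h i hi
    rw [Polynomial.coeff_coe, Polynomial.coeff_map] at this
    exact (map_eq_zero_iff _ (IsFractionRing.injective B K)).1 this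
  · intro h i hi
    rw [Polynomial.coeff_coe, Polynomial.coeff_map, h i hi, map_zero]

/-- Proof. For `B` a domain the order `ord : B[X] → ℕ ∪ {∞}` (the largest `M` with
`X ^ M ∣ p`; `Polynomial.natTrailingDegree` for `p ≠ 0`) satisfies `ord (p q) = ord p + ord q` and
`ord (p + q) ≥ min`. Put `v (a / b) = ord (ψ a) - ord (ψ b) ∈ ℤ ∪ {∞}`, a valuation of `F₀`
(for instance `Valuation.extendToLocalization` of the valuation `ψ` composed with the `X`-adic
one, or define the valuation subring directly by the condition below). Its valuation ring `V` has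
the property: for `a, b` with `b ≠ 0`, `a / b ∈ V` iff `ord (ψ b) ≤ ord (ψ a)`. -/
theorem exists_val {A₀ F₀ B : Type} [CommRing A₀] [IsDomain A₀] [Field F₀] [Algebra A₀ F₀]
    [IsFractionRing A₀ F₀] [CommRing B] [IsDomain B] (ψ : A₀ →+* Polynomial B)
    (hψ : Function.Injective ψ) :
    ∃ V : ValuationSubring F₀, ∀ a b : A₀, b ≠ 0 →
      (algebraMap A₀ F₀ a / algebraMap A₀ F₀ b ∈ V ↔
        ∀ M : ℕ, Polynomial.X ^ M ∣ ψ b → Polynomial.X ^ M ∣ ψ a) := by
  let K := FractionRing B
  let P := PowerSeries K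
  let L := FractionRing P
  let φ : A₀ →+* P := ((Polynomial.coeToPowerSeries.ringHom (R := K)).comp
    (Polynomial.mapRingHom (algebraMap B K))).comp ψ
  have hφe : ∀ a, φ a = (((ψ a).map (algebraMap B K) : Polynomial K) : PowerSeries K) :=
    fun a => rfl
  have hφ : Function.Injective φ := by
    intro a b hab
    rw [hφe, hφe, Polynomial.coe_inj] at hab
    exact hψ (Polynomial.map_injective _ (IsFractionRing.injective B K) hab)
  let g : A₀ →+* L := (algebraMap P L).comp φ
  have hg : Function.Injective g := (IsFractionRing.injective P L).comp hφ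
  let h : F₀ →+* L := IsFractionRing.lift hg
  have hh : ∀ a, h (algebraMap A₀ F₀ a) = algebraMap P L (φ a) := by
    intro a
    exact IsFractionRing.lift_algebraMap hg a
  refine ⟨((ValuationRing.valuation P L).valuationSubring).comap h, ?_⟩
  intro a b hb
  rw [ValuationSubring.mem_comap, map_div₀, hh, hh]
  have hφb : φ b ≠ 0 := fun h0 => hb (hφ (by rw [h0, map_zero]))
  have hmem : ∀ x : L, x ∈ (ValuationRing.valuation P L).valuationSubring ↔
      ∃ c : P, algebraMap P L c = x := by
    intro x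
    exact ValuationRing.mem_integer_iff P L x
  rw [hmem]
  have h1 : (∃ c : P, algebraMap P L c = algebraMap P L (φ a) / algebraMap P L (φ b)) ↔
      φ b ∣ φ a := by
    have hb' : algebraMap P L (φ b) ≠ 0 := by
      intro h0
      exact hφb ((map_eq_zero_iff _ (IsFractionRing.injective P L)).1 h0)
    constructor
    · rintro ⟨c, hc⟩
      rw [eq_div_iff hb', ← map_mul] at hc
      exact ⟨c, by rw [mul_comm]; exact (IsFractionRing.injective P L hc).symm⟩
    · rintro ⟨c, hc⟩
      exact ⟨c, by rw [eq_div_iff hb', ← map_mul, hc, mul_comm]⟩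
  rw [h1, val_dvd_iff _ _ hφb]
  refine forall_congr' fun M => ?_
  rw [hφe, hφe, val_X_pow_dvd, val_X_pow_dvd]

end H5ML

end S_Val

section S_Few

/-!
# FEW: a sparse polynomial cannot vanish to high order at `1`
-/

namespace H5ML

open Polynomial

theorem few_coeff (P : ℂ[X]) (k j : ℕ) :
    (X * derivative P - C (k : ℂ) * P).coeff j = ((j : ℂ) - k) * P.coeff j := by
  rw [coeff_sub, coeff_C_mul]
  cases j with
  | zero => simp
  | succ j =>
    rw [coeff_X_mul, coeff_derivative]
    push_cast
    ring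

/-- A polynomial with at most `m` nonzero coefficients which is divisible by `(X - 1) ^ m`
vanishes. -/
theorem few (m : ℕ) (P : Polynomial ℂ) (hs : P.support.card ≤ m)
    (h : (Polynomial.X - 1) ^ m ∣ P) : P = 0 := by
  induction m generalizing P with
  | zero =>
    have h1 : P.support = ∅ := Finset.card_eq_zero.1 (Nat.le_zero.1 hs)
    exact support_eq_empty.1 h1
  | succ m ih =>
    by_contra hP
    obtain ⟨k, hk⟩ : ∃ k, k ∈ P.support := by
      by_contra hc
      push Not at hc
      exact hP (support_eq_empty.1 (Finset.eq_empty_of_forall_notMem hc))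
    have h0 : X * derivative P - C (k : ℂ) * P = 0 := by
      apply ih
      · have hsub : (X * derivative P - C (k : ℂ) * P).support ⊆ P.support.erase k := by
          intro j hj
          rw [mem_support_iff, few_coeff] at hj
          rw [Finset.mem_erase, mem_support_iff]
          refine ⟨?_, right_ne_zero_of_mul hj⟩
          rintro rfl
          apply hj
          rw [sub_self, zero_mul]
        have h1 := Finset.card_le_card hsub
        rw [Finset.card_erase_of_mem hk] at h1
        omega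
      · obtain ⟨Q, rfl⟩ := h
        have h1 : (X - 1 : ℂ[X]) ^ m ∣ derivative ((X - 1) ^ (m + 1) * Q) := by
          rw [derivative_mul, derivative_pow]
          refine dvd_add ?_ ?_
          · refine Dvd.dvd.mul_right (Dvd.dvd.mul_right (Dvd.dvd.mul_left ?_ _) _) _
            rw [Nat.add_sub_cancel]
          · exact Dvd.dvd.mul_right (pow_dvd_pow _ (Nat.le_succ m)) _
        exact dvd_sub (Dvd.dvd.mul_left h1 _)
          (Dvd.dvd.mul_left (Dvd.dvd.mul_right (pow_dvd_pow _ (Nat.le_succ m)) _) _)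
    have h2 : P = monomial k (P.coeff k) := by
      ext j
      rw [coeff_monomial]
      split_ifs with hj
      · rw [hj]
      · have h3 := few_coeff P k j
        rw [h0, coeff_zero] at h3
        rcases mul_eq_zero.1 h3.symm with h4 | h4
        · exfalso
          apply hj
          have : (j : ℂ) = k := sub_eq_zero.1 h4
          exact_mod_cast this.symm
        · exact h4
    have h3 : P.eval 1 = 0 := by
      obtain ⟨Q, hQ⟩ := h
      rw [hQ]
      simp
    rw [h2, eval_monomial, one_pow, mul_one] at h3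
    exact (mem_support_iff.1 hk) h3

end H5ML

end S_Few

section S_Nnv

/-!
# NNV: existence of polynomials with support in a lattice and a multiple point at `(1,1,1)`
-/

namespace H5ML

/-- The weight `15 b_0 + 20 b_1 + 24 b_2`. -/
def hgt (b : Fin 3 → ℕ) : ℕ := 15 * b 0 + 20 * b 1 + 24 * b 2


open MvPolynomial in
/-- Shift by an integer vector. -/
noncomputable def nnv_sh (v : Fin 3 → ℤ) : MvPolynomial (Fin 3) ℂ →ₐ[ℂ] MvPolynomial (Fin 3) ℂ :=
  aeval (fun i => X i + C (v i : ℂ))

open MvPolynomial in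
theorem nnv_sh_eval (v : Fin 3 → ℤ) (φ : MvPolynomial (Fin 3) ℂ) (b : Fin 3 → ℤ) :
    eval (fun i => (b i : ℂ)) (nnv_sh v φ) = eval (fun i => ((b i + v i : ℤ) : ℂ)) φ := by
  have h : ((eval (fun i => (b i : ℂ))).comp (nnv_sh v : MvPolynomial (Fin 3) ℂ →+* _)) =
      (eval (fun i => ((b i + v i : ℤ) : ℂ)) : MvPolynomial (Fin 3) ℂ →+* ℂ) := by
    apply MvPolynomial.ringHom_ext
    · intro r
      simp [nnv_sh]
    · intro i
      simp [nnv_sh]
  exact congrArg (fun g : MvPolynomial (Fin 3) ℂ →+* ℂ => g φ) h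

open MvPolynomial in
theorem nnv_mon (v : Fin 3 → ℤ) : ∀ (s : Fin 3 →₀ ℕ) (a : ℂ),
    nnv_sh v (monomial s a) - monomial s a = 0 ∨
    (nnv_sh v (monomial s a) - monomial s a).totalDegree < (monomial s a).totalDegree := by
  intro s a
  refine induction_on_monomial (motive := fun q : MvPolynomial (Fin 3) ℂ =>
    nnv_sh v q - q = 0 ∨ (nnv_sh v q - q).totalDegree < q.totalDegree) ?_ ?_ s a
  · intro a
    left
    simp [nnv_sh]
  · intro p n hp
    by_cases hp0 : p = 0
    · left
      simp [hp0]
    have hdeg : (p * X n).totalDegree = p.totalDegree + 1 := by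
      rw [totalDegree_mul_of_isDomain hp0 (X_ne_zero n), totalDegree_X]
    have hS : (nnv_sh v p).totalDegree ≤ p.totalDegree := by
      have h1 : nnv_sh v p = p + (nnv_sh v p - p) := by ring
      rw [h1]
      refine (totalDegree_add _ _).trans (max_le le_rfl ?_)
      rcases hp with h | h
      · rw [h]
        simp
      · exact h.le
    have hX : nnv_sh v (X n) = X n + C (v n : ℂ) := by simp [nnv_sh]
    have h2 : nnv_sh v (p * X n) - p * X n = (nnv_sh v p - p) * X n + nnv_sh v p * C (v n : ℂ) := by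
      rw [map_mul, hX]
      ring
    right
    rw [h2, hdeg, Nat.lt_succ_iff]
    refine (totalDegree_add _ _).trans (max_le ?_ ?_)
    · rcases hp with h | h
      · rw [h]
        simp
      · refine (totalDegree_mul _ _).trans ?_
        rw [totalDegree_X]
        omega
    · refine (totalDegree_mul _ _).trans ?_
      rw [totalDegree_C]
      simpa using hS

open MvPolynomial in
theorem nnv_diff (v : Fin 3 → ℤ) (φ : MvPolynomial (Fin 3) ℂ) :
    (nnv_sh v φ - φ).totalDegree ≤ φ.totalDegree - 1 := by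
  have h : nnv_sh v φ - φ = ∑ s ∈ φ.support, (nnv_sh v (monomial s (coeff s φ)) -
      monomial s (coeff s φ)) := by
    rw [Finset.sum_sub_distrib, ← map_sum, ← MvPolynomial.as_sum φ]
  rw [h]
  refine (totalDegree_finsetSum _ _).trans ?_
  apply Finset.sup_le
  intro s hs
  have h1 : (monomial s (coeff s φ)).totalDegree ≤ φ.totalDegree := by
    rw [totalDegree_monomial _ (mem_support_iff.mp hs)]
    exact le_totalDegree hs
  rcases nnv_mon v s (coeff s φ) with h2 | h2
  · rw [h2]
    simp
  · omega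

theorem nnv_pt (o d : Fin 3 → ℤ) (K : ℤ) (h0 : 8 ≤ d 0) (h1 : 6 ≤ d 1) (h2 : 5 ≤ d 2)
    (hd : 360 < 15 * d 0 + 20 * d 1 + 24 * d 2)
    (hK1 : 15 * o 0 + 20 * o 1 + 24 * o 2 + 180 ≤ K)
    (hK2 : K ≤ 15 * (o 0 + d 0) + 20 * (o 1 + d 1) + 24 * (o 2 + d 2) - 180) :
    ∃ b : Fin 3 → ℤ, (∀ i, o i ≤ b i ∧ b i ≤ o i + d i) ∧
      15 * b 0 + 20 * b 1 + 24 * b 2 = K := by
  have hKq1 : 15 * (o 0 : ℚ) + 20 * o 1 + 24 * o 2 + 180 ≤ K := by exact_mod_cast hK1
  have hKq2 : (K : ℚ) ≤ 15 * (o 0 + d 0) + 20 * (o 1 + d 1) + 24 * (o 2 + d 2) - 180 := by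
    exact_mod_cast hK2
  have hdq : 0 < 15 * (d 0 : ℚ) + 20 * d 1 + 24 * d 2 - 360 := by
    have : (360 : ℚ) < 15 * d 0 + 20 * d 1 + 24 * d 2 := by exact_mod_cast hd
    linarith
  have h0q : (8 : ℚ) ≤ d 0 := by exact_mod_cast h0
  have h1q : (6 : ℚ) ≤ d 1 := by exact_mod_cast h1
  have h2q : (5 : ℚ) ≤ d 2 := by exact_mod_cast h2
  obtain ⟨l, hl0, hl1, hl⟩ : ∃ l : ℚ, 0 ≤ l ∧ l ≤ 1 ∧
      15 * (o 0 + 4 + l * (d 0 - 8)) + 20 * (o 1 + 3 + l * (d 1 - 6)) +
        24 * (o 2 + 5 / 2 + l * (d 2 - 5)) = (K : ℚ) := by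
    refine ⟨(K - (15 * (o 0 : ℚ) + 20 * o 1 + 24 * o 2 + 180)) /
      (15 * (d 0 : ℚ) + 20 * d 1 + 24 * d 2 - 360), ?_, ?_, ?_⟩
    · apply div_nonneg
      · linarith
      · exact hdq.le
    · rw [div_le_one hdq]
      linarith
    · have hne : (15 * (d 0 : ℚ) + 20 * d 1 + 24 * d 2 - 360) ≠ 0 := ne_of_gt hdq
      field_simp
      ring
  set x0 : ℚ := o 0 + 4 + l * (d 0 - 8) with hx0
  set x1 : ℚ := o 1 + 3 + l * (d 1 - 6) with hx1
  set x2 : ℚ := o 2 + 5 / 2 + l * (d 2 - 5) with hx2
  have hx0a : (o 0 : ℚ) + 4 ≤ x0 := by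
    have := mul_nonneg hl0 (by linarith : (0 : ℚ) ≤ d 0 - 8)
    linarith
  have hx0b : x0 ≤ (o 0 : ℚ) + d 0 - 4 := by
    have := mul_le_mul_of_nonneg_right hl1 (by linarith : (0 : ℚ) ≤ d 0 - 8)
    linarith
  have hx1a : (o 1 : ℚ) + 3 ≤ x1 := by
    have := mul_nonneg hl0 (by linarith : (0 : ℚ) ≤ d 1 - 6)
    linarith
  have hx1b : x1 ≤ (o 1 : ℚ) + d 1 - 3 := by
    have := mul_le_mul_of_nonneg_right hl1 (by linarith : (0 : ℚ) ≤ d 1 - 6)
    linarith
  have hx2a : (o 2 : ℚ) + 5 / 2 ≤ x2 := by
    have := mul_nonneg hl0 (by linarith : (0 : ℚ) ≤ d 2 - 5)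
    linarith
  have hx2b : x2 ≤ (o 2 : ℚ) + d 2 - 5 / 2 := by
    have := mul_le_mul_of_nonneg_right hl1 (by linarith : (0 : ℚ) ≤ d 2 - 5)
    linarith
  clear_value x0 x1 x2
  -- offsets
  obtain ⟨i, hi⟩ : ∃ i : ℤ, |(-(x2 + K) / 5) - i| ≤ 1 / 2 := ⟨round (-(x2 + K) / 5), abs_sub_round _⟩
  obtain ⟨j, hj⟩ : ∃ j : ℤ, |((x0 - 7 * K) / 4 + (x2 + K) / 5) - j| ≤ 1 / 2 :=
    ⟨round ((x0 - 7 * K) / 4 + (x2 + K) / 5), abs_sub_round _⟩
  rw [abs_le] at hi hj
  obtain ⟨hi1, hi2⟩ := hi
  obtain ⟨hj1, hj2⟩ := hj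
  refine ⟨![7 * K + 4 * i + 4 * j, -4 * K + 3 * i - 3 * j, -K - 5 * i], ?_, ?_⟩
  · intro t
    fin_cases t
    · constructor
      · have : (o 0 : ℚ) ≤ 7 * K + 4 * i + 4 * j := by linarith
        have h : o 0 ≤ 7 * K + 4 * i + 4 * j := by exact_mod_cast this
        simpa using h
      · have : (7 : ℚ) * K + 4 * i + 4 * j ≤ o 0 + d 0 := by linarith
        have h : 7 * K + 4 * i + 4 * j ≤ o 0 + d 0 := by exact_mod_cast this
        simpa using h
    · constructor
      · have : (o 1 : ℚ) ≤ -4 * K + 3 * i - 3 * j := by linarith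
        have h : o 1 ≤ -4 * K + 3 * i - 3 * j := by exact_mod_cast this
        simpa using h
      · have : (-4 : ℚ) * K + 3 * i - 3 * j ≤ o 1 + d 1 := by linarith
        have h : -4 * K + 3 * i - 3 * j ≤ o 1 + d 1 := by exact_mod_cast this
        simpa using h
    · constructor
      · have : (o 2 : ℚ) ≤ -K - 5 * i := by linarith
        have h : o 2 ≤ -K - 5 * i := by exact_mod_cast this
        simpa using h
      · have : (-K : ℚ) - 5 * i ≤ o 2 + d 2 := by linarith
        have h : -K - 5 * i ≤ o 2 + d 2 := by exact_mod_cast this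
        simpa using h
  · simp
    ring

theorem nnv_dec (b : Fin 3 → ℤ) : ∃ i j : ℤ,
    b 0 = 7 * (15 * b 0 + 20 * b 1 + 24 * b 2) + 4 * i + 4 * j ∧
    b 1 = -4 * (15 * b 0 + 20 * b 1 + 24 * b 2) + 3 * i - 3 * j ∧
    b 2 = -(15 * b 0 + 20 * b 1 + 24 * b 2) - 5 * i := by
  set k := 15 * b 0 + 20 * b 1 + 24 * b 2 with hk
  obtain ⟨z', hz⟩ : ∃ z' : ℤ, b 2 + k = 5 * z' := ⟨(b 2 + k) / 5, by omega⟩
  obtain ⟨x', hx⟩ : ∃ x' : ℤ, b 0 - 7 * k = 4 * x' := ⟨(b 0 - 7 * k) / 4, by omega⟩
  refine ⟨-z', x' + z', ?_, ?_, ?_⟩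
  · omega
  · omega
  · omega

/-- Key lemma: a polynomial function of degree `< m` which vanishes on all lattice points
(`241 ∣ 15 b_0 + 20 b_1 + 24 b_2`) of a large box vanishes on `ℤ³`.

Proof. Induction on `m`; `m = 0`: `φ.totalDegree < 0` is impossible (so the statement is vacuous;
the hypothesis `totalDegree < m` with `m ≥ 1` allows `φ = 0`). Step `m + 1` (so
`totalDegree φ ≤ m`). Let `v = (4, 3, -5)`, `c = (4, -3, 0)`; both are orthogonal to
`u = (15, 20, 24)`. If `m = 0`, `φ` is constant, and it is enough to find one lattice point in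
the box (see the last step). If `m ≥ 1`: the difference `Δ_v φ (b) = φ (b + v) - φ (b)` is given
by a polynomial of total degree `< m`; it vanishes at the lattice points of the box
`{b : b, b + v ∈ Box}`, which is the box with offset `o + (0,0,5)` and size `d - (4,3,5)`;
here `u·(4,3,5) = 240 ≤ 241`, so the hypotheses hold for `m` and `Δ_v φ = 0` on `ℤ³`. The same
for `c` (box with offset `o + (0,3,0)` and size `d - (4,3,0)`, use the smaller box of size
`d - (4,3,5)`). So `φ (b + i v + j c) = φ (b)` for all integers `i, j`.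
Let `w = (7, -4, -1)`, `u·w = 1`. The kernel of `u·` on `ℤ³` is `ℤ v + ℤ c` (if
`15 a + 20 b + 24 c = 0` then `5 ∣ c`, `4 ∣ a` and so on; explicitly `v × c = -u`). So
`φ (b) = φ ((u·b) w) = g (u·b)` with `g (k) = φ (k w)` a polynomial in `k` of degree `≤ m`.
It remains to see that `g` has more than `m` zeros: every multiple `241 a` in the interval
`[u·o + 180, u·(o + d) - 180]` is the height `u·b` of a lattice point `b` of the box. Namely
(real argument) choose `x = o + (4,3,5/2) + λ (d - (8,6,5))`, `0 ≤ λ ≤ 1`, with `u·x = 241 a`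
(`u·(4,3,5/2) = 180`; needs `d ≥ (8,6,5)`), write `x - 241 a w = α v + β c` with real (rational)
`α, β`, round them to `i, j` with `|α - i|, |β - j| ≤ 1/2` and put `b = 241 a w + i v + j c`; then
`|b - x| ≤ (4, 3, 5/2)` coordinatewise, so `b` lies in the box. The length of the interval is
`u·d - 360 ≥ 241 (m + 1)`, so it contains at least `m + 1` multiples of `241`. Hence `g = 0`. -/
theorem nnv (m : ℕ) (φ : MvPolynomial (Fin 3) ℂ) (hφ : φ.totalDegree < m) (o d : Fin 3 → ℤ)
    (h0 : 4 * m + 8 ≤ d 0) (h1 : 3 * m + 6 ≤ d 1) (h2 : 5 * m + 5 ≤ d 2)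
    (hu : 241 * m + 360 ≤ 15 * d 0 + 20 * d 1 + 24 * d 2)
    (hv : ∀ b : Fin 3 → ℤ, (∀ i, o i ≤ b i ∧ b i ≤ o i + d i) →
      241 ∣ 15 * b 0 + 20 * b 1 + 24 * b 2 → MvPolynomial.eval (fun i => (b i : ℂ)) φ = 0) :
    ∀ b : Fin 3 → ℤ, MvPolynomial.eval (fun i => (b i : ℂ)) φ = 0 := by
  induction m generalizing φ o d with
  | zero => exact absurd hφ (Nat.not_lt_zero _)
  | succ m ih =>
    push_cast at h0 h1 h2 hu
    -- the two differences
    have hper : ∀ v : Fin 3 → ℤ, (v = ![4, 3, -5] ∨ v = ![4, -3, 0]) → ∀ b : Fin 3 → ℤ,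
        MvPolynomial.eval (fun i => ((b i + v i : ℤ) : ℂ)) φ =
          MvPolynomial.eval (fun i => (b i : ℂ)) φ := by
      intro v hv' b
      rw [← nnv_sh_eval]
      have hdf := nnv_diff v φ
      rcases Nat.eq_zero_or_pos m with hm | hm
      · subst hm
        have hφ0 : φ.totalDegree = 0 := by omega
        rw [MvPolynomial.totalDegree_eq_zero_iff_eq_C] at hφ0
        rw [hφ0]
        simp [nnv_sh]
      · rw [← sub_eq_zero, ← map_sub]
        have hdeg : (nnv_sh v φ - φ).totalDegree < m := by omega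
        rcases hv' with hv' | hv'
        · refine ih (nnv_sh v φ - φ) hdeg ![o 0, o 1, o 2 + 5] ![d 0 - 4, d 1 - 3, d 2 - 5] ?_ ?_ ?_ ?_
            ?_ b
          · simp
            omega
          · simp
            omega
          · simp
            omega
          · simp
            omega
          · intro b' hb' hdvd
            have hb0 := hb' 0
            have hb1 := hb' 1
            have hb2 := hb' 2
            simp at hb0 hb1 hb2
            rw [map_sub, nnv_sh_eval]
            rw [hv (fun i => b' i + v i) ?_ ?_, hv b' ?_ hdvd, sub_zero]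
            · intro i
              fin_cases i
              · simp
                omega
              · simp
                omega
              · simp
                omega
            · intro i
              subst hv'
              fin_cases i
              · simp
                omega
              · simp
                omega
              · simp
                omega
            · subst hv'
              simp
              omega
        · refine ih (nnv_sh v φ - φ) hdeg ![o 0, o 1 + 3, o 2] ![d 0 - 4, d 1 - 3, d 2 - 5] ?_ ?_ ?_ ?_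
            ?_ b
          · simp
            omega
          · simp
            omega
          · simp
            omega
          · simp
            omega
          · intro b' hb' hdvd
            have hb0 := hb' 0
            have hb1 := hb' 1
            have hb2 := hb' 2
            simp at hb0 hb1 hb2
            rw [map_sub, nnv_sh_eval]
            rw [hv (fun i => b' i + v i) ?_ ?_, hv b' ?_ hdvd, sub_zero]
            · intro i
              fin_cases i
              · simp
                omega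
              · simp
                omega
              · simp
                omega
            · intro i
              subst hv'
              fin_cases i
              · simp
                omega
              · simp
                omega
              · simp
                omega
            · subst hv'
              simp
              omega
    -- periodicity
    have hperZ : ∀ v : Fin 3 → ℤ, (v = ![4, 3, -5] ∨ v = ![4, -3, 0]) → ∀ (k : ℤ) (b : Fin 3 → ℤ),
        MvPolynomial.eval (fun i => ((b i + k * v i : ℤ) : ℂ)) φ =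
          MvPolynomial.eval (fun i => (b i : ℂ)) φ := by
      intro v hv' k
      induction k using Int.induction_on with
      | zero => intro b; simp
      | succ k ihk =>
        intro b
        rw [← ihk b, ← hper v hv' (fun i => b i + (k : ℤ) * v i)]
        congr 1
        congr 1
        funext i
        congr 1
        ring
      | pred k ihk =>
        intro b
        rw [← ihk b, ← hper v hv' (fun i => b i + (-(k : ℤ) - 1) * v i)]
        congr 1
        congr 1
        funext i
        congr 1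
        ring
    -- reduction to the line
    have hline : ∀ b : Fin 3 → ℤ, MvPolynomial.eval (fun i => (b i : ℂ)) φ =
        MvPolynomial.eval (fun i => (((15 * b 0 + 20 * b 1 + 24 * b 2) *
          (![7, -4, -1] : Fin 3 → ℤ) i : ℤ) : ℂ)) φ := by
      intro b
      obtain ⟨i, j, e0, e1, e2⟩ := nnv_dec b
      rw [← hperZ ![4, 3, -5] (Or.inl rfl) (-i), ← hperZ ![4, -3, 0] (Or.inr rfl) (-j)]
      congr 1
      congr 1
      funext t
      congr 1
      fin_cases t
      · simp
        linarith
      · simp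
        linarith
      · simp
        linarith
    set G : Polynomial ℂ := MvPolynomial.aeval
      (fun i => Polynomial.C (((![7, -4, -1] : Fin 3 → ℤ) i : ℤ) : ℂ) * Polynomial.X) φ with hG
    have hGe : ∀ k : ℤ, G.eval (k : ℂ) = MvPolynomial.eval (fun i => ((k *
          (![7, -4, -1] : Fin 3 → ℤ) i : ℤ) : ℂ)) φ := by
      intro k
      have h : ((Polynomial.evalRingHom (k : ℂ)).comp ((MvPolynomial.aeval
          (fun i => Polynomial.C (((![7, -4, -1] : Fin 3 → ℤ) i : ℤ) : ℂ) * Polynomial.X) :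
            MvPolynomial (Fin 3) ℂ →ₐ[ℂ] Polynomial ℂ) : MvPolynomial (Fin 3) ℂ →+* _)) =
          (MvPolynomial.eval (fun i => ((k * (![7, -4, -1] : Fin 3 → ℤ) i : ℤ) : ℂ)) :
            MvPolynomial (Fin 3) ℂ →+* ℂ) := by
        apply MvPolynomial.ringHom_ext
        · intro r
          simp
        · intro i
          simp [mul_comm]
      exact congrArg (fun g : MvPolynomial (Fin 3) ℂ →+* ℂ => g φ) h
    have hGd : G.natDegree < m + 1 := by
      have := MvPolynomial.aeval_natDegree_le (m := m) (n := 1) φ (by omega)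
        (fun i => Polynomial.C (((![7, -4, -1] : Fin 3 → ℤ) i : ℤ) : ℂ) * Polynomial.X)
        (fun i => (Polynomial.natDegree_C_mul_le _ _).trans (Polynomial.natDegree_X_le))
      rw [← hG] at this
      omega
    -- zeros
    have hG0 : G = 0 := by
      obtain ⟨a0, ha0, ha1⟩ : ∃ a0 : ℤ, 15 * o 0 + 20 * o 1 + 24 * o 2 + 180 ≤ 241 * a0 ∧
          241 * a0 ≤ 15 * o 0 + 20 * o 1 + 24 * o 2 + 180 + 240 :=
        ⟨(15 * o 0 + 20 * o 1 + 24 * o 2 + 180 + 240) / 241, by omega, by omega⟩
      apply Polynomial.eq_zero_of_natDegree_lt_card_of_eval_eq_zero G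
        (ι := Fin (m + 1)) (f := fun t => ((241 * (a0 + (t : ℕ)) : ℤ) : ℂ))
      · intro s t hst
        simp only [Int.cast_inj] at hst
        apply Fin.ext
        omega
      · intro t
        have ht : ((t : ℕ) : ℤ) ≤ m := by
          have := t.2
          omega
        obtain ⟨b, hb, hbu⟩ := nnv_pt o d (241 * (a0 + (t : ℕ))) (by omega) (by omega) (by omega)
          (by omega) (by omega) (by omega)
        have h1 := hv b hb (by rw [hbu]; exact Dvd.intro _ rfl)
        rw [hline b, hbu] at h1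
        rw [hGe]
        exact h1
      · simpa using hGd
    intro b
    rw [hline b, ← hGe, hG0]
    simp

end H5ML

end S_Nnv
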