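import Mathlib
import Pool.Agent.H5.MD.P1

section S_Grp

/-!
# The dihedral group of order 482 acting on the polynomial ring in 11 variables
-/

namespace H5ML

open MvPolynomial

/-- The index set of the variables: `x_i` (`i < 3`), `y_i` (`i < 3`), `t_l` (`l < 5`). -/
abbrev Ix := Fin 3 ⊕ Fin 3 ⊕ Fin 5

/-- The polynomial ring. -/
abbrev A := MvPolynomial Ix ℂ

/-- The group. -/
abbrev G := DihedralGroup 241

/-- The weights of the rotation. -/
def u : Fin 3 → ℕ := ![15, 20, 24]

/-- The variable `x_i`. -/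
noncomputable def xx (i : Fin 3) : A := X (Sum.inl i)

/-- The variable `y_i`. -/
noncomputable def yy (i : Fin 3) : A := X (Sum.inr (Sum.inl i))

/-- The variable `t_l`. -/
noncomputable def tt (l : Fin 5) : A := X (Sum.inr (Sum.inr l))

/-- The additive character `k ↦ ζ^k`, `ζ = exp (2 π i / 241)`. -/
noncomputable def chi (k : ZMod 241) : ℂ := ZMod.stdAddChar k

theorem chi_zero : chi 0 = 1 := by simp [chi]

theorem chi_add (a b : ZMod 241) : chi (a + b) = chi a * chi b := by
  simp [chi, AddChar.map_add_eq_mul]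

theorem chi_neg_mul (a : ZMod 241) : chi (-a) * chi a = 1 := by
  rw [← chi_add]
  simp [chi_zero]

theorem chi_eq_one_iff (a : ZMod 241) : chi a = 1 ↔ a = 0 := by
  constructor
  · intro h
    have := ZMod.injective_stdAddChar (N := 241) (show ZMod.stdAddChar a = ZMod.stdAddChar 0 by
      simpa [chi] using h)
    exact this
  · rintro rfl
    exact chi_zero

/-- The images of the variables. -/
noncomputable def actX : G → Ix → A
  | .r k, .inl i => C (chi (u i * k)) * xx i
  | .r k, .inr (.inl i) => C (chi (-(u i * k))) * yy i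
  | .r _, .inr (.inr l) => tt l
  | .sr k, .inl i => C (chi (u i * k)) * yy i
  | .sr k, .inr (.inl i) => C (chi (-(u i * k))) * xx i
  | .sr _, .inr (.inr l) => -tt l

/-- The algebra endomorphism of `A` given by a group element. -/
noncomputable def act (g : G) : A →ₐ[ℂ] A := aeval (actX g)

theorem act_one : act 1 = AlgHom.id ℂ A := by
  have h : ∀ v, actX (.r 0) v = X v := by
    rintro (i | i | l)
    · change C (chi (u i * 0)) * xx i = X _
      simp [chi_zero, xx]
    · change C (chi (-(u i * 0))) * yy i = X _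
      simp [chi_zero, yy]
    · rfl
  apply MvPolynomial.algHom_ext
  intro v
  rw [← DihedralGroup.r_zero, act, aeval_X, h]
  rfl

theorem act_mul (g h : G) : act (g * h) = (act g).comp (act h) := by
  have hx : ∀ g i, act g (xx i) = actX g (.inl i) := fun g i => by simp [act, xx]
  have hy : ∀ g i, act g (yy i) = actX g (.inr (.inl i)) := fun g i => by simp [act, yy]
  have ht : ∀ g i, act g (tt i) = actX g (.inr (.inr i)) := fun g i => by simp [act, tt]
  have hC : ∀ g (c : ℂ), act g (C c) = C c := fun g c => by simp [act]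
  apply MvPolynomial.algHom_ext
  rintro (i | i | l)
  · change act (g * h) (xx i) = act g (act h (xx i))
    rcases g with a | a <;> rcases h with b | b <;>
      simp only [DihedralGroup.r_mul_r, DihedralGroup.r_mul_sr, DihedralGroup.sr_mul_r,
        DihedralGroup.sr_mul_sr, hx, actX, map_mul, hC, hy] <;>
      rw [← mul_assoc, ← C_mul, ← chi_add] <;> ring_nf
  · change act (g * h) (yy i) = act g (act h (yy i))
    rcases g with a | a <;> rcases h with b | b <;>
      simp only [DihedralGroup.r_mul_r, DihedralGroup.r_mul_sr, DihedralGroup.sr_mul_r,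
        DihedralGroup.sr_mul_sr, hx, actX, map_mul, hC, hy] <;>
      rw [← mul_assoc, ← C_mul, ← chi_add] <;> ring_nf
  · change act (g * h) (tt l) = act g (act h (tt l))
    rcases g with a | a <;> rcases h with b | b <;>
      simp [DihedralGroup.r_mul_r, DihedralGroup.r_mul_sr, DihedralGroup.sr_mul_r,
        DihedralGroup.sr_mul_sr, actX, ht]

noncomputable instance : MulSemiringAction G A where
  smul g a := act g a
  one_smul a := by
    change act 1 a = a
    rw [act_one]
    rfl
  mul_smul g h a := by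
    change act (g * h) a = act g (act h a)
    rw [act_mul]
    rfl
  smul_zero g := map_zero (act g)
  smul_add g a b := map_add (act g) a b
  smul_one g := map_one (act g)
  smul_mul g a b := map_mul (act g) a b

theorem smul_eq (g : G) (a : A) : g • a = act g a := rfl

instance : SMulCommClass G ℂ A where
  smul_comm g c a := by
    rw [smul_eq, smul_eq, map_smul]

/-- The subalgebra of invariants. -/
noncomputable abbrev Rsub : Subalgebra ℂ A := FixedPoints.subalgebra ℂ A G

/-- The ring of invariants `ℂ[x, y, t]^G` as a type. -/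
def R : Type := Rsub

noncomputable instance : CommRing R := inferInstanceAs (CommRing Rsub)

instance : IsDomain R := inferInstanceAs (IsDomain Rsub)

noncomputable instance : Algebra ℂ R := inferInstanceAs (Algebra ℂ Rsub)

noncomputable instance : Algebra R A := inferInstanceAs (Algebra Rsub A)

instance : IsScalarTower ℂ R A := inferInstanceAs (IsScalarTower ℂ Rsub A)

theorem R_injective : Function.Injective (algebraMap R A) := Subtype.val_injective

instance : FaithfulSMul R A := (faithfulSMul_iff_algebraMap_injective R A).mpr R_injective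

theorem R_smul (g : G) (r : R) : g • algebraMap R A r = algebraMap R A r := r.2 g

theorem exists_R (a : A) (ha : ∀ g : G, g • a = a) : ∃ r : R, algebraMap R A r = a :=
  ⟨⟨a, ha⟩, rfl⟩

/-- The maximal ideal of `R` of the image of the origin: invariants without constant term. -/
noncomputable def x0 : Ideal R := RingHom.ker ((constantCoeff (σ := Ix) (R := ℂ)).comp
  (algebraMap R A))

/-- The images of the variables under `theta`. -/
noncomputable def thetaX : Ix → Polynomial A
  | .inl i => Polynomial.C (yy i) * Polynomial.X ^ 2 + Polynomial.C (xx i) * Polynomial.X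
  | .inr (.inl i) => Polynomial.C (yy i) * Polynomial.X ^ 2 - Polynomial.C (xx i) * Polynomial.X
  | .inr (.inr l) => Polynomial.C (tt l) * Polynomial.X

/-- The substitution `x_i = Q_i ϖ² + P_i ϖ`, `y_i = Q_i ϖ² - P_i ϖ`, `t_l = t_l ϖ` (here `P_i`
is the variable `xx i` of the coefficient ring and `Q_i` the variable `yy i`). The order of
`theta f` in `ϖ` is the value of `f` for the monomial valuation with weight one on `x_i - y_i`
and on `t_l` and weight two on `x_i + y_i`. -/
noncomputable def theta : A →ₐ[ℂ] Polynomial A := aeval thetaX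

/-- The images of the variables under `thetak`. -/
noncomputable def thetakX (k : ZMod 241) : Ix → Polynomial A
  | .inl i => Polynomial.C (yy i) * Polynomial.X ^ 2 + Polynomial.C (xx i) * Polynomial.X
  | .inr (.inl i) => Polynomial.C (C (chi (-(u i * k)))) *
      (Polynomial.C (yy i) * Polynomial.X ^ 2 - Polynomial.C (xx i) * Polynomial.X)
  | .inr (.inr l) => Polynomial.C (tt l) * Polynomial.X

/-- The same substitution with `y_i` multiplied by `χ (- u_i k)`. The order of `thetak k f` in
`ϖ` is the value of `f` for the monomial valuation with weight one on `x_i - χ (u_i k) y_i` and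
on `t_l` and weight two on `x_i + χ (u_i k) y_i`. -/
noncomputable def thetak (k : ZMod 241) : A →ₐ[ℂ] Polynomial A := aeval (thetakX k)

theorem theta_xx (i : Fin 3) : theta (xx i) =
    Polynomial.C (yy i) * Polynomial.X ^ 2 + Polynomial.C (xx i) * Polynomial.X := by
  rw [theta, xx, aeval_X]
  rfl

theorem theta_yy (i : Fin 3) : theta (yy i) =
    Polynomial.C (yy i) * Polynomial.X ^ 2 - Polynomial.C (xx i) * Polynomial.X := by
  rw [theta, yy, aeval_X]
  rfl

theorem theta_tt (l : Fin 5) : theta (tt l) = Polynomial.C (tt l) * Polynomial.X := by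
  rw [theta, tt, aeval_X]
  rfl

theorem theta_C (c : ℂ) : theta (C c) = Polynomial.C (C c) := by
  rw [theta, aeval_C]
  rfl

theorem act_xx_r (k : ZMod 241) (i : Fin 3) : act (.r k) (xx i) = C (chi (u i * k)) * xx i := by
  rw [act, xx, aeval_X]
  rfl

theorem act_yy_r (k : ZMod 241) (i : Fin 3) :
    act (.r k) (yy i) = C (chi (-(u i * k))) * yy i := by
  rw [act, yy, aeval_X]
  rfl

theorem act_tt_r (k : ZMod 241) (l : Fin 5) : act (.r k) (tt l) = tt l := by
  rw [act, tt, aeval_X]
  rfl

theorem act_xx_sr (k : ZMod 241) (i : Fin 3) : act (.sr k) (xx i) = C (chi (u i * k)) * yy i := by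
  rw [act, xx, aeval_X]
  rfl

theorem act_yy_sr (k : ZMod 241) (i : Fin 3) :
    act (.sr k) (yy i) = C (chi (-(u i * k))) * xx i := by
  rw [act, yy, aeval_X]
  rfl

theorem act_tt_sr (k : ZMod 241) (l : Fin 5) : act (.sr k) (tt l) = -tt l := by
  rw [act, tt, aeval_X]
  rfl

/-- The fraction field of `A`. -/
abbrev FA := FractionRing A

/-- The fraction field of `R`. -/
abbrev KR := FractionRing R

noncomputable instance : MulSemiringAction G FA := IsFractionRing.mulSemiringAction G A FA

instance : SMulDistribClass G A FA := IsFractionRing.smulDistribClass G A FA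

instance : FaithfulSMul R FA := by
  rw [faithfulSMul_iff_algebraMap_injective]
  have : (algebraMap R FA : R → FA) = fun r => algebraMap A FA (algebraMap R A r) := by
    funext r
    exact IsScalarTower.algebraMap_apply R A FA r
  rw [this]
  exact (IsFractionRing.injective A FA).comp R_injective

noncomputable instance : Algebra KR FA := FractionRing.liftAlgebra R FA

instance : IsScalarTower R KR FA := FractionRing.isScalarTower_liftAlgebra R FA

end H5ML

end S_Grp

section S_Pol

/-!
# Definitions for the combinatorial part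
-/

namespace H5ML

open MvPolynomial

/-- The exponent of the monomial `x^b y^c t^e`. -/
noncomputable def mon (b c : Fin 3 → ℕ) (e : Fin 5 → ℕ) : Ix →₀ ℕ :=
  Finsupp.equivFunOnFinite.symm (Sum.elim b (Sum.elim c e))

/-- The polynomial `∑_b f_b (-1)^{|b|} x^b y^{d-b}`. -/
noncomputable def ftil (d : Fin 3 → ℕ) (f : (Fin 3 → ℕ) → ℂ) : A :=
  ∑ b ∈ Finset.Iic d, C (f b * (-1) ^ (∑ i, b i)) * ∏ i, (xx i ^ b i * yy i ^ (d i - b i))

/-- The polynomial `∑_b f_b (-1)^{|b|} y^b x^{d-b}`. -/
noncomputable def gtil (d : Fin 3 → ℕ) (f : (Fin 3 → ℕ) → ℂ) : A :=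
  ∑ b ∈ Finset.Iic d, C (f b * (-1) ^ (∑ i, b i)) * ∏ i, (yy i ^ b i * xx i ^ (d i - b i))

/-- The restriction of the part of multidegree `(d, e)` of `s` to the curve
`x_i = - τ^{u_i}`, `y_i = 1`. -/
noncomputable def resPoly (s : A) (d : Fin 3 → ℕ) (e : Fin 5 → ℕ) : Polynomial ℂ :=
  ∑ b ∈ Finset.Iic d, Polynomial.C ((-1) ^ (∑ i, b i) * coeff (mon b (d - b) e) s) *
    Polynomial.X ^ hgt b

theorem hgt_eq (b : Fin 3 → ℕ) : hgt b = ∑ i, u i * b i := by
  simp [hgt, u, Fin.sum_univ_three]

/-- The weight of `x_i` and `y_i` for the valuation `w`. -/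
def lw (H : ℕ) (i : Fin 3) : ℕ := H * (u i + 241) - (4 + if i = 2 then 1 else 0)

/-- The weight of `t_l` for the valuation `w`. -/
def lt (H : ℕ) : ℕ := H * 241 - 4

/-- The images of the variables under `psi`. -/
noncomputable def psiX (H k : ℕ) : Ix → Polynomial (Polynomial A)
  | .inl i => -(Polynomial.C (Polynomial.C (yy i)) * Polynomial.X ^ lw H i *
      (Polynomial.C (Polynomial.X ^ u i) + Polynomial.C (Polynomial.C (xx i)) * Polynomial.X ^ k))
  | .inr (.inl i) => Polynomial.C (Polynomial.C (yy i)) * Polynomial.X ^ lw H i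
  | .inr (.inr l) => Polynomial.C (Polynomial.C (tt l)) * Polynomial.X ^ lt H

/-- The substitution `y_i = λ_i ϖ^{ℓ_i}`, `x_i = -λ_i ϖ^{ℓ_i} (τ^{u_i} + σ_i ϖ^k)`,
`t_l = t_l ϖ^{ℓ'}`; here `λ_i` is `yy i`, `σ_i` is `xx i`, `τ` is the variable of the inner
polynomial ring and `ϖ` the variable of the outer one. -/
noncomputable def psi (H k : ℕ) : A →ₐ[ℂ] Polynomial (Polynomial A) := aeval (psiX H k)

/-- `∑ ℓ_i d_i + ℓ' |e|`. -/
def wgt (H : ℕ) (d : Fin 3 → ℕ) (e : Fin 5 → ℕ) : ℕ := ∑ i, lw H i * d i + lt H * ∑ l, e l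

end H5ML

end S_Pol

section S_PsiA

/-!
# PSIA: `psi` is injective
-/

namespace H5ML

open MvPolynomial

/-- Auxiliary: the images of the variables under the partial inverse of `psi`. -/
noncomputable def psia_inv : Ix → FractionRing A
  | .inl i => -(algebraMap A (FractionRing A) (xx i) / algebraMap A (FractionRing A) (yy i))
  | .inr (.inl i) => algebraMap A (FractionRing A) (yy i)
  | .inr (.inr l) => algebraMap A (FractionRing A) (tt l)

/-- Proof. Compose with the homomorphism `Polynomial (Polynomial A) → A` which is the identity on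
`A`, `τ ↦ 0`, `ϖ ↦ 1`: the composition is `y_i ↦ y_i`, `x_i ↦ - y_i x_i` (as `u i ≥ 1`),
`t_l ↦ t_l`, which is injective (it maps distinct monomials to distinct monomials up to sign:
`x^b y^c t^e ↦ ± x^b y^(b+c) t^e`). -/
theorem psi_injective (H k : ℕ) : Function.Injective (psi H k) := by
  let η : A →ₐ[ℂ] FractionRing A := aeval psia_inv
  let E : Polynomial (Polynomial A) →+* FractionRing A :=
    Polynomial.eval₂RingHom (Polynomial.eval₂RingHom (η : A →+* FractionRing A) 0) 1
  have hu : ∀ i, u i ≠ 0 := by decide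
  have hy : ∀ i, algebraMap A (FractionRing A) (yy i) ≠ 0 := by
    intro i h
    have := (map_eq_zero_iff _ (IsFractionRing.injective A (FractionRing A))).1 h
    exact MvPolynomial.X_ne_zero _ this
  have hηx : ∀ i, η (xx i) = -(algebraMap A (FractionRing A) (xx i) /
      algebraMap A (FractionRing A) (yy i)) := fun i => aeval_X _ _
  have hηy : ∀ i, η (yy i) = algebraMap A (FractionRing A) (yy i) := fun i => aeval_X _ _
  have hηt : ∀ i, η (tt i) = algebraMap A (FractionRing A) (tt i) := fun i => aeval_X _ _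
  have key : E.comp (psi H k : A →+* Polynomial (Polynomial A)) =
      algebraMap A (FractionRing A) := by
    apply MvPolynomial.ringHom_ext
    · intro c
      have h1 : (psi H k : A →+* Polynomial (Polynomial A)) (C c) =
          Polynomial.C (Polynomial.C (C c)) := by
        show psi H k (C c) = _
        rw [psi, aeval_C]
        rfl
      rw [RingHom.comp_apply, h1]
      simp only [E, Polynomial.coe_eval₂RingHom, Polynomial.eval₂_C]
      show η (C c) = _
      rw [show (C c : A) = algebraMap ℂ A c from rfl, AlgHom.commutes]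
      rfl
    · intro i
      have h1 : (psi H k : A →+* Polynomial (Polynomial A)) (X i) = psiX H k i := by
        show psi H k (X i) = _
        rw [psi, aeval_X]
      rw [RingHom.comp_apply, h1]
      rcases i with i | i | l
      · simp only [E, psiX, Polynomial.coe_eval₂RingHom, Polynomial.eval₂_C, map_neg, map_mul,
          map_add, Polynomial.eval₂_neg, Polynomial.eval₂_mul, Polynomial.eval₂_add,
          Polynomial.eval₂_X_pow, one_pow, mul_one, zero_pow (hu i), zero_add]
        show -(η (yy i) * η (xx i)) = algebraMap A (FractionRing A) (xx i)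
        rw [hηx, hηy]
        have := hy i
        field_simp
      · simp only [E, psiX, Polynomial.coe_eval₂RingHom, Polynomial.eval₂_C,
          Polynomial.eval₂_mul, Polynomial.eval₂_X_pow, one_pow, mul_one]
        exact hηy i
      · simp only [E, psiX, Polynomial.coe_eval₂RingHom, Polynomial.eval₂_C,
          Polynomial.eval₂_mul, Polynomial.eval₂_X_pow, one_pow, mul_one]
        exact hηt l
  intro a b hab
  apply IsFractionRing.injective A (FractionRing A)
  rw [← key, RingHom.comp_apply, RingHom.comp_apply]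
  exact congrArg E hab

end H5ML

end S_PsiA

section S_PsiB

/-!
# PSIB: lower bound for the order of `psi s`
-/

namespace H5ML

open MvPolynomial

section Gen

variable {B : Type} [CommRing B] [Algebra ℂ B]

/-- The substitution with values in a general ring. -/
noncomputable def psib_X (H k : ℕ) (w τ : B) (L σ : Fin 3 → B) (T : Fin 5 → B) : Ix → B
  | .inl i => -(L i * w ^ lw H i * (τ ^ u i + σ i * w ^ k))
  | .inr (.inl i) => L i * w ^ lw H i
  | .inr (.inr l) => T l * w ^ lt H

/-- The truncated substitution. -/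
noncomputable def psib_Y (H : ℕ) (w τ : B) (L : Fin 3 → B) (T : Fin 5 → B) : Ix → B
  | .inl i => -(L i * w ^ lw H i * τ ^ u i)
  | .inr (.inl i) => L i * w ^ lw H i
  | .inr (.inr l) => T l * w ^ lt H

/-- Two homomorphisms which agree on the variables modulo an ideal agree modulo the ideal. -/
theorem psib_congr (I : Ideal B) (f g : A →ₐ[ℂ] B)
    (h : ∀ v : Ix, f (X v) - g (X v) ∈ I) (s : A) : f s - g s ∈ I := by
  have h1 : (Ideal.Quotient.mkₐ ℂ I).comp f = (Ideal.Quotient.mkₐ ℂ I).comp g := by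
    apply MvPolynomial.algHom_ext
    intro v
    change Ideal.Quotient.mk I (f (X v)) = Ideal.Quotient.mk I (g (X v))
    rw [Ideal.Quotient.eq]
    exact h v
  have h2 := congrArg (fun φ : A →ₐ[ℂ] B ⧸ I => φ s) h1
  change Ideal.Quotient.mk I (f s) = Ideal.Quotient.mk I (g s) at h2
  rwa [Ideal.Quotient.eq] at h2

theorem psib_sub (H k M : ℕ) (hk : M ≤ k) (w τ : B) (L σ : Fin 3 → B) (T : Fin 5 → B) (s : A) :
    w ^ M ∣ aeval (psib_X H k w τ L σ T) s - aeval (psib_Y H w τ L T) s := by
  rw [← Ideal.mem_span_singleton]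
  apply psib_congr
  intro v
  rw [Ideal.mem_span_singleton, aeval_X, aeval_X]
  rcases v with i | i | l
  · change w ^ M ∣ -(L i * w ^ lw H i * (τ ^ u i + σ i * w ^ k)) - -(L i * w ^ lw H i * τ ^ u i)
    have e : -(L i * w ^ lw H i * (τ ^ u i + σ i * w ^ k)) - -(L i * w ^ lw H i * τ ^ u i) =
        w ^ k * (-(L i * w ^ lw H i * σ i)) := by ring
    rw [e]
    exact Dvd.dvd.mul_right (pow_dvd_pow _ hk) _
  · change w ^ M ∣ L i * w ^ lw H i - L i * w ^ lw H i
    rw [sub_self]
    exact dvd_zero _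
  · change w ^ M ∣ T l * w ^ lt H - T l * w ^ lt H
    rw [sub_self]
    exact dvd_zero _

/-- The monomial `λ^d T^e`. -/
noncomputable def psib_L (L : Fin 3 → B) (T : Fin 5 → B) (d : Fin 3 → ℕ) (e : Fin 5 → ℕ) : B :=
  (∏ i, L i ^ d i) * ∏ l, T l ^ e l

/-- The image of a monomial. -/
theorem psib_mon (H : ℕ) (w τ : B) (L : Fin 3 → B) (T : Fin 5 → B) (b c : Fin 3 → ℕ)
    (e : Fin 5 → ℕ) (a : ℂ) :
    aeval (psib_Y H w τ L T) (monomial (mon b c e) a) =
      psib_L L T (b + c) e * w ^ wgt H (b + c) e *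
        Polynomial.aeval τ (Polynomial.C ((-1) ^ (∑ i, b i) * a) * Polynomial.X ^ hgt b) := by
  rw [aeval_monomial, Finsupp.prod_fintype _ _ (fun v => pow_zero _),
    Fintype.prod_sum_type, Fintype.prod_sum_type]
  have e1 : ∀ i : Fin 3, psib_Y H w τ L T (.inl i) ^ (mon b c e) (.inl i) =
      (-1) ^ b i * (L i ^ b i * w ^ (lw H i * b i) * τ ^ (u i * b i)) := by
    intro i
    change (-(L i * w ^ lw H i * τ ^ u i)) ^ b i = _
    rw [neg_pow, mul_pow, mul_pow, ← pow_mul, ← pow_mul]
  have e2 : ∀ i : Fin 3, psib_Y H w τ L T (.inr (.inl i)) ^ (mon b c e) (.inr (.inl i)) =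
      L i ^ c i * w ^ (lw H i * c i) := by
    intro i
    change (L i * w ^ lw H i) ^ c i = _
    rw [mul_pow, ← pow_mul]
  have e3 : ∀ l : Fin 5, psib_Y H w τ L T (.inr (.inr l)) ^ (mon b c e) (.inr (.inr l)) =
      T l ^ e l * w ^ (lt H * e l) := by
    intro l
    change (T l * w ^ lt H) ^ e l = _
    rw [mul_pow, ← pow_mul]
  simp only [e1, e2, e3, Finset.prod_mul_distrib, Finset.prod_pow_eq_pow_sum]
  have e6 : psib_L L T (b + c) e = (∏ i, L i ^ b i) * (∏ i, L i ^ c i) * ∏ l, T l ^ e l := by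
    rw [psib_L, ← Finset.prod_mul_distrib]
    congr 1
    refine Finset.prod_congr rfl fun i _ => ?_
    rw [Pi.add_apply, pow_add]
  have e7 : wgt H (b + c) e = (∑ i, lw H i * b i) + (∑ i, lw H i * c i) + ∑ l, lt H * e l := by
    rw [wgt, ← Finset.sum_add_distrib, Finset.mul_sum]
    congr 1
    refine Finset.sum_congr rfl fun i _ => ?_
    rw [Pi.add_apply, mul_add]
  rw [← hgt_eq, e6, e7, pow_add, pow_add, map_mul, Polynomial.aeval_C, map_pow, Polynomial.aeval_X,
    map_mul, map_pow, map_neg, map_one]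
  ring

/-- The bidegree of an exponent. -/
def psib_key (m : Ix →₀ ℕ) : (Fin 3 → ℕ) × (Fin 5 → ℕ) :=
  (fun i => m (.inl i) + m (.inr (.inl i)), fun l => m (.inr (.inr l)))

theorem psib_mon_key (m : Ix →₀ ℕ) :
    mon (fun i => m (.inl i)) ((psib_key m).1 - fun i => m (.inl i)) (psib_key m).2 = m := by
  ext v
  rcases v with i | i | l
  · rfl
  · change m (.inl i) + m (.inr (.inl i)) - m (.inl i) = m (.inr (.inl i))
    omega
  · rfl

theorem psib_gen (H k M : ℕ) (hk : M ≤ k) (w τ : B) (L σ : Fin 3 → B) (T : Fin 5 → B) (s : A)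
    (h : ∀ (d : Fin 3 → ℕ) (e : Fin 5 → ℕ), resPoly s d e ≠ 0 → M ≤ wgt H d e) :
    w ^ M ∣ aeval (psib_X H k w τ L σ T) s := by
  classical
  suffices hmain : w ^ M ∣ aeval (psib_Y H w τ L T) s by
    have h1 := dvd_add (psib_sub H k M hk w τ L σ T s) hmain
    rwa [sub_add_cancel] at h1
  have hsum : aeval (psib_Y H w τ L T) s =
      ∑ m ∈ s.support, aeval (psib_Y H w τ L T) (monomial m (coeff m s)) := by
    conv_lhs => rw [s.as_sum]
    rw [map_sum]
  rw [hsum, ← Finset.sum_fiberwise_of_maps_to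
    (t := s.support.image psib_key) (g := psib_key) (fun x hx => Finset.mem_image_of_mem _ hx)]
  apply Finset.dvd_sum
  rintro ⟨d, e⟩ _
  -- the sum over one fibre
  have hinj : ∀ b ∈ Finset.Iic d, ∀ b' ∈ Finset.Iic d,
      mon b (d - b) e = mon b' (d - b') e → b = b' := by
    intro b _ b' _ hbb
    funext i
    exact DFunLike.congr_fun hbb (Sum.inl i)
  have hfib : (∑ x ∈ s.support with psib_key x = (d, e),
      aeval (psib_Y H w τ L T) (monomial x (coeff x s))) =
      ∑ b ∈ Finset.Iic d, aeval (psib_Y H w τ L T)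
        (monomial (mon b (d - b) e) (coeff (mon b (d - b) e) s)) := by
    rw [← Finset.sum_image (f := fun x => aeval (psib_Y H w τ L T) (monomial x (coeff x s)))
      (g := fun b => mon b (d - b) e) hinj]
    apply Finset.sum_subset
    · intro x hx
      rw [Finset.mem_filter] at hx
      rw [Finset.mem_image]
      refine ⟨fun i => x (.inl i), ?_, ?_⟩
      · rw [Finset.mem_Iic]
        intro i
        have h2 : (psib_key x).1 i = d i := by rw [hx.2]
        rw [← h2]
        exact Nat.le_add_right _ _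
      · have h2 := psib_mon_key x
        rw [hx.2] at h2
        exact h2
    · intro x hx hx'
      rw [Finset.mem_image] at hx
      obtain ⟨b, hb, rfl⟩ := hx
      rw [Finset.mem_Iic] at hb
      have h2 : psib_key (mon b (d - b) e) = (d, e) := by
        have h3 : (psib_key (mon b (d - b) e)).1 = d := by
          funext i
          change b i + (d i - b i) = d i
          have : b i ≤ d i := hb i
          omega
        exact Prod.ext h3 rfl
      rw [Finset.mem_filter, not_and] at hx'
      have h4 : mon b (d - b) e ∉ s.support := fun h5 => hx' h5 h2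
      rw [notMem_support_iff] at h4
      rw [h4, monomial_zero, map_zero]
  rw [hfib]
  have hterm : ∀ b ∈ Finset.Iic d,
      aeval (psib_Y H w τ L T) (monomial (mon b (d - b) e) (coeff (mon b (d - b) e) s)) =
      (psib_L L T d e * w ^ wgt H d e) *
        Polynomial.aeval τ (Polynomial.C ((-1) ^ (∑ i, b i) *
          coeff (mon b (d - b) e) s) * Polynomial.X ^ hgt b) := by
    intro b hb
    rw [Finset.mem_Iic] at hb
    have h2 : b + (d - b) = d := by
      funext i
      change b i + (d i - b i) = d i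
      have : b i ≤ d i := hb i
      omega
    rw [psib_mon, h2]
  rw [Finset.sum_congr rfl hterm, ← Finset.mul_sum, ← map_sum]
  change _ ∣ _ * Polynomial.aeval τ (resPoly s d e)
  by_cases hres : resPoly s d e = 0
  · rw [hres, map_zero, mul_zero]
    exact dvd_zero _
  · apply Dvd.dvd.mul_right
    apply Dvd.dvd.mul_left
    exact pow_dvd_pow _ (h d e hres)

end Gen

/-- Proof. Group the monomials of `s` by `(d, e)`, `d = b + c`: `psi` maps `x^b y^(d-b) t^e` to
`(-1)^{|b|} λ^d T^e ϖ^{wgt H d e} ∏ (τ^{u_i} + σ_i ϖ^k)^{b_i}` and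
`∏ (τ^{u_i} + σ_i ϖ^k)^{b_i} ≡ τ^{hgt b}` modulo `ϖ^k`. So the part of degree `(d, e)` of `s` is
mapped to an element congruent to `λ^d T^e ϖ^{wgt H d e} * resPoly s d e (τ)` modulo `ϖ^k`; this is
divisible by `ϖ^M` if `resPoly s d e = 0` (because `M ≤ k`) and also if `M ≤ wgt H d e`
(in the second case the whole image is divisible by `ϖ^{wgt H d e}`). -/
theorem psi_dvd (H k M : ℕ) (hk : M ≤ k) (s : A)
    (h : ∀ (d : Fin 3 → ℕ) (e : Fin 5 → ℕ), resPoly s d e ≠ 0 → M ≤ wgt H d e) :
    Polynomial.X ^ M ∣ psi H k s := by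
  have h1 : psiX H k = psib_X H k (Polynomial.X : Polynomial (Polynomial A))
      (Polynomial.C Polynomial.X) (fun i => Polynomial.C (Polynomial.C (yy i)))
      (fun i => Polynomial.C (Polynomial.C (xx i))) (fun l => Polynomial.C (Polynomial.C (tt l))) := by
    funext v
    rcases v with i | i | l
    · change -(Polynomial.C (Polynomial.C (yy i)) * Polynomial.X ^ lw H i *
        (Polynomial.C (Polynomial.X ^ u i) + Polynomial.C (Polynomial.C (xx i)) *
          Polynomial.X ^ k)) = -(Polynomial.C (Polynomial.C (yy i)) * Polynomial.X ^ lw H i *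
        (Polynomial.C Polynomial.X ^ u i + Polynomial.C (Polynomial.C (xx i)) * Polynomial.X ^ k))
      rw [Polynomial.C_pow]
    · rfl
    · rfl
  rw [psi, h1]
  exact psib_gen (B := Polynomial (Polynomial A)) H k M hk _ _ _ _ _ s h

end H5ML

end S_PsiB

section S_PsiC

/-!
# PSIC: the order of `psi` on `ftil * gtil`
-/

namespace H5ML

open MvPolynomial

section Gen

variable {P : Type} [CommRing P]

theorem psic_alg (Y Z : Fin 3 → P) (W : P) (l e g : Fin 3 → ℕ) :
    ∏ i, ((-(Y i * W ^ l i * Z i)) ^ e i * (Y i * W ^ l i) ^ g i) =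
      (-1) ^ (∑ i, e i) * W ^ (∑ i, l i * (e i + g i)) *
        (∏ i, Y i ^ (e i + g i)) * ∏ i, Z i ^ e i := by
  rw [← Finset.prod_pow_eq_pow_sum, ← Finset.prod_pow_eq_pow_sum, ← Finset.prod_mul_distrib,
    ← Finset.prod_mul_distrib, ← Finset.prod_mul_distrib]
  refine Finset.prod_congr rfl fun i _ => ?_
  rw [neg_pow]
  ring

theorem psic_F (Y Z : Fin 3 → P) (W : P) (l d : Fin 3 → ℕ) (a : (Fin 3 → ℕ) → P) :
    ∑ b ∈ Finset.Iic d, (a b * (-1) ^ (∑ i, b i)) *
      ∏ i, ((-(Y i * W ^ l i * Z i)) ^ b i * (Y i * W ^ l i) ^ (d i - b i)) =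
    W ^ (∑ i, l i * d i) * ((∏ i, Y i ^ d i) *
        ∑ b ∈ Finset.Iic d, a b * ∏ i, Z i ^ b i) := by
  rw [Finset.mul_sum, Finset.mul_sum]
  refine Finset.sum_congr rfl fun b hb => ?_
  have hb' : b ≤ d := Finset.mem_Iic.mp hb
  have h1 : ∀ i, b i + (d i - b i) = d i := fun i => Nat.add_sub_cancel' (hb' i)
  have hs : ((-1 : P) ^ (∑ i, b i)) * (-1) ^ (∑ i, b i) = 1 := by
    rw [← mul_pow]; simp
  rw [psic_alg Y Z W l b (fun i => d i - b i)]
  simp only [h1]
  calc _ = ((-1 : P) ^ (∑ i, b i) * (-1) ^ (∑ i, b i)) *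
      (a b * (W ^ (∑ i, l i * d i) * (∏ i, Y i ^ d i) * ∏ i, Z i ^ b i)) := by ring
    _ = _ := by rw [hs]; ring

theorem psic_G (Y Z : Fin 3 → P) (W : P) (l d : Fin 3 → ℕ) (a : (Fin 3 → ℕ) → P) :
    ∑ b ∈ Finset.Iic d, (a b * (-1) ^ (∑ i, b i)) *
      ∏ i, ((Y i * W ^ l i) ^ b i * (-(Y i * W ^ l i * Z i)) ^ (d i - b i)) =
    W ^ (∑ i, l i * d i) * ((∏ i, Y i ^ d i) * ((-1) ^ (∑ i, d i) *
        ∑ b ∈ Finset.Iic d, a b * ∏ i, Z i ^ (d i - b i))) := by
  rw [Finset.mul_sum, Finset.mul_sum, Finset.mul_sum]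
  refine Finset.sum_congr rfl fun b hb => ?_
  have hb' : b ≤ d := Finset.mem_Iic.mp hb
  have h1 : ∀ i, (d i - b i) + b i = d i := fun i => Nat.sub_add_cancel (hb' i)
  have h2 : ∑ i, b i + ∑ i, (d i - b i) = ∑ i, d i := by
    rw [← Finset.sum_add_distrib]
    exact Finset.sum_congr rfl fun i _ => by rw [add_comm]; exact h1 i
  have h3 : ∏ i, ((Y i * W ^ l i) ^ b i * (-(Y i * W ^ l i * Z i)) ^ (d i - b i)) =
      ∏ i, ((-(Y i * W ^ l i * Z i)) ^ (d i - b i) * (Y i * W ^ l i) ^ b i) :=
    Finset.prod_congr rfl fun i _ => mul_comm _ _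
  rw [h3, psic_alg Y Z W l (fun i => d i - b i) b]
  simp only [h1]
  rw [← h2, pow_add]
  ring

end Gen

theorem psic_hgt0 (b : Fin 3 → ℕ) : hgt b = 0 ↔ b = 0 := by
  constructor
  · intro h
    simp only [hgt] at h
    funext i
    fin_cases i
    · change b 0 = 0; omega
    · change b 1 = 0; omega
    · change b 2 = 0; omega
  · rintro rfl
    simp [hgt]

section Dom

variable {B : Type} [CommRing B]

/-- The element `τ^{u_i} + σ_i ϖ^k`. -/
noncomputable def psicZ (s : Fin 3 → B) (k : ℕ) (i : Fin 3) : Polynomial (Polynomial B) :=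
  Polynomial.C (Polynomial.X ^ u i) + Polynomial.C (Polynomial.C (s i)) * Polynomial.X ^ k

/-- The constant coefficient of a product of powers of the `psicZ`. -/
theorem psic_const (s : Fin 3 → B) (k : ℕ) (hk : 1 ≤ k) (b : Fin 3 → ℕ) :
    Polynomial.constantCoeff (∏ i, psicZ s k i ^ b i) = Polynomial.X ^ hgt b := by
  have h : ∀ i, Polynomial.constantCoeff (psicZ s k i) = (Polynomial.X : Polynomial B) ^ u i := by
    intro i
    have h2 : Polynomial.constantCoeff ((Polynomial.X : Polynomial (Polynomial B)) ^ k) = 0 := by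
      rw [map_pow, Polynomial.constantCoeff_apply, Polynomial.coeff_X_zero]
      exact zero_pow (by omega)
    rw [psicZ, map_add, map_mul, h2, mul_zero, add_zero, Polynomial.constantCoeff_apply,
      Polynomial.coeff_C_zero]
  rw [map_prod]
  simp only [map_pow, h]
  rw [hgt_eq, ← Finset.prod_pow_eq_pow_sum]
  refine Finset.prod_congr rfl fun i _ => ?_
  rw [pow_mul]

/-- The image of `ftil`. -/
noncomputable def psicFt (y s : Fin 3 → B) (k : ℕ) (l d : Fin 3 → ℕ)
    (a : (Fin 3 → ℕ) → B) : Polynomial (Polynomial B) :=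
  ∑ b ∈ Finset.Iic d, (Polynomial.C (Polynomial.C (a b)) * (-1) ^ (∑ i, b i)) *
        ∏ i, ((-(Polynomial.C (Polynomial.C (y i)) * Polynomial.X ^ l i * psicZ s k i)) ^ b i *
          (Polynomial.C (Polynomial.C (y i)) * Polynomial.X ^ l i) ^ (d i - b i))

/-- The image of `gtil`. -/
noncomputable def psicGt (y s : Fin 3 → B) (k : ℕ) (l d : Fin 3 → ℕ)
    (a : (Fin 3 → ℕ) → B) : Polynomial (Polynomial B) :=
  ∑ b ∈ Finset.Iic d, (Polynomial.C (Polynomial.C (a b)) * (-1) ^ (∑ i, b i)) *
        ∏ i, ((Polynomial.C (Polynomial.C (y i)) * Polynomial.X ^ l i) ^ b i *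
          (-(Polynomial.C (Polynomial.C (y i)) * Polynomial.X ^ l i * psicZ s k i)) ^
            (d i - b i))

/-- The image of `xx i`. -/
noncomputable def psicX (y s : Fin 3 → B) (k : ℕ) (l : Fin 3 → ℕ) (i : Fin 3) :
    Polynomial (Polynomial B) :=
  -(Polynomial.C (Polynomial.C (y i)) * Polynomial.X ^ l i * psicZ s k i)

/-- The image of `yy i`. -/
noncomputable def psicY (y : Fin 3 → B) (l : Fin 3 → ℕ) (i : Fin 3) :
    Polynomial (Polynomial B) :=
  Polynomial.C (Polynomial.C (y i)) * Polynomial.X ^ l i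

theorem psic_sign (j : ℂ →+* B) (c : ℂ) (n : ℕ) :
    (Polynomial.C (Polynomial.C (j (c * (-1) ^ n))) : Polynomial (Polynomial B)) =
      Polynomial.C (Polynomial.C (j c)) * (-1) ^ n := by
  rw [map_mul, map_mul, map_mul, map_pow, map_pow, map_pow, map_neg, map_neg, map_neg, map_one,
    map_one, map_one]

theorem psic_homF (Ψ : A →+* Polynomial (Polynomial B)) (j : ℂ →+* B) (y s : Fin 3 → B) (k : ℕ)
    (l : Fin 3 → ℕ) (hx : ∀ i, Ψ (xx i) = psicX y s k l i) (hy : ∀ i, Ψ (yy i) = psicY y l i)
    (hC : ∀ c, Ψ (C c) = Polynomial.C (Polynomial.C (j c))) (d : Fin 3 → ℕ)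
    (f : (Fin 3 → ℕ) → ℂ) : Ψ (ftil d f) = psicFt y s k l d (fun b => j (f b)) := by
  rw [ftil, map_sum, psicFt]
  refine Finset.sum_congr rfl fun b _ => ?_
  rw [map_mul, hC, psic_sign j, map_prod]
  congr 1
  refine Finset.prod_congr rfl fun i _ => ?_
  rw [map_mul, map_pow, map_pow, hx, hy, psicX, psicY]

theorem psic_homG (Ψ : A →+* Polynomial (Polynomial B)) (j : ℂ →+* B) (y s : Fin 3 → B) (k : ℕ)
    (l : Fin 3 → ℕ) (hx : ∀ i, Ψ (xx i) = psicX y s k l i) (hy : ∀ i, Ψ (yy i) = psicY y l i)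
    (hC : ∀ c, Ψ (C c) = Polynomial.C (Polynomial.C (j c))) (d : Fin 3 → ℕ)
    (f : (Fin 3 → ℕ) → ℂ) : Ψ (gtil d f) = psicGt y s k l d (fun b => j (f b)) := by
  rw [gtil, map_sum, psicGt]
  refine Finset.sum_congr rfl fun b _ => ?_
  rw [map_mul, hC, psic_sign j, map_prod]
  congr 1
  refine Finset.prod_congr rfl fun i _ => ?_
  rw [map_mul, map_pow, map_pow, hx, hy, psicX, psicY]

variable [IsDomain B]

theorem psic_Fne (s : Fin 3 → B) (k : ℕ) (hk : 1 ≤ k) (d : Fin 3 → ℕ) (a : (Fin 3 → ℕ) → B)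
    (h0 : a 0 = 1) : Polynomial.constantCoeff (∑ b ∈ Finset.Iic d,
      (Polynomial.C (Polynomial.C (a b)) : Polynomial (Polynomial B)) *
        ∏ i, psicZ s k i ^ b i) ≠ 0 := by
  intro hz
  have h1 := congrArg (fun q => Polynomial.coeff q 0) hz
  simp only [map_sum, map_mul, psic_const s k hk, Polynomial.coeff_zero] at h1
  rw [Polynomial.finsetSum_coeff, Finset.sum_eq_single 0] at h1
  · rw [Polynomial.constantCoeff_apply, Polynomial.coeff_C_zero, Polynomial.coeff_C_mul, h0,
      (psic_hgt0 0).2 rfl, pow_zero, Polynomial.coeff_one_zero, mul_one] at h1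
    exact one_ne_zero h1
  · intro b _ hb
    rw [Polynomial.constantCoeff_apply, Polynomial.coeff_C_zero, Polynomial.coeff_C_mul,
      Polynomial.coeff_X_pow, if_neg, mul_zero]
    intro h2
    exact hb ((psic_hgt0 b).1 h2.symm)
  · intro h2
    exact absurd (Finset.mem_Iic.mpr (fun i => Nat.zero_le _)) h2

theorem psic_Gne (s : Fin 3 → B) (k : ℕ) (hk : 1 ≤ k) (d : Fin 3 → ℕ) (a : (Fin 3 → ℕ) → B)
    (h0 : a 0 = 1) : Polynomial.constantCoeff (∑ b ∈ Finset.Iic d,
      (Polynomial.C (Polynomial.C (a b)) : Polynomial (Polynomial B)) *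
        ∏ i, psicZ s k i ^ (d i - b i)) ≠ 0 := by
  intro hz
  have h1 := congrArg (fun q => Polynomial.coeff q (hgt d)) hz
  have hc : ∀ b : Fin 3 → ℕ, Polynomial.constantCoeff (∏ i, psicZ s k i ^ (d i - b i)) =
      Polynomial.X ^ hgt (d - b) := fun b => psic_const s k hk (d - b)
  simp only [map_sum, map_mul, hc, Polynomial.coeff_zero] at h1
  rw [Polynomial.finsetSum_coeff, Finset.sum_eq_single 0] at h1
  · rw [Polynomial.constantCoeff_apply, Polynomial.coeff_C_zero, Polynomial.coeff_C_mul, h0,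
      tsub_zero, Polynomial.coeff_X_pow_self, mul_one] at h1
    exact one_ne_zero h1
  · intro b hb hb0
    rw [Polynomial.constantCoeff_apply, Polynomial.coeff_C_zero, Polynomial.coeff_C_mul,
      Polynomial.coeff_X_pow, if_neg, mul_zero]
    intro h2
    apply hb0
    have hbd : b ≤ d := Finset.mem_Iic.mp hb
    have b0 : b 0 ≤ d 0 := hbd 0
    have b1 : b 1 ≤ d 1 := hbd 1
    have b2 : b 2 ≤ d 2 := hbd 2
    simp only [hgt, Pi.sub_apply] at h2
    funext i
    fin_cases i
    · change b 0 = 0; omega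
    · change b 1 = 0; omega
    · change b 2 = 0; omega
  · intro h2
    exact absurd (Finset.mem_Iic.mpr (fun i => Nat.zero_le _)) h2

theorem psic_main (y s : Fin 3 → B) (hy : ∀ i, y i ≠ 0) (k : ℕ) (hk : 1 ≤ k) (l d : Fin 3 → ℕ)
    (a : (Fin 3 → ℕ) → B) (h0 : a 0 = 1) :
    ¬ (Polynomial.X : Polynomial (Polynomial B)) ^ (2 * (∑ i, l i * d i) + 1) ∣
      psicFt y s k l d a * psicGt y s k l d a := by
  unfold psicFt psicGt
  intro h
  have hyne : Polynomial.constantCoeff
      (∏ i, (Polynomial.C (Polynomial.C (y i)) : Polynomial (Polynomial B)) ^ d i) ≠ 0 := by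
    rw [map_prod]
    refine Finset.prod_ne_zero_iff.mpr fun i _ => ?_
    rw [map_pow]
    refine pow_ne_zero _ ?_
    rw [Polynomial.constantCoeff_apply, Polynomial.coeff_C_zero, Polynomial.C_ne_zero]
    exact hy i
  have hF := psic_Fne s k hk d a h0
  have hG := psic_Gne s k hk d a h0
  rw [psic_F (P := Polynomial (Polynomial B)), psic_G (P := Polynomial (Polynomial B))] at h
  set N := ∑ i, l i * d i with hN
  set P1 := ∏ i, (Polynomial.C (Polynomial.C (y i)) : Polynomial (Polynomial B)) ^ d i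
  set F1 := ∑ b ∈ Finset.Iic d,
      (Polynomial.C (Polynomial.C (a b)) : Polynomial (Polynomial B)) * ∏ i, psicZ s k i ^ b i
  set G1 := ∑ b ∈ Finset.Iic d,
      (Polynomial.C (Polynomial.C (a b)) : Polynomial (Polynomial B)) *
        ∏ i, psicZ s k i ^ (d i - b i)
  have e1 : Polynomial.X ^ N * (P1 * F1) * (Polynomial.X ^ N * (P1 * ((-1) ^ (∑ i, d i) * G1)))
      = Polynomial.X ^ (2 * N) * (P1 * F1 * (P1 * ((-1) ^ (∑ i, d i) * G1))) := by ring
  rw [e1, pow_succ] at h
  have h2 : (Polynomial.X : Polynomial (Polynomial B)) ∣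
      P1 * F1 * (P1 * ((-1) ^ (∑ i, d i) * G1)) :=
    (mul_dvd_mul_iff_left (pow_ne_zero _ Polynomial.X_ne_zero)).1 h
  rw [Polynomial.X_dvd_iff, ← Polynomial.constantCoeff_apply] at h2
  simp only [map_mul, map_pow, map_neg, map_one] at h2
  have h3 : ((-1 : Polynomial B) ^ (∑ i, d i)) ≠ 0 := pow_ne_zero _ (neg_ne_zero.mpr one_ne_zero)
  exact mul_ne_zero (mul_ne_zero hyne hF) (mul_ne_zero hyne (mul_ne_zero h3 hG)) h2

end Dom

theorem psic_xx (H k : ℕ) (i : Fin 3) : psi H k (xx i) = psicX yy xx k (lw H) i := by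
  have h : psi H k (X (Sum.inl i)) = psiX H k (Sum.inl i) := by rw [psi, aeval_X]
  exact h

theorem psic_yy (H k : ℕ) (i : Fin 3) : psi H k (yy i) = psicY yy (lw H) i := by
  have h : psi H k (X (Sum.inr (Sum.inl i))) = psiX H k (Sum.inr (Sum.inl i)) := by
    rw [psi, aeval_X]
  exact h

theorem psic_C (H k : ℕ) (c : ℂ) : psi H k (C c) = Polynomial.C (Polynomial.C (C c)) := by
  rw [psi, aeval_C]
  rfl

/-- Proof. `psi (ftil d f) = λ^d ϖ^{N} ∑_b f b ∏ (τ^{u_i} + σ_i ϖ^k)^{b_i}` with
`N = ∑ lw H i * d i` (the signs cancel), whose coefficient at `ϖ^N` is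
`λ^d ∑_b f b τ^{hgt b}` (here `k ≥ 1`), nonzero since its coefficient at `τ^0` is `f 0 = 1`
(`hgt b = 0` only for `b = 0`). Similarly `psi (gtil d f) = (-1)^{|d|} λ^d ϖ^N ∑_b f b
∏ (τ^{u_i} + σ_i ϖ^k)^{d_i - b_i}`, whose coefficient at `ϖ^N` is
`± λ^d ∑_b f b τ^{hgt d - hgt b}`, nonzero since the coefficient at `τ^{hgt d}` is `f 0 = 1`.
Hence `ϖ^{2N+1}` does not divide the product (`Polynomial (Polynomial A)` is a domain, both are
`ϖ^N` times an element not divisible by the prime `ϖ`). -/
theorem psi_ftil_gtil (H k : ℕ) (hk : 1 ≤ k) (d : Fin 3 → ℕ) (f : (Fin 3 → ℕ) → ℂ)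
    (h0 : f 0 = 1) :
    ¬ Polynomial.X ^ (2 * (∑ i, lw H i * d i) + 1) ∣ psi H k (ftil d f * gtil d f) := by
  have h := psic_main (B := A) yy xx (fun i => X_ne_zero _) k hk (lw H) d (fun b => C (f b))
    (by rw [h0, C_1])
  have hF := psic_homF (B := A) (psi H k : A →+* Polynomial (Polynomial A)) C yy xx k (lw H)
    (psic_xx H k) (psic_yy H k) (psic_C H k) d f
  have hG := psic_homG (B := A) (psi H k : A →+* Polynomial (Polynomial A)) C yy xx k (lw H)
    (psic_xx H k) (psic_yy H k) (psic_C H k) d f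
  rw [← hF, ← hG] at h
  rw [map_mul]
  exact h

end H5ML

end S_PsiC
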