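import Mathlib
import Pool.Agent.H5.MD.P1

section S_Tb

/-!
# TB: parameter systems are transcendence bases
-/

namespace H5ML

variable {M : Type} [Field M] [Algebra ℂ M]

theorem tb_mem {n : ℕ} {W : ValuationSubring M} {y : Fin n → M} (hy : ResIndep W y)
    (c : MvPolynomial (Fin n) ℂ) : MvPolynomial.aeval y c ∈ W := by
  by_cases hc : c = 0
  · rw [hc, map_zero]
    exact W.zero_mem
  · exact (hy c hc).2.1

theorem tb_mem' {n : ℕ} {W : ValuationSubring M} {T : M} {y : Fin n → M} (hT : IsUnif W T)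
    (hy : ResIndep W y) (Q : Polynomial (MvPolynomial (Fin n) ℂ)) :
    Polynomial.eval₂ (MvPolynomial.aeval y : MvPolynomial (Fin n) ℂ →ₐ[ℂ] M).toRingHom T Q ∈ W := by
  rw [Polynomial.eval₂_eq_sum_range]
  refine sum_mem fun i _ => W.mul_mem _ _ (tb_mem hy _) (pow_mem hT.2.1 i)

theorem tb_poly {n : ℕ} {W : ValuationSubring M} {T : M} {y : Fin n → M} (hT : IsUnif W T)
    (hy : ResIndep W y) : ∀ (k : ℕ) (Q : Polynomial (MvPolynomial (Fin n) ℂ)),
      Q.natDegree ≤ k → Q ≠ 0 →
      Polynomial.eval₂ (MvPolynomial.aeval y : MvPolynomial (Fin n) ℂ →ₐ[ℂ] M).toRingHom T Q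
        ≠ 0 := by
  intro k
  induction k with
  | zero =>
    intro Q hQ hQ0
    rw [Polynomial.eq_C_of_natDegree_le_zero hQ] at hQ0 ⊢
    rw [Polynomial.eval₂_C]
    exact (hy _ (by simpa using hQ0)).1
  | succ k ih =>
    intro Q hQ hQ0
    have hdec : Q = Q.divX * Polynomial.X + Polynomial.C (Q.coeff 0) :=
      (Polynomial.divX_mul_X_add Q).symm
    have hev : Polynomial.eval₂ (MvPolynomial.aeval y : MvPolynomial (Fin n) ℂ →ₐ[ℂ] M).toRingHom
        T Q = Polynomial.eval₂ (MvPolynomial.aeval y : MvPolynomial (Fin n) ℂ →ₐ[ℂ] M).toRingHom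
        T Q.divX * T + MvPolynomial.aeval y (Q.coeff 0) := by
      conv_lhs => rw [hdec]
      rw [Polynomial.eval₂_add, Polynomial.eval₂_mul, Polynomial.eval₂_X, Polynomial.eval₂_C]
      rfl
    rw [hev]
    by_cases hc : Q.coeff 0 = 0
    · rw [hc, map_zero, add_zero]
      refine mul_ne_zero (ih _ ?_ ?_) hT.1
      · rw [Polynomial.natDegree_divX_eq_natDegree_tsub_one]
        omega
      · intro h0
        apply hQ0
        rw [hdec, h0, hc]
        simp
    · intro h0
      obtain ⟨h1, h2, h3⟩ := hy _ hc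
      apply hT.2.2.1
      set e := Polynomial.eval₂ (MvPolynomial.aeval y : MvPolynomial (Fin n) ℂ →ₐ[ℂ] M).toRingHom
        T Q.divX with he
      have he' : e ∈ W := tb_mem' hT hy _
      have h4 : T⁻¹ = -(e * (MvPolynomial.aeval y (Q.coeff 0))⁻¹) := by
        have h5 : MvPolynomial.aeval y (Q.coeff 0) = -(e * T) := by
          rw [eq_neg_iff_add_eq_zero, add_comm]
          exact h0
        have h6 : e * T ≠ 0 := by
          intro h7
          rw [h7, neg_zero] at h5
          exact h1 h5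
        have h8 : e ≠ 0 := left_ne_zero_of_mul h6
        rw [h5]
        field_simp [hT.1]
      rw [h4]
      exact neg_mem (W.mul_mem _ _ he' h3)

/-- Proof. Let `P ≠ 0` be a polynomial in `n + 1` variables with `P (T, y) = 0`. View it as a
polynomial in the variable `0` with coefficients in the polynomial ring in the others
(`MvPolynomial.finSuccEquiv`): `P = ∑ c_j X_0 ^ j`, let `j` be minimal with `c_j ≠ 0`. Then
`0 = T ^ j (c_j (y) + T (…))` with `(…) ∈ W`, and `c_j (y)` is a unit of `W` by `hy`, so the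
parenthesis is a unit; contradiction. -/
theorem tb_indep {n : ℕ} {W : ValuationSubring M} {T : M} {y : Fin n → M} (hT : IsUnif W T)
    (hy : ResIndep W y) : AlgebraicIndependent ℂ (Fin.cons T y : Fin (n + 1) → M) := by
  rw [algebraicIndependent_iff]
  intro P hP
  by_contra hP0
  have hQ : MvPolynomial.finSuccEquiv ℂ n P ≠ 0 := by
    intro h0
    apply hP0
    exact (MvPolynomial.finSuccEquiv ℂ n).injective (by rw [h0, map_zero])
  refine tb_poly hT hy _ _ le_rfl hQ ?_
  rw [← hP]
  have hcomp : ((MvPolynomial.aeval (Fin.cons T y : Fin (n + 1) → M)).toRingHom :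
      MvPolynomial (Fin (n + 1)) ℂ →+* M) =
      (Polynomial.eval₂RingHom (MvPolynomial.aeval y : MvPolynomial (Fin n) ℂ →ₐ[ℂ] M).toRingHom
        T).comp (MvPolynomial.finSuccEquiv ℂ n).toAlgHom.toRingHom := by
    apply MvPolynomial.ringHom_ext
    · intro r
      simp [MvPolynomial.finSuccEquiv_apply]
    · intro i
      refine Fin.cases ?_ (fun j => ?_) i
      · simp [MvPolynomial.finSuccEquiv_apply]
      · simp [MvPolynomial.finSuccEquiv_apply]
  exact (congrArg (fun g : MvPolynomial (Fin (n + 1)) ℂ →+* M => g P) hcomp).symm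

/-- `z` is a transcendence basis because its cardinality is the transcendence degree, so `M` is
algebraic over `ℂ(z)`; it is finitely generated as a field (`EssFiniteType` over `ℂ`, hence over
`ℂ(z)`), so finite. -/
theorem tb_fin {N : ℕ} (hM : Algebra.EssFiniteType ℂ M) (htr : Algebra.trdeg ℂ M = N)
    (z : Fin N → M) (hz : AlgebraicIndependent ℂ z) :
    Algebra.IsAlgebraic (IntermediateField.adjoin ℂ (Set.range z)) M ∧
      FiniteDimensional (IntermediateField.adjoin ℂ (Set.range z)) M := by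
  have h1 : IsTranscendenceBasis ℂ z :=
    hz.isTranscendenceBasis_of_lift_trdeg_le_of_finite (by simp [htr])
  have h2 := h1.isAlgebraic_field
  refine ⟨h2, ?_⟩
  have h3 : Algebra.EssFiniteType (IntermediateField.adjoin ℂ (Set.range z)) M :=
    Algebra.EssFiniteType.of_comp ℂ _ M
  exact Algebra.finite_of_essFiniteType_of_isAlgebraic

end H5ML

end S_Tb

section S_PresA

/-!
# PRESA: elements of `W` in the field generated by a parameter system
-/

namespace H5ML

variable {M : Type} [Field M] [Algebra ℂ M]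

/-- The evaluation of polynomials in `y`. -/
noncomputable def presa_e {n : ℕ} (y : Fin n → M) : MvPolynomial (Fin n) ℂ →+* M :=
  ((MvPolynomial.aeval y : MvPolynomial (Fin n) ℂ →ₐ[ℂ] M) : MvPolynomial (Fin n) ℂ →+* M)

theorem presa_eval {n : ℕ} (T : M) (y : Fin n → M) (P : MvPolynomial (Fin (n + 1)) ℂ) :
    MvPolynomial.aeval (Fin.cons T y : Fin (n + 1) → M) P =
      Polynomial.eval₂ (presa_e y) T (MvPolynomial.finSuccEquiv ℂ n P) := by
  have h : ((MvPolynomial.aeval (Fin.cons T y : Fin (n + 1) → M) :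
      MvPolynomial (Fin (n + 1)) ℂ →ₐ[ℂ] M) : MvPolynomial (Fin (n + 1)) ℂ →+* M) =
      (Polynomial.eval₂RingHom (presa_e y) T).comp
        (MvPolynomial.finSuccEquiv ℂ n : MvPolynomial (Fin (n + 1)) ℂ →+*
          Polynomial (MvPolynomial (Fin n) ℂ)) := by
    apply MvPolynomial.ringHom_ext
    · intro c
      simp [MvPolynomial.finSuccEquiv_apply, presa_e]
    · intro j
      refine Fin.cases ?_ (fun j => ?_) j
      · simp [MvPolynomial.finSuccEquiv_X_zero]
      · simp [MvPolynomial.finSuccEquiv_X_succ, presa_e]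
  exact congrArg (fun f : MvPolynomial (Fin (n + 1)) ℂ →+* M => f P) h

theorem presa_const {n : ℕ} {W : ValuationSubring M} {y : Fin n → M} (hy : ResIndep W y)
    (c : ℂ) : algebraMap ℂ M c ∈ W := by
  rcases eq_or_ne c 0 with rfl | hc
  · rw [map_zero]
    exact W.zero_mem
  · have := (hy (MvPolynomial.C c) (by simpa using hc)).2.1
    simpa using this

theorem presa_y {n : ℕ} {W : ValuationSubring M} {y : Fin n → M} (hy : ResIndep W y)
    (j : Fin n) : y j ∈ W := by
  have := (hy (MvPolynomial.X j) (MvPolynomial.X_ne_zero j)).2.1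
  simpa using this

theorem presa_e_mem {n : ℕ} {W : ValuationSubring M} {y : Fin n → M} (hy : ResIndep W y)
    (b : MvPolynomial (Fin n) ℂ) : presa_e y b ∈ W := by
  rcases eq_or_ne b 0 with rfl | hb
  · rw [map_zero]
    exact W.zero_mem
  · exact (hy b hb).2.1

theorem presa_eval_mem {n : ℕ} {W : ValuationSubring M} {T : M} (hT : IsUnif W T)
    {y : Fin n → M} (hy : ResIndep W y) (F : Polynomial (MvPolynomial (Fin n) ℂ)) :
    Polynomial.eval₂ (presa_e y) T F ∈ W := by
  rw [Polynomial.eval₂_eq_sum_range]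
  exact sum_mem fun i _ => mul_mem (presa_e_mem hy _) (pow_mem hT.2.1 _)

theorem presa_fac {B : Type*} [CommRing B] : ∀ (d : ℕ) (F : Polynomial B), F ≠ 0 →
    F.natDegree ≤ d → ∃ (i : ℕ) (F' : Polynomial B), F = Polynomial.X ^ i * F' ∧
      F'.coeff 0 ≠ 0 := by
  intro d
  induction d with
  | zero =>
    intro F hF hd
    refine ⟨0, F, by simp, fun h0 => hF ?_⟩
    rw [Polynomial.eq_C_of_natDegree_le_zero hd, h0, Polynomial.C_0]
  | succ d ih =>
    intro F hF hd
    by_cases h0 : F.coeff 0 = 0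
    · have h1 := Polynomial.divX_mul_X_add F
      rw [h0, Polynomial.C_0, add_zero] at h1
      have h2 : F.divX ≠ 0 := by
        intro h2
        rw [h2, zero_mul] at h1
        exact hF h1.symm
      obtain ⟨i, F', hF', hc⟩ := ih F.divX h2 (by
        rw [Polynomial.natDegree_divX_eq_natDegree_tsub_one]
        omega)
      refine ⟨i + 1, F', ?_, hc⟩
      rw [← h1, hF', pow_succ]
      ring
    · exact ⟨0, F, by simp, h0⟩

theorem presa_unit {n : ℕ} {W : ValuationSubring M} {T : M} (hT : IsUnif W T)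
    {y : Fin n → M} (hy : ResIndep W y) (F : Polynomial (MvPolynomial (Fin n) ℂ))
    (hF : F.coeff 0 ≠ 0) :
    Polynomial.eval₂ (presa_e y) T F ≠ 0 ∧ (Polynomial.eval₂ (presa_e y) T F)⁻¹ ∈ W := by
  have h1 : Polynomial.eval₂ (presa_e y) T F =
      presa_e y (F.coeff 0) + Polynomial.eval₂ (presa_e y) T F.divX * T := by
    conv_lhs => rw [← Polynomial.divX_mul_X_add F]
    rw [Polynomial.eval₂_add, Polynomial.eval₂_mul, Polynomial.eval₂_X, Polynomial.eval₂_C,
      add_comm]
  obtain ⟨hu0, hu1, hu2⟩ := hy _ hF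
  have hw := presa_eval_mem hT hy F.divX
  set e0 : M := presa_e y (F.coeff 0) with he0
  set w : M := Polynomial.eval₂ (presa_e y) T F.divX with hwd
  have he0' : e0 ≠ 0 := hu0
  have hv1 : W.valuation e0 = 1 := by
    apply le_antisymm
    · exact (W.valuation_le_one_iff _).2 hu1
    · have h2 : W.valuation e0⁻¹ ≤ 1 := (W.valuation_le_one_iff _).2 hu2
      rw [map_inv₀] at h2
      have h3 : W.valuation e0 ≠ 0 := (Valuation.ne_zero_iff _).2 he0'
      exact (inv_le_one₀ (zero_lt_iff.2 h3)).1 h2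
  have hvT : W.valuation T < 1 := by
    by_contra hcon
    push Not at hcon
    apply hT.2.2.1
    rw [← W.valuation_le_one_iff, map_inv₀]
    exact inv_le_one_of_one_le₀ hcon
  have hvw : W.valuation (w * T) < 1 := by
    rw [map_mul, mul_comm]
    exact mul_lt_one_of_lt_of_le hvT ((W.valuation_le_one_iff _).2 hw)
  have hv : W.valuation (Polynomial.eval₂ (presa_e y) T F) = 1 := by
    rw [h1, Valuation.map_add_eq_of_lt_left _ (by rw [hv1]; exact hvw), hv1]
  constructor
  · intro h0
    rw [h0, map_zero] at hv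
    exact zero_ne_one hv
  · rw [← W.valuation_le_one_iff, map_inv₀, hv, inv_one]

/-- Proof. Write `g = P (T, y) / Q (T, y)` with polynomials `P, Q`, `Q (T, y) ≠ 0` (elements of the
adjoined field are fractions, e.g. `IntermediateField.mem_adjoin_range_iff`). A polynomial in
`T, y` which is not divisible by the variable `0` (that of `T`) has a unit value in `W`: its part
of degree zero in this variable is a nonzero polynomial in the other variables, with a unit value
by `hy`, and the rest is `T` times an element of `W` (polynomials in `T, y` have values in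
`W`). Factor the largest powers of the variable `0` out of `P` and `Q` (if `P ≠ 0`):
`P = X_0^i P'`, `Q = X_0^j Q'`; then `g = T^(i-j) * unit`, and `g ∈ W` gives `i ≥ j`. Take
`X_0^(i-j) P'` and `Q'`. -/
theorem frac0 {n : ℕ} {W : ValuationSubring M} {T : M} (hT : IsUnif W T) {y : Fin n → M}
    (hy : ResIndep W y) (g : M)
    (hg : g ∈ IntermediateField.adjoin ℂ (Set.range (Fin.cons T y : Fin (n + 1) → M)))
    (hW : g ∈ W) :
    ∃ P Q : MvPolynomial (Fin (n + 1)) ℂ,
      MvPolynomial.aeval (Fin.cons T y : Fin (n + 1) → M) Q ≠ 0 ∧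
      (MvPolynomial.aeval (Fin.cons T y : Fin (n + 1) → M) Q)⁻¹ ∈ W ∧
      g * MvPolynomial.aeval (Fin.cons T y : Fin (n + 1) → M) Q =
        MvPolynomial.aeval (Fin.cons T y : Fin (n + 1) → M) P := by
  rw [IntermediateField.mem_adjoin_range_iff] at hg
  obtain ⟨P, Q, hPQ⟩ := hg
  by_cases hQ0 : MvPolynomial.aeval (Fin.cons T y : Fin (n + 1) → M) Q = 0
  · rw [hQ0, div_zero] at hPQ
    exact ⟨0, 1, by simp, by simp, by simp [hPQ]⟩
  by_cases hP0 : MvPolynomial.aeval (Fin.cons T y : Fin (n + 1) → M) P = 0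
  · rw [hP0, zero_div] at hPQ
    exact ⟨0, 1, by simp, by simp, by simp [hPQ]⟩
  rw [presa_eval] at hPQ hP0 hQ0
  rw [presa_eval] at hPQ
  set E := MvPolynomial.finSuccEquiv ℂ n with hE
  have hPne : E P ≠ 0 := by
    intro h
    rw [h, Polynomial.eval₂_zero] at hP0
    exact hP0 rfl
  have hQne : E Q ≠ 0 := by
    intro h
    rw [h, Polynomial.eval₂_zero] at hQ0
    exact hQ0 rfl
  obtain ⟨i, P', hP', hPc⟩ := presa_fac _ (E P) hPne le_rfl
  obtain ⟨j, Q', hQ', hQc⟩ := presa_fac _ (E Q) hQne le_rfl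
  obtain ⟨hp1, hp2⟩ := presa_unit hT hy P' hPc
  obtain ⟨hq1, hq2⟩ := presa_unit hT hy Q' hQc
  have hqm := presa_eval_mem hT hy Q'
  have hT0 : T ≠ 0 := hT.1
  rw [hP', hQ', Polynomial.eval₂_mul, Polynomial.eval₂_mul, Polynomial.eval₂_X_pow,
    Polynomial.eval₂_X_pow] at hPQ
  set p' := Polynomial.eval₂ (presa_e y) T P' with hp'
  set q' := Polynomial.eval₂ (presa_e y) T Q' with hq'
  have hij : j ≤ i := by
    by_contra hlt
    push Not at hlt
    apply hT.2.2.1
    obtain ⟨m, rfl⟩ := Nat.exists_eq_add_of_lt hlt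
    have : T⁻¹ = g * T ^ m * q' * p'⁻¹ := by
      rw [hPQ, pow_add, pow_add]
      field_simp
    rw [this]
    exact mul_mem (mul_mem (mul_mem hW (pow_mem hT.2.1 _)) hqm) hp2
  obtain ⟨m, rfl⟩ := Nat.exists_eq_add_of_le hij
  refine ⟨E.symm (Polynomial.X ^ m * P'), E.symm Q', ?_, ?_, ?_⟩
  · rw [presa_eval, AlgEquiv.apply_symm_apply]
    exact hq1
  · rw [presa_eval, AlgEquiv.apply_symm_apply]
    exact hq2
  · rw [presa_eval, presa_eval, AlgEquiv.apply_symm_apply, AlgEquiv.apply_symm_apply,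
      Polynomial.eval₂_mul, Polynomial.eval₂_X_pow, ← hp', ← hq', hPQ, pow_add]
    field_simp

/-- Proof. By `frac0` `g = P / Q` with `P, Q` polynomial values, `Q` a unit of `W`;
`D g = (D P - g D Q) / Q`, and `D` of a polynomial value is in `W` because `D T`, `D y_j ∈ W`
(`Derivation` of `aeval`, or induction on polynomials). -/
theorem deriv0 {n : ℕ} {W : ValuationSubring M} {T : M} (hT : IsUnif W T) {y : Fin n → M}
    (hy : ResIndep W y) (D : Derivation ℂ M M) (h0 : D T ∈ W) (h1 : ∀ j, D (y j) ∈ W) (g : M)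
    (hg : g ∈ IntermediateField.adjoin ℂ (Set.range (Fin.cons T y : Fin (n + 1) → M)))
    (hW : g ∈ W) : D g ∈ W := by
  obtain ⟨P, Q, hQ0, hQW, hPQ⟩ := frac0 hT hy g hg hW
  set z : Fin (n + 1) → M := Fin.cons T y with hz
  have hzm : ∀ j, z j ∈ W := by
    intro j
    refine Fin.cases ?_ (fun j => ?_) j
    · exact hT.2.1
    · exact presa_y hy j
  have hzD : ∀ j, D (z j) ∈ W := by
    intro j
    refine Fin.cases ?_ (fun j => ?_) j
    · exact h0
    · exact h1 j
  have hmem : ∀ F : MvPolynomial (Fin (n + 1)) ℂ, MvPolynomial.aeval z F ∈ W := by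
    intro F
    rw [hz, presa_eval]
    exact presa_eval_mem hT hy _
  have hD : ∀ F : MvPolynomial (Fin (n + 1)) ℂ, D (MvPolynomial.aeval z F) ∈ W := by
    intro F
    induction F using MvPolynomial.induction_on with
    | C c =>
      rw [MvPolynomial.aeval_C, Derivation.map_algebraMap]
      exact W.zero_mem
    | add p q hp hq =>
      rw [map_add, map_add]
      exact add_mem hp hq
    | mul_X p j hp =>
      rw [map_mul, MvPolynomial.aeval_X, Derivation.leibniz]
      simp only [smul_eq_mul]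
      exact add_mem (mul_mem (hmem _) (hzD j)) (mul_mem (hzm j) hp)
  have h2 := congrArg D hPQ
  rw [Derivation.leibniz] at h2
  simp only [smul_eq_mul] at h2
  have h3 : D g = (D (MvPolynomial.aeval z P) - g * D (MvPolynomial.aeval z Q)) *
      (MvPolynomial.aeval z Q)⁻¹ := by
    rw [eq_mul_inv_iff_mul_eq₀ hQ0, ← h2]
    ring
  rw [h3]
  exact mul_mem (sub_mem (hD P) (mul_mem hW (hD Q))) hQW

end H5ML

end S_PresA

section S_PresB

/-!
# PRESB: a valuation ring is a localization of the integral closure of its trace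
-/

namespace H5ML

/-- `W` is a valuation ring of `M`, `O₀` its trace on the subfield `M₀`, `M` algebraic over `M₀`.
Every element of `W` is `b / s` with `b`, `s` integral over `O₀` and `s` a unit of `W`.

Proof. `h` is a root of a nonzero polynomial over `M₀`; dividing by a coefficient of largest value
we get `a_d h^d + … + a_0 = 0` with `a_i ∈ O₀`, some `a_i = 1`. Let `k` be the largest index such
that `a_k` is a unit of `O₀`, and `c = a_d h^(d-k) + … + a_(k+1) h + a_k`. As
`a_i ∈ 𝔪` for `i > k` and `h ∈ W`, `c` is a unit of `W`. Claim: `c` and `c h` are integral over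
`O₀`. (First proof: an element of `M` which lies in all valuation rings `V` of `M` containing `O₀`
is integral over `O₀`. If `h ∈ V` clear. If `h ∉ V` then `h⁻¹ ∈ V`, and
`c = -(a_(k-1) h⁻¹ + … + a_0 h^(-k)) ∈ V`, `c h = -(a_(k-1) + a_(k-2) h⁻¹ + …) ∈ V`.
Second proof (elementary): by descending induction `c_j = a_d h^(d-j) + … + a_j` and `c_j h` are
integral: `c_d = a_d` and `a_d h` is integral (multiply the equation by `a_d^(d-1)`);
`c_(j) = c_(j+1) h + a_j` is integral, and `c_j h` is integral: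
`c_j` satisfies `c_j h^j + a_(j-1) h^(j-1) + … + a_0 = 0`, an equation of degree
`j` with leading coefficient `c_j` over the ring `O₀[c_j]` (integral over `O₀`), so `c_j h` is
integral over `O₀[c_j]`, hence over `O₀`.) Take `s = c`, `b = c h`. -/
theorem frac_int {M₀ M : Type} [Field M₀] [Field M] [Algebra M₀ M]
    (halg : Algebra.IsAlgebraic M₀ M) (W : ValuationSubring M) (h : M) (hh : h ∈ W) :
    ∃ b s : M, s ≠ 0 ∧ s⁻¹ ∈ W ∧ h * s = b ∧
      (∃ P : Polynomial M₀, P.Monic ∧ (∀ i, algebraMap M₀ M (P.coeff i) ∈ W) ∧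
        Polynomial.aeval b P = 0) ∧
      ∃ P : Polynomial M₀, P.Monic ∧ (∀ i, algebraMap M₀ M (P.coeff i) ∈ W) ∧
        Polynomial.aeval s P = 0 := by
  classical
  obtain ⟨P, hP0, hPh⟩ := halg.isAlgebraic h
  -- normalisation
  obtain ⟨i₀, hi₀, hmax⟩ := Finset.exists_max_image P.support
    (fun i => W.valuation (algebraMap M₀ M (P.coeff i))) (Polynomial.support_nonempty.2 hP0)
  have hc0 : P.coeff i₀ ≠ 0 := Polynomial.mem_support_iff.1 hi₀
  have hv0 : W.valuation (algebraMap M₀ M (P.coeff i₀)) ≠ 0 := by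
    rw [Valuation.ne_zero_iff]
    simpa using hc0
  set d := P.natDegree with hd
  set a : ℕ → M₀ := fun i => (P.coeff i₀)⁻¹ * P.coeff i with ha
  have haW : ∀ i, algebraMap M₀ M (a i) ∈ W := by
    intro i
    rw [← W.valuation_le_one_iff]
    simp only [ha]
    rw [map_mul, map_mul, map_inv₀, map_inv₀]
    by_cases hi : i ∈ P.support
    · rw [inv_mul_le_one₀ (zero_lt_iff.2 hv0)]
      exact hmax i hi
    · rw [Polynomial.notMem_support_iff.1 hi, map_zero, map_zero, mul_zero]
      exact zero_le_one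
  have ha1 : a i₀ = 1 := by
    simp only [ha]
    exact inv_mul_cancel₀ hc0
  have hi₀d : i₀ ≤ d := Polynomial.le_natDegree_of_mem_supp _ hi₀
  have hsum : ∑ i ∈ Finset.range (d + 1), algebraMap M₀ M (a i) * h ^ i = 0 := by
    have h1 : ∑ i ∈ Finset.range (d + 1), algebraMap M₀ M (a i) * h ^ i
        = algebraMap M₀ M (P.coeff i₀)⁻¹ * Polynomial.aeval h P := by
      rw [Polynomial.aeval_eq_sum_range, Finset.mul_sum]
      refine Finset.sum_congr rfl fun i _ => ?_
      simp only [ha]
      rw [map_mul, Algebra.smul_def]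
      ring
    rw [h1, hPh, mul_zero]
  -- the largest unit coefficient
  set S := (Finset.range (d + 1)).filter (fun i => W.valuation (algebraMap M₀ M (a i)) = 1) with hS
  have hSne : S.Nonempty := ⟨i₀, by
    rw [hS, Finset.mem_filter, Finset.mem_range, ha1]
    exact ⟨by omega, by simp⟩⟩
  set k := S.max' hSne with hk
  have hkS : k ∈ S := Finset.max'_mem _ _
  have hkd : k ≤ d := by
    have := (Finset.mem_filter.1 hkS).1
    rw [Finset.mem_range] at this
    omega
  have hk1 : W.valuation (algebraMap M₀ M (a k)) = 1 := (Finset.mem_filter.1 hkS).2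
  have hkgt : ∀ i, k < i → i ≤ d → algebraMap M₀ M (a i) ∈ W.nonunits := by
    intro i hi hid
    rw [W.mem_nonunits_iff]
    refine lt_of_le_of_ne ((W.valuation_le_one_iff _).2 (haW i)) fun h1 => ?_
    have : i ∈ S := by
      rw [hS, Finset.mem_filter, Finset.mem_range]
      exact ⟨by omega, h1⟩
    have := Finset.le_max' S i this
    omega
  set c : M := ∑ l ∈ Finset.range (d - k + 1), algebraMap M₀ M (a (l + k)) * h ^ l with hc
  have hcv : W.valuation c = 1 := by
    rw [hc, Finset.sum_range_succ', zero_add, pow_zero, mul_one]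
    have hrest : (∑ l ∈ Finset.range (d - k), algebraMap M₀ M (a (l + 1 + k)) * h ^ (l + 1))
        ∈ W.nonunits := by
      refine sum_mem fun l hl => ?_
      rw [Finset.mem_range] at hl
      exact nonunit_mul (hkgt _ (by omega) (by omega)) (pow_mem hh _)
    rw [W.mem_nonunits_iff] at hrest
    rw [Valuation.map_add_eq_of_lt_right _ (by rw [hk1]; exact hrest), hk1]
  have hcne : c ≠ 0 := by
    intro h0
    rw [h0, map_zero] at hcv
    exact zero_ne_one hcv
  have hcinv : c⁻¹ ∈ W := by
    rw [← W.valuation_le_one_iff, map_inv₀, hcv, inv_one]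
  have hck : c * h ^ k = -∑ l ∈ Finset.range k, algebraMap M₀ M (a l) * h ^ l := by
    have h1 : c * h ^ k = ∑ l ∈ Finset.range (d - k + 1), algebraMap M₀ M (a (k + l)) * h ^ (k + l) := by
      rw [hc, Finset.sum_mul]
      refine Finset.sum_congr rfl fun l _ => ?_
      rw [add_comm l k, pow_add]
      ring
    have h2 : d + 1 = k + (d - k + 1) := by omega
    rw [h2, Finset.sum_range_add, ← h1] at hsum
    linear_combination hsum
  have hd1 : 1 ≤ d := by
    by_contra hlt
    have hd0 : d = 0 := by omega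
    have hk0 : k = 0 := by omega
    rw [hk0] at hck
    simp at hck
    exact hcne hck
  -- the trace and the module
  let O₀ : ValuationSubring M₀ := W.comap (algebraMap M₀ M)
  let : Algebra O₀ M := ((algebraMap M₀ M).comp (algebraMap O₀ M₀)).toAlgebra
  have : IsScalarTower O₀ M₀ M := IsScalarTower.of_algebraMap_eq (fun _ => rfl)
  let A : ℕ → O₀ := fun i => ⟨a i, haW i⟩
  have hA : ∀ i (x : M), algebraMap M₀ M (a i) * x = A i • x := by
    intro i x
    rw [Algebra.smul_def]
    rfl
  set N : Submodule O₀ M := Submodule.span O₀ ((fun j : ℕ => h ^ j) '' (Set.Iio d)) with hN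
  have hNmem : ∀ j, j < d → h ^ j ∈ N := fun j hj => Submodule.subset_span ⟨j, hj, rfl⟩
  have hNfg : N.FG := Submodule.fg_span ((Set.finite_Iio d).image _)
  have hNne : N ≠ ⊥ := by
    intro h0
    have h1 : h ^ 0 ∈ N := hNmem 0 (by omega)
    rw [h0, Submodule.mem_bot, pow_zero] at h1
    exact one_ne_zero h1
  have hcpow : ∀ i, i ≤ d → (i < d ∨ k ≤ i) → c * h ^ i ∈ N := by
    intro i hid hor
    by_cases hik : i < k
    · have h1 : c * h ^ i = ∑ l ∈ Finset.range (d - k + 1), A (l + k) • h ^ (l + i) := by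
        rw [hc, Finset.sum_mul]
        refine Finset.sum_congr rfl fun l _ => ?_
        rw [← hA, pow_add]
        ring
      rw [h1]
      refine sum_mem fun l hl => ?_
      rw [Finset.mem_range] at hl
      exact N.smul_mem _ (hNmem _ (by omega))
    · push Not at hik
      have h1 : c * h ^ i = -∑ l ∈ Finset.range k, A l • h ^ (l + (i - k)) := by
        have h2 : h ^ i = h ^ k * h ^ (i - k) := by
          rw [← pow_add]
          congr 1
          omega
        rw [h2, ← mul_assoc, hck, neg_mul, Finset.sum_mul]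
        congr 1
        refine Finset.sum_congr rfl fun l _ => ?_
        rw [← hA, pow_add]
        ring
      rw [h1]
      refine N.neg_mem (sum_mem fun l hl => ?_)
      rw [Finset.mem_range] at hl
      exact N.smul_mem _ (hNmem _ (by omega))
  have hint : ∀ x : M, (∀ j, j < d → x * h ^ j ∈ N) → IsIntegral O₀ x := by
    intro x hx
    refine isIntegral_of_smul_mem_submodule N hNne hNfg x ?_
    intro n hn
    rw [smul_eq_mul]
    refine Submodule.span_induction (p := fun n _ => x * n ∈ N) ?_ ?_ ?_ ?_ hn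
    · rintro _ ⟨j, hj, rfl⟩
      exact hx j hj
    · rw [mul_zero]
      exact N.zero_mem
    · intro u v _ _ hu hv
      rw [mul_add]
      exact N.add_mem hu hv
    · intro r u _ hu
      rw [mul_smul_comm]
      exact N.smul_mem _ hu
  have hconv : ∀ x : M, IsIntegral O₀ x → ∃ P : Polynomial M₀, P.Monic ∧
      (∀ i, algebraMap M₀ M (P.coeff i) ∈ W) ∧ Polynomial.aeval x P = 0 := by
    rintro x ⟨Q, hQm, hQx⟩
    refine ⟨Q.map (algebraMap O₀ M₀), hQm.map _, fun i => ?_, ?_⟩
    · rw [Polynomial.coeff_map]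
      exact (Q.coeff i).2
    · rw [Polynomial.aeval_map_algebraMap]
      exact hQx
  refine ⟨h * c, c, hcne, hcinv, rfl, hconv _ (hint _ fun j hj => ?_),
    hconv _ (hint _ fun j hj => hcpow j hj.le (Or.inl hj))⟩
  have h1 : h * c * h ^ j = c * h ^ (j + 1) := by
    rw [pow_succ]
    ring
  rw [h1]
  refine hcpow (j + 1) (by omega) ?_
  by_cases h2 : j + 1 < d
  · exact Or.inl h2
  · right
    omega

end H5ML

end S_PresB

section S_PresC

/-!
# PRESC: derivations are bounded on divisorial valuation rings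
-/

namespace H5ML

/-- Integral elements are combinations of finitely many fixed elements. -/
theorem presc_gen {A K L : Type} [CommRing A] [IsDomain A] [IsIntegrallyClosed A] [Field K]
    [Field L] [Algebra A K] [IsFractionRing A K] [Algebra K L] [Algebra A L]
    [IsScalarTower A K L] [FiniteDimensional K L] [Algebra.IsSeparable K L] :
    ∃ (r : ℕ) (e : Fin r → L), ∀ x : L, IsIntegral A x →
      ∃ g : Fin r → A, x = ∑ i, algebraMap A L (g i) * e i := by
  classical
  obtain ⟨s, b, hb⟩ := FiniteDimensional.exists_is_basis_integral A K L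
  let b' := (Algebra.traceForm K L).dualBasis (traceForm_nondegenerate K L) b
  have hle := integralClosure_le_span_dualBasis (A := A) b hb
  let φ := Fintype.equivFin s
  refine ⟨Fintype.card s, fun i => b' (φ.symm i), fun x hx => ?_⟩
  have h1 : x ∈ Submodule.span A (Set.range b') := hle (show x ∈ integralClosure A L from hx)
  rw [Submodule.mem_span_range_iff_exists_fun] at h1
  obtain ⟨c, hc⟩ := h1
  refine ⟨fun i => c (φ.symm i), ?_⟩
  rw [← hc]
  rw [← Equiv.sum_comp φ.symm (fun j => c j • b' j)]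
  refine Finset.sum_congr rfl fun i _ => ?_
  rw [Algebra.smul_def]

variable {M : Type} [Field M]

theorem presc_mono {W : ValuationSubring M} {T : M} (hT : IsUnif W T) {h : M} {c d : ℕ}
    (hc : T ^ c * h ∈ W) (hcd : c ≤ d) : T ^ d * h ∈ W := by
  obtain ⟨k, rfl⟩ := Nat.exists_eq_add_of_le hcd
  have : T ^ (c + k) * h = T ^ k * (T ^ c * h) := by ring
  rw [this]
  exact W.mul_mem _ _ (pow_mem hT.2.1 k) hc

theorem presc_one {W : ValuationSubring M} {T : M} (hT : IsUnif W T) (h : M) :
    ∃ c : ℕ, T ^ c * h ∈ W := by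
  by_cases h0 : h = 0
  · exact ⟨0, by rw [h0, mul_zero]; exact W.zero_mem⟩
  · obtain ⟨n, hn⟩ := exists_ordEq hT h0
    refine ⟨n.natAbs, ?_⟩
    have h1 := (ordEq_zpow hT (n.natAbs : ℤ)).mul hn hT
    rw [zpow_natCast] at h1
    rw [h1.mem_iff hT]
    omega

theorem presc_fin {W : ValuationSubring M} {T : M} (hT : IsUnif W T) {r : ℕ} (e : Fin r → M) :
    ∃ c : ℕ, ∀ i, T ^ c * e i ∈ W := by
  choose c hc using fun i => presc_one hT (e i)
  refine ⟨∑ i, c i, fun i => presc_mono hT (hc i) ?_⟩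
  exact Finset.single_le_sum (f := c) (fun j _ => Nat.zero_le _) (Finset.mem_univ i)

variable [Algebra ℂ M]

/-- Boundedness of a derivation on a divisorial valuation ring.

Proof. Let `M₀ = ℂ(T, y)` (`IntermediateField.adjoin`), `M / M₀` is finite by `tb_indep`, `tb_fin`.
Let `O₀` be the trace of `W` on `M₀` (comap). By `frac0` it is a discrete valuation ring with
uniformizer `T` (every element of `M₀` is a power of `T` times a unit: apply `frac0` to
`g * T^m`), so `O₀` is Noetherian and integrally closed. By `deriv0` `D g ∈ W` for `g ∈ O₀`.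
Let `B` be the integral closure of `O₀` in `M`; it is a finite `O₀`-module
(`IsIntegralClosure.finite`: `M / M₀` finite separable), generated by `b_1, …, b_r`; `B ⊆ W`
because `W` is integrally closed. Take `c` with `T ^ c * D b_i ∈ W` for all `i`; then
`T ^ c * D b ∈ W` for `b ∈ B` (`b = ∑ g_i b_i`, `D b = ∑ g_i D b_i + b_i D g_i`). Every
`h ∈ W` is `b / s` with `b, s ∈ B`, `s` a unit of `W` (`frac_int`), and
`D h = (s D b - b D s) / s ^ 2`, so `T ^ c * D h ∈ W`. -/
theorem bounded {n : ℕ} (hM : Algebra.EssFiniteType ℂ M) (htr : Algebra.trdeg ℂ M = (n + 1 : ℕ))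
    {W : ValuationSubring M} {T : M} (hT : IsUnif W T) {y : Fin n → M} (hy : ResIndep W y)
    (D : Derivation ℂ M M) (h0 : D T ∈ W) (h1 : ∀ j, D (y j) ∈ W) :
    ∃ c : ℕ, ∀ h ∈ W, T ^ c * D h ∈ W := by
  obtain ⟨halg, hfin⟩ := tb_fin hM htr (Fin.cons T y : Fin (n + 1) → M) (tb_indep hT hy)
  set M₀ := IntermediateField.adjoin ℂ (Set.range (Fin.cons T y : Fin (n + 1) → M)) with hM₀
  let O₀ : ValuationSubring M₀ := W.comap (algebraMap M₀ M)
  letI : Algebra O₀ M := ((algebraMap M₀ M).comp (algebraMap O₀ M₀)).toAlgebra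
  haveI : IsScalarTower O₀ M₀ M := IsScalarTower.of_algebraMap_eq (fun _ => rfl)
  haveI : CharZero M₀ := inferInstance
  haveI : Algebra.IsSeparable M₀ M := inferInstance
  haveI : IsIntegrallyClosed O₀ := inferInstance
  haveI : IsFractionRing O₀ M₀ := inferInstance
  obtain ⟨r, e, he⟩ := presc_gen (A := O₀) (K := M₀) (L := M)
  obtain ⟨c₁, hc₁⟩ := presc_fin hT e
  obtain ⟨c₂, hc₂⟩ := presc_fin hT (fun i => D (e i))
  have hg : ∀ g : O₀, algebraMap O₀ M g ∈ W ∧ D (algebraMap O₀ M g) ∈ W := by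
    intro g
    have a1 : algebraMap O₀ M g ∈ W := g.2
    refine ⟨a1, deriv0 hT hy D h0 h1 _ ?_ a1⟩
    exact (g : M₀).2
  have hint : ∀ x : M, IsIntegral O₀ x → T ^ (c₁ + c₂) * D x ∈ W := by
    intro x hx
    obtain ⟨g, hgx⟩ := he x hx
    have hd : T ^ (c₁ + c₂) * D x = ∑ i, (algebraMap O₀ M (g i) * (T ^ (c₁ + c₂) * D (e i))
        + (T ^ (c₁ + c₂) * e i) * D (algebraMap O₀ M (g i))) := by
      rw [hgx, map_sum, Finset.mul_sum]
      refine Finset.sum_congr rfl fun i _ => ?_
      rw [D.leibniz, smul_eq_mul, smul_eq_mul]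
      ring
    rw [hd]
    refine sum_mem fun i _ => ?_
    apply W.add_mem
    · exact W.mul_mem _ _ (hg (g i)).1 (presc_mono hT (hc₂ i) (Nat.le_add_left _ _))
    · exact W.mul_mem _ _ (presc_mono hT (hc₁ i) (Nat.le_add_right _ _)) (hg (g i)).2
  have hconv : ∀ x : M, (∃ P : Polynomial M₀, P.Monic ∧
      (∀ i, algebraMap M₀ M (P.coeff i) ∈ W) ∧ Polynomial.aeval x P = 0) → IsIntegral O₀ x := by
    rintro x ⟨P, hPm, hPc, hPx⟩
    have hl : P ∈ Polynomial.lifts (algebraMap O₀ M₀) := by
      rw [Polynomial.lifts_iff_coeff_lifts]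
      intro i
      exact ⟨⟨P.coeff i, hPc i⟩, rfl⟩
    obtain ⟨Q, hQ, _, hQm⟩ := Polynomial.lifts_and_natDegree_eq_and_monic hl hPm
    refine ⟨Q, hQm, ?_⟩
    rw [← hQ, Polynomial.aeval_map_algebraMap] at hPx
    exact hPx
  refine ⟨c₁ + c₂, fun h hh => ?_⟩
  obtain ⟨b, s, hs, hsW, hb, hP, hQ⟩ := frac_int halg W h hh
  have hDb := hint b (hconv b hP)
  have hDs := hint s (hconv s hQ)
  have hD : D b = h * D s + s * D h := by
    rw [← hb, D.leibniz, smul_eq_mul, smul_eq_mul]
  have hfinal : T ^ (c₁ + c₂) * D h = (T ^ (c₁ + c₂) * D b - h * (T ^ (c₁ + c₂) * D s)) * s⁻¹ := by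
    rw [hD]
    field_simp
    ring
  rw [hfinal]
  exact W.mul_mem _ _ (sub_mem hDb (W.mul_mem _ _ hh hDs)) hsW

end H5ML

end S_PresC

section S_Pres

/-!
# PRES: derivations which are regular on a parameter system preserve the valuation ring
-/

namespace H5ML

variable {M : Type} [Field M] [Algebra ℂ M]

theorem pres_eval {n : ℕ} (h : M) (y : Fin n → M) (P : MvPolynomial (Fin (n + 1)) ℂ) :
    MvPolynomial.aeval (Fin.cons h y : Fin (n + 1) → M) P =
      Polynomial.eval₂ ((MvPolynomial.aeval y : MvPolynomial (Fin n) ℂ →ₐ[ℂ] M) :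
        MvPolynomial (Fin n) ℂ →+* M) h (MvPolynomial.finSuccEquiv ℂ n P) := by
  induction P using MvPolynomial.induction_on with
  | C a =>
    rw [MvPolynomial.finSuccEquiv_apply]
    simp
  | add p q hp hq => rw [map_add, map_add, Polynomial.eval₂_add, hp, hq]
  | mul_X p i hp =>
    rw [map_mul, map_mul, Polynomial.eval₂_mul, hp]
    congr 1
    refine Fin.cases ?_ (fun j => ?_) i
    · rw [MvPolynomial.finSuccEquiv_X_zero]
      simp
    · rw [MvPolynomial.finSuccEquiv_X_succ]
      simp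

omit [Algebra ℂ M] in
theorem pres_eval_mem {R : Type} [CommRing R] {W : ValuationSubring M} (φ : R →+* M)
    (hφ : ∀ r, φ r ∈ W) (t : M) (ht : t ∈ W) (q : Polynomial R) : Polynomial.eval₂ φ t q ∈ W := by
  rw [Polynomial.eval₂_eq_sum_range]
  exact sum_mem fun i _ => W.mul_mem _ _ (hφ _) (pow_mem ht _)

omit [Algebra ℂ M] in
theorem pres_lowest {R : Type} [CommRing R] {W : ValuationSubring M} (φ : R →+* M)
    (hφ : ∀ r, φ r ∈ W) (t : M) (ht : t ∈ W) (ht0 : t ≠ 0) (k : ℕ) :
    ∀ q : Polynomial R, q.natDegree ≤ k → q ≠ 0 → Polynomial.eval₂ φ t q = 0 →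
      ∃ c : R, c ≠ 0 ∧ t⁻¹ * φ c ∈ W := by
  induction k with
  | zero =>
    intro q hq hq0 he
    have h1 : q = Polynomial.C (q.coeff 0) :=
      Polynomial.eq_C_of_natDegree_le_zero hq
    refine ⟨q.coeff 0, ?_, ?_⟩
    · intro h
      rw [h, map_zero] at h1
      exact hq0 h1
    · rw [h1, Polynomial.eval₂_C] at he
      rw [he, mul_zero]
      exact W.zero_mem
  | succ k ih =>
    intro q hq hq0 he
    have h1 := Polynomial.divX_mul_X_add q
    have h2 : Polynomial.eval₂ φ t (q.divX) * t + φ (q.coeff 0) = 0 := by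
      rw [← he]
      conv_rhs => rw [← h1]
      rw [Polynomial.eval₂_add, Polynomial.eval₂_mul_X, Polynomial.eval₂_C]
    by_cases hc : q.coeff 0 = 0
    · rw [hc, map_zero, add_zero] at h2
      have h3 : Polynomial.eval₂ φ t q.divX = 0 := by
        rcases mul_eq_zero.1 h2 with h | h
        · exact h
        · exact absurd h ht0
      refine ih q.divX ?_ ?_ h3
      · rw [Polynomial.natDegree_divX_eq_natDegree_tsub_one]
        omega
      · intro h
        rw [h, hc, zero_mul, map_zero, add_zero] at h1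
        exact hq0 h1.symm
    · refine ⟨q.coeff 0, hc, ?_⟩
      have h3 : φ (q.coeff 0) = -(Polynomial.eval₂ φ t q.divX * t) := by
        linear_combination h2
      have h4 : t⁻¹ * φ (q.coeff 0) = -Polynomial.eval₂ φ t q.divX := by
        rw [h3]
        field_simp
      rw [h4]
      exact W.neg_mem _ (pres_eval_mem φ hφ t ht _)

theorem pres_resmem {n : ℕ} {W : ValuationSubring M} {y : Fin n → M} (hy : ResIndep W y)
    (P : MvPolynomial (Fin n) ℂ) : MvPolynomial.aeval y P ∈ W := by
  rcases eq_or_ne P 0 with rfl | h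
  · rw [map_zero]; exact W.zero_mem
  · exact (hy P h).2.1

omit [Algebra ℂ M] in
/-- an element of `W` which is not in `T W` is a unit. -/
theorem pres_unit {W : ValuationSubring M} {T : M} (hT : IsUnif W T) {x : M} (hx : x ∈ W)
    (hx' : T⁻¹ * x ∉ W) : x⁻¹ ∈ W := by
  have hx0 : x ≠ 0 := by
    rintro rfl
    rw [mul_zero] at hx'
    exact hx' W.zero_mem
  obtain ⟨m, hm⟩ := exists_ordEq hT hx0
  have h1 := (hm.mem_iff hT).1 hx
  have h2 : ¬ (1 ≤ m) := by
    intro h3
    apply hx'
    have := (hm.mul_mem_iff hT 1).2 h3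
    rwa [zpow_neg_one, mul_comm] at this
  have h3 : m = 0 := by omega
  subst h3
  exact (ordEq_zero_iff.1 hm).2.2

omit [Algebra ℂ M] in
theorem pres_mem_add {W : ValuationSubring M} {T a b : M} (ha : T⁻¹ * a ∈ W) (hb : T⁻¹ * b ∈ W) :
    T⁻¹ * (a + b) ∈ W := by
  rw [mul_add]; exact W.add_mem _ _ ha hb

omit [Algebra ℂ M] in
theorem pres_mem_sub {W : ValuationSubring M} {T a b : M} (ha : T⁻¹ * a ∈ W) (hb : T⁻¹ * b ∈ W) :
    T⁻¹ * (a - b) ∈ W := by
  rw [mul_sub, sub_eq_add_neg]; exact W.add_mem _ _ ha (W.neg_mem _ hb)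

omit [Algebra ℂ M] in
theorem pres_mem_mul {W : ValuationSubring M} {T a b : M} (ha : T⁻¹ * a ∈ W) (hb : b ∈ W) :
    T⁻¹ * (a * b) ∈ W := by
  rw [← mul_assoc]; exact W.mul_mem _ _ ha hb

/-- one step of the induction on `c`. -/
theorem pres_step {n : ℕ} (htr : Algebra.trdeg ℂ M = (n + 1 : ℕ))
    {W : ValuationSubring M} {T : M} (hT : IsUnif W T) {y : Fin n → M} (hy : ResIndep W y)
    (D : Derivation ℂ M M) (h0 : T⁻¹ * D T ∈ W) (h1 : ∀ j, T⁻¹ * D (y j) ∈ W)
    (hD : ∀ h ∈ W, D h ∈ W) (h : M) (hh : h ∈ W) : T⁻¹ * D h ∈ W := by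
  classical
  set φ : MvPolynomial (Fin n) ℂ →+* M :=
    ((MvPolynomial.aeval y : MvPolynomial (Fin n) ℂ →ₐ[ℂ] M) : MvPolynomial (Fin n) ℂ →+* M)
    with hφdef
  have hφ : ∀ r, φ r ∈ W := fun r => pres_resmem hy r
  have hDφ : ∀ r, T⁻¹ * D (φ r) ∈ W := by
    intro r
    induction r using MvPolynomial.induction_on with
    | C a =>
      have : φ (MvPolynomial.C a) = algebraMap ℂ M a := by simp [hφdef]
      rw [this, D.map_algebraMap, mul_zero]
      exact W.zero_mem
    | add p q hp hq =>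
      rw [map_add, map_add]
      exact pres_mem_add hp hq
    | mul_X p i hp =>
      have : φ (MvPolynomial.X i) = y i := by simp [hφdef]
      rw [map_mul, this, D.leibniz, smul_eq_mul, smul_eq_mul]
      refine pres_mem_add ?_ ?_
      · rw [mul_comm (φ p)]
        exact pres_mem_mul (h1 i) (hφ p)
      · rw [mul_comm (y i)]
        refine pres_mem_mul hp ?_
        rw [← this]
        exact hφ _
  -- the derivation modulo `T W`
  have hmod : ∀ q : Polynomial (MvPolynomial (Fin n) ℂ),
      T⁻¹ * (D (Polynomial.eval₂ φ h q) - Polynomial.eval₂ φ h (Polynomial.derivative q) * D h)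
        ∈ W := by
    intro q
    induction q using Polynomial.induction_on' with
    | add p q hp hq =>
      have : D (Polynomial.eval₂ φ h (p + q)) -
          Polynomial.eval₂ φ h (Polynomial.derivative (p + q)) * D h
          = (D (Polynomial.eval₂ φ h p) - Polynomial.eval₂ φ h (Polynomial.derivative p) * D h) +
            (D (Polynomial.eval₂ φ h q) -
              Polynomial.eval₂ φ h (Polynomial.derivative q) * D h) := by
        rw [Polynomial.eval₂_add, map_add, map_add, Polynomial.eval₂_add]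
        ring
      rw [this]
      exact pres_mem_add hp hq
    | monomial k a =>
      have : D (Polynomial.eval₂ φ h (Polynomial.monomial k a)) -
          Polynomial.eval₂ φ h (Polynomial.derivative (Polynomial.monomial k a)) * D h
          = D (φ a) * h ^ k := by
        rw [Polynomial.derivative_monomial, Polynomial.eval₂_monomial, Polynomial.eval₂_monomial,
          D.leibniz, D.leibniz_pow, smul_eq_mul, smul_eq_mul, map_mul, map_natCast]
        simp only [nsmul_eq_mul, smul_eq_mul]
        ring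
      rw [this]
      exact pres_mem_mul (hDφ a) (pow_mem hh k)
  -- a relation
  have hex : ∃ k, ∃ q : Polynomial (MvPolynomial (Fin n) ℂ), q ≠ 0 ∧ q.natDegree = k ∧
      T⁻¹ * Polynomial.eval₂ φ h q ∈ W := by
    have hdep : ¬ AlgebraicIndependent ℂ
        (Fin.cons T (Fin.cons h y : Fin (n + 1) → M) : Fin (n + 2) → M) := by
      intro hi
      have hcard := hi.lift_cardinalMk_le_trdeg
      rw [htr] at hcard
      simp only [Cardinal.mk_fin, Cardinal.lift_natCast, Nat.cast_le] at hcard
      omega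
    rw [algebraicIndependent_iff] at hdep
    push Not at hdep
    obtain ⟨Q, hQ, hQ0⟩ := hdep
    rw [pres_eval] at hQ
    have hQ1 : MvPolynomial.finSuccEquiv ℂ (n + 1) Q ≠ 0 := by
      rw [Ne, EmbeddingLike.map_eq_zero_iff]
      exact hQ0
    have hψ : ∀ r : MvPolynomial (Fin (n + 1)) ℂ,
        ((MvPolynomial.aeval (Fin.cons h y : Fin (n + 1) → M) :
          MvPolynomial (Fin (n + 1)) ℂ →ₐ[ℂ] M) : MvPolynomial (Fin (n + 1)) ℂ →+* M) r ∈ W := by
      intro r
      change MvPolynomial.aeval (Fin.cons h y : Fin (n + 1) → M) r ∈ W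
      rw [pres_eval]
      exact pres_eval_mem φ hφ h hh _
    obtain ⟨c, hc0, hc⟩ := pres_lowest _ hψ T hT.2.1 hT.1 _ _ le_rfl hQ1 hQ
    refine ⟨_, MvPolynomial.finSuccEquiv ℂ n c, ?_, rfl, ?_⟩
    · rw [Ne, EmbeddingLike.map_eq_zero_iff]
      exact hc0
    · have hc' : T⁻¹ * MvPolynomial.aeval (Fin.cons h y : Fin (n + 1) → M) c ∈ W := hc
      rwa [pres_eval] at hc'
  obtain ⟨q, hq0, hqd, hq⟩ := Nat.find_spec hex
  have hmin := fun m hm => Nat.find_min hex (m := m) hm
  -- positive degree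
  have hpos : 0 < q.natDegree := by
    by_contra hc
    have hq1 : q = Polynomial.C (q.coeff 0) :=
      Polynomial.eq_C_of_natDegree_le_zero (by omega)
    have hq2 : q.coeff 0 ≠ 0 := by
      intro h
      rw [h, map_zero] at hq1
      exact hq0 hq1
    rw [hq1, Polynomial.eval₂_C] at hq
    obtain ⟨a1, a2, a3⟩ := hy _ hq2
    have hne : φ (q.coeff 0) ≠ 0 := a1
    have hinv : (φ (q.coeff 0))⁻¹ ∈ W := a3
    apply hT.2.2.1
    have := W.mul_mem _ _ hq hinv
    rwa [mul_assoc, mul_inv_cancel₀ hne, mul_one] at this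
  have hder0 : Polynomial.derivative q ≠ 0 := by
    intro h
    have := Polynomial.derivative_eq_zero.1 h
    omega
  have hderdeg : (Polynomial.derivative q).natDegree < q.natDegree :=
    Polynomial.natDegree_derivative_lt hpos.ne'
  have hder : T⁻¹ * Polynomial.eval₂ φ h (Polynomial.derivative q) ∉ W := by
    intro hc
    exact hmin _ (by rw [← hqd]; exact hderdeg) ⟨_, hder0, rfl, hc⟩
  have hderW := pres_eval_mem φ hφ h hh (Polynomial.derivative q)
  have hderU := pres_unit hT hderW hder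
  have hdne : Polynomial.eval₂ φ h (Polynomial.derivative q) ≠ 0 := by
    intro h
    rw [h, mul_zero] at hder
    exact hder W.zero_mem
  -- `D (q (h)) ∈ T W`
  have hDq : T⁻¹ * D (Polynomial.eval₂ φ h q) ∈ W := by
    set w := T⁻¹ * Polynomial.eval₂ φ h q with hw
    have hqw : Polynomial.eval₂ φ h q = T * w := by
      rw [hw, ← mul_assoc, mul_inv_cancel₀ hT.1, one_mul]
    rw [hqw, D.leibniz, smul_eq_mul, smul_eq_mul]
    refine pres_mem_add ?_ ?_
    · rw [← mul_assoc, inv_mul_cancel₀ hT.1, one_mul]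
      exact hD _ hq
    · rw [mul_comm w]
      exact pres_mem_mul h0 hq
  have h5 := pres_mem_sub hDq (hmod q)
  rw [sub_sub_cancel] at h5
  have h6 := W.mul_mem _ _ h5 hderU
  have h7 : T⁻¹ * (Polynomial.eval₂ φ h (Polynomial.derivative q) * D h) *
      (Polynomial.eval₂ φ h (Polynomial.derivative q))⁻¹ = T⁻¹ * D h := by
    field_simp
  rwa [h7] at h6

/-- Proof. Let `c` be minimal with the property of `bounded`. Suppose `c ≥ 1`. Then
`D' = T ^ c • D` maps `W` to `W`, and `D' T ∈ 𝔪`, `D' y_j ∈ 𝔪` (`𝔪 = T W`), so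
`D' (𝔪) ⊆ 𝔪`. Claim: `D' h ∈ 𝔪` for all `h ∈ W`; then `T ^ (c - 1) * D h ∈ W`, contradicting the
minimality. Proof of the claim: for `P` a polynomial over `ℂ`, `D' (P (y)) ∈ 𝔪`. The element `h`
is algebraic over `ℂ(T, y)` (`tb_indep`, `tb_fin`), hence there is a nonzero polynomial `Q` in
`X, T, y` with `Q (h, T, y) = 0`; dividing by a power of `T` we may assume that `Q` is not
divisible by the variable `T`, so its constant term `q (X, y)` with respect to `T` is a nonzero
polynomial and `q (h, y) ∈ 𝔪` (`Q (h, T, y) = q (h, y) + T (…)`, `(…) ∈ W`). (So the residue of `h`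
is algebraic over `ℂ(ȳ)`.) Choose a nonzero polynomial `q (X, y)` with `q (h, y) ∈ 𝔪` of minimal
degree in `X`. The degree is positive by `hy` (a polynomial of degree zero in `X` is a unit at
`y`). Then `D' (q (h, y)) ∈ 𝔪` and it is congruent modulo `𝔪` to
`(∂q/∂X) (h, y) * D' h`, where `(∂q/∂X)` is nonzero of smaller degree, so `(∂q/∂X) (h, y) ∉ 𝔪` is a
unit. Hence `D' h ∈ 𝔪`. -/
theorem pres {n : ℕ} (hM : Algebra.EssFiniteType ℂ M) (htr : Algebra.trdeg ℂ M = (n + 1 : ℕ))
    {W : ValuationSubring M} {T : M} (hT : IsUnif W T) {y : Fin n → M} (hy : ResIndep W y)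
    (D : Derivation ℂ M M) (h0 : D T ∈ W) (h1 : ∀ j, D (y j) ∈ W) :
    ∀ h ∈ W, D h ∈ W := by
  classical
  obtain ⟨c, hc⟩ := bounded hM htr hT hy D h0 h1
  induction c with
  | zero => simpa using hc
  | succ c ih =>
    apply ih
    intro h hh
    have key : ∀ x : M, T⁻¹ * (T ^ (c + 1) * x) = T ^ c * x := by
      intro x
      rw [pow_succ', ← mul_assoc, ← mul_assoc, inv_mul_cancel₀ hT.1, one_mul]
    have := pres_step htr hT hy (T ^ (c + 1) • D) (by
      rw [Derivation.smul_apply, smul_eq_mul, key]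
      exact W.mul_mem _ _ (pow_mem hT.2.1 c) h0) (by
      intro j
      rw [Derivation.smul_apply, smul_eq_mul, key]
      exact W.mul_mem _ _ (pow_mem hT.2.1 c) (h1 j)) (by
      intro g hg
      rw [Derivation.smul_apply, smul_eq_mul]
      exact hc g hg) h hh
    rwa [Derivation.smul_apply, smul_eq_mul, key] at this

end H5ML

end S_Pres

section S_Frame

/-!
# Frames
-/

namespace H5ML

variable {M : Type} [Field M] [Algebra ℂ M]

theorem exists_frame {n : ℕ} (hM : Algebra.EssFiniteType ℂ M)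
    (htr : Algebra.trdeg ℂ M = (n + 1 : ℕ)) {W : ValuationSubring M} {T : M} (hT : IsUnif W T)
    {y : Fin n → M} (hy : ResIndep W y) :
    ∃ D : Fin (n + 1) → Derivation ℂ M M, (∀ i, ∀ h ∈ W, D i h ∈ W) ∧
      ∀ i j, D i ((Fin.cons T y : Fin (n + 1) → M) j) = if i = j then 1 else 0 := by
  have hz := tb_indep hT hy
  have halg := (tb_fin hM htr _ hz).1
  obtain ⟨D, hD⟩ := exists_dual _ hz halg
  refine ⟨D, fun i => ?_, hD⟩
  have hmem : ∀ i j, D i ((Fin.cons T y : Fin (n + 1) → M) j) ∈ W := by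
    intro i j
    rw [hD]
    split_ifs
    · exact W.one_mem
    · exact W.zero_mem
  refine pres hM htr hT hy (D i) ?_ ?_
  · simpa using hmem i 0
  · intro j
    simpa using hmem i j.succ

/-- Chain rule. -/
theorem jac_mul {N : ℕ} (z : Fin N → M) (hz : AlgebraicIndependent ℂ z)
    (halg : Algebra.IsAlgebraic (IntermediateField.adjoin ℂ (Set.range z)) M)
    (D' : Fin N → Derivation ℂ M M) (hD' : ∀ i j, D' i (z j) = if i = j then 1 else 0)
    (D : Fin N → Derivation ℂ M M) (ζ : Fin N → M) : jac D ζ = jac D z * jac D' ζ := by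
  have h1 : (Matrix.of fun j i => D i (ζ j)) =
      (Matrix.of fun j i => D' i (ζ j)) * (Matrix.of fun j i => D i (z j)) := by
    ext j i
    rw [Matrix.mul_apply, Matrix.of_apply, deriv_expand z hz halg D' hD' (D i) (ζ j)]
    refine Finset.sum_congr rfl fun k _ => ?_
    rw [Matrix.of_apply, Matrix.of_apply, mul_comm]
  unfold jac
  rw [h1, Matrix.det_mul, mul_comm]

theorem jac_dual {N : ℕ} (z : Fin N → M) (D : Fin N → Derivation ℂ M M)
    (hD : ∀ i j, D i (z j) = if i = j then 1 else 0) : jac D z = 1 := by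
  unfold jac
  have : (Matrix.of fun j i => D i (z j)) = 1 := by
    ext j i
    rw [Matrix.of_apply, hD, Matrix.one_apply]
    simp [eq_comm]
  rw [this, Matrix.det_one]

omit [Algebra ℂ M] in
theorem det_mem {W : ValuationSubring M} {N : ℕ} (A : Matrix (Fin N) (Fin N) M)
    (hA : ∀ i j, A i j ∈ W) : A.det ∈ W := by
  rw [Matrix.det_apply]
  refine sum_mem fun σ _ => ?_
  rcases Int.units_eq_one_or (Equiv.Perm.sign σ) with h | h
  · rw [h, one_smul]
    exact prod_mem fun i _ => hA _ _
  · rw [h, Units.neg_smul, one_smul]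
    exact neg_mem (prod_mem fun i _ => hA _ _)

theorem ResIndep.mem {W : ValuationSubring M} {n : ℕ} {y : Fin n → M} (hy : ResIndep W y)
    (j : Fin n) : y j ∈ W := by
  have := (hy (MvPolynomial.X j) (MvPolynomial.X_ne_zero j)).2.1
  simpa using this

theorem ResIndep.const_mem {W : ValuationSubring M} {n : ℕ} {y : Fin n → M} (hy : ResIndep W y)
    (c : ℂ) : algebraMap ℂ M c ∈ W := by
  rcases eq_or_ne c 0 with rfl | hc
  · rw [map_zero]
    exact W.zero_mem
  · have := (hy (MvPolynomial.C c) (by simpa using hc)).2.1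
    simpa using this

/-- Two frames of `W` have Jacobians which differ by a unit. -/
theorem frame_cmp {n : ℕ} (hM : Algebra.EssFiniteType ℂ M)
    (htr : Algebra.trdeg ℂ M = (n + 1 : ℕ)) {W : ValuationSubring M} {T T' : M}
    {D D' : Fin (n + 1) → Derivation ℂ M M} (h : IsFrame W T D) (h' : IsFrame W T' D')
    (ζ : Fin (n + 1) → M) :
    ∃ ε : M, ε ≠ 0 ∧ ε ∈ W ∧ ε⁻¹ ∈ W ∧ jac D ζ = ε * jac D' ζ := by
  obtain ⟨hT, hDW, y, hy, hD⟩ := h
  obtain ⟨hT', hDW', y', hy', hD'⟩ := h'
  have hz := tb_indep hT hy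
  have hz' := tb_indep hT' hy'
  have halg := (tb_fin hM htr _ hz).1
  have halg' := (tb_fin hM htr _ hz').1
  have hmem : ∀ j, (Fin.cons T y : Fin (n + 1) → M) j ∈ W := by
    intro j
    refine Fin.cases ?_ (fun j => ?_) j
    · simpa using hT.2.1
    · simpa using hy.mem j
  have hmem' : ∀ j, (Fin.cons T' y' : Fin (n + 1) → M) j ∈ W := by
    intro j
    refine Fin.cases ?_ (fun j => ?_) j
    · simpa using hT'.2.1
    · simpa using hy'.mem j
  have e1 : jac D (Fin.cons T' y') * jac D' (Fin.cons T y) = 1 := by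
    rw [← jac_mul _ hz' halg' D' hD' D (Fin.cons T y), jac_dual _ _ hD]
  have m1 : jac D (Fin.cons T' y') ∈ W := det_mem _ fun j i => hDW i _ (hmem' j)
  have m2 : jac D' (Fin.cons T y) ∈ W := det_mem _ fun j i => hDW' i _ (hmem j)
  refine ⟨jac D (Fin.cons T' y'), left_ne_zero_of_mul_eq_one e1, m1, ?_,
    jac_mul _ hz' halg' D' hD' D ζ⟩
  rw [eq_inv_of_mul_eq_one_left e1, inv_inv]
  exact m2

end H5ML

end S_Frame
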