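import Mathlib
import Pool.Agent.H5.MD.P3

section S_Lb

/-!
# LB: the logarithmic form estimate
-/

namespace H5ML

variable {M : Type} [Field M] [Algebra ℂ M]

/-- The logarithmic Jacobian matrix. -/
noncomputable def lbN {n : ℕ} (T : M) (D : Fin (n + 1) → Derivation ℂ M M)
    (ζ : Fin (n + 1) → M) : Matrix (Fin (n + 1)) (Fin (n + 1)) M :=
  Matrix.of fun j i => (if i = 0 then T else 1) * ((ζ j)⁻¹ * D i (ζ j))

theorem lb_det {n : ℕ} (T : M) (D : Fin (n + 1) → Derivation ℂ M M) (ζ : Fin (n + 1) → M) :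
    (lbN T D ζ).det = T * ((∏ j, (ζ j)⁻¹) * jac D ζ) := by
  unfold lbN jac
  have h1 := Matrix.det_mul_row (fun i : Fin (n + 1) => if i = 0 then T else 1)
    (Matrix.of fun j i => (ζ j)⁻¹ * D i (ζ j))
  have h2 := Matrix.det_mul_column (fun j : Fin (n + 1) => (ζ j)⁻¹)
    (Matrix.of fun j i => D i (ζ j))
  have h3 : ∏ i : Fin (n + 1), (if i = 0 then T else 1) = T := by
    rw [Finset.prod_ite_eq']
    simp
  rw [h3] at h1
  simp only [Matrix.of_apply] at h1 h2
  rw [h1, h2]

theorem lb_entry {n : ℕ} {W : ValuationSubring M} {T : M} {D : Fin (n + 1) → Derivation ℂ M M}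
    (hD : IsFrame W T D) (ζ : Fin (n + 1) → M) (a : Fin (n + 1) → ℤ)
    (ha : ∀ j, OrdEq W T (ζ j) (a j)) (j i : Fin (n + 1)) :
    lbN T D ζ j i = (if i = 0 then (a j : M) else 0) +
      (if i = 0 then T else 1) * ((ζ j * T ^ (-a j))⁻¹ * D i (ζ j * T ^ (-a j))) := by
  obtain ⟨hT, hDW, y, hy, hDy⟩ := hD
  have hDT : D i T = if i = 0 then 1 else 0 := by simpa using hDy i 0
  have hζ := (ha j).1
  have hTz : T ^ (-a j) ≠ 0 := zpow_ne_zero _ hT.1
  rw [lbN, Matrix.of_apply, Derivation.leibniz, Derivation.leibniz_zpow, hDT]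
  have h1 : T ^ (-a j) = T ^ (-a j - 1) * T := by
    rw [← zpow_add_one₀ hT.1]
    congr 1
    ring
  split_ifs with hi
  · simp only [smul_eq_mul, zsmul_eq_mul, mul_one, mul_inv]
    have h2 : T ^ (-a j - 1) ≠ 0 := zpow_ne_zero _ hT.1
    rw [h1]
    field_simp [hT.1]
    push_cast
    ring
  · simp only [smul_eq_mul, zsmul_eq_mul, mul_zero, mul_inv, zero_add, one_mul]
    field_simp

theorem lb_mem {n : ℕ} {W : ValuationSubring M} {T : M} {D : Fin (n + 1) → Derivation ℂ M M}
    (hD : IsFrame W T D) (ζ : Fin (n + 1) → M) (a : Fin (n + 1) → ℤ)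
    (ha : ∀ j, OrdEq W T (ζ j) (a j)) (j i : Fin (n + 1)) : lbN T D ζ j i ∈ W := by
  rw [lb_entry hD ζ a ha]
  refine W.add_mem _ _ ?_ (W.mul_mem _ _ ?_ (W.mul_mem _ _ (ha j).2.2 (hD.2.1 i _ (ha j).2.1)))
  · split_ifs
    · exact intCast_mem W _
    · exact W.zero_mem
  · split_ifs
    · exact hD.1.2.1
    · exact W.one_mem

theorem lb {n : ℕ} {W : ValuationSubring M} {T : M} {D : Fin (n + 1) → Derivation ℂ M M}
    (hD : IsFrame W T D) (ζ : Fin (n + 1) → M) (a : Fin (n + 1) → ℤ)
    (ha : ∀ j, OrdEq W T (ζ j) (a j)) : jac D ζ * T ^ (1 - ∑ j, a j) ∈ W := by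
  have hT := hD.1
  have h1 : (lbN T D ζ).det ∈ W := det_mem _ fun j i => lb_mem hD ζ a ha j i
  have h2 : OrdEq W T (∏ j, ζ j) (∑ j, a j) := OrdEq.prod hT _ _ _ fun j _ => ha j
  have h3 : jac D ζ * T ^ (1 - ∑ j, a j) =
      (lbN T D ζ).det * ((∏ j, ζ j) * T ^ (-∑ j, a j)) := by
    rw [lb_det, Finset.prod_inv_distrib, sub_eq_add_neg, zpow_add₀ hT.1, zpow_one]
    have h4 : (∏ j, ζ j) ≠ 0 := h2.1
    field_simp
  rw [h3]
  exact W.mul_mem _ _ h1 h2.2.1

end H5ML

end S_Lb

section S_Eqc

/-!
# EQC: the case of equality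
-/

namespace H5ML

variable {M : Type} [Field M] [Algebra ℂ M]

/-- Chain rule for a derivation and a polynomial. -/
theorem eqc_chain {n : ℕ} (D : Derivation ℂ M M) (η : Fin n → M) (P : MvPolynomial (Fin n) ℂ) :
    D (MvPolynomial.aeval η P) = ∑ j, MvPolynomial.aeval η (MvPolynomial.pderiv j P) * D (η j) := by
  induction P using MvPolynomial.induction_on with
  | C c =>
    simp only [MvPolynomial.algHom_C, MvPolynomial.pderiv_C, map_zero, zero_mul,
      Finset.sum_const_zero]
    exact D.map_algebraMap c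
  | add p q hp hq =>
    simp only [map_add, hp, hq, add_mul, Finset.sum_add_distrib]
  | mul_X p i hp =>
    have h1 : ∀ j, MvPolynomial.aeval η (MvPolynomial.pderiv j (p * MvPolynomial.X i)) * D (η j)
        = η i * (MvPolynomial.aeval η (MvPolynomial.pderiv j p) * D (η j))
          + (if j = i then MvPolynomial.aeval η p * D (η i) else 0) := by
      intro j
      rw [MvPolynomial.pderiv_mul, map_add, map_mul, map_mul, MvPolynomial.aeval_X]
      by_cases h : j = i
      · subst h
        rw [MvPolynomial.pderiv_X_self, map_one, if_pos rfl]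
        ring
      · rw [MvPolynomial.pderiv_X_of_ne (fun h' => h h'.symm), map_zero, if_neg h]
        ring
    simp_rw [h1]
    rw [Finset.sum_add_distrib, ← Finset.mul_sum, ← hp, Finset.sum_ite_eq' Finset.univ i,
      if_pos (Finset.mem_univ i), map_mul, MvPolynomial.aeval_X, D.leibniz, smul_eq_mul, smul_eq_mul]
    ring

theorem eqc_deg {n : ℕ} (P : MvPolynomial (Fin n) ℂ) (i : Fin n)
    (h : MvPolynomial.pderiv i P ≠ 0) :
    (MvPolynomial.pderiv i P).totalDegree < P.totalDegree := by
  have key : ∀ m ∈ (MvPolynomial.pderiv i P).support, (m.sum fun _ e => e) < P.totalDegree := by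
    intro m hm
    rw [MvPolynomial.mem_support_iff, MvPolynomial.coeff_pderiv] at hm
    have h1 : m + Finsupp.single i 1 ∈ P.support := by
      rw [MvPolynomial.mem_support_iff]
      exact left_ne_zero_of_mul hm
    have h2 := MvPolynomial.le_totalDegree h1
    rw [Finsupp.sum_add_index' (fun _ => rfl) (fun _ _ _ => rfl), Finsupp.sum_single_index rfl] at h2
    omega
  obtain ⟨m, hm⟩ := MvPolynomial.support_nonempty.2 h
  unfold MvPolynomial.totalDegree
  rw [Finset.sup_lt_iff]
  · exact key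
  · have := key m hm
    exact lt_of_le_of_lt (Nat.zero_le _) this

theorem eqc_const {n : ℕ} (P : MvPolynomial (Fin n) ℂ)
    (h : ∀ i, MvPolynomial.pderiv i P = 0) : P = MvPolynomial.C (MvPolynomial.coeff 0 P) := by
  ext m
  rw [MvPolynomial.coeff_C]
  by_cases hm : m = 0
  · subst hm
    simp
  · rw [if_neg (fun h' => hm h'.symm)]
    obtain ⟨i, hi⟩ : ∃ i, m i ≠ 0 := by
      by_contra hc
      push Not at hc
      exact hm (Finsupp.ext hc)
    have h1 : (m - Finsupp.single i 1) + Finsupp.single i 1 = m := by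
      apply tsub_add_cancel_of_le
      rw [Finsupp.single_le_iff]
      omega
    have h2 := MvPolynomial.coeff_pderiv (i := i) P (m - Finsupp.single i 1)
    rw [h i, h1, MvPolynomial.coeff_zero] at h2
    rcases mul_eq_zero.1 h2.symm with h3 | h3
    · exact h3
    · exfalso
      norm_cast at h3

omit [Algebra ℂ M] in
theorem eqc_unit_of_not {W : ValuationSubring M} {x : M} (hx : x ∈ W) (h : x ∉ W.nonunits) :
    x ≠ 0 ∧ x ∈ W ∧ x⁻¹ ∈ W := by
  rw [W.mem_nonunits_iff_or] at h
  push Not at h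
  exact ⟨h.1, hx, h.2⟩

theorem eqc_aeval_mem {n : ℕ} {W : ValuationSubring M} (hC : ∀ c : ℂ, algebraMap ℂ M c ∈ W)
    (η : Fin n → M) (hη : ∀ j, η j ∈ W) (P : MvPolynomial (Fin n) ℂ) :
    MvPolynomial.aeval η P ∈ W := by
  induction P using MvPolynomial.induction_on with
  | C c =>
    rw [MvPolynomial.algHom_C]
    exact hC c
  | add p q hp hq =>
    rw [map_add]
    exact W.add_mem _ _ hp hq
  | mul_X p i hp =>
    rw [map_mul, MvPolynomial.aeval_X]
    exact W.mul_mem _ _ hp (hη i)

/-- Proof. By the computation in `lb` (which gives `jac D ζ * T ^ (1 - ∑ a j) = unit * det N`) the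
determinant of `N` is a unit of `W`. Here `ζ 0 = T`, `a 0 = 1`, `ε 0 = 1`, so the row `j = 0` of
`N` is `(1, 0, …, 0)` and `det N = det N'`, `N' j i = D (i + 1) (ε (j + 1)) / ε (j + 1)` for
`i, j : Fin n`. Suppose `ResIndep` fails for `η j = ζ (j + 1) * T ^ (- a (j + 1)) = ε (j + 1)`
(units of `W`): the values `P (η)` lie in `W` (constants are in `W`), so there is `P ≠ 0` with
`P (η)` a nonunit (zero or with inverse not in `W`, i.e. `P (η) ∈ W.nonunits`). Choose such a `P`
of minimal total degree. For `i ≥ 1` the derivation `D i` maps `W.nonunits = T W` to itself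
(`D i (T h) = T D i h`), so `D i (P (η)) = ∑_j (∂_j P) (η) * D i (η j) ∈ W.nonunits`. Since the
matrix `(D i (η j))` has a unit determinant (it is `N'` with rows multiplied by the units `η j`),
multiplying by its adjugate gives `(∂_j P) (η) ∈ W.nonunits` for all `j`; by minimality
`∂_j P = 0` for all `j`, so `P` is a constant (characteristic zero), nonzero, and its value is a
unit: contradiction. -/
theorem eqc {n : ℕ} {W : ValuationSubring M} {T : M} {D : Fin (n + 1) → Derivation ℂ M M}
    (hD : IsFrame W T D) (ζ : Fin (n + 1) → M) (h0 : ζ 0 = T) (a : Fin (n + 1) → ℤ)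
    (ha : ∀ j, OrdEq W T (ζ j) (a j)) (hJ : OrdEq W T (jac D ζ) (∑ j, a j - 1)) :
    ResIndep W fun j : Fin n => ζ j.succ * T ^ (-a j.succ) := by
  obtain ⟨hT, hDW, y, hy, hdual⟩ := hD
  have hC := hy.const_mem
  set η : Fin n → M := fun j => ζ j.succ * T ^ (-a j.succ) with hη
  have hT0 : T ≠ 0 := hT.1
  have ha0 : a 0 = 1 := by
    have := ha 0
    rw [h0] at this
    exact this.unique (ordEq_self hT) hT
  have hDT : ∀ i : Fin n, D i.succ T = 0 := by
    intro i
    have := hdual i.succ 0
    rwa [Fin.cons_zero, if_neg (Fin.succ_ne_zero i)] at this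
  have hD0T : ∀ i : Fin (n + 1), D i T = if i = 0 then 1 else 0 := by
    intro i
    have := hdual i 0
    rwa [Fin.cons_zero] at this
  have hηW : ∀ j, η j ∈ W := fun j => (ha j.succ).2.1
  have hDz : ∀ (i : Fin n) (k : ℤ), D i.succ (T ^ k) = 0 := by
    intro i k
    rw [Derivation.leibniz_zpow, hDT i]
    simp
  have hζη : ∀ j : Fin n, ζ j.succ = T ^ (a j.succ) * η j := by
    intro j
    simp only [hη]
    rw [mul_comm (ζ j.succ), ← mul_assoc, ← zpow_add₀ hT0]
    simp
  -- the matrix
  set B : Matrix (Fin n) (Fin n) M := Matrix.of fun j i => D i.succ (η j) with hB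
  have hdet : jac D ζ = (∏ j : Fin n, T ^ (a j.succ)) * B.det := by
    unfold jac
    rw [Matrix.det_succ_row_zero, Fin.sum_univ_succ]
    have hz : ∀ i : Fin n, (Matrix.of fun j i => D i (ζ j)) 0 i.succ = 0 := by
      intro i
      rw [Matrix.of_apply, h0, hDT]
    have ho : (Matrix.of fun j i => D i (ζ j)) 0 0 = (1 : M) := by
      rw [Matrix.of_apply, h0, hD0T, if_pos rfl]
    simp_rw [hz, ho]
    simp only [mul_zero, zero_mul, Finset.sum_const_zero, add_zero, Fin.val_zero, pow_zero, one_mul]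
    have hsub : (Matrix.of fun j i => D i (ζ j)).submatrix Fin.succ (Fin.succAbove 0)
        = Matrix.of fun j i => (T ^ (a (Fin.succ j))) * B j i := by
      ext j i
      rw [Matrix.submatrix_apply, Matrix.of_apply, Matrix.of_apply, hB, Matrix.of_apply,
        Fin.succAbove_zero, hζη j, (D i.succ).leibniz, hDz, smul_zero, add_zero, smul_eq_mul]
    rw [hsub, Matrix.det_mul_column]
  have hBord : OrdEq W T B.det 0 := by
    have h1 : OrdEq W T (∏ j : Fin n, T ^ (a j.succ)) (∑ j : Fin n, a j.succ) :=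
      OrdEq.prod hT _ _ _ fun j _ => ordEq_zpow hT _
    have h2 : B.det = (∏ j : Fin n, T ^ (a j.succ))⁻¹ * jac D ζ := by
      rw [hdet, ← mul_assoc, inv_mul_cancel₀ h1.1, one_mul]
    rw [h2]
    have h3 := h1.inv.mul hJ hT
    have h4 : -(∑ j : Fin n, a j.succ) + (∑ j, a j - 1) = 0 := by
      rw [Fin.sum_univ_succ, ha0]
      ring
    rwa [h4] at h3
  obtain ⟨hB0, hBW, hBW'⟩ := ordEq_zero_iff.1 hBord
  have hBent : ∀ j i, B j i ∈ W := fun j i => hDW _ _ (hηW j)
  -- nonunits are stable under the `D i`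
  have hTn : T ∈ W.nonunits := by
    rw [W.mem_nonunits_iff_or]
    exact Or.inr hT.2.2.1
  have hDn : ∀ (i : Fin n) (x : M), x ∈ W.nonunits → D i.succ x ∈ W.nonunits := by
    intro i x hx
    rcases eq_or_ne x 0 with rfl | hx0
    · rw [map_zero]
      exact W.nonunits.zero_mem
    · obtain ⟨k, hk⟩ := exists_ordEq hT hx0
      have hk1 := (hk.nonunit_iff hT).1 hx
      have h1 : T⁻¹ * x ∈ W := by
        have := (ordEq_self hT).inv.mul hk hT
        rw [this.mem_iff hT]
        omega
      have h2 : x = T * (T⁻¹ * x) := by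
        rw [← mul_assoc, mul_inv_cancel₀ hT0, one_mul]
      rw [h2, (D i.succ).leibniz, hDT, smul_zero, add_zero, smul_eq_mul]
      exact nonunit_mul hTn (hDW _ _ h1)
  -- induction on the degree
  have key : ∀ d : ℕ, ∀ P : MvPolynomial (Fin n) ℂ, P.totalDegree = d → P ≠ 0 →
      MvPolynomial.aeval η P ∉ W.nonunits := by
    intro d
    induction d using Nat.strong_induction_on with
    | _ d ih =>
      intro P hPd hP hv
      -- `w j = (∂_j P)(η)`
      set w : Fin n → M := fun j => MvPolynomial.aeval η (MvPolynomial.pderiv j P) with hw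
      have hwB : ∀ i : Fin n, Matrix.vecMul w B i ∈ W.nonunits := by
        intro i
        have h1 := hDn i _ hv
        rw [eqc_chain] at h1
        exact h1
      have hadj : ∀ j i, B.adjugate j i ∈ W := by
        intro j i
        rw [Matrix.adjugate_apply]
        refine det_mem _ fun k l => ?_
        rw [Matrix.updateRow_apply]
        split_ifs
        · rw [Pi.single_apply]
          split_ifs
          · exact W.one_mem
          · exact W.zero_mem
        · exact hBent k l
      have hwn : ∀ j, w j ∈ W.nonunits := by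
        intro j
        have h1 : Matrix.vecMul (Matrix.vecMul w B) B.adjugate = B.det • w := by
          rw [Matrix.vecMul_vecMul, Matrix.mul_adjugate, Matrix.vecMul_smul, Matrix.vecMul_one]
        have h2 : B.det * w j ∈ W.nonunits := by
          have h3 := congrFun h1 j
          rw [Pi.smul_apply, smul_eq_mul] at h3
          rw [← h3]
          have h5 : Matrix.vecMul (Matrix.vecMul w B) B.adjugate j
              = ∑ i, Matrix.vecMul w B i * B.adjugate i j := rfl
          rw [h5]
          exact sum_mem fun i _ => nonunit_mul (hwB i) (hadj i j)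
        have h4 : w j = (B.det * w j) * B.det⁻¹ := by
          field_simp
        rw [h4]
        exact nonunit_mul h2 hBW'
      have hp0 : ∀ j, MvPolynomial.pderiv j P = 0 := by
        intro j
        by_contra hne
        have hlt := eqc_deg P j hne
        rw [hPd] at hlt
        exact ih _ hlt _ rfl hne (hwn j)
      have hPc := eqc_const P hp0
      have hc0 : MvPolynomial.coeff 0 P ≠ 0 := by
        intro h
        rw [h, map_zero] at hPc
        exact hP hPc
      rw [hPc, MvPolynomial.algHom_C, W.mem_nonunits_iff_or] at hv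
      rcases hv with hv | hv
      · exact hc0 (by simpa using hv)
      · apply hv
        have : (algebraMap ℂ M (MvPolynomial.coeff 0 P))⁻¹
            = algebraMap ℂ M (MvPolynomial.coeff 0 P)⁻¹ := (map_inv₀ _ _).symm
        rw [this]
        exact hC _
  intro P hP
  exact eqc_unit_of_not (eqc_aeval_mem hC η hηW P) (key _ P rfl hP)

end H5ML

end S_Eqc

section S_Jex

/-!
# JEX: the Jacobian of monomial coordinates
-/

namespace H5ML

variable {M : Type} [Field M] [Algebra ℂ M]

omit [Algebra ℂ M] in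
/-- A matrix whose first row is `(1, 0, …, 0)`. -/
theorem jex_det {n : ℕ} (A : Matrix (Fin (n + 1)) (Fin (n + 1)) M) (h0 : A 0 0 = 1)
    (h1 : ∀ i : Fin n, A 0 i.succ = 0) :
    A.det = Matrix.det (Matrix.of fun j i : Fin n => A j.succ i.succ) := by
  rw [Matrix.det_succ_row_zero, Fin.sum_univ_succ]
  simp only [Fin.val_zero, pow_zero, one_mul, h0, h1, mul_zero, zero_mul, Finset.sum_const_zero,
    add_zero]
  congr 1

theorem jex_zpow {D : Derivation ℂ M M} {T : M} (hD : D T = 0) (k : ℤ) :
    D (T ^ k) = 0 := by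
  obtain ⟨j, rfl | rfl⟩ := Int.eq_nat_or_neg k
  · rw [zpow_natCast, D.leibniz_pow, hD]
    simp
  · rw [zpow_neg, zpow_natCast, D.leibniz_inv, D.leibniz_pow, hD]
    simp

/-- Exact value for a frame built from the coordinates themselves. -/
theorem jac_exact {n : ℕ} {T : M} {y : Fin n → M} (hT : T ≠ 0)
    {D : Fin (n + 1) → Derivation ℂ M M}
    (hD : ∀ i j, D i ((Fin.cons T y : Fin (n + 1) → M) j) = if i = j then 1 else 0)
    (a : Fin n → ℤ) (ζ : Fin (n + 1) → M) (h0 : ζ 0 = T)
    (h1 : ∀ j, ζ j.succ = T ^ a j * y j) : jac D ζ = T ^ (∑ j, a j) := by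
  have hDT0 : D 0 T = 1 := by simpa using hD 0 0
  have hDT : ∀ i : Fin n, D i.succ T = 0 := fun i => by
    simpa using hD i.succ 0
  have hDy : ∀ i j : Fin n, D i.succ (y j) = if i = j then 1 else 0 := fun i j => by
    simpa using hD i.succ j.succ
  unfold jac
  rw [jex_det _ (by rw [Matrix.of_apply, h0, hDT0]) (fun i => by rw [Matrix.of_apply, h0, hDT])]
  have h2 : (Matrix.of fun j i : Fin n => (Matrix.of fun j i => D i (ζ j)) j.succ i.succ) =
      Matrix.diagonal fun j => T ^ a j := by
    ext j i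
    rw [Matrix.of_apply, Matrix.of_apply, h1, Derivation.leibniz, jex_zpow (hDT i), hDy,
      Matrix.diagonal_apply]
    rcases eq_or_ne i j with rfl | hij
    · simp
    · simp [hij, hij.symm]
  rw [h2, Matrix.det_diagonal]
  induction n with
  | zero => simp
  | succ n _ =>
    classical
    have : ∀ s : Finset (Fin (n + 1)), ∏ i ∈ s, T ^ a i = T ^ (∑ i ∈ s, a i) := by
      intro s
      induction s using Finset.induction_on with
      | empty => simp
      | insert i s hi ih => rw [Finset.prod_insert hi, Finset.sum_insert hi, ih, zpow_add₀ hT]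
    exact this _

end H5ML

end S_Jex

section S_Rin

/-!
# RIN: residually independent elements of a subfield
-/

namespace H5ML

variable {K F : Type} [Field K] [Field F] [Algebra ℂ K] [Algebra ℂ F] [Algebra K F]
    [IsScalarTower ℂ K F]

/-- In an algebraic extension `B` of `A` algebraically independent families have the same size. -/
theorem rin_field {k A B : Type} [Field k] [Field A] [Field B] [Algebra k A] [Algebra A B]
    [Algebra k B] [IsScalarTower k A B] (halg : Algebra.IsAlgebraic A B) {n : ℕ} (x : Fin n → B)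
    (hx : AlgebraicIndependent k x) : ∃ y : Fin n → A, AlgebraicIndependent k y := by
  have h1 : (n : Cardinal) ≤ Algebra.trdeg k B := by
    simpa using hx.cardinalMk_le_trdeg
  have h2 : Algebra.trdeg k A = Algebra.trdeg k B := by
    have h3 := trdeg_add_eq k A (A := B)
    rw [trdeg_eq_zero (R := A) (A := B), add_zero] at h3
    exact h3
  obtain ⟨s, hs⟩ := exists_isTranscendenceBasis k A
  have h4 : Cardinal.mk s = Algebra.trdeg k A := hs.cardinalMk_eq_trdeg
  have h5 : Cardinal.mk (Fin n) ≤ Cardinal.mk s := by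
    rw [h4, h2, Cardinal.mk_fin]
    exact h1
  obtain ⟨e⟩ := Cardinal.le_def _ _ |>.1 h5
  exact ⟨fun i => ((e i : s) : A), hs.1.comp e e.injective⟩

/-- Constants as a ring homomorphism to the valuation ring. -/
noncomputable def rin_const (W : ValuationSubring F) (hc : ∀ c : ℂ, algebraMap ℂ F c ∈ W) :
    ℂ →+* W :=
  (algebraMap ℂ F).codRestrict W hc

theorem rin_const_coe (W : ValuationSubring F) (hc : ∀ c : ℂ, algebraMap ℂ F c ∈ W) (c : ℂ) :
    ((rin_const W hc c : W) : F) = algebraMap ℂ F c := rfl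

omit [Algebra ℂ F] in
/-- Units of a valuation ring. -/
theorem rin_unit {W : ValuationSubring F} (w : W) :
    IsLocalRing.residue W w ≠ 0 ↔ (w : F) ≠ 0 ∧ (w : F)⁻¹ ∈ W := by
  rw [IsLocalRing.residue_ne_zero_iff_isUnit]
  constructor
  · intro h
    obtain ⟨v, hv⟩ := h.exists_right_inv
    have hv' : (w : F) * (v : F) = 1 := congrArg Subtype.val hv
    refine ⟨left_ne_zero_of_mul_eq_one hv', ?_⟩
    rw [inv_eq_of_mul_eq_one_right hv']
    exact v.2
  · rintro ⟨h0, h1⟩
    refine IsUnit.of_mul_eq_one ⟨(w : F)⁻¹, h1⟩ ?_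
    ext
    exact mul_inv_cancel₀ h0

/-- Evaluation of polynomials at elements of the valuation ring. -/
theorem rin_eval {W : ValuationSubring F} (hc : ∀ c : ℂ, algebraMap ℂ F c ∈ W) {n : ℕ}
    (ε : Fin n → W) (P : MvPolynomial (Fin n) ℂ) :
    ((MvPolynomial.eval₂Hom (rin_const W hc) ε P : W) : F) =
      MvPolynomial.aeval (fun i => (ε i : F)) P := by
  have h := MvPolynomial.comp_eval₂Hom (rin_const W hc) ε (algebraMap W F)
  have h2 := congrArg (fun g : MvPolynomial (Fin n) ℂ →+* F => g P) h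
  exact h2

/-- Residual independence is algebraic independence of the residues. -/
theorem rin_iff {W : ValuationSubring F} (hc : ∀ c : ℂ, algebraMap ℂ F c ∈ W) {n : ℕ}
    (ε : Fin n → W) :
    ResIndep W (fun i => (ε i : F)) ↔
      ∀ P : MvPolynomial (Fin n) ℂ, P ≠ 0 →
        MvPolynomial.eval₂Hom ((IsLocalRing.residue W).comp (rin_const W hc))
          (fun i => IsLocalRing.residue W (ε i)) P ≠ 0 := by
  have key : ∀ P : MvPolynomial (Fin n) ℂ,
      MvPolynomial.eval₂Hom ((IsLocalRing.residue W).comp (rin_const W hc))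
        (fun i => IsLocalRing.residue W (ε i)) P =
      IsLocalRing.residue W (MvPolynomial.eval₂Hom (rin_const W hc) ε P) := by
    intro P
    have h := MvPolynomial.comp_eval₂Hom (rin_const W hc) ε (IsLocalRing.residue W)
    exact (congrArg (fun g : MvPolynomial (Fin n) ℂ →+* _ => g P) h).symm
  constructor
  · intro h P hP
    rw [key, rin_unit, rin_eval]
    exact ⟨(h P hP).1, (h P hP).2.2⟩
  · intro h P hP
    have h1 := h P hP
    rw [key, rin_unit, rin_eval] at h1
    refine ⟨h1.1, ?_, h1.2⟩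
    rw [← rin_eval hc]
    exact Subtype.property _

/-- The inclusion of the valuation rings. -/
noncomputable def rin_incl {O : ValuationSubring K} {W : ValuationSubring F}
    (hc : ∀ x : K, algebraMap K F x ∈ W ↔ x ∈ O) : O →+* W :=
  ((algebraMap K F).comp O.subtype).codRestrict W fun x => (hc x).2 x.2

omit [Algebra ℂ K] [Algebra ℂ F] [IsScalarTower ℂ K F] in
theorem rin_incl_coe {O : ValuationSubring K} {W : ValuationSubring F}
    (hc : ∀ x : K, algebraMap K F x ∈ W ↔ x ∈ O) (x : O) :
    ((rin_incl hc x : W) : F) = algebraMap K F x := rfl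

omit [Algebra ℂ K] [Algebra ℂ F] [IsScalarTower ℂ K F] in
theorem rin_local {O : ValuationSubring K} {W : ValuationSubring F}
    (hc : ∀ x : K, algebraMap K F x ∈ W ↔ x ∈ O) : IsLocalHom (rin_incl hc) := by
  constructor
  intro a ha
  rw [← IsLocalRing.residue_ne_zero_iff_isUnit, rin_unit] at ha ⊢
  rw [rin_incl_coe] at ha
  refine ⟨fun h => ha.1 (by rw [h, map_zero]), ?_⟩
  rw [← hc, map_inv₀]
  exact ha.2

/-- The residue field extension is algebraic. -/
theorem rin_alg {O : ValuationSubring K} {W : ValuationSubring F}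
    (hc : ∀ x : K, algebraMap K F x ∈ W ↔ x ∈ O) (halg : Algebra.IsAlgebraic K F) (w : W) :
    ∃ q : Polynomial (IsLocalRing.ResidueField O), q ≠ 0 ∧
      letI := rin_local hc
      Polynomial.eval₂ (IsLocalRing.ResidueField.map (rin_incl hc))
        (IsLocalRing.residue W w) q = 0 := by
  obtain ⟨p, hp, hpw⟩ := halg.isAlgebraic (w : F)
  obtain ⟨i, hi, hmax⟩ := Finset.exists_max_image p.support (fun i => O.valuation (p.coeff i))
    (Polynomial.support_nonempty.2 hp)
  have hi0 : p.coeff i ≠ 0 := Polynomial.mem_support_iff.1 hi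
  set p' : Polynomial K := Polynomial.C (p.coeff i)⁻¹ * p with hp'
  have hco : ∀ j, p'.coeff j ∈ O := by
    intro j
    rw [hp', Polynomial.coeff_C_mul]
    by_cases hj : j ∈ p.support
    · rw [← O.valuation_le_one_iff, map_mul, map_inv₀]
      have h1 := hmax j hj
      have h0 : O.valuation (p.coeff i) ≠ 0 := by simpa using hi0
      calc (O.valuation (p.coeff i))⁻¹ * O.valuation (p.coeff j)
          ≤ (O.valuation (p.coeff i))⁻¹ * O.valuation (p.coeff i) := by gcongr
        _ = 1 := inv_mul_cancel₀ h0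
    · rw [Polynomial.notMem_support_iff.1 hj, mul_zero]
      exact O.zero_mem
  have hlift : p' ∈ Polynomial.lifts (O.subtype : O →+* K) := by
    rw [Polynomial.lifts_iff_coeff_lifts]
    intro j
    exact ⟨⟨_, hco j⟩, rfl⟩
  obtain ⟨q, hq⟩ := (Polynomial.mem_lifts _).1 hlift
  have hqi : q.coeff i = 1 := by
    apply Subtype.ext
    have h1 : (O.subtype : O →+* K) (q.coeff i) = p'.coeff i := by
      rw [← hq, Polynomial.coeff_map]
    have h2 : p'.coeff i = 1 := by
      rw [hp', Polynomial.coeff_C_mul]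
      exact inv_mul_cancel₀ hi0
    exact h1.trans h2
  refine ⟨q.map (IsLocalRing.residue O), ?_, ?_⟩
  · intro h0
    have h1 := congrArg (fun g => Polynomial.coeff g i) h0
    simp only [Polynomial.coeff_map, hqi, map_one, Polynomial.coeff_zero] at h1
    exact one_ne_zero h1
  · letI := rin_local hc
    have h1 : Polynomial.eval₂ (rin_incl hc) w q = 0 := by
      apply Subtype.ext
      have h2 : ((Polynomial.eval₂ (rin_incl hc) w q : W) : F) =
          Polynomial.eval₂ ((algebraMap K F).comp O.subtype) (w : F) q := by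
        exact Polynomial.hom_eval₂ q (rin_incl hc) (algebraMap W F) w
      rw [h2, ← Polynomial.eval₂_map, hq, hp', Polynomial.eval₂_mul]
      have h3 : Polynomial.eval₂ (algebraMap K F) (w : F) p = 0 := hpw
      rw [h3, mul_zero]
      rfl
    change Polynomial.eval₂ (IsLocalRing.ResidueField.map (rin_incl hc))
        (IsLocalRing.residue W w) (q.map (IsLocalRing.residue O)) = 0
    rw [Polynomial.eval₂_map]
    have h4 : (IsLocalRing.ResidueField.map (rin_incl hc)).comp (IsLocalRing.residue O) =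
        (IsLocalRing.residue W).comp (rin_incl hc) := by
      ext x
      rfl
    rw [h4, ← Polynomial.hom_eval₂, h1, map_zero]

/-- Proof. `ℂ ⊆ O` (constants are in `W` by `ResIndep.const_mem` and `hc`), so the residue
fields `κ(O)`, `κ(W)` are `ℂ`-algebras. `κ(W) / κ(O)` is algebraic: let `h ∈ W`; it is algebraic
over `K`, so there is a nonzero polynomial over `K` vanishing at `h`; divide by a coefficient of
largest valuation: the coefficients are now in `O` and one of them is `1`, so the reduction is a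
nonzero polynomial over `κ(O)` which vanishes at the residue of `h`. The residues of the `ε i` are
algebraically independent, so `trdeg_ℂ κ(W) ≥ n`, hence `trdeg_ℂ κ(O) ≥ n`
(`Algebra.IsAlgebraic` transitivity: a transcendence basis of `κ(O)` is one of `κ(W)`), and there
are `n` algebraically independent elements of `κ(O)`; lift them to `O`. -/
theorem rindep {n : ℕ} {O : ValuationSubring K} {W : ValuationSubring F}
    (hc : ∀ x : K, algebraMap K F x ∈ W ↔ x ∈ O) (halg : Algebra.IsAlgebraic K F)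
    (ε : Fin n → F) (hε : ResIndep W ε) : ∃ y : Fin n → K, ResIndep O y := by
  have cW : ∀ c : ℂ, algebraMap ℂ F c ∈ W := hε.const_mem
  have cO : ∀ c : ℂ, algebraMap ℂ K c ∈ O := by
    intro c
    rw [← hc, ← IsScalarTower.algebraMap_apply ℂ K F]
    exact cW c
  letI := rin_local hc
  letI iO : Algebra ℂ (IsLocalRing.ResidueField O) :=
    ((IsLocalRing.residue O).comp (rin_const O cO)).toAlgebra
  letI iW : Algebra ℂ (IsLocalRing.ResidueField W) :=
    ((IsLocalRing.residue W).comp (rin_const W cW)).toAlgebra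
  letI iOW : Algebra (IsLocalRing.ResidueField O) (IsLocalRing.ResidueField W) :=
    (IsLocalRing.ResidueField.map (rin_incl hc)).toAlgebra
  haveI : IsScalarTower ℂ (IsLocalRing.ResidueField O) (IsLocalRing.ResidueField W) := by
    refine IsScalarTower.of_algebraMap_eq' ?_
    ext c
    change IsLocalRing.residue W (rin_const W cW c) =
      IsLocalRing.ResidueField.map (rin_incl hc) (IsLocalRing.residue O (rin_const O cO c))
    have : rin_const W cW c = rin_incl hc (rin_const O cO c) := by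
      apply Subtype.ext
      rw [rin_const_coe, rin_incl_coe, rin_const_coe, ← IsScalarTower.algebraMap_apply ℂ K F]
    rw [this]
    rfl
  have halg' : Algebra.IsAlgebraic (IsLocalRing.ResidueField O) (IsLocalRing.ResidueField W) := by
    constructor
    intro x
    obtain ⟨w, rfl⟩ := IsLocalRing.residue_surjective x
    obtain ⟨q, hq, hq0⟩ := rin_alg hc halg w
    exact ⟨q, hq, hq0⟩
  have hmem : ∀ i, ε i ∈ W := fun i => hε.mem i
  have hind : AlgebraicIndependent ℂ fun i => IsLocalRing.residue W ⟨ε i, hmem i⟩ := by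
    rw [algebraicIndependent_iff]
    intro P hP
    by_contra hP0
    exact (rin_iff cW fun i => ⟨ε i, hmem i⟩).1 hε P hP0 hP
  obtain ⟨y, hy⟩ := rin_field halg' _ hind
  choose z hz using fun i => IsLocalRing.residue_surjective (y i)
  refine ⟨fun i => (z i : K), (rin_iff cO z).2 ?_⟩
  intro P hP h0
  apply hP
  rw [algebraicIndependent_iff] at hy
  apply hy
  have hyz : y = fun i => IsLocalRing.residue O (z i) := by
    funext i
    exact (hz i).symm
  rw [hyz]
  exact h0

end H5ML

end S_Rin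

section S_Pull

/-!
# PULL: the form `dζ` descends to the invariants
-/

open scoped TensorProduct

namespace H5ML

/-- The form `ω` on `K` pulls back to `dζ_1 ∧ ⋯ ∧ dζ_N` on `F`. -/
def IsPull {K F : Type} [Field K] [Field F] [Algebra ℂ K] [Algebra ℂ F] [Algebra K F]
    [IsScalarTower ℂ K F] {N : ℕ} (ζ : Fin N → F) (ω : ⋀[K]^N Ω[K⁄ℂ]) : Prop :=
  ∀ D : Fin N → Derivation ℂ F F, detFun D ω = jac D ζ

theorem pull_exists_tb {K : Type} [Field K] [Algebra ℂ K] {N : ℕ} (hK : Algebra.trdeg ℂ K = N) :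
    ∃ z : Fin N → K, AlgebraicIndependent ℂ z := by
  obtain ⟨s, hs⟩ := exists_isTranscendenceBasis ℂ K
  have h1 := hs.cardinalMk_eq_trdeg
  rw [hK] at h1
  have h2 : Nonempty (Fin N ≃ s) := by
    rw [← Cardinal.eq, h1, Cardinal.mk_fin]
  obtain ⟨e⟩ := h2
  exact ⟨_, hs.1.comp e e.injective⟩

theorem pull_smul_const {K F : Type} [Field K] [Field F] [Algebra ℂ K] [Algebra ℂ F]
    [Algebra K F] [IsScalarTower ℂ K F] (G₀ : Type) [Group G₀] [MulSemiringAction G₀ F]
    [IsGaloisGroup G₀ K F] (g : G₀) (c : ℂ) : g • algebraMap ℂ F c = algebraMap ℂ F c := by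
  have := (IsGaloisGroup.commutes (G := G₀) (A := K) (B := F))
  rw [IsScalarTower.algebraMap_apply ℂ K F, smul_algebraMap]

theorem pull_smul_smul {K F : Type} [Field K] [Field F] [Algebra ℂ K] [Algebra ℂ F]
    [Algebra K F] [IsScalarTower ℂ K F] (G₀ : Type) [Group G₀] [MulSemiringAction G₀ F]
    [IsGaloisGroup G₀ K F] (g : G₀) (c : ℂ) (x : F) : g • (c • x) = c • (g • x) := by
  rw [Algebra.smul_def, Algebra.smul_def, smul_mul', pull_smul_const (K := K)]

/-- The conjugate derivation. -/
noncomputable def pullConj {K F : Type} [Field K] [Field F] [Algebra ℂ K] [Algebra ℂ F]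
    [Algebra K F] [IsScalarTower ℂ K F] (G₀ : Type) [Group G₀] [MulSemiringAction G₀ F]
    [IsGaloisGroup G₀ K F] (g : G₀) (D : Derivation ℂ F F) : Derivation ℂ F F :=
  Derivation.mk'
    { toFun := fun h => g • D (g⁻¹ • h)
      map_add' := fun a b => by rw [smul_add, map_add, smul_add]
      map_smul' := fun c a => by
        rw [pull_smul_smul (K := K), D.map_smul, pull_smul_smul (K := K), RingHom.id_apply] }
    fun a b => by
      simp only [LinearMap.coe_mk, AddHom.coe_mk]
      rw [smul_mul', D.leibniz, smul_eq_mul, smul_eq_mul, smul_add, smul_mul', smul_mul',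
        smul_inv_smul, smul_inv_smul, smul_eq_mul, smul_eq_mul]

theorem pullConj_apply {K F : Type} [Field K] [Field F] [Algebra ℂ K] [Algebra ℂ F]
    [Algebra K F] [IsScalarTower ℂ K F] (G₀ : Type) [Group G₀] [MulSemiringAction G₀ F]
    [IsGaloisGroup G₀ K F] (g : G₀) (D : Derivation ℂ F F) (h : F) :
    pullConj (K := K) G₀ g D h = g • D (g⁻¹ • h) := rfl

/-- Proof. Let `z : Fin N → K` be a transcendence basis of `K` over `ℂ` (`trdeg K = N` since
`F / K` is algebraic, or the hypothesis `hK`); its image in `F` is algebraically independent, and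
a transcendence basis of `F`. Let `∂` be the derivations of `F` dual to `ζ` (`exists_dual`) and
`E` those dual to `z` (`exists_dual`). Put `J = jac ∂ z`. By `jac_mul` (chain rule)
`1 = jac E z = jac E ζ * jac ∂ z`, so `J ≠ 0`. `J` is `G`-invariant: for `g ∈ G` let `∂^g_i` be
the derivation `h ↦ g • ∂ i (g⁻¹ • h)` (`G` fixes `K ⊇ ℂ`, so it is a `ℂ`-derivation). As `z` is
fixed, `g • J = jac ∂^g z = jac ∂^g ζ * jac ∂ z` by the chain rule, and
`∂^g_i (ζ_j) = g • ∂ i (g⁻¹ • ζ j) = g • (m j i) = m j i` for `g⁻¹ • ζ j = ∑ m j l ζ l`, so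
`jac ∂^g ζ = det m = 1`. Hence `J = algebraMap K F c` with `c ∈ K` (`IsGaloisGroup`,
`Algebra.IsInvariant.isInvariant`), `c ≠ 0`. Put `ω = c⁻¹ • dwedge z`. By `detFun_dwedge`,
`detFun D ω = J⁻¹ * jac D z = J⁻¹ * (jac D ζ * jac ∂ z) = jac D ζ`. `ω ≠ 0` because
`detFun ∂ ω = jac ∂ ζ = 1`. -/
theorem exists_pull {K F : Type} [Field K] [Field F] [Algebra ℂ K] [Algebra ℂ F] [Algebra K F]
    [IsScalarTower ℂ K F] (G₀ : Type) [Group G₀] [Finite G₀] [MulSemiringAction G₀ F]
    [IsGaloisGroup G₀ K F] {N : ℕ} (hK : Algebra.trdeg ℂ K = N)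
    (hF : Algebra.trdeg ℂ F = N) (hFf : Algebra.EssFiniteType ℂ F)
    (ζ : Fin N → F) (hζ : AlgebraicIndependent ℂ ζ)
    (hG : ∀ g : G₀, ∃ m : Matrix (Fin N) (Fin N) ℂ, m.det = 1 ∧
      ∀ j, g • ζ j = ∑ l, m j l • ζ l) :
    ∃ ω : ⋀[K]^N Ω[K⁄ℂ], ω ≠ 0 ∧ IsPull ζ ω := by
  obtain ⟨z, hz⟩ := pull_exists_tb hK
  have hzF : AlgebraicIndependent ℂ fun j => algebraMap K F (z j) :=
    hz.map' (f := IsScalarTower.toAlgHom ℂ K F) (algebraMap K F).injective
  have halgz := (tb_fin hFf hF _ hzF).1
  have halg := (tb_fin hFf hF _ hζ).1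
  obtain ⟨P, hP⟩ := exists_dual ζ hζ halg
  obtain ⟨E, hE⟩ := exists_dual (fun j => algebraMap K F (z j)) hzF halgz
  set J := jac P fun j => algebraMap K F (z j) with hJ
  have hJ0 : J ≠ 0 := by
    have h1 := jac_mul ζ hζ halg P hP E fun j => algebraMap K F (z j)
    rw [jac_dual _ E hE] at h1
    exact right_ne_zero_of_mul_eq_one h1.symm
  have hcomm := (IsGaloisGroup.commutes (G := G₀) (A := K) (B := F))
  have hJinv : ∀ g : G₀, g • J = J := by
    intro g
    have h1 := jac_mul ζ hζ halg P hP (fun i => pullConj (K := K) G₀ g (P i))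
      fun j => algebraMap K F (z j)
    have h2 : jac (fun i => pullConj (K := K) G₀ g (P i)) (fun j => algebraMap K F (z j)) =
        g • J := by
      have h3 := RingHom.map_det (MulSemiringAction.toRingHom G₀ F g)
        (Matrix.of fun j i => P i (algebraMap K F (z j)))
      rw [MulSemiringAction.toRingHom_apply] at h3
      rw [hJ]
      unfold jac
      rw [h3]
      congr 1
      ext j i
      rw [Matrix.of_apply, pullConj_apply, smul_algebraMap]
      rfl
    have h4 : jac (fun i => pullConj (K := K) G₀ g (P i)) ζ = 1 := by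
      obtain ⟨m, hm1, hm⟩ := hG g⁻¹
      have h5 : (Matrix.of fun j i => pullConj (K := K) G₀ g (P i) (ζ j)) =
          (algebraMap ℂ F).mapMatrix m := by
        ext j i
        rw [Matrix.of_apply, pullConj_apply, hm, map_sum]
        have h6 : ∀ l, P i (m j l • ζ l) = if i = l then algebraMap ℂ F (m j l) else 0 := by
          intro l
          rw [(P i).map_smul, hP]
          split_ifs
          · rw [Algebra.smul_def, mul_one]
          · rw [smul_zero]
        simp_rw [h6]
        rw [Finset.sum_ite_eq, if_pos (Finset.mem_univ i), pull_smul_const (K := K)]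
        rfl
      unfold jac
      rw [h5, ← RingHom.map_det, hm1, map_one]
    rw [h2, h4, one_mul] at h1
    exact h1
  obtain ⟨c, hc⟩ := (IsGaloisGroup.isInvariant (G := G₀) (A := K) (B := F)).isInvariant J hJinv
  have hc0 : c ≠ 0 := by
    rintro rfl
    rw [map_zero] at hc
    exact hJ0 hc.symm
  have hpull : IsPull ζ (c⁻¹ • dwedge z) := by
    intro D
    rw [map_smul, detFun_dwedge, jac_mul ζ hζ halg P hP D fun j => algebraMap K F (z j), ← hJ,
      Algebra.smul_def, map_inv₀, hc]
    field_simp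
  refine ⟨c⁻¹ • dwedge z, ?_, hpull⟩
  intro h0
  have h1 := hpull P
  rw [h0, map_zero, jac_dual ζ P hP] at h1
  exact zero_ne_one h1

end H5ML

end S_Pull

section S_Rh

/-!
# RH: Riemann-Hurwitz formula for the order of a top form
-/

open scoped TensorProduct

namespace H5ML

/-- A matrix whose rows with positive index are unit vectors. -/
theorem rh_det {F : Type} [Field F] {n : ℕ} (A : Matrix (Fin (n + 1)) (Fin (n + 1)) F)
    (h : ∀ (j : Fin n) (i : Fin (n + 1)), A j.succ i = if i = j.succ then 1 else 0) :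
    A.det = A 0 0 := by
  rw [Matrix.det_succ_column_zero, Fin.sum_univ_succ]
  have h1 : ∀ i : Fin n, A i.succ 0 = 0 := fun i => by
    rw [h, if_neg (Fin.succ_ne_zero i).symm]
  simp only [Fin.val_zero, pow_zero, one_mul, h1, mul_zero, zero_mul, Finset.sum_const_zero,
    add_zero]
  have h2 : A.submatrix (Fin.succAbove 0) Fin.succ = 1 := by
    ext j i
    rw [Matrix.submatrix_apply, Fin.succAbove_zero, h, Matrix.one_apply]
    simp [Fin.succ_inj, eq_comm]
  rw [h2, Matrix.det_one, mul_one]

variable {K F : Type} [Field K] [Field F] [Algebra ℂ K] [Algebra ℂ F] [Algebra K F]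
    [IsScalarTower ℂ K F]

theorem rh_resIndep {n : ℕ} {O : ValuationSubring K} {W : ValuationSubring F}
    (hc : ∀ x : K, algebraMap K F x ∈ W ↔ x ∈ O) {y : Fin n → K} (hy : ResIndep O y) :
    ResIndep W fun j => algebraMap K F (y j) := by
  intro P hP
  obtain ⟨h1, h2, h3⟩ := hy P hP
  have e : MvPolynomial.aeval (fun j => algebraMap K F (y j)) P =
      algebraMap K F (MvPolynomial.aeval y P) :=
    MvPolynomial.aeval_algebraMap_apply F y P
  rw [e]
  refine ⟨(map_ne_zero _).2 h1, (hc _).2 h2, ?_⟩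
  rw [← map_inv₀]
  exact (hc _).2 h3

theorem rh {n : ℕ} (hFf : Algebra.EssFiniteType ℂ F) (hF : Algebra.trdeg ℂ F = (n + 1 : ℕ))
    {O : ValuationSubring K} {W : ValuationSubring F}
    (hc : ∀ x : K, algebraMap K F x ∈ W ↔ x ∈ O) {T : F} (hT : IsUnif W T) (e : ℕ) (he : 1 ≤ e)
    (heq : ∀ t, IsUnif O t → OrdEq W T (algebraMap K F t) e) (ζ : Fin (n + 1) → F)
    (ω : ⋀[K]^(n + 1) Ω[K⁄ℂ]) (hω : IsPull ζ ω) (a : ℤ) (h : HasLogDisc O ω a) :
    ∃ D : Fin (n + 1) → Derivation ℂ F F, IsFrame W T D ∧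
      OrdEq W T (jac D ζ) (e * a - 1) := by
  obtain ⟨t, y, ε, ht, hy, hε0, hε, hεi, rfl⟩ := h
  have hy' := rh_resIndep hc hy
  obtain ⟨D, hDW, hD⟩ := exists_frame hFf hF hT hy'
  refine ⟨D, ⟨hT, hDW, _, hy', hD⟩, ?_⟩
  rw [← hω D, map_smul, detFun_dwedge, Algebra.smul_def, map_mul, map_zpow₀]
  have htT := heq t ht
  have hu : OrdEq W T (algebraMap K F ε) 0 := by
    rw [ordEq_zero_iff]
    refine ⟨by simpa using hε0, (hc _).2 hε, ?_⟩
    rw [← map_inv₀]
    exact (hc _).2 hεi
  -- the determinant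
  have hdet : jac D (fun j => algebraMap K F ((Fin.cons t y : Fin (n + 1) → K) j)) =
      D 0 (algebraMap K F t) := by
    unfold jac
    rw [rh_det]
    · rfl
    · intro j i
      have := hD i j.succ
      simpa using this
  rw [hdet]
  -- the derivative of `t`
  have hD0 : OrdEq W T (D 0 (algebraMap K F t)) (e - 1) := by
    set τ : F := algebraMap K F t with hτ
    set η : F := τ * T ^ (-(e : ℤ)) with hη
    have hηW : η ∈ W := htT.2.1
    have hτη : τ = T ^ e * η := by
      rw [hη, mul_comm, mul_assoc, ← zpow_natCast, ← zpow_add₀ hT.1]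
      simp
    have hDT : D 0 T = 1 := by simpa using hD 0 0
    have h1 : D 0 τ = ((e : ℕ) : F) * (T ^ (e - 1) * η) + T ^ e * D 0 η := by
      rw [hτη, Derivation.leibniz, Derivation.leibniz_pow, hDT]
      simp only [smul_eq_mul, nsmul_eq_mul]
      ring
    have hη0 : OrdEq W T η 0 := by
      rw [ordEq_zero_iff]
      exact ⟨mul_ne_zero htT.1 (zpow_ne_zero _ hT.1), htT.2.1, htT.2.2⟩
    have hconst : ∀ c : ℂ, algebraMap ℂ F c ∈ W := hy'.const_mem
    have he0 : OrdEq W T ((e : ℕ) : F) 0 := by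
      have := OrdEq.of_ne_zero_of_const (t := T) hconst (e : ℂ) (by
        have : e ≠ 0 := by omega
        exact_mod_cast this)
      simpa using this
    have h2 : OrdEq W T (((e : ℕ) : F) * (T ^ (e - 1) * η)) (e - 1) := by
      have h3 := he0.mul (((ordEq_self hT).pow hT (e - 1)).mul hη0 hT) hT
      have h4 : (0 : ℤ) + (((e - 1 : ℕ) : ℤ) * 1 + 0) = e - 1 := by
        push_cast [Nat.cast_sub he]
        ring
      rwa [h4] at h3
    rw [h1]
    refine h2.add hT ?_
    have h5 : T ^ e * D 0 η * T ^ (-((e : ℤ) - 1 + 1)) = D 0 η := by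
      rw [mul_comm (T ^ e), mul_assoc, ← zpow_natCast, ← zpow_add₀ hT.1]
      simp
    rw [h5]
    exact hDW 0 _ hηW
  have h6 := (hu.mul (htT.zpow hT (a - 1)) hT).mul hD0 hT
  have h7 : (0 : ℤ) + (a - 1) * e + (e - 1) = e * a - 1 := by ring
  rwa [h7] at h6

end H5ML

end S_Rh

section S_Exa

/-!
# EXA: existence and uniqueness of log discrepancies
-/

open scoped TensorProduct

namespace H5ML

variable {K : Type} [Field K] [Algebra ℂ K]

theorem exists_logDisc {n : ℕ} (hK : Algebra.EssFiniteType ℂ K)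
    (htr : Algebra.trdeg ℂ K = (n + 1 : ℕ)) (O : ValuationSubring K) (hO : IsDiv n O)
    (ω : ⋀[K]^(n + 1) Ω[K⁄ℂ]) (hω : ω ≠ 0) : ∃ a : ℤ, HasLogDisc O ω a := by
  obtain ⟨⟨t, ht⟩, y, hy⟩ := hO
  have hz := tb_indep ht hy
  have halg := (tb_fin hK htr _ hz).1
  obtain ⟨h, rfl⟩ := dwedge_span _ hz halg ω
  have hh : h ≠ 0 := by
    rintro rfl
    exact hω (zero_smul _ _)
  obtain ⟨m, hm⟩ := exists_ordEq ht hh
  refine ⟨m + 1, t, y, h * t ^ (-m), ht, hy, mul_ne_zero hh (zpow_ne_zero _ ht.1), hm.2.1,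
    hm.2.2, ?_⟩
  congr 1
  rw [mul_assoc, ← zpow_add₀ ht.1]
  simp

/-- One inequality. -/
theorem exa_le {n : ℕ} (hK : Algebra.EssFiniteType ℂ K)
    (htr : Algebra.trdeg ℂ K = (n + 1 : ℕ)) (O : ValuationSubring K)
    (ω : ⋀[K]^(n + 1) Ω[K⁄ℂ]) (a b : ℤ) (ha : HasLogDisc O ω a) (hb : HasLogDisc O ω b) :
    b ≤ a := by
  obtain ⟨t, y, ε, ht, hy, e0, e1, e2, rfl⟩ := ha
  obtain ⟨t', y', ε', ht', hy', e0', e1', e2', hω⟩ := hb
  obtain ⟨D, hDW, hD⟩ := exists_frame hK htr ht hy
  have h1 := congrArg (detFun (F := K) D) hω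
  rw [map_smul, map_smul, detFun_dwedge, detFun_dwedge] at h1
  simp only [Algebra.algebraMap_self, RingHom.id_apply, smul_eq_mul] at h1
  rw [jac_dual _ _ hD, mul_one] at h1
  have hJ : jac D (fun j => (Fin.cons t' y' : Fin (n + 1) → K) j) ∈ O := by
    refine det_mem _ fun j i => hDW i _ ?_
    refine Fin.cases ?_ (fun j => ?_) j
    · simpa using ht'.2.1
    · simpa using hy'.mem j
  have h2 : OrdEq O t (ε * t ^ (a - 1)) (a - 1) := (ordEq_zpow ht _).unit_mul e0 e1 e2 ht
  have h3 : OrdEq O t (ε' * t' ^ (b - 1)) (b - 1) :=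
    ((ordEq_zpow ht' _).unit_mul e0' e1' e2' ht').congr_unif ht' ht
  have hJ0 : jac D (fun j => (Fin.cons t' y' : Fin (n + 1) → K) j) ≠ 0 := by
    intro h
    rw [h, mul_zero] at h1
    exact h2.1 h1
  obtain ⟨k, hk⟩ := exists_ordEq ht hJ0
  have h4 := (hk.mem_iff ht).1 hJ
  have h5 := h3.mul hk ht
  rw [← h1] at h5
  have h6 := h2.unique h5 ht
  omega

theorem logDisc_unique {n : ℕ} (hK : Algebra.EssFiniteType ℂ K)
    (htr : Algebra.trdeg ℂ K = (n + 1 : ℕ)) (O : ValuationSubring K)
    (ω : ⋀[K]^(n + 1) Ω[K⁄ℂ]) (a b : ℤ) (ha : HasLogDisc O ω a) (hb : HasLogDisc O ω b) :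
    b = a :=
  le_antisymm (exa_le hK htr O ω a b ha hb) (exa_le hK htr O ω b a hb ha)

end H5ML

end S_Exa
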