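import Mathlib
import Pool.Agent.H5.MD.P1
import Pool.Agent.H5.MD.P2
import Pool.Agent.H5.MD.P4

section S_Coo

/-!
# Coordinates on `FA`
-/

namespace H5ML

open MvPolynomial

/-- An enumeration of the variables starting with `t_0`. -/
def idx : Fin (10 + 1) → Ix :=
  ![.inr (.inr 0), .inl 0, .inl 1, .inl 2, .inr (.inl 0), .inr (.inl 1), .inr (.inl 2),
    .inr (.inr 1), .inr (.inr 2), .inr (.inr 3), .inr (.inr 4)]

theorem idx_bijective : Function.Bijective idx := by
  decide

/-- The coordinates. -/
noncomputable def zc (j : Fin (10 + 1)) : FA := algebraMap A FA (X (idx j))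

/-- The linear forms `x_i - χ (u_i k) y_i`, `x_i + χ (u_i k) y_i`, `t_l`, eigenvectors of the
reflection `sr k` with eigenvalues `-1, 1, -1`. -/
noncomputable def lin (k : ZMod 241) : Ix → A
  | .inl i => xx i - C (chi (u i * k)) * yy i
  | .inr (.inl i) => xx i + C (chi (u i * k)) * yy i
  | .inr (.inr l) => tt l

/-- The coordinates given by the linear forms. -/
noncomputable def zk (k : ZMod 241) (j : Fin (10 + 1)) : FA := algebraMap A FA (lin k (idx j))

/-- The weights of the linear forms. -/
def wt : Ix → ℕ
  | .inl _ => 1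
  | .inr (.inl _) => 2
  | .inr (.inr _) => 1

/-- The image of `t_0` in `FA`. -/
noncomputable def t0 : FA := algebraMap A FA (tt 0)

theorem zk_zero (k : ZMod 241) : zk k 0 = t0 := rfl

theorem zc_zero : zc 0 = t0 := rfl

theorem sum_wt : ∑ j, (wt (idx j) : ℤ) = 14 := by
  decide

end H5ML

end S_Coo

section S_Cen

/-!
# CEN: centres of valuation rings of `FA` over invariants
-/

namespace H5ML

open MvPolynomial

theorem cen_integral (a : A) : IsIntegral R a := by
  haveI : Algebra.IsInvariant R A G := ⟨fun b hb => exists_R b hb⟩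
  have h := Algebra.IsInvariant.isIntegral R A G
  exact h.isIntegral a

/-- Proof. `A` is integral over `R` (every `a` is a root of the monic polynomial
`∏_g (X - g • a)` with coefficients in `R`; `Algebra.IsInvariant.isIntegral` or
`isGaloisGroup_R` of `Inv.lean`, or directly: `ℂ`, the `t_l` (`t_l² ∈ R`), and the `x_i`, `y_i`
(roots of `Z^482 - (x_i^241 + y_i^241) Z^241 + (x_i y_i)^241`) are integral over `R`), and `W` is
integrally closed. -/
theorem contains_A (W : ValuationSubring FA) (hW : ∀ r : R, algebraMap A FA (algebraMap R A r) ∈ W)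
    (a : A) : algebraMap A FA a ∈ W := by
  let φ : R →+* W := ((algebraMap A FA).comp (algebraMap R A)).codRestrict W hW
  obtain ⟨p, hp, hpa⟩ := cen_integral a
  have h1 : IsIntegral W (algebraMap A FA a) := by
    refine ⟨p.map φ, hp.map φ, ?_⟩
    rw [Polynomial.eval₂_map]
    have h2 : (algebraMap W FA).comp φ = (algebraMap A FA).comp (algebraMap R A) := rfl
    rw [h2, ← Polynomial.hom_eval₂, hpa, map_zero]
  obtain ⟨y, hy⟩ := IsIntegrallyClosed.isIntegral_iff.mp h1
  rw [← hy]
  exact y.2

theorem cen_pow {F : Type} [Field F] (W : ValuationSubring F) {y : F} {n : ℕ}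
    (h : y ^ n ∈ W.nonunits) : y ∈ W.nonunits := by
  rw [W.mem_nonunits_iff] at h ⊢
  rw [map_pow] at h
  by_contra hc
  push Not at hc
  exact absurd h (not_lt.mpr (one_le_pow₀ hc))

theorem cen_chi (a : ZMod 241) : chi a ^ 241 = 1 := by
  have h : ∀ n : ℕ, chi a ^ n = chi (n * a) := by
    intro n
    induction n with
    | zero => simp [chi_zero]
    | succ n ih =>
      rw [pow_succ, ih, ← chi_add]
      congr 1
      push_cast
      ring
  rw [h]
  have h2 : ((241 : ℕ) : ZMod 241) = 0 := by decide
  rw [h2, zero_mul, chi_zero]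

theorem cen_inv (a : A) (h0 : constantCoeff a = 0) (ha : ∀ g : G, act g a = a)
    (W : ValuationSubring FA)
    (hx : ∀ r ∈ x0, algebraMap A FA (algebraMap R A r) ∈ W.nonunits) :
    algebraMap A FA a ∈ W.nonunits := by
  obtain ⟨r, hr⟩ := exists_R a (fun g => by rw [smul_eq]; exact ha g)
  have h1 : r ∈ x0 := by
    show constantCoeff (algebraMap R A r) = 0
    rw [hr, h0]
  have := hx r h1
  rwa [hr] at this

/-- Proof. `t_l ^ 2` is invariant without constant term, so `t_l ^ 2 ∈ W.nonunits` and
`t_l ∈ W.nonunits`. `x_i y_i` and `x_i^241 + y_i^241` are invariant without constant term and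
`(x_i^241)^2 = (x_i^241 + y_i^241) x_i^241 - (x_i y_i)^241` is a nonunit, so `x_i` is a nonunit
(it lies in `W` by `contains_A`); the same for `y_i`. -/
theorem centre_A (W : ValuationSubring FA) (hW : ∀ r : R, algebraMap A FA (algebraMap R A r) ∈ W)
    (hx : ∀ r ∈ x0, algebraMap A FA (algebraMap R A r) ∈ W.nonunits) (v : Ix) :
    algebraMap A FA (X v) ∈ W.nonunits := by
  have hC : ∀ (c : ℂ), (C c : A) ^ 241 = C (c ^ 241) := fun c => (C_pow c 241).symm
  have hp : ∀ i, algebraMap A FA (xx i ^ 241 + yy i ^ 241) ∈ W.nonunits := by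
    intro i
    apply cen_inv _ _ _ W hx
    · simp [xx, yy]
    · rintro (k | k)
      · rw [map_add, map_pow, map_pow, act_xx_r, act_yy_r, mul_pow, mul_pow, hC, hC, cen_chi,
          cen_chi, C_1, one_mul, one_mul]
      · rw [map_add, map_pow, map_pow, act_xx_sr, act_yy_sr, mul_pow, mul_pow, hC, hC, cen_chi,
          cen_chi, C_1, one_mul, one_mul, add_comm]
  have hs : ∀ i, algebraMap A FA (xx i * yy i) ∈ W.nonunits := by
    intro i
    apply cen_inv _ _ _ W hx
    · simp [xx, yy]
    · rintro (k | k)
      · rw [map_mul, act_xx_r, act_yy_r]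
        have h1 : (C (chi (u i * k)) * C (chi (-(u i * k))) : A) = 1 := by
          rw [← C_mul, mul_comm, chi_neg_mul, C_1]
        linear_combination (xx i * yy i) * h1
      · rw [map_mul, act_xx_sr, act_yy_sr]
        have h1 : (C (chi (u i * k)) * C (chi (-(u i * k))) : A) = 1 := by
          rw [← C_mul, mul_comm, chi_neg_mul, C_1]
        linear_combination (xx i * yy i) * h1
  have key : ∀ a b : A, algebraMap A FA (a ^ 241 + b ^ 241) ∈ W.nonunits →
      algebraMap A FA (a * b) ∈ W.nonunits → algebraMap A FA a ∈ W.nonunits := by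
    intro a b h1 h2
    have h3 : algebraMap A FA ((a ^ 241 + b ^ 241) * a ^ 241) ∈ W.nonunits := by
      rw [map_mul]
      exact nonunit_mul h1 (contains_A W hW _)
    have h4 : algebraMap A FA ((a * b) ^ 241) ∈ W.nonunits := by
      rw [pow_succ', map_mul]
      exact nonunit_mul h2 (contains_A W hW _)
    have h5 : algebraMap A FA (a ^ 482) ∈ W.nonunits := by
      have h6 : (a ^ 482 : A) = (a ^ 241 + b ^ 241) * a ^ 241 - (a * b) ^ 241 := by ring
      rw [h6, map_sub, sub_eq_add_neg]
      exact W.nonunits.add_mem h3 (W.nonunits.neg_mem h4)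
    rw [map_pow] at h5
    exact cen_pow W h5
  rcases v with i | i | l
  · exact key (xx i) (yy i) (hp i) (hs i)
  · refine key (yy i) (xx i) ?_ ?_
    · rw [add_comm]; exact hp i
    · rw [mul_comm]; exact hs i
  · have h1 : algebraMap A FA (tt l ^ 2) ∈ W.nonunits := by
      apply cen_inv _ _ _ W hx
      · simp [tt]
      · rintro (k | k)
        · rw [map_pow, act_tt_r]
        · rw [map_pow, act_tt_sr, neg_sq]
    rw [map_pow] at h1
    exact cen_pow W h1

end H5ML

end S_Cen

section S_InvA

/-!
# INVA: Galois groups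
-/

namespace H5ML

open MvPolynomial

theorem inva_faithful : FaithfulSMul G A where
  eq_of_smul_eq_smul := by
    have ht : tt 0 ≠ 0 := X_ne_zero _
    have h2 : ∀ a b : ZMod 241, ¬ (DihedralGroup.r a • tt 0 : A) = DihedralGroup.sr b • tt 0 := by
      intro a b h
      rw [smul_eq, smul_eq, act_tt_r, act_tt_sr] at h
      exact ht (self_eq_neg.mp h)
    have h3 : ∀ a b : ZMod 241, chi (u 0 * a) = chi (u 0 * b) → a = b := by
      intro a b h
      have h1 : chi (u 0 * (a - b)) = 1 := by
        have e : (u 0 : ZMod 241) * (a - b) = u 0 * a + -(u 0 * b) := by ring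
        rw [e, chi_add, h, mul_comm, chi_neg_mul]
      rw [chi_eq_one_iff] at h1
      have h4 : (16 * (u 0 : ZMod 241)) * (a - b) = 0 := by
        rw [mul_assoc, h1, mul_zero]
      have h5 : (16 * (u 0 : ZMod 241)) = -1 := by
        decide
      rw [h5, neg_one_mul, neg_eq_zero] at h4
      exact sub_eq_zero.mp h4
    intro g h hgh
    rcases g with a | a <;> rcases h with b | b
    · have h1 := hgh (xx 0)
      rw [smul_eq, smul_eq, act_xx_r, act_xx_r] at h1
      have h4 := C_injective _ _ (mul_right_cancel₀ (X_ne_zero _) h1)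
      rw [h3 a b h4]
    · exact absurd (hgh (tt 0)) (h2 a b)
    · exact absurd (hgh (tt 0)).symm (h2 b a)
    · have h1 := hgh (xx 0)
      rw [smul_eq, smul_eq, act_xx_sr, act_xx_sr] at h1
      have h4 := C_injective _ _ (mul_right_cancel₀ (X_ne_zero _) h1)
      rw [h3 a b h4]

/-- Proof. Faithful: `r k` acts on `x_0` as multiplication by `χ (15 k)`, which is `≠ 1` for
`k ≠ 0` (`chi_eq_one_iff`, `15` is invertible modulo `241`), and `sr k` maps `t_0` to `-t_0`.
Commutes with `R`: `R_smul` and `smul_mul'`. Invariants: `exists_R`. -/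
instance isGaloisGroup_R : IsGaloisGroup G R A where
  faithful := inva_faithful
  commutes := ⟨fun g r a => by
    rw [Algebra.smul_def, Algebra.smul_def, smul_mul', R_smul]⟩
  isInvariant := ⟨fun a ha => exists_R a ha⟩

/-- Proof. `IsGaloisGroup.to_isFractionRing G R A KR FA` (or `IsGaloisGroup.toFractionRing`). -/
instance isGaloisGroup_K : IsGaloisGroup G KR FA :=
  IsGaloisGroup.to_isFractionRing G R A KR FA

/-- Proof. On elements of the form `r / s` with `r, s ∈ R`; or by the definition of the scalar
actions on localizations. -/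
instance isScalarTower_C : IsScalarTower ℂ KR FA := by
  have h : IsScalarTower ℂ R FA := inferInstance
  infer_instance

end H5ML

end S_InvA

section S_InvB

/-!
# INVB: the ring of invariants is finitely generated and normal
-/

namespace H5ML

open MvPolynomial

/-- Proof. `A` is a finitely generated `ℂ`-algebra and a finite `R`-module (it is integral over `R`
because `G` is finite: `Algebra.IsInvariant.isIntegral`), so `R` is a finitely generated
`ℂ`-algebra by Artin-Tate (`fg_of_fg_of_fg`). -/
theorem finiteType_R : Algebra.FiniteType ℂ R := by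
  haveI : Algebra.IsInvariant R A G := IsGaloisGroup.isInvariant
  haveI : Algebra.IsIntegral R A := Algebra.IsInvariant.isIntegral R A G
  haveI : Algebra.FiniteType ℂ A := inferInstance
  haveI : Algebra.FiniteType R A := Algebra.FiniteType.of_restrictScalars_finiteType ℂ R A
  haveI : Module.Finite R A := Algebra.IsIntegral.finite
  exact ⟨fg_of_fg_of_fg ℂ R A Algebra.FiniteType.out Module.Finite.fg_top R_injective⟩

/-- Proof. Let `h ∈ KR` be integral over `R`. Its image in `FA` is integral over `A`, hence in `A`
(`A` is a UFD), `h = a ∈ A`, and `a` is `G`-invariant since its image in `FA` comes from `KR`. So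
`a ∈ R`. -/
theorem isIntegrallyClosed_R : IsIntegrallyClosed R := by
  rw [isIntegrallyClosed_iff KR]
  intro h hh
  have h1 : IsIntegral R (algebraMap KR FA h) := hh.map (IsScalarTower.toAlgHom R KR FA)
  have h2 : IsIntegral A (algebraMap KR FA h) := h1.tower_top
  obtain ⟨a, ha⟩ := IsIntegrallyClosed.algebraMap_eq_of_integral h2
  haveI : SMulCommClass G KR FA := isGaloisGroup_K.commutes
  have h3 : ∀ g : G, g • a = a := by
    intro g
    apply IsFractionRing.injective A FA
    rw [algebraMap.smul', ha, smul_algebraMap]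
  obtain ⟨r, hr⟩ := exists_R a h3
  refine ⟨r, ?_⟩
  apply (algebraMap KR FA).injective
  rw [← IsScalarTower.algebraMap_apply R KR FA, IsScalarTower.algebraMap_apply R A FA, hr, ha]

end H5ML

end S_InvB

section S_InvC

/-!
# INVC: transcendence degrees
-/

namespace H5ML

open MvPolynomial

theorem invc_inj : Function.Injective (algebraMap A FA) := IsFractionRing.injective A FA

/-- Proof. The fraction field of the polynomial ring in the `11` variables `Ix`. -/
theorem trdeg_FA : Algebra.trdeg ℂ FA = (10 + 1 : ℕ) := by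
  have h1 : Algebra.trdeg ℂ A = (10 + 1 : ℕ) := by
    rw [MvPolynomial.trdeg_of_isDomain]
    simp
  have h2 : Algebra.IsAlgebraic A FA := IsLocalization.isAlgebraic FA (nonZeroDivisors A)
  have h3 : Algebra.trdeg A FA = 0 := trdeg_eq_zero
  have : FaithfulSMul A FA := (faithfulSMul_iff_algebraMap_injective A FA).mpr invc_inj
  have h4 := trdeg_add_eq ℂ A (A := FA)
  rw [← h4, h3, add_zero, h1]

/-- Proof. `FA` is algebraic over `KR` (finite Galois), so the transcendence degrees agree. -/
theorem trdeg_KR : Algebra.trdeg ℂ KR = (10 + 1 : ℕ) := by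
  have : FiniteDimensional KR FA := IsGaloisGroup.finiteDimensional G KR FA
  have h3 : Algebra.trdeg KR FA = 0 := trdeg_eq_zero
  have h4 := trdeg_add_eq ℂ KR (A := FA)
  rw [h3, add_zero, trdeg_FA] at h4
  exact h4

/-- Proof. Localization of a finitely generated algebra. -/
theorem essFiniteType_FA : Algebra.EssFiniteType ℂ FA := by
  have h1 : Algebra.EssFiniteType A FA := Algebra.EssFiniteType.of_isLocalization FA (nonZeroDivisors A)
  exact Algebra.EssFiniteType.comp ℂ A FA

/-- Proof. Localization of the finitely generated algebra `R`. -/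
theorem essFiniteType_KR : Algebra.EssFiniteType ℂ KR := by
  have h0 := finiteType_R
  have h1 : Algebra.EssFiniteType R KR := Algebra.EssFiniteType.of_isLocalization KR (nonZeroDivisors R)
  exact Algebra.EssFiniteType.comp ℂ R KR

/-- Proof. The kernel of the surjective ring homomorphism `R → ℂ` (constants are invariant). -/
theorem isMaximal_x0 : x0.IsMaximal := by
  apply RingHom.ker_isMaximal_of_surjective
  intro c
  refine ⟨algebraMap ℂ R c, ?_⟩
  rw [RingHom.comp_apply, ← IsScalarTower.algebraMap_apply ℂ R A]
  exact constantCoeff_C _ c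

/-- Proof. The variables are algebraically independent in `FA` and `idx` is injective. -/
theorem zc_indep : AlgebraicIndependent ℂ zc := by
  have h1 : AlgebraicIndependent ℂ (X : Ix → A) := MvPolynomial.algebraicIndependent_X Ix ℂ
  have h2 : AlgebraicIndependent ℂ ((IsScalarTower.toAlgHom ℂ A FA) ∘ (X : Ix → A)) :=
    h1.map' (f := IsScalarTower.toAlgHom ℂ A FA) invc_inj
  exact h2.comp idx idx_bijective.injective

end H5ML

end S_InvC

section S_InvD

/-!
# INVD: the group acts with determinant one
-/

namespace H5ML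

open MvPolynomial

/-- The permutation `x_i ↔ y_i`. -/
def invdP : Equiv.Perm Ix := Equiv.swap (Sum.inl 0) (Sum.inr (Sum.inl 0)) *
  (Equiv.swap (Sum.inl 1) (Sum.inr (Sum.inl 1)) * Equiv.swap (Sum.inl 2) (Sum.inr (Sum.inl 2)))

theorem invdP_sign : Equiv.Perm.sign invdP = -1 := by
  rw [invdP, Equiv.Perm.sign_mul, Equiv.Perm.sign_mul, Equiv.Perm.sign_swap (by decide),
    Equiv.Perm.sign_swap (by decide), Equiv.Perm.sign_swap (by decide)]
  simp

theorem invd_key (g : G) (s : Equiv.Perm Ix) (c : Ix → ℂ)
    (hc : ((Equiv.Perm.sign s : ℤ) : ℂ) * ∏ v, c v = 1)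
    (h : ∀ v, act g (X v) = C (c v) * X (s v)) :
    ∃ m : Matrix (Fin (10 + 1)) (Fin (10 + 1)) ℂ, m.det = 1 ∧
    ∀ j, g • zc j = ∑ l, m j l • zc l := by
  classical
  let e : Fin (10 + 1) ≃ Ix := Equiv.ofBijective idx idx_bijective
  let D : Matrix Ix Ix ℂ := Matrix.diagonal (fun v => c (s.symm v))
  refine ⟨(D.submatrix s id).submatrix e e, ?_, ?_⟩
  · rw [Matrix.det_submatrix_equiv_self, Matrix.det_permute, Matrix.det_diagonal]
    rw [Equiv.prod_comp s.symm c]
    exact hc
  · intro j
    have h1 : ∑ l, ((D.submatrix s id).submatrix e e) j l • zc l =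
        ∑ w : Ix, (D (s (e j)) w) • algebraMap A FA (X w) := by
      rw [← Equiv.sum_comp e]
      rfl
    rw [h1, Finset.sum_eq_single (s (e j))]
    · have h2 : D (s (e j)) (s (e j)) = c (e j) := by
        simp [D]
      rw [h2]
      have h3 : g • zc j = algebraMap A FA (act g (X (e j))) := by
        rw [← smul_eq]
        exact (algebraMap.smul' (B := A) (C := FA) g (X (e j))).symm
      rw [h3, h, ← MvPolynomial.smul_eq_C_mul]
      exact map_smul (IsScalarTower.toAlgHom ℂ A FA) (c (e j)) (X (s (e j)))
    · intro w _ hw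
      have : D (s (e j)) w = 0 := Matrix.diagonal_apply_ne' _ hw
      rw [this, zero_smul]
    · intro hh
      exact absurd (Finset.mem_univ _) hh

/-- Proof. For `g = r k` the matrix is diagonal with entries `1, χ (u_i k), χ (- u_i k), 1, …` and
determinant `1`. For `g = sr k`: `t_l ↦ - t_l`, `x_i ↦ χ (u_i k) y_i`, `y_i ↦ χ (- u_i k) x_i`:
determinant `(-1)^5 * ∏_i (- χ (u_i k) χ (- u_i k)) = (-1)^5 (-1)^3 = 1`. One can treat
`g = sr 0` (a permutation matrix up to sign: product of three transpositions and five signs) and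
`g = r k` and use multiplicativity (`sr k = sr 0 * r k`), or expand the determinant
(`Matrix.det_succ_row_zero`, `simp`), or compute with the index set `Ix` and block matrices. -/
theorem linear_action (g : G) : ∃ m : Matrix (Fin (10 + 1)) (Fin (10 + 1)) ℂ, m.det = 1 ∧
    ∀ j, g • zc j = ∑ l, m j l • zc l := by
  rcases g with k | k
  · refine invd_key (.r k) 1 (fun v => match v with
      | .inl i => chi (u i * k)
      | .inr (.inl i) => chi (-(u i * k))
      | .inr (.inr _) => 1) ?_ ?_
    · rw [Fintype.prod_sum_type, Fintype.prod_sum_type]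
      simp only [Equiv.Perm.sign_one, Units.val_one, Int.cast_one, one_mul, Finset.prod_const_one,
        mul_one]
      rw [← Finset.prod_mul_distrib]
      refine Finset.prod_eq_one fun i _ => ?_
      rw [mul_comm]
      exact chi_neg_mul _
    · rintro (i | i | l)
      · exact act_xx_r k i
      · exact act_yy_r k i
      · simp only [C_1, one_mul]
        exact act_tt_r k l
  · refine invd_key (.sr k) invdP (fun v => match v with
      | .inl i => chi (u i * k)
      | .inr (.inl i) => chi (-(u i * k))
      | .inr (.inr _) => -1) ?_ ?_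
    · rw [Fintype.prod_sum_type, Fintype.prod_sum_type]
      have h1 : ((∏ i : Fin 3, chi (u i * k)) * ∏ i : Fin 3, chi (-(u i * k))) = 1 := by
        rw [← Finset.prod_mul_distrib]
        refine Finset.prod_eq_one fun i _ => ?_
        rw [mul_comm]
        exact chi_neg_mul _
      rw [← mul_assoc (∏ i : Fin 3, chi (u i * k)), h1, invdP_sign]
      norm_num
    · have hp : ∀ i : Fin 3, invdP (.inl i) = .inr (.inl i) := by decide
      have hq : ∀ i : Fin 3, invdP (.inr (.inl i)) = .inl i := by decide
      have hr : ∀ i : Fin 5, invdP (.inr (.inr i)) = .inr (.inr i) := by decide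
      rintro (i | i | l)
      · rw [hp]
        exact act_xx_sr k i
      · rw [hq]
        exact act_yy_sr k i
      · rw [hr]
        simp only [map_neg, C_1, neg_mul, one_mul]
        exact act_tt_sr k l

end H5ML

end S_InvD
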