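import Mathlib
import Pool.Agent.H5.MD.P1
import Pool.Agent.H5.MD.P5

section S_CasA

/-!
# CASA: the character of the inertia group
-/

namespace H5ML

open MvPolynomial

section General

variable {F : Type} [Field F] [Algebra ℂ F] {G₀ : Type} [Group G₀] [MulSemiringAction G₀ F]

omit [Algebra ℂ F] in
theorem casa_zpow (g : G₀) (x : F) (k : ℤ) : g • (x ^ k) = (g • x) ^ k :=
  map_zpow₀ (MulSemiringAction.toRingHom G₀ F g) x k

omit [Algebra ℂ F] in
theorem casa_mem {W : ValuationSubring F} {g : G₀} (hg : g ∈ inert G₀ W) {x : F} (hx : x ∈ W) :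
    g • x ∈ W := by
  have := W.add_mem _ _ (nonunit_mem (hg x hx)) hx
  simpa using this

omit [Algebra ℂ F] in
theorem casa_unit {W : ValuationSubring F} {T : F} {g : G₀} (hg : g ∈ inert G₀ W) {x : F}
    (hx : OrdEq W T x 0) : OrdEq W T (g • x) 0 := by
  rw [ordEq_zero_iff] at hx ⊢
  refine ⟨fun h => hx.1 ((smul_eq_zero_iff_eq g).mp h), casa_mem hg hx.2.1, ?_⟩
  rw [← smul_inv'']
  exact casa_mem hg hx.2.2

omit [Algebra ℂ F] in
theorem casa_pos {W : ValuationSubring F} {T : F} (hT : IsUnif W T) {g : G₀}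
    (hg : g ∈ inert G₀ W) : ∃ k : ℤ, 1 ≤ k ∧ OrdEq W T (g • T) k := by
  have h0 : g • T ≠ 0 := fun h => hT.1 ((smul_eq_zero_iff_eq g).mp h)
  obtain ⟨k, hk⟩ := exists_ordEq hT h0
  refine ⟨k, ?_, hk⟩
  have hTn : T ∈ W.nonunits := by
    rw [(ordEq_self hT).nonunit_iff hT]
  have h1 := W.nonunits.add_mem (hg T hT.2.1) hTn
  rw [sub_add_cancel] at h1
  exact (hk.nonunit_iff hT).mp h1

/-- Proof. `g` and `g⁻¹` map `W` to `W` and nonunits to nonunits (`inert` is a subgroup), so
`g • T` has order `1`: it is a nonunit, and `g • T = T ^ 2 * h`, `h ∈ W`, would give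
`T = (g⁻¹ • T) ^ 2 * (g⁻¹ • h)`, of order `≥ 2`. -/
theorem inert_ord {W : ValuationSubring F} {T : F} (hT : IsUnif W T) {g : G₀}
    (hg : g ∈ inert G₀ W) : OrdEq W T (g • T) 1 := by
  obtain ⟨k, hk1, hk⟩ := casa_pos hT hg
  obtain ⟨j, hj1, hj⟩ := casa_pos hT ((inert G₀ W).inv_mem hg)
  have hε : OrdEq W T ((g • T) * T ^ (-k)) 0 := by
    have := hk.mul (ordEq_zpow hT (-k)) hT
    rwa [add_neg_cancel] at this
  have hε' := casa_unit ((inert G₀ W).inv_mem hg) hε
  have e : T = (g⁻¹ • ((g • T) * T ^ (-k))) * (g⁻¹ • T) ^ k := by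
    have hz : g⁻¹ • T ≠ 0 := fun h => hT.1 ((smul_eq_zero_iff_eq g⁻¹).mp h)
    rw [smul_mul', inv_smul_smul, casa_zpow]
    rw [mul_assoc, ← zpow_add₀ hz]
    simp
  have h1 := hε'.mul (hj.zpow hT k) hT
  rw [← e] at h1
  have h2 := h1.unique (ordEq_self hT) hT
  have h3 : k * j = 1 := by linarith
  have h4 : k = 1 := by nlinarith
  rw [← h4]
  exact hk

/-- The character of the inertia group: multiplicativity modulo the maximal ideal.

Proof. `(g * h) • T / T = g • (h • T / T) * (g • T / T)` and `g • x ≡ x` modulo nonunits for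
`x = h • T / T ∈ W`. -/
theorem inert_mul {W : ValuationSubring F} {T : F} (hT : IsUnif W T) {g h : G₀}
    (hg : g ∈ inert G₀ W) (hh : h ∈ inert G₀ W) :
    ((g * h) • T) / T - ((g • T) / T) * ((h • T) / T) ∈ W.nonunits := by
  have hh1 := inert_ord hT hh
  have hg1 := inert_ord hT hg
  set x := (h • T) / T with hx
  have hxW : x ∈ W := by
    have := hh1.2.1
    rwa [zpow_neg_one, ← div_eq_mul_inv] at this
  have hgW : (g • T) / T ∈ W := by
    have := hg1.2.1
    rwa [zpow_neg_one, ← div_eq_mul_inv] at this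
  have e1 : h • T = x * T := by
    rw [hx, div_mul_cancel₀ _ hT.1]
  have e2 : ((g * h) • T) / T - ((g • T) / T) * x = (g • x - x) * ((g • T) / T) := by
    rw [mul_smul, e1, smul_mul']
    field_simp
  rw [e2]
  exact nonunit_mul (hg x hxW) hgW

/-- Proof. `z = ε T^a` with a unit `ε`; `c = g z / z = (g ε / ε) (g T / T)^a` and
`g ε / ε ≡ 1` modulo nonunits. -/
theorem inert_eig {W : ValuationSubring F} {T : F} (hT : IsUnif W T) {g : G₀}
    (hg : g ∈ inert G₀ W) (z : F) (c : ℂ) (hz : g • z = algebraMap ℂ F c * z) (a : ℤ)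
    (ha : OrdEq W T z a) : algebraMap ℂ F c - ((g • T) / T) ^ a ∈ W.nonunits := by
  have hg1 := inert_ord hT hg
  set ε := z * T ^ (-a) with hε
  have hε0 : OrdEq W T ε 0 := by
    have := ha.mul (ordEq_zpow hT (-a)) hT
    rwa [add_neg_cancel] at this
  have hε1 := ordEq_zero_iff.mp hε0
  have hgT : OrdEq W T ((g • T) / T) 0 := by
    have := hg1.mul (ordEq_self hT).inv hT
    rwa [← div_eq_mul_inv, add_neg_cancel] at this
  have hgTa : ((g • T) / T) ^ a ∈ W := by
    have := hgT.zpow hT a
    rw [mul_zero] at this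
    exact (ordEq_zero_iff.mp this).2.1
  have hT0 : T ^ a ≠ 0 := zpow_ne_zero _ hT.1
  have e1 : z = ε * T ^ a := by
    rw [hε, mul_assoc, ← zpow_add₀ hT.1]
    simp
  have e2 : algebraMap ℂ F c * (ε * T ^ a) = (g • ε) * (g • T) ^ a := by
    rw [← e1, ← hz, e1, smul_mul', casa_zpow]
  have e3 : algebraMap ℂ F c = (g • ε) * ε⁻¹ * ((g • T) / T) ^ a := by
    rw [div_zpow]
    have := hε1.1
    field_simp
    linear_combination e2
  have e4 : algebraMap ℂ F c - ((g • T) / T) ^ a = (g • ε - ε) * (ε⁻¹ * ((g • T) / T) ^ a) := by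
    rw [e3, sub_mul, ← mul_assoc ε, mul_inv_cancel₀ hε1.1]
    ring
  rw [e4]
  exact nonunit_mul (hg ε hε1.2.1) (W.mul_mem _ _ hε1.2.2 hgTa)

end General

end H5ML

end S_CasA

section S_Cas

/-!
# CAS: the inertia groups
-/

namespace H5ML

open MvPolynomial

section General

variable {F : Type} [Field F] [Algebra ℂ F] {G₀ : Type} [Group G₀] [MulSemiringAction G₀ F]

theorem cas_mem {W : ValuationSubring F} {T : F} (hT : IsUnif W T) {g : G₀}
    (hg : g ∈ inert G₀ W) : (g • T) / T ∈ W := by
  have h := (inert_ord hT hg).2.1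
  rwa [zpow_neg, zpow_one, ← div_eq_mul_inv] at h

theorem cas_ne {W : ValuationSubring F} {T : F} (hT : IsUnif W T) {g : G₀}
    (hg : g ∈ inert G₀ W) : (g • T) / T ∉ W.nonunits := by
  have h := (inert_ord hT hg).2.2
  rw [zpow_neg, zpow_one, ← div_eq_mul_inv] at h
  have h0 : (g • T) / T ≠ 0 := div_ne_zero (inert_ord hT hg).1 hT.1
  rw [W.mem_nonunits_iff_or]
  rintro (h1 | h1)
  · exact h0 h1
  · exact h1 h

omit [Algebra ℂ F] in
theorem cas_res_eq_zero {W : ValuationSubring F} (x : W) :
    IsLocalRing.residue W x = 0 ↔ (x : F) ∈ W.nonunits := by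
  rw [IsLocalRing.residue_eq_zero_iff, IsLocalRing.mem_maximalIdeal, mem_nonunits_iff,
    W.mem_nonunits_iff, ← W.valuation_lt_one_iff]
  rfl

/-- The character of the inertia group. -/
noncomputable def cas_rho {W : ValuationSubring F} {T : F} (hT : IsUnif W T) :
    inert G₀ W →* IsLocalRing.ResidueField W where
  toFun g := IsLocalRing.residue W ⟨((g : G₀) • T) / T, cas_mem hT g.2⟩
  map_one' := by
    have : (⟨((1 : inert G₀ W) : G₀) • T / T, cas_mem hT (1 : inert G₀ W).2⟩ : W) = 1 := by
      apply Subtype.ext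
      change ((1 : G₀) • T) / T = 1
      rw [one_smul, div_self hT.1]
    rw [this, map_one]
  map_mul' g h := by
    rw [← map_mul, ← sub_eq_zero, ← map_sub, cas_res_eq_zero]
    exact inert_mul hT g.2 h.2

/-- The residues of the constants. -/
noncomputable def cas_cr {W : ValuationSubring F} (hC : ∀ c : ℂ, algebraMap ℂ F c ∈ W) :
    ℂ →+* IsLocalRing.ResidueField W :=
  (IsLocalRing.residue W).comp ((algebraMap ℂ F).codRestrict W.toSubring hC)

theorem cas_eig {W : ValuationSubring F} {T : F} (hT : IsUnif W T)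
    (hC : ∀ c : ℂ, algebraMap ℂ F c ∈ W) (g : inert G₀ W) (z : F) (c : ℂ)
    (hz : (g : G₀) • z = algebraMap ℂ F c * z) (a : ℕ) (ha : OrdEq W T z a) :
    cas_cr hC c = cas_rho hT g ^ a := by
  have h := inert_eig hT g.2 z c hz a ha
  have h1 : cas_rho hT g ^ a =
      IsLocalRing.residue W (⟨((g : G₀) • T) / T, cas_mem hT g.2⟩ ^ a) := by
    rw [map_pow]
    rfl
  rw [h1, ← sub_eq_zero]
  change IsLocalRing.residue W _ - _ = 0
  rw [← map_sub, cas_res_eq_zero]
  rw [zpow_natCast] at h
  exact h

omit [Algebra ℂ F] in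
/-- The order of a nonunit is a positive natural number. -/
theorem cas_nat {W : ValuationSubring F} {T : F} (hT : IsUnif W T) {z : F} {a : ℤ}
    (ha : OrdEq W T z a) (hz : z ∈ W.nonunits) : ∃ n : ℕ, 1 ≤ n ∧ a = n := by
  have h := (ha.nonunit_iff hT).1 hz
  obtain ⟨n, rfl⟩ := Int.eq_ofNat_of_zero_le (show 0 ≤ a by omega)
  exact ⟨n, by omega, rfl⟩

end General

theorem cas_smul (g : G) (a : A) : g • algebraMap A FA a = algebraMap A FA (act g a) := by
  rw [← smul_eq]
  exact (algebraMap.coe_smul' g a FA).symm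

theorem cas_C (c : ℂ) : algebraMap A FA (C c) = algebraMap ℂ FA c := by
  rw [IsScalarTower.algebraMap_apply ℂ A FA]
  rfl

theorem cas_act_lin_inl (k : ZMod 241) (i : Fin 3) :
    act (.sr k) (lin k (.inl i)) = C (-1) * lin k (.inl i) := by
  have h : (C (chi (u i * k)) : A) * C (chi (-(u i * k))) = 1 := by
    rw [← C_mul, mul_comm, chi_neg_mul, C_1]
  change act (.sr k) (xx i - C (chi (u i * k)) * yy i) = C (-1) * (xx i - C (chi (u i * k)) * yy i)
  have hC : act (.sr k) (C (chi (u i * k))) = C (chi (u i * k)) := by simp [act]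
  rw [map_sub, map_mul, hC, act_xx_sr, act_yy_sr, C_neg, C_1]
  linear_combination (-xx i) * h

theorem cas_act_lin_inr (k : ZMod 241) (i : Fin 3) :
    act (.sr k) (lin k (.inr (.inl i))) = C 1 * lin k (.inr (.inl i)) := by
  have h : (C (chi (u i * k)) : A) * C (chi (-(u i * k))) = 1 := by
    rw [← C_mul, mul_comm, chi_neg_mul, C_1]
  change act (.sr k) (xx i + C (chi (u i * k)) * yy i) = C 1 * (xx i + C (chi (u i * k)) * yy i)
  have hC : act (.sr k) (C (chi (u i * k))) = C (chi (u i * k)) := by simp [act]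
  rw [map_add, map_mul, hC, act_xx_sr, act_yy_sr, C_1]
  linear_combination (xx i) * h

theorem cas_xx_ne (i : Fin 3) : algebraMap A FA (xx i) ≠ 0 := by
  rw [Ne, map_eq_zero_iff _ (IsFractionRing.injective A FA)]
  exact X_ne_zero _

theorem cas_yy_ne (i : Fin 3) : algebraMap A FA (yy i) ≠ 0 := by
  rw [Ne, map_eq_zero_iff _ (IsFractionRing.injective A FA)]
  exact X_ne_zero _

theorem cas_tt_ne (l : Fin 5) : algebraMap A FA (tt l) ≠ 0 := by
  rw [Ne, map_eq_zero_iff _ (IsFractionRing.injective A FA)]
  exact X_ne_zero _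

instance cas_fact : Fact (Nat.Prime 241) := ⟨by norm_num⟩

/-- Proof. Write `ρ g` for the class of `g • T / T` in the residue field `κ` of `W`, a
homomorphism from the inertia group to `κˣ` (`inert_mul`). `ℂ ⊆ κ` (by `hC`, a complex number is
in `W.nonunits` only if it is `0`).

(1) Rotations: let `r k ∈ inert`, `k ≠ 0`. `(r k) ^ 241 = 1`, so `(ρ (r k)) ^ 241 = 1`. By
`inert_eig` with `z = x_0`, `c = χ (15 k) ≠ 1`: `ρ (r k) ≠ 1`, so `ρ (r k)` has order exactly
`241` (prime). With `z = t_l`, `c = 1`: `ρ (r k) ^ a = 1`, `a = ord t_l`, so `241 ∣ a`, and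
`a ≥ 1` because `t_l` is a nonunit; so `a ≥ 241`. With `z = x_i * y_i`, `c = 1`: `241 ∣ a + b`,
`a + b ≥ 2`, so `a + b ≥ 241`.
In this case no reflection `sr j` is in `inert`: `sr j * r k * (sr j)⁻¹ = (r k)⁻¹`, so
`ρ (r k) = ρ (r k)⁻¹` (`κˣ` is commutative) and `ρ (r k) ^ 2 = 1`, impossible. So
`inert ⊆ {r k}` has at most `241` elements: second alternative.

(2) No rotation `r k`, `k ≠ 0`, in `inert`. If there is no reflection, `inert` is trivial: first
alternative. Otherwise let `sr k ∈ inert`; for another reflection `sr j ∈ inert` the product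
`sr k * sr j = r (j - k)` is in `inert`, so `j = k`. So `inert = {1, sr k}` has two elements. Let
`ρ = ρ (sr k)`; `ρ ^ 2 = 1` as `(sr k) ^ 2 = 1`. The forms `lin k v` are eigenvectors
(`act_xx_sr`, `act_yy_sr`, `act_tt_sr`, `chi_neg_mul`): with eigenvalue `-1` for `v = inl i`,
`inr (inr l)` and `1` for `v = inr (inl i)`. With `z = t_0`: `ρ ^ a = -1`, so `ρ ≠ 1` and
`ρ = -1` (`κ` is a field, `-1 ≠ 1`). Since `lin k v ≠ 0` is a nonunit its order is `≥ 1`; for
`v = inr (inl i)`: `(-1) ^ a = 1` so `a` is even, hence `≥ 2`: third alternative. -/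
theorem inert_cases (W : ValuationSubring FA) (T : FA) (hT : IsUnif W T)
    (hC : ∀ c : ℂ, algebraMap ℂ FA c ∈ W)
    (hA : ∀ v : Ix, algebraMap A FA (X v) ∈ W.nonunits) :
    Nat.card (inert G W) = 1 ∨
    (Nat.card (inert G W) ≤ 241 ∧
      (∀ (i : Fin 3) (a b : ℤ), OrdEq W T (algebraMap A FA (xx i)) a →
        OrdEq W T (algebraMap A FA (yy i)) b → 241 ≤ a + b) ∧
      ∀ (l : Fin 5) (a : ℤ), OrdEq W T (algebraMap A FA (tt l)) a → 241 ≤ a) ∨
    (Nat.card (inert G W) = 2 ∧ ∃ k : ZMod 241, ∀ (v : Ix) (a : ℤ),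
      OrdEq W T (algebraMap A FA (lin k v)) a → (wt v : ℤ) ≤ a) := by
  have hcrinj : Function.Injective (cas_cr hC) := (cas_cr hC).injective
  by_cases hrot : ∃ k : ZMod 241, k ≠ 0 ∧ (DihedralGroup.r k : G) ∈ inert G W
  · -- a rotation
    right; left
    obtain ⟨k, hk, hkm⟩ := hrot
    obtain ⟨p, hp⟩ : ∃ p, p = cas_rho hT (⟨DihedralGroup.r k, hkm⟩ : inert G W) := ⟨_, rfl⟩
    have hp241 : p ^ 241 = 1 := by
      rw [hp, ← map_pow]
      have : (⟨DihedralGroup.r k, hkm⟩ : inert G W) ^ 241 = 1 := by
        apply Subtype.ext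
        change (DihedralGroup.r k : G) ^ 241 = 1
        rw [DihedralGroup.r_pow]
        have : k * (241 : ℕ) = 0 := by
          rw [CharP.cast_eq_zero, mul_zero]
        rw [this]
        rfl
      rw [this, map_one]
    have hp1 : p ≠ 1 := by
      intro h1
      obtain ⟨a, ha⟩ := exists_ordEq hT (cas_xx_ne 0)
      obtain ⟨n, hn, rfl⟩ := cas_nat hT ha (hA _)
      have h2 := cas_eig hT hC (⟨DihedralGroup.r k, hkm⟩ : inert G W)
        (algebraMap A FA (xx 0)) (chi (u 0 * k)) (by
          change (DihedralGroup.r k : G) • algebraMap A FA (xx 0) = _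
          rw [cas_smul, act_xx_r, map_mul, cas_C]) n ha
      rw [← hp, h1, one_pow] at h2
      have h3 : chi (u 0 * k) = 1 := hcrinj (by rw [h2, map_one])
      rw [chi_eq_one_iff] at h3
      rcases mul_eq_zero.1 h3 with h4 | h4
      · revert h4
        change ((15 : ℕ) : ZMod 241) = 0 → False
        decide
      · exact hk h4
    have hord : orderOf p = 241 := orderOf_eq_prime hp241 hp1
    have hdvd : ∀ n : ℕ, 1 ≤ n → p ^ n = 1 → 241 ≤ n := by
      intro n hn h
      rw [← hord]
      exact Nat.le_of_dvd (by omega) (orderOf_dvd_of_pow_eq_one h)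
    refine ⟨?_, ?_, ?_⟩
    · -- no reflection
      have hnor : ∀ j : ZMod 241, (DihedralGroup.sr j : G) ∉ inert G W := by
        intro j hj
        have hk' : (DihedralGroup.r (-k) : G) ∈ inert G W := by
          have := (inert G W).inv_mem hkm
          rwa [DihedralGroup.inv_r] at this
        have e1 : (⟨DihedralGroup.sr j, hj⟩ : inert G W) * ⟨DihedralGroup.r k, hkm⟩ =
            ⟨DihedralGroup.r (-k), hk'⟩ * ⟨DihedralGroup.sr j, hj⟩ := by
          apply Subtype.ext
          change (DihedralGroup.sr j : G) * DihedralGroup.r k =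
            DihedralGroup.r (-k) * DihedralGroup.sr j
          rw [DihedralGroup.sr_mul_r, DihedralGroup.r_mul_sr]
          congr 1
          ring
        have e2 : (⟨DihedralGroup.r (-k), hk'⟩ : inert G W) * ⟨DihedralGroup.r k, hkm⟩ = 1 := by
          apply Subtype.ext
          change (DihedralGroup.r (-k) : G) * DihedralGroup.r k = 1
          rw [DihedralGroup.r_mul_r, neg_add_cancel]
          rfl
        have e3 := congrArg (cas_rho hT) e1
        have e4 := congrArg (cas_rho hT) e2
        rw [map_mul, map_mul, ← hp] at e3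
        rw [map_mul, map_one, ← hp] at e4
        have hne : cas_rho hT (⟨DihedralGroup.sr j, hj⟩ : inert G W) ≠ 0 := by
          intro h0
          have e5 : (⟨DihedralGroup.sr j, hj⟩ : inert G W) * ⟨DihedralGroup.sr j, hj⟩ = 1 := by
            apply Subtype.ext
            change (DihedralGroup.sr j : G) * DihedralGroup.sr j = 1
            exact DihedralGroup.sr_mul_self j
          have e6 := congrArg (cas_rho hT) e5
          rw [map_mul, map_one, h0, zero_mul] at e6
          exact zero_ne_one e6
        have e7 : p = cas_rho hT (⟨DihedralGroup.r (-k), hk'⟩ : inert G W) := by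
          apply mul_left_cancel₀ hne
          rw [e3, mul_comm]
        rw [← e7, ← pow_two] at e4
        have := hdvd 2 (by norm_num) e4
        omega
      have hall : ∀ g : inert G W, ∃ j : ZMod 241, (g : G) = DihedralGroup.r j := by
        rintro ⟨g, hg⟩
        rcases g with j | j
        · exact ⟨j, rfl⟩
        · exact absurd hg (hnor j)
      choose f hf using hall
      have hinj : Function.Injective f := by
        intro g h hgh
        apply Subtype.ext
        rw [hf g, hf h, hgh]
      calc Nat.card (inert G W) ≤ Nat.card (ZMod 241) := Nat.card_le_card_of_injective f hinj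
        _ = 241 := by rw [Nat.card_eq_fintype_card, ZMod.card]
    · intro i a b ha hb
      obtain ⟨n, hn, rfl⟩ := cas_nat hT ha (hA _)
      obtain ⟨m, hm, rfl⟩ := cas_nat hT hb (hA _)
      have h2 := cas_eig hT hC (⟨DihedralGroup.r k, hkm⟩ : inert G W)
        (algebraMap A FA (xx i) * algebraMap A FA (yy i)) 1 (by
          change (DihedralGroup.r k : G) • (algebraMap A FA (xx i) * algebraMap A FA (yy i)) = _
          rw [smul_mul', cas_smul, cas_smul, act_xx_r, act_yy_r, map_mul, map_mul, cas_C, cas_C,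
            map_one, one_mul]
          have : algebraMap ℂ FA (chi (u i * k)) * algebraMap ℂ FA (chi (-(u i * k))) = 1 := by
            rw [← map_mul, mul_comm, chi_neg_mul, map_one]
          linear_combination (algebraMap A FA (xx i) * algebraMap A FA (yy i)) * this)
        (n + m) (by push_cast; exact ha.mul hb hT)
      rw [map_one, ← hp] at h2
      have := hdvd (n + m) (by omega) h2.symm
      exact_mod_cast this
    · intro l a ha
      obtain ⟨n, hn, rfl⟩ := cas_nat hT ha (hA _)
      have h2 := cas_eig hT hC (⟨DihedralGroup.r k, hkm⟩ : inert G W)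
        (algebraMap A FA (tt l)) 1 (by
          change (DihedralGroup.r k : G) • algebraMap A FA (tt l) = _
          rw [cas_smul, act_tt_r, map_one, one_mul]) n ha
      rw [map_one, ← hp] at h2
      exact_mod_cast hdvd n hn h2.symm
  · push Not at hrot
    by_cases href : ∃ k : ZMod 241, (DihedralGroup.sr k : G) ∈ inert G W
    · right; right
      obtain ⟨k, hk⟩ := href
      refine ⟨?_, k, ?_⟩
      · have hset : (inert G W : Set G) = {1, DihedralGroup.sr k} := by
          ext g
          rw [SetLike.mem_coe, Set.mem_insert_iff, Set.mem_singleton_iff]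
          constructor
          · intro hg
            rcases g with j | j
            · left
              by_cases hj : j = 0
              · rw [hj]; rfl
              · exact absurd hg (hrot j hj)
            · right
              have h := (inert G W).mul_mem hk hg
              rw [DihedralGroup.sr_mul_sr] at h
              have hj : j - k = 0 := by
                by_contra hne
                exact hrot _ hne h
              rw [sub_eq_zero.1 hj]
          · rintro (rfl | rfl)
            · exact (inert G W).one_mem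
            · exact hk
        have h1 : Nat.card (inert G W) = (inert G W : Set G).ncard := rfl
        rw [h1, hset]
        exact Set.ncard_pair (by
          rw [DihedralGroup.one_def]
          exact fun h => by cases h)
      · obtain ⟨p, hp⟩ : ∃ p, p = cas_rho hT (⟨DihedralGroup.sr k, hk⟩ : inert G W) := ⟨_, rfl⟩
        have hp2 : p * p = 1 := by
          have e5 : (⟨DihedralGroup.sr k, hk⟩ : inert G W) * ⟨DihedralGroup.sr k, hk⟩ = 1 := by
            apply Subtype.ext
            change (DihedralGroup.sr k : G) * DihedralGroup.sr k = 1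
            exact DihedralGroup.sr_mul_self k
          have e6 := congrArg (cas_rho hT) e5
          rw [map_mul, map_one, ← hp] at e6
          exact e6
        have hne1 : cas_cr hC (-1) ≠ 1 := by
          intro h
          have h2 : (-1 : ℂ) = 1 := hcrinj (by rw [h, map_one])
          norm_num at h2
        have hpm : p = -1 := by
          have hpne : p ≠ 1 := by
            intro h1
            obtain ⟨a, ha⟩ := exists_ordEq hT (cas_tt_ne 0)
            obtain ⟨n, hn, rfl⟩ := cas_nat hT ha (hA _)
            have h2 := cas_eig hT hC (⟨DihedralGroup.sr k, hk⟩ : inert G W)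
              (algebraMap A FA (tt 0)) (-1) (by
                change (DihedralGroup.sr k : G) • algebraMap A FA (tt 0) = _
                rw [cas_smul, act_tt_sr, map_neg, map_neg, map_one, neg_one_mul]) n ha
            rw [← hp, h1, one_pow] at h2
            exact hne1 h2
          have h3 : (p - 1) * (p + 1) = 0 := by linear_combination hp2
          rcases mul_eq_zero.1 h3 with h4 | h4
          · exact absurd (sub_eq_zero.1 h4) hpne
          · exact eq_neg_of_add_eq_zero_left h4
        have hnon : ∀ v : Ix, algebraMap A FA (lin k v) ∈ W.nonunits := by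
          have hcy : ∀ i : Fin 3, algebraMap A FA (C (chi (u i * k)) * yy i) ∈ W.nonunits := by
            intro i
            rw [map_mul, mul_comm, cas_C]
            exact nonunit_mul (hA _) (hC _)
          rintro (i | i | l)
          · change algebraMap A FA (xx i - C (chi (u i * k)) * yy i) ∈ _
            rw [map_sub]
            exact W.nonunits.sub_mem (hA _) (hcy i)
          · change algebraMap A FA (xx i + C (chi (u i * k)) * yy i) ∈ _
            rw [map_add]
            exact W.nonunits.add_mem (hA _) (hcy i)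
          · exact hA _
        intro v a ha
        obtain ⟨n, hn, rfl⟩ := cas_nat hT ha (hnon v)
        rcases v with i | i | l
        · change ((1 : ℕ) : ℤ) ≤ n
          exact_mod_cast hn
        · change ((2 : ℕ) : ℤ) ≤ n
          have h2 := cas_eig hT hC (⟨DihedralGroup.sr k, hk⟩ : inert G W)
            (algebraMap A FA (lin k (.inr (.inl i)))) 1 (by
              change (DihedralGroup.sr k : G) • algebraMap A FA (lin k (.inr (.inl i))) = _
              rw [cas_smul, cas_act_lin_inr, map_mul, cas_C]) n ha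
          rw [← hp, map_one, hpm] at h2
          have h3 : n ≠ 1 := by
            rintro rfl
            rw [pow_one] at h2
            apply hne1
            rw [map_neg, map_one]
            exact h2.symm
          exact_mod_cast (by omega : 2 ≤ n)
        · change ((1 : ℕ) : ℤ) ≤ n
          exact_mod_cast hn
    · left
      push Not at href
      have hbot : inert G W = ⊥ := by
        rw [Subgroup.eq_bot_iff_forall]
        intro g hg
        rcases g with j | j
        · by_cases hj : j = 0
          · rw [hj]; rfl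
          · exact absurd hg (hrot j hj)
        · exact absurd hg (href j)
      rw [hbot]
      exact Subgroup.card_bot

end H5ML

end S_Cas

section S_GeoA

/-!
# GEOA: the valuative criterion for a divisorial contraction
-/

open AlgebraicGeometry CategoryTheory

namespace H5ML

variable {R K : Type} [CommRing R] [Field K] [Algebra R K]

/-- Valuative criterion: every valuation ring of `K` containing `R` dominates the local ring of
some point of `Y`. -/
theorem exists_center {O : ValuationSubring K}
    (C : DivisorialContraction R O) (V : ValuationSubring K) (hV : Over R V) :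
    ∃ y : C.Y, ∀ h ∈ locRing C.Y C.φ y, h ∈ V := by
  -- the ring homomorphisms
  let a : R →+* V :=
    { toFun := fun r => ⟨algebraMap R K r, hV r⟩
      map_one' := Subtype.ext (map_one _)
      map_mul' := fun x y => Subtype.ext (map_mul _ x y)
      map_zero' := Subtype.ext (map_zero _)
      map_add' := fun x y => Subtype.ext (map_add _ x y) }
  let φ' : C.Y.functionField ⟶ CommRingCat.of K := CommRingCat.ofHom (C.φ : C.Y.functionField →+* K)
  let i₁ : Spec (.of K) ⟶ C.Y := Spec.map φ' ≫ C.Y.fromSpecStalk (genericPoint C.Y)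
  let i₂ : Spec (.of V) ⟶ Spec (.of R) := Spec.map (CommRingCat.ofHom a)
  have hsq : CommSq i₁ (Spec.map (CommRingCat.ofHom (algebraMap V K))) C.f i₂ := by
    constructor
    refine ext_of_isAffine ?_
    rw [← cancel_epi (Scheme.ΓSpecIso (.of R)).inv]
    have e1 : (C.Y.fromSpecStalk (genericPoint C.Y)).appTop =
        C.Y.presheaf.germ ⊤ (genericPoint C.Y) trivial ≫
          (Scheme.ΓSpecIso (C.Y.presheaf.stalk (genericPoint C.Y))).inv := by
      rw [Scheme.fromSpecStalk_appTop]
      have : (Spec (C.Y.presheaf.stalk (genericPoint C.Y))).presheaf.map (homOfLE le_top).op =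
        𝟙 _ := CategoryTheory.Functor.map_id _ _
      rw [this, Category.comp_id]
    have e2 : (Scheme.ΓSpecIso (.of R)).inv ≫ (i₁ ≫ C.f).appTop =
        ((Scheme.ΓSpecIso (.of R)).inv ≫ C.f.appTop ≫
          C.Y.presheaf.germ ⊤ (genericPoint C.Y) trivial ≫ φ') ≫
            (Scheme.ΓSpecIso (.of K)).inv := by
      simp only [i₁, Scheme.Hom.comp_appTop, e1, Category.assoc]
      congr 3
      exact (Scheme.ΓSpecIso_inv_naturality φ').symm
    have e3 : (Scheme.ΓSpecIso (.of R)).inv ≫ C.f.appTop ≫
          C.Y.presheaf.germ ⊤ (genericPoint C.Y) trivial ≫ φ' =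
        CommRingCat.ofHom (algebraMap R K) := by
      ext r
      exact C.φ_comp r
    rw [e2, e3]
    have e4 : (Spec.map (CommRingCat.ofHom (algebraMap V K)) ≫ i₂) =
        Spec.map (CommRingCat.ofHom (algebraMap R K)) := by
      rw [← Spec.map_comp, ← CommRingCat.ofHom_comp]
      rfl
    rw [e4]
    exact Scheme.ΓSpecIso_inv_naturality _
  have hex : ValuativeCriterion.Existence C.f := by
    have h1 : UniversallyClosed C.f := inferInstance
    rw [UniversallyClosed.eq_valuativeCriterion] at h1
    exact h1.1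
  obtain ⟨⟨ℓ, hℓ1, hℓ2⟩⟩ := (hex ⟨V, K, i₁, i₂, hsq⟩).exists_lift
  refine ⟨ℓ (IsLocalRing.closedPoint V), ?_⟩
  set y := ℓ (IsLocalRing.closedPoint V) with hy
  let s := Scheme.stalkClosedPointTo ℓ
  have hspec : genericPoint C.Y ⤳ y := (genericPoint_spec C.Y).specializes trivial
  have key : s ≫ CommRingCat.ofHom (algebraMap V K) =
      C.Y.presheaf.stalkSpecializes hspec ≫ φ' := by
    apply Spec.map_injective
    rw [Spec.map_comp, Spec.map_comp, ← cancel_mono (C.Y.fromSpecStalk y), Category.assoc,
      Category.assoc, Scheme.SpecMap_stalkSpecializes_fromSpecStalk]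
    rw [Scheme.Spec_stalkClosedPointTo_fromSpecStalk]
    exact hℓ1
  intro h hh
  obtain ⟨z, rfl⟩ := hh
  have h1 := congrArg (fun m => m.hom z) key
  have h2 : algebraMap V K (s.hom z) = C.φ (algebraMap _ C.Y.functionField z) := h1
  change C.φ (algebraMap _ C.Y.functionField z) ∈ V
  rw [← h2]
  exact (s.hom z).2

end H5ML

end S_GeoA

section S_GeoB

/-!
# GEOB: local rings of an integral scheme in its function field
-/

open AlgebraicGeometry CategoryTheory

namespace H5ML

variable {R K : Type} [CommRing R] [Field K] [Algebra R K]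

/-- The local ring of every point of `Y` contains `R`. -/
theorem mem_locRing {O : ValuationSubring K}
    (C : DivisorialContraction R O) (y : C.Y) (r : R) :
    algebraMap R K r ∈ locRing C.Y C.φ y := by
  refine ⟨(C.Y.presheaf.germ ⊤ y trivial).hom
    (C.f.appTop.hom ((Scheme.ΓSpecIso (.of R)).inv.hom r)), ?_⟩
  rw [← C.φ_comp r]
  change C.φ _ = C.φ _
  congr 1
  have h := C.Y.presheaf.germ_stalkSpecializes (U := ⊤) (y := y) trivial
    ((genericPoint_spec C.Y).specializes trivial)
  have h2 := congrArg (fun m => m.hom (C.f.appTop.hom ((Scheme.ΓSpecIso (.of R)).inv.hom r))) h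
  exact h2

/-- Proof. The map `𝒪_{Y,y} → K(Y)` factors through `𝒪_{Y,η}` (`stalkSpecializes_comp`). -/
theorem locRing_mono (Y : Scheme.{0}) [IsIntegral Y] (φ : Y.functionField ≃+* K)
    (η y : Y) (h : η ⤳ y) (z : K) (hz : z ∈ locRing Y φ y) : z ∈ locRing Y φ η := by
  obtain ⟨s, rfl⟩ := hz
  refine ⟨(Y.presheaf.stalkSpecializes h).hom s, ?_⟩
  change φ _ = φ _
  congr 1
  have h1 := Y.presheaf.stalkSpecializes_comp ((genericPoint_spec Y).specializes trivial) h
  have h2 := congrArg (fun m => m.hom s) h1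
  exact h2

/-- If `η ⤳ y` then the local ring of `η` is a localization of that of `y`. -/
theorem frac_of_specializes (Y : Scheme.{0}) [IsIntegral Y] (φ : Y.functionField ≃+* K)
    (η y : Y) (h : η ⤳ y) (z : K) (hz : z ∈ locRing Y φ η) :
    ∃ a ∈ locRing Y φ y, ∃ a' ∈ locRing Y φ y, a' ≠ 0 ∧ a'⁻¹ ∈ locRing Y φ η ∧ z = a * a'⁻¹ := by
  obtain ⟨_, ⟨U, hU, rfl⟩, hyU, -⟩ :=
    Y.isBasis_affineOpens.exists_subset_of_mem_open (Set.mem_univ y) isOpen_univ
  have hηU : η ∈ U := h.mem_open U.isOpen hyU
  obtain ⟨s, rfl⟩ := hz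
  have : Nonempty U := ⟨⟨y, hyU⟩⟩
  let halg := Y.presheaf.algebra_section_stalk (⟨η, hηU⟩ : U)
  have hloc : IsLocalization.AtPrime (Y.presheaf.stalk η) (hU.primeIdealOf ⟨η, hηU⟩).asIdeal :=
    hU.isLocalization_stalk ⟨η, hηU⟩
  obtain ⟨⟨n, d⟩, hnd⟩ := IsLocalization.surj (M := (hU.primeIdealOf ⟨η, hηU⟩).asIdeal.primeCompl)
    (S := Y.presheaf.stalk η) s
  have hunit := IsLocalization.map_units (S := Y.presheaf.stalk η) d
  have hcomp : ∀ w : Γ(Y, U), algebraMap (Y.presheaf.stalk y) Y.functionField
      ((Y.presheaf.germ U y hyU).hom w) =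
      algebraMap (Y.presheaf.stalk η) Y.functionField ((Y.presheaf.germ U η hηU).hom w) := by
    intro w
    have h1 := Y.presheaf.germ_stalkSpecializes (U := U) hyU
      ((genericPoint_spec Y).specializes trivial)
    have h2 := Y.presheaf.germ_stalkSpecializes (U := U) hηU
      ((genericPoint_spec Y).specializes trivial)
    exact (congrArg (fun m => m.hom w) h1).trans (congrArg (fun m => m.hom w) h2).symm
  have hg : ∀ w : Γ(Y, U), algebraMap Γ(Y, U) (Y.presheaf.stalk η) w =
      (Y.presheaf.germ U η hηU).hom w := fun _ => rfl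
  set δ : K := φ (algebraMap (Y.presheaf.stalk y) Y.functionField
    ((Y.presheaf.germ U y hyU).hom (d : Γ(Y, U)))) with hδ
  have hδ' : δ = φ (algebraMap (Y.presheaf.stalk η) Y.functionField
      (algebraMap Γ(Y, U) (Y.presheaf.stalk η) (d : Γ(Y, U)))) := by
    rw [hδ, hcomp]
    rfl
  obtain ⟨w, hw⟩ := hunit
  have hwδ : δ * φ (algebraMap (Y.presheaf.stalk η) Y.functionField (w⁻¹ : (Y.presheaf.stalk η)ˣ)) =
      1 := by
    rw [hδ', ← hw, ← map_mul, ← map_mul, Units.mul_inv, map_one, map_one]
  have hδ0 : δ ≠ 0 := left_ne_zero_of_mul_eq_one hwδ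
  refine ⟨φ (algebraMap (Y.presheaf.stalk y) Y.functionField
    ((Y.presheaf.germ U y hyU).hom n)), ⟨_, rfl⟩, δ, ⟨_, rfl⟩, hδ0, ?_, ?_⟩
  · rw [← eq_inv_of_mul_eq_one_right hwδ]
    exact ⟨_, rfl⟩
  · rw [eq_mul_inv_iff_mul_eq₀ hδ0, hcomp]
    change φ (algebraMap _ _ s) * δ = _
    rw [hδ', ← map_mul, ← map_mul, hnd]
    rfl

end H5ML

end S_GeoB

section S_GeoC

/-!
# GEOC: consequences of the existence of a divisorial contraction
-/

open AlgebraicGeometry CategoryTheory

namespace H5ML

variable {R K : Type} [CommRing R] [Field K] [Algebra R K]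

/-- Divisibility by powers of a section which generates `𝒪_Y(-nE)` at `y`. -/
theorem geoc_point {O : ValuationSubring K} (C : DivisorialContraction R O) {t : K}
    (ht : IsUnif O t) (y : C.Y) (n : ℕ) (s : R) (hs : OrdGe O n (algebraMap R K s))
    (hU : idealSheafStalk C.Y C.φ O C.η n y =
      {h | ∃ g ∈ locRing C.Y C.φ y, h = algebraMap R K s * g}) :
    ∀ (N : ℕ), ∀ b ∈ locRing C.Y C.φ y, (C.η ⤳ y → OrdGe O (N * n) b) →
      ∃ c ∈ locRing C.Y C.φ y, b = algebraMap R K s ^ N * c := by
  have hO : ∀ z : K, z ∈ locRing C.Y C.φ C.η ↔ z ∈ O := fun z => by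
    have := C.loc_η
    rw [Set.ext_iff] at this
    exact this z
  by_cases hη : C.η ⤳ y
  · obtain ⟨a, ha, a', ha', ha0, hai, hta⟩ :=
      frac_of_specializes C.Y C.φ C.η y hη t ((hO t).2 ht.2.1)
    have ha'O : a' ∈ O := (hO _).1 (locRing_mono C.Y C.φ C.η y hη a' ha')
    have haiO : a'⁻¹ ∈ O := (hO _).1 hai
    have haeq : a = a' * t := by
      rw [hta, mul_comm a, ← mul_assoc, mul_inv_cancel₀ ha0, one_mul]
    have hord : OrdEq O t a 1 := by
      rw [haeq]
      exact (ordEq_self ht).unit_mul ha0 ha'O haiO ht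
    have hordn : OrdEq O t (a ^ n) n := by
      simpa using hord.pow ht n
    have hmem : a ^ n ∈ idealSheafStalk C.Y C.φ O C.η n y :=
      ⟨pow_mem ha n, fun _ => (hordn.ordGe_iff ht n).2 le_rfl⟩
    rw [hU] at hmem
    obtain ⟨g, hg, hag⟩ := hmem
    have hgO : g ∈ O := (hO _).1 (locRing_mono C.Y C.φ C.η y hη g hg)
    have hsne : algebraMap R K s ≠ 0 := fun h => hordn.1 (by rw [hag, h, zero_mul])
    have hgne : g ≠ 0 := fun h => hordn.1 (by rw [hag, h, mul_zero])
    obtain ⟨m, hm⟩ := exists_ordEq ht hsne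
    obtain ⟨k, hk⟩ := exists_ordEq ht hgne
    have h1 := (hm.ordGe_iff ht n).1 hs
    have h2 := (hk.mem_iff ht).1 hgO
    have h3 := hm.mul hk ht
    rw [← hag] at h3
    have h4 := hordn.unique h3 ht
    have hmn : m = n := by omega
    subst hmn
    intro N
    induction N with
    | zero =>
      intro b hb _
      exact ⟨b, hb, by simp⟩
    | succ N ih =>
      intro b hb hbo
      have hbo' := hbo hη
      have hbn : OrdGe O n b := by
        rcases eq_or_ne b 0 with rfl | hb0
        · exact ⟨t, ht, by rw [zero_mul]; exact O.zero_mem⟩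
        · obtain ⟨j, hj⟩ := exists_ordEq ht hb0
          have := (hj.ordGe_iff ht _).1 hbo'
          rw [hj.ordGe_iff ht]
          push_cast at this
          nlinarith
      have hbm : b ∈ idealSheafStalk C.Y C.φ O C.η n y := ⟨hb, fun _ => hbn⟩
      rw [hU] at hbm
      obtain ⟨g', hg', hbg⟩ := hbm
      obtain ⟨c, hc, hgc⟩ := ih g' hg' (fun _ => by
        rcases eq_or_ne g' 0 with rfl | hg0
        · exact ⟨t, ht, by rw [zero_mul]; exact O.zero_mem⟩
        · obtain ⟨j, hj⟩ := exists_ordEq ht hg0
          have h5 := hm.mul hj ht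
          rw [← hbg] at h5
          have := (h5.ordGe_iff ht _).1 hbo'
          rw [hj.ordGe_iff ht]
          push_cast at this ⊢
          linarith)
      exact ⟨c, hc, by rw [hbg, hgc, pow_succ]; ring⟩
  · have hmem : (1 : K) ∈ idealSheafStalk C.Y C.φ O C.η n y :=
      ⟨one_mem _, fun h => absurd h hη⟩
    rw [hU] at hmem
    obtain ⟨g, hg, hg1⟩ := hmem
    intro N b hb _
    refine ⟨g ^ N * b, mul_mem (pow_mem hg N) hb, ?_⟩
    rw [← mul_assoc, ← mul_pow, ← hg1, one_pow, one_mul]

theorem geo {O : ValuationSubring K} (C : DivisorialContraction R O) (hO : ∃ t, IsUnif O t) :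
    ∃ q : ℕ, 1 ≤ q ∧ ∃ I : Finset R, (∀ s ∈ I, OrdGe O q (algebraMap R K s)) ∧
      ∀ V : ValuationSubring K, Over R V → ∃ s ∈ I, ∀ (j : ℕ) (b : R),
        OrdGe O (q * j) (algebraMap R K b) →
          ∃ c ∈ V, algebraMap R K b = algebraMap R K s ^ j * c := by
  classical
  obtain ⟨t, ht⟩ := hO
  have hcomp : CompactSpace C.Y := QuasiCompact.compactSpace_of_compactSpace C.f
  choose n hn s hs U hUa hyU hU using C.ample
  obtain ⟨T, hT⟩ := CompactSpace.elim_nhds_subcover (fun y => (U y : Set C.Y))
    (fun y => (U y).isOpen.mem_nhds (hyU y))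
  set q : ℕ := ∏ y ∈ T, n y with hq
  have hq1 : 1 ≤ q := Nat.one_le_iff_ne_zero.2
    (Finset.prod_ne_zero_iff.2 fun y _ => by have := hn y; omega)
  have hdiv : ∀ y ∈ T, q / n y * n y = q := fun y hy =>
    Nat.div_mul_cancel (Finset.dvd_prod_of_mem n hy)
  refine ⟨q, hq1, T.image fun y => s y ^ (q / n y), ?_, ?_⟩
  · intro r hr
    obtain ⟨y, hy, rfl⟩ := Finset.mem_image.1 hr
    rw [map_pow]
    rcases eq_or_ne (algebraMap R K (s y)) 0 with h0 | h0
    · have hne : q / n y ≠ 0 := by
        intro h
        have := hdiv y hy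
        rw [h] at this
        omega
      rw [h0, zero_pow hne]
      exact ⟨t, ht, by rw [zero_mul]; exact O.zero_mem⟩
    · obtain ⟨m, hm⟩ := exists_ordEq ht h0
      have h1 := (hm.ordGe_iff ht _).1 (hs y)
      rw [(hm.pow ht _).ordGe_iff ht]
      have h2 : ((q : ℕ) : ℤ) = ((q / n y : ℕ) : ℤ) * (n y : ℤ) := by
        exact_mod_cast (hdiv y hy).symm
      rw [h2]
      exact mul_le_mul_of_nonneg_left h1 (by positivity)
  · intro V hV
    obtain ⟨z, hz⟩ := exists_center C V hV
    have hzT : z ∈ ⋃ y ∈ T, (U y : Set C.Y) := by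
      rw [hT]
      trivial
    simp only [Set.mem_iUnion] at hzT
    obtain ⟨y, hy, hzy⟩ := hzT
    refine ⟨s y ^ (q / n y), Finset.mem_image_of_mem _ hy, fun j b hb => ?_⟩
    obtain ⟨c, hc, hbc⟩ := geoc_point C ht z (n y) (s y) (hs y) ((hU y z).1 hzy)
      (q / n y * j) _ (mem_locRing C z b) (fun _ => by
        have : q / n y * j * n y = q * j := by
          rw [mul_right_comm, hdiv y hy]
        rw [this]
        exact hb)
    refine ⟨c, hz c hc, ?_⟩
    rw [map_pow, ← pow_mul]
    exact hbc

end H5ML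

end S_GeoC

section S_Ext

/-!
# EXT: extension of a discrete valuation ring to a Galois extension
-/

namespace H5ML

open WithZero IsDedekindDomain

section Dedekind

variable {B F : Type} [CommRing B] [IsDedekindDomain B] [Field F] [Algebra B F]
  [IsFractionRing B F] (v : HeightOneSpectrum B)

theorem ext_val_eq_exp {h : F} (hh : h ≠ 0) : ∃ n : ℤ, v.valuation F h = exp n := by
  have h0 : v.valuation F h ≠ 0 := by simpa using hh
  exact ⟨log (v.valuation F h), (exp_log h0).symm⟩

theorem ext_ordEq {T h : F} (hT : v.valuation F T = exp (-1 : ℤ)) {n : ℤ}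
    (hh : v.valuation F h = exp (-n)) : OrdEq (v.valuation F).valuationSubring T h n := by
  have hT0 : T ≠ 0 := by
    rintro rfl
    rw [map_zero] at hT
    exact exp_ne_zero hT.symm
  have h0 : h ≠ 0 := by
    rintro rfl
    rw [map_zero] at hh
    exact exp_ne_zero hh.symm
  have key : v.valuation F (h * T ^ (-n)) = 1 := by
    rw [map_mul, map_zpow₀, hT, hh, ← exp_zsmul, ← exp_add]
    simp
  refine ⟨h0, ?_, ?_⟩
  · rw [Valuation.mem_valuationSubring_iff, key]
  · rw [Valuation.mem_valuationSubring_iff, map_inv₀, key, inv_one]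

theorem ext_isUnif {T : F} (hT : v.valuation F T = exp (-1 : ℤ)) :
    IsUnif (v.valuation F).valuationSubring T := by
  have hT0 : T ≠ 0 := by
    rintro rfl
    rw [map_zero] at hT
    exact exp_ne_zero hT.symm
  refine ⟨hT0, ?_, ?_, ?_⟩
  · rw [Valuation.mem_valuationSubring_iff, hT, ← exp_zero, exp_le_exp]
    norm_num
  · rw [Valuation.mem_valuationSubring_iff, map_inv₀, hT, ← exp_neg, ← exp_zero, exp_le_exp]
    norm_num
  · intro h hh
    obtain ⟨n, hn⟩ := ext_val_eq_exp v hh
    have := (ext_ordEq v hT (n := -n) (by rw [hn, neg_neg])).2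
    rw [neg_neg] at this
    exact ⟨n, this⟩

/-- The inertia group of the localization at `v` in terms of the Dedekind domain. -/
theorem ext_inert (G₀ : Type) [Group G₀] [MulSemiringAction G₀ F] [MulSemiringAction G₀ B]
    [SMulDistribClass G₀ B F] (g : G₀) :
    g ∈ inert G₀ (v.valuation F).valuationSubring ↔ g ∈ v.asIdeal.inertia G₀ := by
  have hmem : ∀ b : B, algebraMap B F b ∈ (v.valuation F).valuationSubring.nonunits ↔
      b ∈ v.asIdeal := by
    intro b
    rw [← v.valuation_lt_one_iff_mem (K := F)]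
    rw [ValuationSubring.mem_nonunits_iff_or]
    rw [Valuation.mem_valuationSubring_iff, map_inv₀]
    rcases eq_or_ne (algebraMap B F b) 0 with h | h
    · simp [h]
    · have h0 : v.valuation F (algebraMap B F b) ≠ 0 := by simpa using h
      simp only [h, false_or, not_le]
      rw [one_lt_inv₀ (zero_lt_iff.2 h0)]
  have hsmul : ∀ b : B, algebraMap B F (g • b) = g • algebraMap B F b := fun b =>
    algebraMap.coe_smul' g b F
  have hB : ∀ b : B, algebraMap B F b ∈ (v.valuation F).valuationSubring := fun b => by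
    rw [Valuation.mem_valuationSubring_iff]
    exact v.valuation_le_one b
  constructor
  · intro hg b
    have := hg _ (hB b)
    rw [← hsmul, ← map_sub, hmem] at this
    exact this
  · intro hg h hh
    rw [Valuation.mem_valuationSubring_iff] at hh
    obtain ⟨b, s, hbs⟩ := v.exists_primeCompl_mul_eq_of_integer h hh
    have hg' : ∀ b : B, g • b - b ∈ v.asIdeal := hg
    have hs : (s : B) ∉ v.asIdeal := s.2
    have hgs : g • (s : B) ∉ v.asIdeal := by
      intro hc
      apply hs
      have := v.asIdeal.sub_mem hc (hg' s)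
      simpa using this
    have hs0 : algebraMap B F s ≠ 0 := by
      intro hc
      rw [FaithfulSMul.algebraMap_eq_zero_iff B F] at hc
      exact hs (hc ▸ v.asIdeal.zero_mem)
    have hgs0 : algebraMap B F (g • (s : B)) ≠ 0 := by
      intro hc
      rw [FaithfulSMul.algebraMap_eq_zero_iff B F] at hc
      exact hgs (hc ▸ v.asIdeal.zero_mem)
    have hh2 : h = algebraMap B F b / algebraMap B F s := by
      rw [eq_div_iff hs0, hbs]
    have hgh : g • h = algebraMap B F (g • b) / algebraMap B F (g • (s : B)) := by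
      rw [hh2, smul_div₀', hsmul, hsmul]
    have hdiff : g • h - h = algebraMap B F (s * (g • b - b) - b * (g • (s : B) - s)) /
        algebraMap B F (g • (s : B) * s) := by
      rw [hgh, hh2, div_sub_div _ _ hgs0 hs0]
      congr 1
      · rw [map_sub, map_mul, map_mul, map_sub, map_sub]
        ring
      · rw [map_mul]
    have hnum : s * (g • b - b) - b * (g • (s : B) - s) ∈ v.asIdeal :=
      v.asIdeal.sub_mem (v.asIdeal.mul_mem_left _ (hg' b)) (v.asIdeal.mul_mem_left _ (hg' s))
    have hden : g • (s : B) * s ∉ v.asIdeal := fun hc =>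
      (v.isPrime.mem_or_mem hc).elim hgs hs
    have hden1 : v.valuation F (algebraMap B F (g • (s : B) * s)) = 1 := by
      rw [v.valuation_of_algebraMap]
      exact (v.intValuation_eq_one_iff_mem_primeCompl _).2 hden
    rw [hdiff, div_eq_mul_inv]
    refine nonunit_mul ((hmem _).2 hnum) ?_
    rw [Valuation.mem_valuationSubring_iff, map_inv₀, hden1, inv_one]

end Dedekind

variable {K : Type} [Field K]

theorem ext_dvr {O : ValuationSubring K} {t : K} (ht : IsUnif O t) :
    IsDiscreteValuationRing O ∧ ∃ h : t ∈ O, Irreducible (⟨t, h⟩ : O) := by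
  have hirr : Irreducible (⟨t, ht.2.1⟩ : O) := by
    constructor
    · intro hu
      obtain ⟨s, hs⟩ := isUnit_iff_exists_inv.1 hu
      apply ht.2.2.1
      have hs' : t * (s : K) = 1 := congrArg Subtype.val hs
      rw [← eq_inv_of_mul_eq_one_right hs']
      exact s.2
    · intro a b hab
      have hab' : t = (a : K) * b := congrArg Subtype.val hab
      have ha0 : (a : K) ≠ 0 := fun h => ht.1 (by rw [hab', h, zero_mul])
      have hb0 : (b : K) ≠ 0 := fun h => ht.1 (by rw [hab', h, mul_zero])
      obtain ⟨m, hm⟩ := exists_ordEq ht ha0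
      obtain ⟨n, hn⟩ := exists_ordEq ht hb0
      have h1 := (hm.mem_iff ht).1 a.2
      have h2 := (hn.mem_iff ht).1 b.2
      have hmn := hm.mul hn ht
      rw [← hab'] at hmn
      have h3 := (ordEq_self ht).unique hmn ht
      have aux : ∀ (c : O), OrdEq O t (c : K) 0 → IsUnit c := by
        intro c hc
        rw [ordEq_zero_iff] at hc
        rw [isUnit_iff_exists_inv]
        exact ⟨⟨_, hc.2.2⟩, Subtype.ext (mul_inv_cancel₀ hc.1)⟩
      rcases (by omega : m = 0 ∨ n = 0) with h | h
      · exact Or.inl (aux a (h ▸ hm))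
      · exact Or.inr (aux b (h ▸ hn))
  refine ⟨?_, ht.2.1, hirr⟩
  refine IsDiscreteValuationRing.ofHasUnitMulPowIrreducibleFactorization
    ⟨⟨t, ht.2.1⟩, hirr, ?_⟩
  intro x hx
  have hx0 : (x : K) ≠ 0 := fun h => hx (Subtype.ext h)
  obtain ⟨n, hn⟩ := exists_ordEq ht hx0
  obtain ⟨k, rfl⟩ := Int.eq_ofNat_of_zero_le ((hn.mem_iff ht).1 x.2)
  refine ⟨k, ?_⟩
  have h1 : (x : K) * t ^ (-(k : ℤ)) ∈ O := hn.2.1
  have h2 : ((x : K) * t ^ (-(k : ℤ)))⁻¹ ∈ O := hn.2.2
  have h3 : (x : K) * t ^ (-(k : ℤ)) ≠ 0 := mul_ne_zero hx0 (zpow_ne_zero _ ht.1)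
  let w : Oˣ := ⟨⟨_, h1⟩, ⟨_, h2⟩, Subtype.ext (mul_inv_cancel₀ h3),
    Subtype.ext (inv_mul_cancel₀ h3)⟩
  refine ⟨w, Subtype.ext ?_⟩
  change t ^ k * ((x : K) * t ^ (-(k : ℤ))) = x
  rw [zpow_neg, zpow_natCast, mul_comm (x : K), ← mul_assoc, mul_inv_cancel₀ (pow_ne_zero k ht.1),
    one_mul]

/-- Proof. See the text: `W` is the localization at a maximal ideal `P` of the integral closure
`B` of `O` in `F`; the ramification index is the order of the inertia group. -/
theorem ext_val {F : Type} [Field F] [Algebra ℂ K] [Algebra ℂ F] [Algebra K F]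
    [IsScalarTower ℂ K F] (G₀ : Type) [Group G₀] [Finite G₀] [MulSemiringAction G₀ F]
    [IsGaloisGroup G₀ K F] {O : ValuationSubring K} {t : K} (ht : IsUnif O t)
    (hC : ∀ c : ℂ, algebraMap ℂ K c ∈ O) :
    ∃ (W : ValuationSubring F) (T : F), IsUnif W T ∧ (∀ x : K, algebraMap K F x ∈ W ↔ x ∈ O) ∧
      OrdEq W T (algebraMap K F t) (Nat.card (inert G₀ W)) := by
  obtain ⟨hdvr, htO, hirr⟩ := ext_dvr ht
  have hgal : IsGalois K F := IsGaloisGroup.isGalois G₀ K F
  have hfd : FiniteDimensional K F := IsGaloisGroup.finiteDimensional G₀ K F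
  have hchar : CharZero K := by
    have := (algebraMap ℂ K).injective
    exact charZero_of_injective_algebraMap this
  have hFO : FaithfulSMul O F := by
    rw [faithfulSMul_iff_algebraMap_injective]
    have : (algebraMap O F : O → F) = fun x : O => algebraMap K F (x : K) := rfl
    rw [this]
    exact (algebraMap K F).injective.comp Subtype.val_injective
  let B := integralClosure O F
  have hBD : IsDedekindDomain B := integralClosure.isDedekindDomain O K F
  have hBF : IsFractionRing B F := integralClosure.isFractionRing_of_finite_extension K F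
  have hBfin : Module.Finite O B := IsIntegralClosure.finite O K F B
  let hact : MulSemiringAction Gal(F/K) B := IsIntegralClosure.MulSemiringAction O K F B
  have hdist : SMulDistribClass Gal(F/K) B F := inferInstance
  have hGG : IsGaloisGroup Gal(F/K) O B := IsGaloisGroup.of_isFractionRing Gal(F/K) O B K F
  have hfs : FaithfulSMul O B := inferInstance
  have htf : Module.IsTorsionFree O B := inferInstance
  have hflat : Module.Flat O B := inferInstance
  set p : Ideal O := IsLocalRing.maximalIdeal O with hp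
  have hp0 : p ≠ ⊥ := by
    intro h
    have h1 : (⟨t, htO⟩ : O) ∈ p := (IsLocalRing.mem_maximalIdeal _).2 hirr.not_isUnit
    rw [h, Ideal.mem_bot] at h1
    exact ht.1 (congrArg Subtype.val h1)
  obtain ⟨P, hPm, hPl⟩ : ∃ P : Ideal B, P.IsMaximal ∧ P.LiesOver p :=
    Ideal.exists_maximal_ideal_liesOver_of_isIntegral p
  have hover : ∀ x : O, x ∈ p ↔ algebraMap O B x ∈ P := fun x => by
    rw [hPl.over]
    rfl
  have hP0 : P ≠ ⊥ := by
    intro h
    apply hp0
    rw [eq_bot_iff]
    intro x hx
    have h1 := (hover x).1 hx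
    rw [h, Ideal.mem_bot, FaithfulSMul.algebraMap_eq_zero_iff O B] at h1
    exact h1
  let v : HeightOneSpectrum B := ⟨P, hPm.isPrime, hP0⟩
  have hperf : PerfectField p.ResidueField := by
    let f : ℂ →+* O :=
      { toFun := fun c => ⟨algebraMap ℂ K c, hC c⟩
        map_one' := Subtype.ext (map_one _)
        map_mul' := fun a b => Subtype.ext (map_mul _ a b)
        map_zero' := Subtype.ext (map_zero _)
        map_add' := fun a b => Subtype.ext (map_add _ a b) }
    let g : ℂ →+* p.ResidueField := (algebraMap O p.ResidueField).comp f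
    have : CharZero p.ResidueField := charZero_of_injective_ringHom g.injective
    infer_instance
  have hcard : Nat.card (P.inertia Gal(F/K)) = P.ramificationIdx O := by
    rw [Ideal.card_inertia_eq_ramificationIdxIn p P,
      Ideal.ramificationIdxIn_eq_ramificationIdx p P Gal(F/K)]
  rw [← Ideal.ramificationIdx'_eq_ramificationIdx p P hp0] at hcard
  set e : ℕ := p.ramificationIdx' P with he
  have hpt : p = Ideal.span {(⟨t, htO⟩ : O)} :=
    (IsDiscreteValuationRing.irreducible_iff_uniformizer _).1 hirr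
  set b : B := algebraMap O B ⟨t, htO⟩ with hb
  have hmap : p.map (algebraMap O B) = Ideal.span {b} := by
    rw [hpt, Ideal.map_span, Set.image_singleton]
  have hbF : algebraMap B F b = algebraMap K F t := rfl
  have hb0 : algebraMap B F b ≠ 0 := by
    rw [hbF]
    simpa using ht.1
  obtain ⟨n, hn⟩ := ext_val_eq_exp v hb0
  have hn0 : n ≤ 0 := by
    have := v.valuation_le_one (K := F) b
    rw [hn, ← exp_zero, exp_le_exp] at this
    exact this
  obtain ⟨k, hk⟩ : ∃ k : ℕ, n = -(k : ℤ) := ⟨n.natAbs, by omega⟩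
  subst hk
  have hint : v.intValuation b = exp (-(k : ℤ)) := by
    rw [← v.valuation_of_algebraMap (K := F), hn]
  have h1 : b ∈ P ^ k := (v.intValuation_le_pow_iff_mem b k).1 hint.le
  have h2 : b ∉ P ^ (k + 1) := by
    intro h
    have := (v.intValuation_le_pow_iff_mem b (k + 1)).2 h
    rw [hint, exp_le_exp] at this
    push_cast at this
    omega
  have hek : e = k := by
    rw [he]
    refine Ideal.ramificationIdx'_spec ?_ ?_
    · rw [hmap, Ideal.span_singleton_le_iff_mem]
      exact h1
    · rw [hmap, Ideal.span_singleton_le_iff_mem]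
      exact h2
  obtain ⟨T, hT⟩ := v.valuation_exists_uniformizer F
  refine ⟨(v.valuation F).valuationSubring, T, ext_isUnif v hT, ?_, ?_⟩
  · intro x
    have hle : O ≤ (v.valuation F).valuationSubring.comap (algebraMap K F) := by
      intro y hy
      change algebraMap B F (algebraMap O B ⟨y, hy⟩) ∈ (v.valuation F).valuationSubring
      rw [Valuation.mem_valuationSubring_iff]
      exact v.valuation_le_one _
    have hne : (v.valuation F).valuationSubring.comap (algebraMap K F) ≠ ⊤ := by
      intro h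
      have h3 : t⁻¹ ∈ (v.valuation F).valuationSubring.comap (algebraMap K F) := by
        rw [h]
        exact ValuationSubring.mem_top _
      have h4 : algebraMap K F t⁻¹ ∈ (v.valuation F).valuationSubring := h3
      rw [Valuation.mem_valuationSubring_iff, map_inv₀, map_inv₀, ← hbF, hn, ← exp_neg, ← exp_zero,
        exp_le_exp] at h4
      have h5 : b ∈ P := (hover _).1 ((IsLocalRing.mem_maximalIdeal _).2 hirr.not_isUnit)
      have h6 := (v.intValuation_lt_one_iff_mem b).2 h5
      rw [hint, ← exp_zero, exp_lt_exp] at h6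
      omega
    have heq := ValuationSubring.eq_of_le_of_ne_top O hle hne
    constructor
    · intro hx
      rw [heq]
      exact hx
    · intro hx
      exact hle hx
  · have hc : Nat.card (inert G₀ (v.valuation F).valuationSubring) = k := by
      rw [← hek, ← hcard]
      let E := IsGaloisGroup.mulEquivAlgEquiv G₀ K F
      refine Nat.card_congr (Equiv.subtypeEquiv E.toEquiv fun g => ?_)
      rw [← ext_inert (F := F) v Gal(F/K)]
      rfl
    rw [hc]
    exact ext_ordEq v hT hn

end H5ML

end S_Ext
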