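import Mathlib
import Pool.Agent.H5.MD.P1
import Pool.Agent.H5.MD.P3
import Pool.Agent.H5.MD.P5

section S_MonA

/-!
# MONA: linear change of coordinates
-/

namespace H5ML

open MvPolynomial

/-- The ten elements `lin k v / t_0 ^ wt v`, `v ≠ t_0`. -/
noncomputable def zq (k : ZMod 241) (j : Fin 10) : FA :=
  zk k j.succ * t0 ^ (-(wt (idx j.succ) : ℤ))

/-- The constants in the next statement. -/
noncomputable def thc : Ix → A
  | .inl _ => 2
  | .inr (.inl _) => 2
  | .inr (.inr _) => 1

/-- The inverse substitution. -/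
noncomputable def mona_inv (k : ZMod 241) : Ix → A
  | .inl i => C (1 / 2) * (xx i + yy i)
  | .inr (.inl i) => C (chi (-(u i * k)) / 2) * (yy i - xx i)
  | .inr (.inr l) => tt l

theorem mona_chi (a : ZMod 241) : chi a * chi (-a) = 1 := by
  rw [mul_comm]; exact chi_neg_mul a

theorem mona_comp (k : ZMod 241) (h : A) : aeval (lin k) (aeval (mona_inv k) h) = h := by
  have e : (aeval (lin k)).comp (aeval (mona_inv k)) = AlgHom.id ℂ A := by
    apply MvPolynomial.algHom_ext
    intro v
    rw [AlgHom.comp_apply, aeval_X, AlgHom.id_apply]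
    rcases v with i | i | l
    · simp only [mona_inv, map_mul, map_add, aeval_C, xx, yy, aeval_X, lin, algebraMap_eq]
      have : (C (1 / 2 : ℂ) : A) * 2 = 1 := by
        rw [← map_ofNat (C : ℂ →+* A) 2, ← C_mul, ← C_1]
        norm_num
      linear_combination (X (Sum.inl i)) * this
    · simp only [mona_inv, map_mul, map_sub, aeval_C, xx, yy, aeval_X, lin, algebraMap_eq]
      have : (C (chi (-(u i * k)) / 2) : A) * (2 * C (chi (u i * k))) = 1 := by
        rw [← map_ofNat (C : ℂ →+* A) 2, ← C_mul, ← C_mul]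
        have h1 := mona_chi (u i * k)
        rw [show chi (-(u i * k)) / 2 * (2 * chi (u i * k)) = 1 by linear_combination h1, C_1]
      linear_combination (X (Sum.inr (Sum.inl i))) * this
    · simp only [mona_inv, tt, aeval_X, lin]
  exact DFunLike.congr_fun e h

theorem mona_thetak (k : ZMod 241) (v : Ix) :
    thetak k (lin k v) = Polynomial.C (thc v * X v) * Polynomial.X ^ wt v := by
  have hC : ∀ c : ℂ, thetak k (C c) = Polynomial.C (C c) := by
    intro c
    rw [thetak, aeval_C]
    rfl
  have hx : ∀ i, thetak k (xx i) = thetakX k (.inl i) := fun i => by rw [thetak, xx, aeval_X]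
  have hy : ∀ i, thetak k (yy i) = thetakX k (.inr (.inl i)) := fun i => by
    rw [thetak, yy, aeval_X]
  have ht : ∀ l, thetak k (tt l) = thetakX k (.inr (.inr l)) := fun l => by
    rw [thetak, tt, aeval_X]
  have hc : ∀ i, (Polynomial.C (C (chi (u i * k))) : Polynomial A) *
      Polynomial.C (C (chi (-(u i * k)))) = 1 := by
    intro i
    rw [← Polynomial.C_mul, ← C_mul, mona_chi, C_1, Polynomial.C_1]
  rcases v with i | i | l
  · simp only [lin, map_sub, map_mul, hC, hx, hy]
    simp only [thetakX, thc, wt, xx, yy, map_mul]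
    rw [map_ofNat (Polynomial.C : A →+* Polynomial A) 2]
    linear_combination (-(Polynomial.C (X (Sum.inr (Sum.inl i))) * Polynomial.X ^ 2 -
      Polynomial.C (X (Sum.inl i)) * Polynomial.X)) * hc i
  · simp only [lin, map_add, map_mul, hC, hx, hy]
    simp only [thetakX, thc, wt, xx, yy, map_mul]
    rw [map_ofNat (Polynomial.C : A →+* Polynomial A) 2]
    linear_combination (Polynomial.C (X (Sum.inr (Sum.inl i))) * Polynomial.X ^ 2 -
      Polynomial.C (X (Sum.inl i)) * Polynomial.X) * hc i
  · simp only [lin, ht]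
    simp [thetakX, thc, wt, tt]

/-- Proof. `p_i = x_i - χ y_i`, `q_i = x_i + χ y_i` (`χ = χ (u_i k) ≠ 0`) give
`x_i = (p_i + q_i) / 2`, `y_i = (q_i - p_i) / (2 χ)`: there is an algebra automorphism `L` of `A`
with `L (X v) = lin k v`. Moreover `thetak k (lin k v) = C (2 X_v) ϖ^{wt v}` for `v` an `x` or `y`
index (`chi_neg_mul`) and `= C (X_v) ϖ` for `v = t_l`. -/
theorem exists_lin (k : ZMod 241) (h : A) :
    ∃ H : A, h = aeval (lin k) H ∧
      thetak k h = aeval (fun v : Ix => Polynomial.C (thc v * X v) * Polynomial.X ^ wt v) H := by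
  refine ⟨aeval (mona_inv k) h, (mona_comp k h).symm, ?_⟩
  conv_lhs => rw [← mona_comp k h]
  have e : (thetak k).comp (aeval (lin k)) =
      aeval (fun v : Ix => Polynomial.C (thc v * X v) * Polynomial.X ^ wt v) := by
    apply MvPolynomial.algHom_ext
    intro v
    rw [AlgHom.comp_apply, aeval_X, aeval_X, mona_thetak]
  exact DFunLike.congr_fun e _

end H5ML

end S_MonA

section S_Mon

/-!
# MON: monomial valuations
-/

namespace H5ML

open MvPolynomial

/-- The weight of an exponent. -/
noncomputable def mon_w (α : Ix →₀ ℕ) : ℕ := ∑ v, α v * wt v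

theorem mon_w_idx (α : Ix →₀ ℕ) :
    mon_w α = α (idx 0) + ∑ i : Fin 10, α (idx i.succ) * wt (idx i.succ) := by
  rw [mon_w, ← idx_bijective.sum_comp (fun v => α v * wt v), Fin.sum_univ_succ]
  have : wt (idx 0) = 1 := rfl
  rw [this, mul_one]

theorem mon_zk (k : ZMod 241) (ht : t0 ≠ 0) (i : Fin 10) :
    zk k i.succ = zq k i * t0 ^ (wt (idx i.succ)) := by
  rw [zq, mul_assoc, zpow_neg, zpow_natCast, inv_mul_cancel₀ (pow_ne_zero _ ht), mul_one]

theorem mon_monomial (k : ZMod 241) (ht : t0 ≠ 0) (α : Ix →₀ ℕ) (c : ℂ) :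
    algebraMap A FA (aeval (lin k) (monomial α c)) =
      algebraMap ℂ FA c * t0 ^ mon_w α * ∏ i : Fin 10, zq k i ^ α (idx i.succ) := by
  rw [aeval_monomial, Finsupp.prod_fintype _ _ (fun _ => pow_zero _), map_mul, map_prod,
    ← idx_bijective.prod_comp, Fin.prod_univ_succ, ← IsScalarTower.algebraMap_apply ℂ A FA]
  have h0 : algebraMap A FA (lin k (idx 0) ^ α (idx 0)) = t0 ^ α (idx 0) := by
    rw [map_pow]; rfl
  have h1 : ∀ i : Fin 10, algebraMap A FA (lin k (idx i.succ) ^ α (idx i.succ)) =
      zq k i ^ α (idx i.succ) * t0 ^ (α (idx i.succ) * wt (idx i.succ)) := by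
    intro i
    rw [map_pow]
    change zk k i.succ ^ _ = _
    rw [mon_zk k ht, mul_pow, ← pow_mul, mul_comm (wt _)]
  rw [h0, Finset.prod_congr rfl (fun i _ => h1 i), Finset.prod_mul_distrib,
    Finset.prod_pow_eq_pow_sum, mon_w_idx, pow_add]
  ring

/-- The constants. -/
noncomputable def mon_tc : Ix → ℂ
  | .inl _ => 2
  | .inr (.inl _) => 2
  | .inr (.inr _) => 1

theorem mon_tc_ne (v : Ix) : mon_tc v ≠ 0 := by
  rcases v with i | i | l <;> simp [mon_tc]

theorem mon_thc (v : Ix) : thc v = C (mon_tc v) := by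
  rcases v with i | i | l
  · change (2 : A) = C 2
    exact (map_ofNat C 2).symm
  · change (2 : A) = C 2
    exact (map_ofNat C 2).symm
  · change (1 : A) = C 1
    exact (map_one C).symm

/-- The constant of an exponent. -/
noncomputable def mon_c (α : Ix →₀ ℕ) : ℂ := ∏ v, mon_tc v ^ α v

theorem mon_c_ne (α : Ix →₀ ℕ) : mon_c α ≠ 0 :=
  Finset.prod_ne_zero_iff.2 fun v _ => pow_ne_zero _ (mon_tc_ne v)

theorem mon_theta_monomial (α : Ix →₀ ℕ) (c : ℂ) :
    aeval (fun v : Ix => Polynomial.C (thc v * X v) * Polynomial.X ^ wt v) (monomial α c) =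
      Polynomial.C (monomial α (c * mon_c α)) * Polynomial.X ^ mon_w α := by
  rw [aeval_monomial, Finsupp.prod_fintype _ _ (fun _ => pow_zero _)]
  have h1 : ∀ v : Ix, (Polynomial.C (thc v * X v) * Polynomial.X ^ wt v) ^ α v =
      Polynomial.C (C (mon_tc v ^ α v) * X v ^ α v) * Polynomial.X ^ (α v * wt v) := by
    intro v
    rw [mul_pow, ← pow_mul, mul_comm (wt v), ← Polynomial.C_pow, mul_pow, mon_thc, ← C_pow]
  rw [Finset.prod_congr rfl (fun v _ => h1 v), Finset.prod_mul_distrib,
    Finset.prod_pow_eq_pow_sum, ← map_prod, Finset.prod_mul_distrib, ← map_prod]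
  have h2 : algebraMap ℂ (Polynomial A) c = Polynomial.C (C c) := rfl
  rw [h2, ← mul_assoc, ← Polynomial.C_mul]
  congr 2
  rw [monomial_eq, Finsupp.prod_fintype _ _ (fun _ => pow_zero _), C_mul, mul_assoc]
  rfl

theorem mon_theta (H : A) :
    aeval (fun v : Ix => Polynomial.C (thc v * X v) * Polynomial.X ^ wt v) H =
      ∑ α ∈ H.support, Polynomial.C (monomial α (coeff α H * mon_c α)) *
        Polynomial.X ^ mon_w α := by
  conv_lhs => rw [H.as_sum]
  rw [map_sum]
  exact Finset.sum_congr rfl fun α _ => mon_theta_monomial α _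

theorem mon_dvd (H : A) (m : ℕ) :
    Polynomial.X ^ m ∣
      aeval (fun v : Ix => Polynomial.C (thc v * X v) * Polynomial.X ^ wt v) H ↔
      ∀ α ∈ H.support, m ≤ mon_w α := by
  rw [mon_theta, Polynomial.X_pow_dvd_iff]
  have hc : ∀ j, (∑ α ∈ H.support, Polynomial.C (monomial α (coeff α H * mon_c α)) *
        Polynomial.X ^ mon_w α).coeff j =
      ∑ α ∈ H.support, if j = mon_w α then monomial α (coeff α H * mon_c α) else 0 := by
    intro j
    rw [Polynomial.finsetSum_coeff]
    exact Finset.sum_congr rfl fun α _ => Polynomial.coeff_C_mul_X_pow _ _ _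
  constructor
  · intro h α hα
    by_contra hlt
    push Not at hlt
    have h1 := h _ hlt
    rw [hc] at h1
    have h2 := congrArg (coeff α) h1
    rw [coeff_sum, coeff_zero, Finset.sum_eq_single α] at h2
    · rw [if_pos rfl, coeff_monomial, if_pos rfl] at h2
      rw [mem_support_iff] at hα
      exact mul_ne_zero hα (mon_c_ne α) h2
    · intro β _ hβ
      split_ifs
      · rw [coeff_monomial, if_neg hβ]
      · rw [coeff_zero]
    · intro hn
      exact absurd hα hn
  · intro h j hj
    rw [hc]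
    refine Finset.sum_eq_zero fun α hα => ?_
    rw [if_neg]
    have := h α hα
    omega

theorem mon_contra {F : Type*} [Field F] (W : ValuationSubring F) (t P x z : F) (m m0 : ℕ)
    (hlt : m0 < m) (ht : t ≠ 0) (htW : t ∈ W) (htn : t⁻¹ ∉ W) (hP1 : P ≠ 0) (hP3 : P⁻¹ ∈ W)
    (hz : z ∈ W) (hx : x * t ^ (-(m : ℤ)) ∈ W) (he : x * t ^ (-(m0 : ℤ)) = P + t * z) :
    False := by
  have h5 : x * t ^ (-(m0 : ℤ)) = t * (t ^ (m - m0 - 1) * (x * t ^ (-(m : ℤ)))) := by
    have h6 : t * t ^ (m - m0 - 1) * t ^ (-(m : ℤ)) = t ^ (-(m0 : ℤ)) := by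
      rw [← pow_succ', ← zpow_natCast, ← zpow_add₀ ht]
      congr 1
      omega
    rw [← h6]
    ring
  have h7 : P = t * (t ^ (m - m0 - 1) * (x * t ^ (-(m : ℤ))) - z) := by
    rw [mul_sub, ← h5, he]
    ring
  apply htn
  have h8 : t⁻¹ = P⁻¹ * (t ^ (m - m0 - 1) * (x * t ^ (-(m : ℤ))) - z) := by
    rw [eq_inv_mul_iff_mul_eq₀ hP1]
    conv_lhs => rw [h7]
    rw [mul_assoc, mul_comm, mul_assoc, inv_mul_cancel₀ ht, mul_one]
  rw [h8]
  exact mul_mem hP3 (sub_mem (mul_mem (pow_mem htW _) hx) hz)

theorem mon_split {F ι : Type*} [Field F] (S : Finset ι) (c M : ι → F) (t : F) (w : ι → ℕ)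
    (m0 : ℕ) (hmin : ∀ α ∈ S, m0 ≤ w α) :
    ∑ α ∈ S, c α * t ^ (w α - m0) * M α =
      (∑ α ∈ S.filter (fun α => w α = m0), c α * M α) +
        t * ∑ α ∈ S.filter (fun α => ¬ w α = m0), c α * t ^ (w α - m0 - 1) * M α := by
  rw [← Finset.sum_filter_add_sum_filter_not S (fun α => w α = m0), Finset.mul_sum]
  congr 1
  · refine Finset.sum_congr rfl fun α hα => ?_
    rw [Finset.mem_filter] at hα
    rw [hα.2, Nat.sub_self, pow_zero, mul_one]
  · refine Finset.sum_congr rfl fun α hα => ?_
    rw [Finset.mem_filter] at hα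
    have h3 := hmin α hα.1
    have h4 : w α - m0 = (w α - m0 - 1) + 1 := by
      have := hα.2
      omega
    conv_lhs => rw [h4, pow_succ]
    ring

/-- Proof. By `exists_lin` write `h = H (lin)`, `H = ∑ H_α X^α`. (1) `X ^ m ∣ thetak k h` iff
`m ≤ wt·α := ∑ α_v wt v` for all `α` in the support of `H`: `thetak k h = ∑_α H_α c_α X^α ϖ^{wt·α}`
with nonzero constants `c_α`, and the coefficient of `ϖ^j` is the sum over `wt·α = j` of
`H_α c_α X^α`. (2) In `FA`: `algebraMap h = ∑ H_α t0^{wt·α} ∏_j (zq k j)^{α_{idx j}}`. If all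
`wt·α ≥ m` this is in `t0^m W` (`hres.mem`, constants). Conversely let `m₀` be the minimum of
`wt·α` over the support of `H` (`h ≠ 0`); `algebraMap h * t0^(-m₀) = P (zq) + t0 * (element of W)`
with `P = ∑_{wt·α = m₀} H_α X^{α'}`, `α'` the exponents at `idx j.succ`, `j : Fin 10`. The map
`α ↦ α'` is injective on `{wt·α = m₀}` (the exponent of `t_0`, of weight one, is determined), so
`P ≠ 0` and `P (zq)` is a unit of `W`. So `algebraMap h` has order exactly `m₀`. -/
theorem mono_val (W : ValuationSubring FA) (k : ZMod 241) (hT : IsUnif W t0)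
    (hres : ResIndep W (zq k)) (h : A) (m : ℕ) :
    algebraMap A FA h * t0 ^ (-(m : ℤ)) ∈ W ↔ Polynomial.X ^ m ∣ thetak k h := by
  classical
  obtain ⟨H, hH, hth⟩ := exists_lin k h
  rw [hth, mon_dvd]
  have ht : t0 ≠ 0 := hT.1
  have htW : t0 ∈ W := hT.2.1
  have hsum : algebraMap A FA h = ∑ α ∈ H.support, algebraMap ℂ FA (coeff α H) * t0 ^ mon_w α *
      ∏ i : Fin 10, zq k i ^ α (idx i.succ) := by
    conv_lhs => rw [hH, H.as_sum]
    rw [map_sum, map_sum]
    exact Finset.sum_congr rfl fun α _ => mon_monomial k ht α _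
  have hmemM : ∀ α : Ix →₀ ℕ, ∏ i : Fin 10, zq k i ^ α (idx i.succ) ∈ W := fun α =>
    prod_mem fun i _ => pow_mem (hres.mem i) _
  -- multiplication by a power of `t0`
  have hshift : ∀ m0 : ℕ, (∀ α ∈ H.support, m0 ≤ mon_w α) → algebraMap A FA h * t0 ^ (-(m0 : ℤ)) =
      ∑ α ∈ H.support, algebraMap ℂ FA (coeff α H) * t0 ^ (mon_w α - m0) *
        ∏ i : Fin 10, zq k i ^ α (idx i.succ) := by
    intro m0 hm0
    rw [hsum, Finset.sum_mul]
    refine Finset.sum_congr rfl fun α hα => ?_
    have h1 : t0 ^ mon_w α * t0 ^ (-(m0 : ℤ)) = t0 ^ (mon_w α - m0) := by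
      rw [zpow_neg, zpow_natCast, ← div_eq_mul_inv, div_eq_iff (pow_ne_zero _ ht), ← pow_add,
        Nat.sub_add_cancel (hm0 α hα)]
    rw [← h1]
    ring
  constructor
  · intro hW
    by_contra hcon
    push Not at hcon
    obtain ⟨α1, hα1, hlt1⟩ := hcon
    obtain ⟨α0, hα0, hmin⟩ := H.support.exists_min_image mon_w ⟨α1, hα1⟩
    have hlt : mon_w α0 < m := lt_of_le_of_lt (hmin α1 hα1) hlt1
    -- the leading part
    let r : (Ix →₀ ℕ) → (Fin 10 →₀ ℕ) := fun α =>
      Finsupp.equivFunOnFinite.symm (fun i => α (idx i.succ))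
    let P : MvPolynomial (Fin 10) ℂ :=
      ∑ α ∈ H.support.filter (fun α => mon_w α = mon_w α0), monomial (r α) (coeff α H)
    have hinj : ∀ α β : Ix →₀ ℕ, mon_w α = mon_w β → r α = r β → α = β := by
      intro α β hw hr
      have h1 : ∀ i : Fin 10, α (idx i.succ) = β (idx i.succ) := by
        intro i
        have := DFunLike.congr_fun hr i
        simpa [r] using this
      have h2 : α (idx 0) = β (idx 0) := by
        rw [mon_w_idx, mon_w_idx, Finset.sum_congr rfl (fun i _ => by rw [h1 i])] at hw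
        omega
      ext v
      obtain ⟨j, rfl⟩ := idx_bijective.surjective v
      refine Fin.cases h2 (fun i => h1 i) j
    have hP : P ≠ 0 := by
      intro h0
      have h1 := congrArg (coeff (r α0)) h0
      rw [coeff_zero] at h1
      simp only [P] at h1
      rw [coeff_sum, Finset.sum_eq_single α0] at h1
      · rw [coeff_monomial, if_pos rfl] at h1
        rw [mem_support_iff] at hα0
        exact hα0 h1
      · intro β hβ hne
        rw [coeff_monomial, if_neg]
        intro hr
        rw [Finset.mem_filter] at hβ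
        exact hne (hinj β α0 hβ.2 hr)
      · intro hn
        exact (hn (Finset.mem_filter.2 ⟨hα0, rfl⟩)).elim
    have hPv : aeval (zq k) P = ∑ α ∈ H.support.filter (fun α => mon_w α = mon_w α0),
        algebraMap ℂ FA (coeff α H) * ∏ i : Fin 10, zq k i ^ α (idx i.succ) := by
      simp only [P]
      rw [map_sum]
      refine Finset.sum_congr rfl fun α _ => ?_
      rw [aeval_monomial, Finsupp.prod_fintype _ _ (fun _ => pow_zero _)]
      rfl
    obtain ⟨hP1, hP2, hP3⟩ := hres P hP
    -- the tail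
    have htail : ∃ z ∈ W, algebraMap A FA h * t0 ^ (-(mon_w α0 : ℤ)) =
        aeval (zq k) P + t0 * z := by
      refine ⟨∑ α ∈ H.support.filter (fun α => ¬ mon_w α = mon_w α0),
        algebraMap ℂ FA (coeff α H) * t0 ^ (mon_w α - mon_w α0 - 1) *
          ∏ i : Fin 10, zq k i ^ α (idx i.succ), ?_, ?_⟩
      · refine sum_mem fun α _ => ?_
        exact mul_mem (mul_mem (hres.const_mem _) (pow_mem htW _)) (hmemM α)
      · rw [hshift _ hmin, hPv]
        exact mon_split _ _ _ _ _ _ hmin
    obtain ⟨z, hz, hzeq⟩ := htail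
    exact mon_contra W t0 _ _ z m (mon_w α0) hlt ht htW hT.2.2.1 hP1 hP3 hz hW hzeq
  · intro hall
    rw [hshift m hall]
    refine sum_mem fun α _ => ?_
    exact mul_mem (mul_mem (hres.const_mem _) (pow_mem htW _)) (hmemM α)

end H5ML

end S_Mon

section S_MonB

/-!
# MONB: the twisted substitution on invariants
-/

namespace H5ML

open MvPolynomial

/-- The images of the variables under the twist. -/
noncomputable def monb_sX (j : ZMod 241) : Ix → A
  | .inl i => C (chi (-(u i * j))) * xx i
  | .inr (.inl i) => C (chi (-(u i * j))) * yy i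
  | .inr (.inr l) => tt l

/-- The twist. -/
noncomputable def monb_s (j : ZMod 241) : A →ₐ[ℂ] A := aeval (monb_sX j)

theorem monb_s_xx (j : ZMod 241) (i : Fin 3) :
    monb_s j (xx i) = C (chi (-(u i * j))) * xx i := by
  rw [monb_s, xx, aeval_X]
  rfl

theorem monb_s_yy (j : ZMod 241) (i : Fin 3) :
    monb_s j (yy i) = C (chi (-(u i * j))) * yy i := by
  rw [monb_s, yy, aeval_X]
  rfl

theorem monb_s_tt (j : ZMod 241) (l : Fin 5) : monb_s j (tt l) = tt l := by
  rw [monb_s, tt, aeval_X]
  rfl

theorem monb_s_C (j : ZMod 241) (c : ℂ) : monb_s j (C c) = C c := by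
  rw [monb_s, aeval_C]
  rfl

theorem monb_chi (a : ZMod 241) : chi a * chi (-a) = 1 := by
  rw [mul_comm]
  exact chi_neg_mul a

theorem monb_s_neg (j : ZMod 241) : (monb_s (-j)).comp (monb_s j) = AlgHom.id ℂ A := by
  apply MvPolynomial.algHom_ext
  rintro (i | i | l)
  · change monb_s (-j) (monb_s j (xx i)) = xx i
    rw [monb_s_xx, map_mul, monb_s_C, monb_s_xx, ← mul_assoc, ← C_mul, mul_neg, neg_neg,
      chi_neg_mul, C_1, one_mul]
  · change monb_s (-j) (monb_s j (yy i)) = yy i
    rw [monb_s_yy, map_mul, monb_s_C, monb_s_yy, ← mul_assoc, ← C_mul, mul_neg, neg_neg,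
      chi_neg_mul, C_1, one_mul]
  · change monb_s (-j) (monb_s j (tt l)) = tt l
    rw [monb_s_tt, monb_s_tt]

theorem monb_act_tt (k : ZMod 241) (l : Fin 5) : act (.r k) (tt l) = tt l := by
  rw [act, tt, aeval_X]
  rfl

theorem monb_thetak_xx (k : ZMod 241) (i : Fin 3) : thetak k (xx i) =
    Polynomial.C (yy i) * Polynomial.X ^ 2 + Polynomial.C (xx i) * Polynomial.X := by
  rw [thetak, xx, aeval_X]
  rfl

theorem monb_thetak_yy (k : ZMod 241) (i : Fin 3) : thetak k (yy i) =
    Polynomial.C (C (chi (-(u i * k)))) *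
      (Polynomial.C (yy i) * Polynomial.X ^ 2 - Polynomial.C (xx i) * Polynomial.X) := by
  rw [thetak, yy, aeval_X]
  rfl

theorem monb_thetak_tt (k : ZMod 241) (l : Fin 5) : thetak k (tt l) =
    Polynomial.C (tt l) * Polynomial.X := by
  rw [thetak, tt, aeval_X]
  rfl

/-- the twist on polynomials -/
noncomputable def monb_p (j : ZMod 241) : Polynomial A →+* Polynomial A :=
  Polynomial.mapRingHom (monb_s j : A →+* A)

theorem monb_p_C (j : ZMod 241) (a : A) :
    monb_p j (Polynomial.C a) = Polynomial.C (monb_s j a) := by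
  simp [monb_p]

theorem monb_p_X (j : ZMod 241) : monb_p j Polynomial.X = Polynomial.X := by
  simp [monb_p]

theorem monb_p_neg (j : ZMod 241) (q : Polynomial A) : monb_p (-j) (monb_p j q) = q := by
  have h : ∀ a : A, monb_s (-j) (monb_s j a) = a := fun a =>
    DFunLike.congr_fun (monb_s_neg j) a
  ext1 n
  simp [monb_p, Polynomial.coeff_map, h]

theorem monb_main (j k : ZMod 241) (hjk : j + j = k) (h : A) :
    thetak k h = monb_p j (theta (act (.r j) h)) := by
  have hxx : ∀ i, monb_p j (theta (act (.r j) (xx i))) = thetak k (xx i) := by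
    intro i
    rw [act_xx_r, map_mul, theta_C, theta_xx, monb_thetak_xx, map_mul, map_add, map_mul, map_mul,
      map_pow, monb_p_C, monb_p_C, monb_p_C, monb_p_X, monb_s_C, monb_s_xx, monb_s_yy,
      Polynomial.C_mul, Polynomial.C_mul]
    have h1 : (Polynomial.C (C (chi (u i * j))) * Polynomial.C (C (chi (-(u i * j)))) :
        Polynomial A) = 1 := by
      rw [← Polynomial.C_mul, ← C_mul, monb_chi, C_1, Polynomial.C_1]
    linear_combination (Polynomial.C (yy i) * Polynomial.X ^ 2 +
      Polynomial.C (xx i) * Polynomial.X) * h1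
  have hyy : ∀ i, monb_p j (theta (act (.r j) (yy i))) = thetak k (yy i) := by
    intro i
    rw [act_yy_r, map_mul, theta_C, theta_yy, monb_thetak_yy, map_mul, map_sub, map_mul, map_mul,
      map_pow, monb_p_C, monb_p_C, monb_p_C, monb_p_X, monb_s_C, monb_s_xx, monb_s_yy,
      Polynomial.C_mul, Polynomial.C_mul]
    have h1 : (Polynomial.C (C (chi (-(u i * j)))) * Polynomial.C (C (chi (-(u i * j)))) :
        Polynomial A) = Polynomial.C (C (chi (-(u i * k)))) := by
      rw [← Polynomial.C_mul, ← C_mul, ← chi_add, ← hjk]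
      congr 3
      ring
    linear_combination (Polynomial.C (yy i) * Polynomial.X ^ 2 -
      Polynomial.C (xx i) * Polynomial.X) * h1
  have htt : ∀ l, monb_p j (theta (act (.r j) (tt l))) = thetak k (tt l) := by
    intro l
    rw [monb_act_tt, theta_tt, monb_thetak_tt, map_mul, monb_p_C, monb_p_X, monb_s_tt]
  have hC : ∀ c : ℂ, monb_p j (theta (act (.r j) (C c))) = thetak k (C c) := by
    intro c
    have h1 : act (.r j) (C c) = C c := by simp [act]
    have h2 : thetak k (C c) = Polynomial.C (C c) := by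
      rw [thetak, aeval_C]
      rfl
    rw [h1, h2, theta_C, monb_p_C, monb_s_C]
  induction h using MvPolynomial.induction_on with
  | C c => exact (hC c).symm
  | add p q hp hq => rw [map_add, map_add, map_add, map_add, hp, hq]
  | mul_X p v hp =>
    rw [map_mul, map_mul, map_mul, map_mul, hp]
    congr 1
    rcases v with i | i | l
    · exact (hxx i).symm
    · exact (hyy i).symm
    · exact (htt l).symm

/-- Proof. Let `2 j = k` in `ZMod 241`. Let `σ` be the automorphism of `A[ϖ]` over `ℂ[ϖ]` which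
multiplies `xx i` and `yy i` by `χ (- u_i j)` and fixes `tt l`. Then
`thetak k = σ ∘ theta ∘ act (r j)` (check on the variables: for `x_i`
`act (r j)` gives `χ (u_i j) x_i`, `theta` gives `χ (u_i j) (Q ϖ² + P ϖ)`, `σ` gives
`Q ϖ² + P ϖ`; for `y_i` one gets `χ (- u_i j) χ (- u_i j) (Q ϖ² - P ϖ)`,
`χ (- 2 u_i j) = χ (- u_i k)`). Since `act (r j) h = h`: `thetak k h = σ (theta h)`, and `σ` is
an automorphism fixing `ϖ`. -/
theorem thetak_dvd_iff (k : ZMod 241) (h : A) (hh : ∀ j : ZMod 241, act (.r j) h = h) (m : ℕ) :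
    Polynomial.X ^ m ∣ thetak k h ↔ Polynomial.X ^ m ∣ theta h := by
  have hjk : 121 * k + 121 * k = k := by
    have h1 : (242 : ZMod 241) = 1 := by decide
    linear_combination k * h1
  have hm := monb_main (121 * k) k hjk h
  rw [hh] at hm
  have hX : ∀ j, monb_p j (Polynomial.X ^ m) = Polynomial.X ^ m := by
    intro j
    rw [map_pow, monb_p_X]
  constructor
  · intro hd
    rw [hm] at hd
    have h1 := map_dvd (monb_p (-(121 * k))) hd
    rwa [monb_p_neg, hX] at h1
  · intro hd
    rw [hm]
    have h1 := map_dvd (monb_p (121 * k)) hd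
    rwa [hX] at h1

end H5ML

end S_MonB

section S_MonC

/-!
# MONC: the Jacobian of the linear forms
-/

namespace H5ML

open MvPolynomial

/-- The matrix of the linear forms. -/
noncomputable def monc_M (k : ZMod 241) : Matrix Ix Ix ℂ
  | .inl i, .inl j => if i = j then 1 else 0
  | .inl i, .inr (.inl j) => if i = j then -chi (u i * k) else 0
  | .inl _, .inr (.inr _) => 0
  | .inr (.inl i), .inl j => if i = j then 1 else 0
  | .inr (.inl i), .inr (.inl j) => if i = j then chi (u i * k) else 0
  | .inr (.inl _), .inr (.inr _) => 0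
  | .inr (.inr _), .inl _ => 0
  | .inr (.inr _), .inr (.inl _) => 0
  | .inr (.inr l), .inr (.inr l') => if l = l' then 1 else 0

theorem monc_chi_ne (a : ZMod 241) : chi a ≠ 0 := by
  intro h
  have := chi_neg_mul a
  rw [h, mul_zero] at this
  exact zero_ne_one this

theorem monc_det (k : ZMod 241) : (monc_M k).det ≠ 0 := by
  intro h0
  obtain ⟨v, hv, hv0⟩ := Matrix.exists_mulVec_eq_zero_iff.2 h0
  apply hv
  have h1 : ∀ i, v (.inl i) + -chi (u i * k) * v (.inr (.inl i)) = 0 := by
    intro i
    have := congrFun hv0 (.inl i)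
    simpa [Matrix.mulVec, dotProduct, Fintype.sum_sum_type, monc_M] using this
  have h2 : ∀ i, v (.inl i) + chi (u i * k) * v (.inr (.inl i)) = 0 := by
    intro i
    have := congrFun hv0 (.inr (.inl i))
    simpa [Matrix.mulVec, dotProduct, Fintype.sum_sum_type, monc_M] using this
  have h3 : ∀ l, v (.inr (.inr l)) = 0 := by
    intro l
    have := congrFun hv0 (.inr (.inr l))
    simpa [Matrix.mulVec, dotProduct, Fintype.sum_sum_type, monc_M] using this
  funext s
  rcases s with i | i | l
  · have h4 : 2 * v (.inl i) = 0 := by linear_combination h1 i + h2 i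
    simpa using h4
  · have h4 : 2 * (chi (u i * k) * v (.inr (.inl i))) = 0 := by linear_combination h2 i - h1 i
    have h5 := monc_chi_ne (u i * k)
    simpa [h5] using h4
  · exact h3 l

theorem monc_lin (k : ZMod 241) (r : Ix) : lin k r = ∑ s, (monc_M k r s) • (X s : A) := by
  rcases r with i | i | l
  · simp [lin, Fintype.sum_sum_type, monc_M, xx, yy, ite_smul]
    simp [MvPolynomial.smul_eq_C_mul, sub_eq_add_neg]
  · simp [lin, Fintype.sum_sum_type, monc_M, xx, yy, ite_smul]
    simp [MvPolynomial.smul_eq_C_mul]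
  · simp [lin, Fintype.sum_sum_type, monc_M, tt, ite_smul]

/-- Proof. `zk k j = ∑ l, m j l • zc l` with an invertible matrix `m` over `ℂ` (entries
`1, ± χ (u_i k)`; inverse entries `1/2, ± 1 / (2 χ)`), so
`D i (zk k j) = ∑ l, m j l • D i (zc l)` and `jac D (zk k) = det m * jac D zc`. To see
`det m ≠ 0` exhibit the inverse matrix, or: both families are expressed linearly by the other and
`zc` is linearly independent over `ℂ`. -/
theorem jac_zk (k : ZMod 241) : ∃ c : ℂ, c ≠ 0 ∧
    ∀ D : Fin (10 + 1) → Derivation ℂ FA FA, jac D (zk k) = algebraMap ℂ FA c * jac D zc := by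
  refine ⟨(monc_M k).det, monc_det k, fun D => ?_⟩
  set e : Fin (10 + 1) ≃ Ix := Equiv.ofBijective idx idx_bijective with he
  have hz : ∀ j, zk k j = ∑ l, (monc_M k (idx j) (idx l)) • zc l := by
    intro j
    unfold zk zc
    rw [monc_lin, map_sum, ← Equiv.sum_comp e]
    refine Finset.sum_congr rfl fun l _ => ?_
    exact map_smul (IsScalarTower.toAlgHom ℂ A FA) (monc_M k (idx j) (idx l)) (X (idx l))
  have h1 : (Matrix.of fun j i => D i (zk k j)) =
      ((monc_M k).submatrix idx idx).map (algebraMap ℂ FA) *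
        (Matrix.of fun j i => D i (zc j)) := by
    ext j i
    rw [Matrix.mul_apply, Matrix.of_apply, hz, map_sum]
    refine Finset.sum_congr rfl fun l _ => ?_
    rw [Derivation.map_smul, Algebra.smul_def]
    rfl
  unfold jac
  rw [h1, Matrix.det_mul]
  congr 1
  have h2 := (algebraMap ℂ FA).map_det ((monc_M k).submatrix idx idx)
  rw [RingHom.mapMatrix_apply] at h2
  rw [← h2]
  congr 1
  exact Matrix.det_submatrix_equiv_self e (monc_M k)

end H5ML

end S_MonC

section S_HonA

/-!
# HONA: primes of height one of the invariants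
-/

namespace H5ML

open MvPolynomial

/-- Proof. `A` is integral over `R` (`contains`: see `Inv.lean`, `Algebra.IsInvariant.isIntegral`),
so there is a prime `P` of `A` with `P ∩ R = p` (lying over, `R → A` injective). `P ≠ 0` because
`p ≠ 0` (height one). `A` is a UFD, so `P` contains an irreducible element `f` (a prime factor of
a nonzero element of `P`). The ideal `(f) ∩ R` is a prime contained in `p`, and nonzero: the
constant coefficient of the minimal integral equation of `f` over `R` is a nonzero multiple of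
`f` in `R` (`Ideal.exists_…` / `comap_ne_bot_of_integral_mem`). As `p` has height one,
`(f) ∩ R = p`. -/
theorem exists_irreducible (p : Ideal R) (hp : p.IsPrime) (hp1 : p.height = 1) :
    ∃ f : A, Irreducible f ∧ ∀ r : R, r ∈ p ↔ f ∣ algebraMap R A r := by
  have hinv : Algebra.IsInvariant R A G := ⟨fun a ha => exists_R a ha⟩
  have hint : Algebra.IsIntegral R A := Algebra.IsInvariant.isIntegral R A G
  obtain ⟨P, hP, hPp⟩ := Ideal.exists_ideal_over_prime_of_isIntegral_of_isDomain p (by
    rw [(RingHom.injective_iff_ker_eq_bot _).1 R_injective]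
    exact bot_le)
  have hp0 : p ≠ ⊥ := Ideal.ne_bot_of_height_eq_one hp1
  have hP0 : P ≠ ⊥ := by
    rintro rfl
    apply hp0
    rw [← hPp, eq_bot_iff]
    intro r hr
    rw [Ideal.mem_comap, Ideal.mem_bot] at hr
    rw [Ideal.mem_bot]
    exact R_injective (by rw [hr, map_zero])
  obtain ⟨f, hf, hfp⟩ := hP.exists_mem_prime_of_ne_bot hP0
  have hq : (Ideal.span {f}).IsPrime := (Ideal.span_singleton_prime hfp.ne_zero).2 hfp
  let q : Ideal R := (Ideal.span {f}).comap (algebraMap R A)
  have hqp : q.IsPrime := Ideal.comap_isPrime _ _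
  have hqle : q ≤ p := by
    rw [← hPp]
    exact Ideal.comap_mono ((Ideal.span_singleton_le_iff_mem _).2 hf)
  have hq0 : q ≠ ⊥ := Ideal.comap_ne_bot_of_integral_mem hfp.ne_zero
    (Ideal.mem_span_singleton_self f) (hint.isIntegral f)
  have hqe : q = p := by
    by_contra hne
    have hlt : q < p := lt_of_le_of_ne hqle hne
    have h1 := Ideal.height_add_one_le_of_lt_of_isPrime hlt
    rw [hp1] at h1
    have h2 : q.height = 0 := by
      have h3 : q.height + 1 ≤ 0 + 1 := by simpa using h1
      have h4 := (ENat.add_le_add_iff_right (by simp : (1 : ℕ∞) ≠ ⊤)).1 h3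
      exact le_antisymm h4 bot_le
    exact hq0 (Ideal.height_eq_zero_iff_eq_bot.1 h2)
  refine ⟨f, hfp.irreducible, fun r => ?_⟩
  rw [← hqe, ← Ideal.mem_span_singleton]
  exact Iff.rfl

end H5ML

end S_HonA

section S_HonB

/-!
# HONB: the valuation rings of the prime divisors of affine space
-/

namespace H5ML

open MvPolynomial

theorem honb_prime (f : A) (hf : Irreducible f) : Prime f :=
  UniqueFactorizationMonoid.irreducible_iff_prime.mp hf

theorem honb_inj {a : A} (ha : a ≠ 0) : algebraMap A FA a ≠ 0 := by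
  intro h
  exact ha ((IsFractionRing.injective A FA) (by rw [h, map_zero]))

theorem honb_ne {f b : A} (hb : ¬ f ∣ b) : b ≠ 0 := by
  rintro rfl
  exact hb (dvd_zero f)

/-- The localization of `A` at `(f)`. -/
noncomputable def honbW (f : A) (hf : Irreducible f) : ValuationSubring FA where
  carrier := {h | ∃ a b : A, ¬ f ∣ b ∧ h = algebraMap A FA a / algebraMap A FA b}
  mul_mem' := by
    rintro x y ⟨a, b, hb, rfl⟩ ⟨c, d, hd, rfl⟩
    refine ⟨a * c, b * d, fun h => ?_, ?_⟩
    · rcases (honb_prime f hf).dvd_or_dvd h with h | h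
      · exact hb h
      · exact hd h
    · rw [map_mul, map_mul, div_mul_div_comm]
  one_mem' := ⟨1, 1, fun h => hf.not_isUnit (isUnit_of_dvd_one h), by simp⟩
  add_mem' := by
    rintro x y ⟨a, b, hb, rfl⟩ ⟨c, d, hd, rfl⟩
    refine ⟨a * d + b * c, b * d, fun h => ?_, ?_⟩
    · rcases (honb_prime f hf).dvd_or_dvd h with h | h
      · exact hb h
      · exact hd h
    · rw [map_mul, map_add, map_mul, map_mul,
        div_add_div _ _ (honb_inj (honb_ne hb)) (honb_inj (honb_ne hd))]
  zero_mem' := ⟨0, 1, fun h => hf.not_isUnit (isUnit_of_dvd_one h), by simp⟩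
  neg_mem' := by
    rintro x ⟨a, b, hb, rfl⟩
    exact ⟨-a, b, hb, by rw [map_neg]; ring⟩
  mem_or_inv_mem' := by
    intro x
    obtain ⟨a, b, hab, hx⟩ := IsFractionRing.exists_reduced_fraction A x
    rw [IsFractionRing.mk'_eq_div] at hx
    by_cases hb : f ∣ (b : A)
    · right
      have ha : ¬ f ∣ a := fun h => hf.not_isUnit (hab h hb)
      exact ⟨b, a, ha, by rw [← hx, inv_div]⟩
    · left
      exact ⟨a, b, hb, hx.symm⟩

theorem honb_mem (f : A) (hf : Irreducible f) (h : FA) : h ∈ honbW f hf ↔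
    ∃ a b : A, ¬ f ∣ b ∧ h = algebraMap A FA a / algebraMap A FA b := Iff.rfl

/-- Proof. `f` is prime in the UFD `A`. Let `W` be the valuation ring of the `f`-adic valuation
(multiplicity of `f`), i.e. the localization of `A` at the prime ideal `(f)`: the set of the
`a / b` with `¬ f ∣ b`. -/
theorem exists_adic (f : A) (hf : Irreducible f) : ∃ W : ValuationSubring FA,
    IsUnif W (algebraMap A FA f) ∧
    ∀ h : FA, h ∈ W ↔ ∃ a b : A, ¬ f ∣ b ∧ h = algebraMap A FA a / algebraMap A FA b := by
  refine ⟨honbW f hf, ⟨honb_inj hf.ne_zero, ?_, ?_, ?_⟩, honb_mem f hf⟩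
  · exact ⟨f, 1, fun h => hf.not_isUnit (isUnit_of_dvd_one h), by simp⟩
  · rintro ⟨a, b, hb, h⟩
    have hb0 := honb_inj (honb_ne hb)
    have hf0 := honb_inj hf.ne_zero
    apply hb
    refine ⟨a, (IsFractionRing.injective A FA) ?_⟩
    rw [map_mul]
    field_simp at h
    exact h
  · intro h hh
    obtain ⟨a, b, hab, hx⟩ := IsFractionRing.exists_reduced_fraction A h
    rw [IsFractionRing.mk'_eq_div] at hx
    have hb0 : (b : A) ≠ 0 := nonZeroDivisors.coe_ne_zero b
    have ha0 : a ≠ 0 := by
      rintro rfl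
      apply hh
      rw [← hx, map_zero, zero_div]
    have hfa : FiniteMultiplicity f a := FiniteMultiplicity.of_prime_left (honb_prime f hf) ha0
    have hfb : FiniteMultiplicity f (b : A) :=
      FiniteMultiplicity.of_prime_left (honb_prime f hf) hb0
    obtain ⟨a', ha', hfa'⟩ := hfa.exists_eq_pow_mul_and_not_dvd
    obtain ⟨b', hb', hfb'⟩ := hfb.exists_eq_pow_mul_and_not_dvd
    set m := multiplicity f a with hm
    set n := multiplicity f (b : A) with hn
    have hf0 := honb_inj hf.ne_zero
    have ha'0 := honb_inj (honb_ne hfa')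
    have hb'0 := honb_inj (honb_ne hfb')
    have key : h * algebraMap A FA f ^ ((n : ℤ) - m) =
        algebraMap A FA a' / algebraMap A FA b' := by
      rw [← hx, ha', hb', map_mul, map_mul, map_pow, map_pow, zpow_sub₀ hf0, zpow_natCast,
        zpow_natCast]
      field_simp
    refine ⟨(n : ℤ) - m, ?_, ?_⟩
    · rw [key]
      exact ⟨a', b', hfb', rfl⟩
    · rw [key, inv_div]
      exact ⟨b', a', hfa', rfl⟩

/-- Some variable occurs in a nonconstant polynomial. -/
theorem honb_var (f : A) (hf : Irreducible f) : ∃ v : Ix, 1 ≤ degreeOf v f := by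
  by_contra hcon
  push Not at hcon
  have h0 : ∀ m ∈ f.support, m = 0 := by
    intro m hm
    ext v
    have h1 := monomial_le_degreeOf v hm
    have h2 := hcon v
    simp only [Finsupp.coe_zero, Pi.zero_apply]
    omega
  have h1 : f = C (coeff 0 f) := by
    ext m
    rw [coeff_C]
    split_ifs with h
    · rw [h]
    · by_contra hc
      exact h (h0 m (mem_support_iff.mpr hc)).symm
  apply hf.not_isUnit
  rw [h1]
  refine IsUnit.map C ?_
  rw [isUnit_iff_ne_zero]
  intro h
  apply hf.ne_zero
  rw [h1, h, C_0]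

theorem honb_degreeOf_rename (v : Ix) (e : Fin 10 → Ix) (he : ∀ j, e j ≠ v)
    (P : MvPolynomial (Fin 10) ℂ) : degreeOf v (rename e P) = 0 := by
  classical
  by_contra hc
  have h1 : 0 < degreeOf v (rename e P) := Nat.pos_of_ne_zero hc
  rw [degreeOf_eq_sup] at h1
  rw [Finset.lt_sup_iff] at h1
  obtain ⟨m, hm, hmv⟩ := h1
  have h2 : coeff m (rename e P) ≠ 0 := mem_support_iff.mp hm
  obtain ⟨d, hd, -⟩ := coeff_rename_ne_zero e P m h2
  have h3 : m v = 0 := by
    rw [← hd]
    apply Finsupp.mapDomain_of_notMem_range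
    rintro ⟨j, hj⟩
    exact he j hj
  omega

/-- Proof. `f` is not constant, so some variable `X v` occurs in `f`: `degreeOf v f ≥ 1`. Take
for `ε` the ten other variables. A nonzero polynomial in the other variables is not divisible by
`f` (its degree in `X v` is `0`, and `degreeOf v` is additive on products), so it is a unit of
`W`. -/
theorem adic_resIndep (f : A) (hf : Irreducible f) (W : ValuationSubring FA)
    (hW : ∀ h : FA, h ∈ W ↔ ∃ a b : A, ¬ f ∣ b ∧ h = algebraMap A FA a / algebraMap A FA b) :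
    ∃ ε : Fin 10 → FA, ResIndep W ε := by
  obtain ⟨v, hv⟩ := honb_var f hf
  have hcard : Fintype.card {i : Ix // i ≠ v} = 10 := by
    rw [Fintype.card_subtype_compl]
    simp [Ix]
  let e0 : Fin 10 ≃ {i : Ix // i ≠ v} := (Fintype.equivFinOfCardEq hcard).symm
  let e : Fin 10 → Ix := fun j => (e0 j).1
  have he : ∀ j, e j ≠ v := fun j => (e0 j).2
  have hinj : Function.Injective e := fun i j h => e0.injective (Subtype.ext h)
  refine ⟨fun j => algebraMap A FA (X (e j)), fun P hP => ?_⟩
  have h1 : aeval (fun j => algebraMap A FA (X (e j))) P = algebraMap A FA (rename e P) := by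
    have h2 : (IsScalarTower.toAlgHom ℂ A FA).comp (rename e) =
        aeval (fun j => algebraMap A FA (X (e j))) := by
      apply MvPolynomial.algHom_ext
      intro j
      simp
    rw [← h2]
    rfl
  rw [h1]
  have h3 : rename e P ≠ 0 := by
    intro h
    exact hP (rename_injective e hinj (by rw [h, map_zero]))
  have h4 : ¬ f ∣ rename e P := by
    rintro ⟨g, hg⟩
    have hg0 : g ≠ 0 := by
      rintro rfl
      exact h3 (by rw [hg, mul_zero])
    have h5 := honb_degreeOf_rename v e he P
    rw [hg, degreeOf_mul_eq hf.ne_zero hg0] at h5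
    omega
  refine ⟨honb_inj h3, ?_, ?_⟩
  · rw [hW]
    exact ⟨rename e P, 1, fun h => hf.not_isUnit (isUnit_of_dvd_one h), by simp⟩
  · rw [hW]
    exact ⟨1, rename e P, h4, by simp⟩

end H5ML

end S_HonB

section S_HonC

/-!
# HONC: localizations of the invariants at primes of height one
-/

namespace H5ML

open MvPolynomial

theorem honc_exists_unif {K F : Type} [Field K] [Field F] [Algebra K F]
    (W : ValuationSubring F) {T : F} (hT : IsUnif W T) (r : K) (hr : r ≠ 0)
    (hr1 : algebraMap K F r ∈ W.nonunits) : ∃ t, IsUnif (W.comap (algebraMap K F)) t := by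
  classical
  have hex : ∃ n : ℕ, 1 ≤ n ∧ ∃ h : K, OrdEq W T (algebraMap K F h) n := by
    obtain ⟨n, hn⟩ := exists_ordEq hT (show algebraMap K F r ≠ 0 by simpa using hr)
    have h1 := (hn.nonunit_iff hT).1 hr1
    refine ⟨n.toNat, by omega, r, ?_⟩
    rwa [Int.toNat_of_nonneg (by omega)]
  have hfind := Nat.find_spec hex
  have hmin : ∀ m : ℕ, m < Nat.find hex → ¬ (1 ≤ m ∧ ∃ h : K, OrdEq W T (algebraMap K F h) m) :=
    fun m hm => Nat.find_min hex hm
  generalize Nat.find hex = n at hfind hmin
  obtain ⟨h1, t, ht⟩ := hfind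
  have hmem : ∀ h : K, h ∈ W.comap (algebraMap K F) ↔ algebraMap K F h ∈ W := fun h => Iff.rfl
  refine ⟨t, ?_, ?_, ?_, ?_⟩
  · rintro rfl
    exact ht.1 (map_zero _)
  · rw [hmem, ht.mem_iff hT]
    omega
  · rw [hmem, map_inv₀, ht.inv.mem_iff hT]
    omega
  · intro h hh
    obtain ⟨m, hm⟩ := exists_ordEq hT (show algebraMap K F h ≠ 0 by simpa using hh)
    have h2 := hm.mul (ht.zpow hT (-(m / n))) hT
    have h3 : m + -(m / n) * n = m % n := by
      have := Int.emod_add_mul_ediv m n
      linarith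
    rw [h3] at h2
    have h4 : 0 ≤ m % n := Int.emod_nonneg _ (by omega)
    have h5 : m % n < n := Int.emod_lt_of_pos _ (by omega)
    have h6 : m % n = 0 := by
      by_contra hne
      refine hmin (m % n).toNat (by omega) ⟨by omega, h * t ^ (-(m / n)), ?_⟩
      rw [Int.toNat_of_nonneg h4, map_mul, map_zpow₀]
      exact h2
    rw [h6, ordEq_zero_iff] at h2
    refine ⟨-(m / n), ?_, ?_⟩
    · rw [hmem, map_mul, map_zpow₀]
      exact h2.2.1
    · rw [hmem, map_inv₀, map_mul, map_zpow₀]
      exact h2.2.2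

theorem honc_map_R (r : R) :
    algebraMap KR FA (algebraMap R KR r) = algebraMap A FA (algebraMap R A r) := by
  rw [← IsScalarTower.algebraMap_apply R KR FA, ← IsScalarTower.algebraMap_apply R A FA]

theorem honc_smul_A (g : G) (a : A) : algebraMap A FA (g • a) = g • algebraMap A FA a :=
  algebraMap.smul' g a FA

theorem honc_smul_KR (g : G) (h : KR) : g • algebraMap KR FA h = algebraMap KR FA h := by
  obtain ⟨a, b, hb, rfl⟩ := IsFractionRing.div_surjective (A := R) h
  rw [map_div₀, honc_map_R, honc_map_R, div_eq_mul_inv, smul_mul', smul_inv'', ← honc_smul_A,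
    ← honc_smul_A, R_smul, R_smul]

/-- Proof. `O = W ∩ KR`. `R_p ⊆ O` is clear. `R_p` is a discrete valuation ring of `KR`: `R` is a
Noetherian (`finiteType_R`) integrally closed (`isIntegrallyClosed_R`) domain and `p` has height
one. A discrete valuation ring is a maximal proper subring of its fraction field and `O ≠ KR`
(`f` divides a nonzero element of `p`, whose inverse is not in `W`), so `O = R_p` and it has a
uniformizer. (Other proof of `O ⊆ R_p`: for `h ∈ KR ∩ W` the ideal `J = {b ∈ A : b h ∈ A}` is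
`G`-stable and not contained in `(f)`, hence not contained in any `(g f)`, `g ∈ G`; by prime
avoidance it contains an element `b` outside all `(g f)`; then the norm `N b = ∏ g b` is in
`R \ p` and `N b * h ∈ A` is invariant.) -/
theorem comap_eq_locAt (hfin : Algebra.FiniteType ℂ R) (hic : IsIntegrallyClosed R)
    (p : Ideal R) (hp : p.IsPrime) (hp1 : p.height = 1) (f : A)
    (hf : Irreducible f) (hfp : ∀ r : R, r ∈ p ↔ f ∣ algebraMap R A r)
    (W : ValuationSubring FA)
    (hW : ∀ h : FA, h ∈ W ↔ ∃ a b : A, ¬ f ∣ b ∧ h = algebraMap A FA a / algebraMap A FA b) :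
    ((W.comap (algebraMap KR FA) : ValuationSubring KR) : Set KR) = locAt KR p ∧
      ∃ t, IsUnif (W.comap (algebraMap KR FA)) t := by
  have hfprime : Prime f := hf.prime
  have hAinj : Function.Injective (algebraMap A FA) := IsFractionRing.injective A FA
  have hRinj : Function.Injective (algebraMap R KR) := IsFractionRing.injective R KR
  have hpne : p ≠ ⊥ := by
    rintro rfl
    have : (⊥ : Ideal R).height = 0 := by
      rw [Ideal.height_bot]
    rw [this] at hp1
    exact zero_ne_one hp1
  obtain ⟨r0, hr0, hr0ne⟩ := Submodule.exists_mem_ne_zero_of_ne_bot hpne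
  obtain ⟨W', hW'unif, hW'⟩ := exists_adic f hf
  have hWW : W = W' := by
    ext h
    rw [hW, hW']
  subst hWW
  refine ⟨?_, honc_exists_unif W hW'unif (algebraMap R KR r0) ?_ ?_⟩
  · ext h
    constructor
    · intro hh
      have hh1 : algebraMap KR FA h ∈ W := hh
      let J : Ideal A :=
        { carrier := {b | ∃ c : A, algebraMap A FA b * algebraMap KR FA h = algebraMap A FA c}
          add_mem' := by
            rintro a b ⟨c, hc⟩ ⟨d, hd⟩
            exact ⟨c + d, by rw [map_add, add_mul, hc, hd, map_add]⟩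
          zero_mem' := ⟨0, by simp⟩
          smul_mem' := by
            rintro x a ⟨c, hc⟩
            exact ⟨x * c, by rw [smul_eq_mul, map_mul, mul_assoc, hc, map_mul]⟩ }
      have hJmem : ∀ b, b ∈ J ↔
          ∃ c : A, algebraMap A FA b * algebraMap KR FA h = algebraMap A FA c := fun b => Iff.rfl
      have hJG : ∀ (g : G) b, b ∈ J → g • b ∈ J := by
        intro g b hb
        obtain ⟨c, hc⟩ := (hJmem b).1 hb
        refine (hJmem _).2 ⟨g • c, ?_⟩
        rw [honc_smul_A, honc_smul_A, ← hc, smul_mul', honc_smul_KR]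
      have hspan : (Ideal.span {f} : Ideal A).IsPrime := by
        rw [Ideal.span_singleton_prime hfprime.ne_zero]
        exact hfprime
      let Q : G → Ideal A := fun g => Ideal.comap (MulSemiringAction.toRingHom G A g)
        (Ideal.span {f})
      have hQmem : ∀ g b, b ∈ Q g ↔ f ∣ g • b := by
        intro g b
        change MulSemiringAction.toRingHom G A g b ∈ Ideal.span {f} ↔ _
        rw [Ideal.mem_span_singleton]
        rfl
      obtain ⟨b, hbJ, hbQ⟩ : ∃ b ∈ J, ∀ g : G, ¬ f ∣ g • b := by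
        by_contra hcon
        push Not at hcon
        have hsub : (J : Set A) ⊆ ⋃ i ∈ ((Finset.univ : Finset G) : Set G), (Q i : Set A) := by
          intro b hb
          obtain ⟨g, hg⟩ := hcon b hb
          simp only [Finset.coe_univ, Set.mem_univ, Set.iUnion_true, Set.mem_iUnion]
          exact ⟨g, (hQmem g b).2 hg⟩
        rw [Ideal.subset_union_prime (1 : G) (1 : G)
          (fun i _ _ _ => Ideal.comap_isPrime _ _)] at hsub
        obtain ⟨g, -, hg⟩ := hsub
        obtain ⟨a, b, hfb, hab⟩ := (hW _).1 hh1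
        have hbne : b ≠ 0 := by
          rintro rfl
          exact hfb (dvd_zero f)
        have hbJ : b ∈ J := by
          refine (hJmem b).2 ⟨a, ?_⟩
          rw [hab]
          have : algebraMap A FA b ≠ 0 := by
            rw [Ne, map_eq_zero_iff _ hAinj]
            exact hbne
          field_simp
        have h1 := (hQmem g _).1 (hg (hJG g⁻¹ b hbJ))
        rw [smul_inv_smul] at h1
        exact hfb h1
      have hNinv : ∀ g : G, g • (∏ k : G, k • b) = ∏ k : G, k • b := by
        intro g
        rw [Finset.smul_prod']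
        exact Fintype.prod_equiv (Equiv.mulLeft g) _ _ fun k => by
          simp [mul_smul]
      obtain ⟨r, hr⟩ := exists_R _ hNinv
      have hrp : r ∉ p := by
        rw [hfp, hr]
        intro hdvd
        rw [hfprime.dvd_finsetProd_iff] at hdvd
        obtain ⟨g, -, hg⟩ := hdvd
        exact hbQ g hg
      obtain ⟨c, hc⟩ : ∃ c : A, algebraMap A FA (∏ k : G, k • b) * algebraMap KR FA h =
          algebraMap A FA c := by
        have : (∏ k : G, k • b) ∈ J := by
          refine J.mem_of_dvd ?_ hbJ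
          have := Finset.dvd_prod_of_mem (fun k : G => k • b) (Finset.mem_univ (1 : G))
          simpa using this
        exact (hJmem _).1 this
      have hcinv : ∀ g : G, g • c = c := by
        intro g
        apply hAinj
        rw [honc_smul_A, ← hc, smul_mul', honc_smul_KR, ← honc_smul_A, hNinv]
      obtain ⟨s, hs⟩ := exists_R _ hcinv
      refine ⟨s, r, hrp, ?_⟩
      apply (algebraMap KR FA).injective
      rw [map_mul, honc_map_R, honc_map_R, hr, hs, ← hc, mul_comm]
    · rintro ⟨a, b, hb, hab⟩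
      change algebraMap KR FA h ∈ W
      rw [hW]
      refine ⟨algebraMap R A a, algebraMap R A b, fun hd => hb ((hfp b).2 hd), ?_⟩
      have hbne : b ≠ 0 := by
        rintro rfl
        exact hb p.zero_mem
      have h1 : algebraMap A FA (algebraMap R A b) ≠ 0 := by
        rw [Ne, map_eq_zero_iff _ hAinj, map_eq_zero_iff _ R_injective]
        exact hbne
      rw [eq_div_iff h1, ← honc_map_R, ← honc_map_R, ← map_mul, hab]
  · rw [Ne, map_eq_zero_iff _ hRinj]
    exact hr0ne
  · rw [honc_map_R, W.mem_nonunits_iff_or]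
    right
    intro hcon
    obtain ⟨a, b, hfb, hab⟩ := (hW _).1 hcon
    have hne : algebraMap R A r0 ≠ 0 := by
      rw [Ne, map_eq_zero_iff _ R_injective]
      exact hr0ne
    have hbne : b ≠ 0 := by
      rintro rfl
      exact hfb (dvd_zero f)
    have h1 : algebraMap A FA (algebraMap R A r0) ≠ 0 := by
      rw [Ne, map_eq_zero_iff _ hAinj]
      exact hne
    have h2 : algebraMap A FA b ≠ 0 := by
      rw [Ne, map_eq_zero_iff _ hAinj]
      exact hbne
    have h3 : b = a * algebraMap R A r0 := by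
      apply hAinj
      rw [map_mul]
      field_simp at hab
      rw [hab, mul_comm]
    exact hfb (h3 ▸ Dvd.dvd.mul_left ((hfp r0).1 hr0) a)

end H5ML

end S_HonC

section S_HonD

/-!
# HOND: the standard form has no zero or pole on affine space
-/

namespace H5ML

open MvPolynomial

/-- A derivation with constant values on the variables preserves polynomials. -/
theorem hond_deriv (d : Derivation ℂ FA FA)
    (hd : ∀ s : Ix, ∃ c : A, d (algebraMap A FA (X s)) = algebraMap A FA c) (a : A) :
    ∃ c : A, d (algebraMap A FA a) = algebraMap A FA c := by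
  induction a using MvPolynomial.induction_on with
  | C r =>
    refine ⟨0, ?_⟩
    have : algebraMap A FA (C r) = algebraMap ℂ FA r := by
      rw [IsScalarTower.algebraMap_apply ℂ A FA]; rfl
    rw [this, Derivation.map_algebraMap, map_zero]
  | add p q hp hq =>
    obtain ⟨c, hc⟩ := hp
    obtain ⟨c', hc'⟩ := hq
    exact ⟨c + c', by rw [map_add, map_add, hc, hc', map_add]⟩
  | mul_X p s hp =>
    obtain ⟨c, hc⟩ := hp
    obtain ⟨c', hc'⟩ := hd s
    refine ⟨p * c' + X s * c, ?_⟩
    rw [map_mul, Derivation.leibniz, hc, hc', map_add, map_mul, map_mul, smul_eq_mul, smul_eq_mul]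

/-- Proof. Let `∂` be the derivations of `FA` dual to `zc` (`exists_dual`, `zc` is a transcendence
basis). They map `A` to `A` (a derivation with constant values on the variables) and hence
`W` to `W` by the quotient rule. Let `z = cons T y` be the system of the frame `D`. By the chain
rule (`jac_mul` for `zc`, `∂`) `1 = jac D z = jac D zc * jac ∂ z`, and `jac ∂ z ∈ W`, while
`jac D zc ∈ W`. -/
theorem adic_jac (hind : AlgebraicIndependent ℂ zc)
    (halg : Algebra.IsAlgebraic (IntermediateField.adjoin ℂ (Set.range zc)) FA)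
    (f : A) (hf : Irreducible f) (W : ValuationSubring FA)
    (hW : ∀ h : FA, h ∈ W ↔ ∃ a b : A, ¬ f ∣ b ∧ h = algebraMap A FA a / algebraMap A FA b)
    (T : FA) (D : Fin (10 + 1) → Derivation ℂ FA FA) (hD : IsFrame W T D) :
    OrdEq W T (jac D zc) 0 := by
  obtain ⟨E, hE⟩ := exists_dual zc hind halg
  obtain ⟨hT, hDW, y, hy, hDd⟩ := hD
  have hprime : Prime f := hf.prime
  -- `E i` preserves `A`
  have hEA : ∀ i (a : A), ∃ c : A, E i (algebraMap A FA a) = algebraMap A FA c := by
    intro i a
    refine hond_deriv (E i) (fun s => ?_) a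
    obtain ⟨j, rfl⟩ := idx_bijective.2 s
    refine ⟨if i = j then 1 else 0, ?_⟩
    have := hE i j
    unfold zc at this
    rw [this]
    split_ifs <;> simp
  -- `E i` preserves `W`
  have hEW : ∀ i, ∀ h ∈ W, E i h ∈ W := by
    intro i h hh
    obtain ⟨a, b, hb, rfl⟩ := (hW h).1 hh
    obtain ⟨a', ha'⟩ := hEA i a
    obtain ⟨b', hb'⟩ := hEA i b
    have hb0 : algebraMap A FA b ≠ 0 := by
      intro h0
      apply hb
      rw [(map_eq_zero_iff _ (IsFractionRing.injective A FA)).1 h0]
      exact dvd_zero f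
    rw [hW]
    refine ⟨a' * b - a * b', b * b, ?_, ?_⟩
    · intro h1
      rcases hprime.dvd_or_dvd h1 with h2 | h2 <;> exact hb h2
    · have h1 : E i (algebraMap A FA a / algebraMap A FA b) * algebraMap A FA b =
          E i (algebraMap A FA a) -
            algebraMap A FA a / algebraMap A FA b * E i (algebraMap A FA b) := by
        have h2 := (E i).leibniz (algebraMap A FA a / algebraMap A FA b) (algebraMap A FA b)
        rw [div_mul_cancel₀ _ hb0, smul_eq_mul, smul_eq_mul] at h2
        rw [h2]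
        ring
      rw [ha', hb'] at h1
      rw [map_sub, map_mul, map_mul, map_mul, eq_div_iff (mul_ne_zero hb0 hb0)]
      calc E i (algebraMap A FA a / algebraMap A FA b) * (algebraMap A FA b * algebraMap A FA b)
          = (E i (algebraMap A FA a / algebraMap A FA b) * algebraMap A FA b) *
              algebraMap A FA b := by ring
        _ = _ := by rw [h1]; field_simp
  have hzcW : ∀ j, zc j ∈ W := by
    intro j
    rw [hW]
    refine ⟨X (idx j), 1, fun h => hf.not_isUnit (isUnit_of_dvd_one h), ?_⟩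
    rw [map_one, div_one]
    rfl
  have hmem : ∀ j, (Fin.cons T y : Fin (10 + 1) → FA) j ∈ W := by
    intro j
    refine Fin.cases ?_ (fun j => ?_) j
    · simpa using hT.2.1
    · simpa using hy.mem j
  have e1 : jac D zc * jac E (Fin.cons T y) = 1 := by
    rw [← jac_mul zc hind halg E hE D (Fin.cons T y), jac_dual _ _ hDd]
  have m1 : jac D zc ∈ W := det_mem _ fun j i => hDW i _ (hzcW j)
  have m2 : jac E (Fin.cons T y) ∈ W := det_mem _ fun j i => hEW i _ (hmem j)
  refine ⟨left_ne_zero_of_mul_eq_one e1, ?_, ?_⟩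
  · simpa using m1
  · have h1 : (jac D zc)⁻¹ = jac E (Fin.cons T y) := inv_eq_of_mul_eq_one_right e1
    simpa [h1] using m2

end H5ML

end S_HonD

section S_OsvA

/-!
# OSVA: the monomial valuation
-/

namespace H5ML

open MvPolynomial

theorem osva_dvd_iff {p : Polynomial A} (hp : p ≠ 0) (M : ℕ) :
    Polynomial.X ^ M ∣ p ↔ M ≤ p.natTrailingDegree := by
  rw [Polynomial.X_pow_dvd_iff]
  constructor
  · intro h
    exact Polynomial.le_natTrailingDegree hp h
  · intro h d hd
    exact Polynomial.coeff_eq_zero_of_lt_natTrailingDegree (lt_of_lt_of_le hd h)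

/-- The left inverse of `theta`. -/
noncomputable def osvaInv : A →ₐ[ℂ] A :=
  aeval fun
    | .inl i => C (1 / 2) * (xx i - yy i)
    | .inr (.inl i) => C (1 / 2) * (xx i + yy i)
    | .inr (.inr l) => tt l

theorem osvaInv_xx (i : Fin 3) : osvaInv (xx i) = C (1 / 2) * (xx i - yy i) := by
  rw [osvaInv, xx, aeval_X]
  rfl

theorem osvaInv_yy (i : Fin 3) : osvaInv (yy i) = C (1 / 2) * (xx i + yy i) := by
  rw [osvaInv, yy, aeval_X]
  rfl

theorem osvaInv_tt (l : Fin 5) : osvaInv (tt l) = tt l := by
  rw [osvaInv, tt, aeval_X]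
  rfl

theorem osva_theta_injective : Function.Injective theta := by
  have key : ((osvaInv.comp ((Polynomial.aeval (R := A) (1 : A)).restrictScalars ℂ)).comp theta) =
      AlgHom.id ℂ A := by
    have h2 : (C (1 / 2) : A) + C (1 / 2) = 1 := by
      rw [← C_add]
      norm_num
    apply MvPolynomial.algHom_ext
    rintro (i | i | l)
    · change osvaInv (Polynomial.aeval (1 : A) (theta (xx i))) = xx i
      rw [theta_xx]
      simp only [map_add, map_mul, map_pow, Polynomial.aeval_C, Polynomial.aeval_X, one_pow,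
        mul_one, Algebra.algebraMap_self, RingHom.id_apply, osvaInv_xx, osvaInv_yy]
      linear_combination xx i * h2
    · change osvaInv (Polynomial.aeval (1 : A) (theta (yy i))) = yy i
      rw [theta_yy]
      simp only [map_sub, map_mul, map_pow, Polynomial.aeval_C, Polynomial.aeval_X, one_pow,
        mul_one, Algebra.algebraMap_self, RingHom.id_apply, osvaInv_xx, osvaInv_yy]
      linear_combination yy i * h2
    · change osvaInv (Polynomial.aeval (1 : A) (theta (tt l))) = tt l
      rw [theta_tt]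
      simp only [map_mul, Polynomial.aeval_C, Polynomial.aeval_X,
        mul_one, Algebra.algebraMap_self, RingHom.id_apply, osvaInv_tt]
  intro a b hab
  have h1 := congrArg (fun f : A →ₐ[ℂ] A => f a) key
  have h2 := congrArg (fun f : A →ₐ[ℂ] A => f b) key
  simp only [AlgHom.comp_apply, AlgHom.id_apply] at h1 h2
  rw [← h1, ← h2, hab]

/-- The constants of `thc` as complex numbers. -/
noncomputable def osvaC : Ix → ℂ
  | .inl _ => 2
  | .inr (.inl _) => 2
  | .inr (.inr _) => 1

theorem osvaC_ne (v : Ix) : osvaC v ≠ 0 := by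
  rcases v with i | i | l <;> simp [osvaC]

theorem osva_theta_lin (v : Ix) : theta (lin 0 v) =
    Polynomial.C (C (osvaC v) * X v) * Polynomial.X ^ wt v := by
  have h2 : (C (2 : ℂ) : A) = 2 := map_ofNat C 2
  rcases v with i | i | l
  · simp only [lin, osvaC, wt, mul_zero, chi_zero, map_one, one_mul, map_sub, theta_xx, theta_yy,
      h2, pow_one]
    change _ = Polynomial.C (2 * xx i) * Polynomial.X
    rw [map_mul, show (Polynomial.C (2 : A)) = 2 from map_ofNat Polynomial.C 2]
    ring
  · simp only [lin, osvaC, wt, mul_zero, chi_zero, map_one, one_mul, map_add, theta_xx, theta_yy,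
      h2]
    change _ = Polynomial.C (2 * yy i) * Polynomial.X ^ 2
    rw [map_mul, show (Polynomial.C (2 : A)) = 2 from map_ofNat Polynomial.C 2]
    ring
  · simp only [lin, osvaC, wt, theta_tt, map_one, one_mul, pow_one]
    rfl

theorem osva_wt_le_two (v : Ix) : wt v ≤ 2 := by
  rcases v with i | i | l <;> simp [wt]

/-- The enumeration as an equivalence. -/
noncomputable def osvaIdxE : Fin (10 + 1) ≃ Ix := Equiv.ofBijective idx idx_bijective

/-- The specialisation used to detect nonvanishing. -/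
noncomputable def osvaPhi : A →ₐ[ℂ] MvPolynomial (Fin 10) ℂ :=
  aeval fun v => (Fin.cons 1 (fun j : Fin 10 => C (osvaC (idx j.succ))⁻¹ * X j) :
    Fin (10 + 1) → MvPolynomial (Fin 10) ℂ) (osvaIdxE.symm v)

theorem osvaPhi_t : osvaPhi (tt 0) = 1 := by
  have h : osvaIdxE.symm (Sum.inr (Sum.inr 0)) = 0 := by
    rw [Equiv.symm_apply_eq]
    rfl
  rw [osvaPhi, tt, aeval_X, h]
  rfl

theorem osvaPhi_X (j : Fin 10) : osvaPhi (C (osvaC (idx j.succ)) * X (idx j.succ)) = X j := by
  have h : osvaIdxE.symm (idx j.succ) = j.succ := by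
    rw [Equiv.symm_apply_eq]
    rfl
  have hC : osvaPhi (C (osvaC (idx j.succ))) = C (osvaC (idx j.succ)) := by
    rw [osvaPhi, aeval_C]
    rfl
  rw [map_mul, hC, osvaPhi, aeval_X, h, Fin.cons_succ, ← mul_assoc, ← C_mul,
    mul_inv_cancel₀ (osvaC_ne _), C_1, one_mul]

/-- The exponent of `t₀` absorbed by a monomial. -/
noncomputable def osvaS (d : Fin 10 →₀ ℕ) : ℕ := ∑ j : Fin 10, wt (idx j.succ) * d j

theorem osvaS_le (P : MvPolynomial (Fin 10) ℂ) {d : Fin 10 →₀ ℕ} (hd : d ∈ P.support) :
    osvaS d ≤ 2 * P.totalDegree := by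
  have h1 := MvPolynomial.le_totalDegree hd
  rw [Finsupp.sum_fintype _ _ (fun _ => rfl)] at h1
  refine le_trans ?_ (Nat.mul_le_mul_left 2 h1)
  rw [osvaS, Finset.mul_sum]
  exact Finset.sum_le_sum fun j _ => Nat.mul_le_mul_right _ (osva_wt_le_two _)

/-- The numerator. -/
noncomputable def osvaNum (P : MvPolynomial (Fin 10) ℂ) : A :=
  ∑ d ∈ P.support, C (coeff d P) * ((∏ j : Fin 10, lin 0 (idx j.succ) ^ d j) *
    tt 0 ^ (2 * P.totalDegree - osvaS d))

/-- The leading coefficient of the image of the numerator. -/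
noncomputable def osvaLead (P : MvPolynomial (Fin 10) ℂ) : A :=
  ∑ d ∈ P.support, C (coeff d P) *
    ((∏ j : Fin 10, (C (osvaC (idx j.succ)) * X (idx j.succ)) ^ d j) *
    tt 0 ^ (2 * P.totalDegree - osvaS d))

theorem theta_osvaNum (P : MvPolynomial (Fin 10) ℂ) :
    theta (osvaNum P) = Polynomial.C (osvaLead P) * Polynomial.X ^ (2 * P.totalDegree) := by
  rw [osvaNum, osvaLead, map_sum, map_sum, Finset.sum_mul]
  refine Finset.sum_congr rfl fun d hd => ?_
  have h1 : ∀ j : Fin 10, theta (lin 0 (idx j.succ)) ^ d j =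
      Polynomial.C ((C (osvaC (idx j.succ)) * X (idx j.succ)) ^ d j) *
        Polynomial.X ^ (wt (idx j.succ) * d j) := by
    intro j
    rw [osva_theta_lin, mul_pow, ← pow_mul, map_pow]
  rw [map_mul, map_mul, map_prod, map_pow, theta_C, theta_tt]
  simp only [map_pow]
  rw [Finset.prod_congr rfl fun j _ => h1 j, Finset.prod_mul_distrib, Finset.prod_pow_eq_pow_sum,
    mul_pow, map_mul, map_mul, map_prod, map_pow]
  have h2 : (2 * P.totalDegree) = osvaS d + (2 * P.totalDegree - osvaS d) := by
    have := osvaS_le P hd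
    omega
  have h3 : (Polynomial.X : Polynomial A) ^ (2 * P.totalDegree) =
      Polynomial.X ^ (∑ j : Fin 10, wt (idx j.succ) * d j) *
        Polynomial.X ^ (2 * P.totalDegree - osvaS d) := by
    rw [← pow_add]
    congr 1
  rw [h3]
  ring

theorem osvaLead_ne (P : MvPolynomial (Fin 10) ℂ) (hP : P ≠ 0) : osvaLead P ≠ 0 := by
  intro h0
  apply hP
  have h1 : osvaPhi (osvaLead P) = P := by
    rw [osvaLead, map_sum]
    conv_rhs => rw [P.as_sum]
    refine Finset.sum_congr rfl fun d hd => ?_
    rw [map_mul, map_mul, map_prod, map_pow, osvaPhi_t, one_pow, mul_one]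
    simp only [map_pow, osvaPhi_X]
    rw [osvaPhi, aeval_C, MvPolynomial.monomial_eq, Finsupp.prod_fintype _ _ (fun _ => pow_zero _)]
    rfl
  rw [← h1, h0, map_zero]

theorem osvaNum_eq (P : MvPolynomial (Fin 10) ℂ) :
    algebraMap A FA (osvaNum P) = aeval (zq 0) P * t0 ^ (2 * P.totalDegree) := by
  have ht : t0 ≠ 0 := by
    rw [t0, map_ne_zero_iff _ (IsFractionRing.injective A FA)]
    exact X_ne_zero _
  rw [aeval_def, eval₂_eq', Finset.sum_mul, osvaNum, map_sum]
  refine Finset.sum_congr rfl fun d hd => ?_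
  rw [map_mul, map_mul, map_prod, map_pow]
  have h1 : algebraMap A FA (C (coeff d P)) = algebraMap ℂ FA (coeff d P) :=
    (IsScalarTower.algebraMap_apply ℂ A FA _).symm
  rw [h1, mul_assoc]
  congr 1
  have h2 : ∀ j : Fin 10, zq 0 j ^ d j = algebraMap A FA (lin 0 (idx j.succ) ^ d j) *
      t0 ^ (-((wt (idx j.succ) * d j : ℕ) : ℤ)) := by
    intro j
    rw [zq, zk, mul_pow, map_pow, ← zpow_natCast (t0 ^ _) (d j), ← zpow_mul]
    congr 2
    push_cast
    ring
  rw [Finset.prod_congr rfl fun j _ => h2 j, Finset.prod_mul_distrib]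
  have h3 : ∏ j : Fin 10, t0 ^ (-((wt (idx j.succ) * d j : ℕ) : ℤ)) =
      t0 ^ (-((osvaS d : ℕ) : ℤ)) := by
    have : ∀ s : Finset (Fin 10), ∏ j ∈ s, t0 ^ (-((wt (idx j.succ) * d j : ℕ) : ℤ)) =
        t0 ^ (-((∑ j ∈ s, wt (idx j.succ) * d j : ℕ) : ℤ)) := by
      intro s
      induction s using Finset.induction_on with
      | empty => simp
      | insert a s ha ih =>
        rw [Finset.prod_insert ha, Finset.sum_insert ha, ih, ← zpow_add₀ ht]
        congr 1
        push_cast
        ring
    exact this _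
  rw [h3, mul_assoc]
  congr 1
  have h4 := osvaS_le P hd
  change t0 ^ (2 * P.totalDegree - osvaS d) = _
  rw [← zpow_natCast, ← zpow_natCast, ← zpow_add₀ ht]
  congr 1
  omega

theorem exists_W : ∃ W : ValuationSubring FA, IsUnif W t0 ∧ ResIndep W (zq 0) ∧
    ∀ (h : A) (m : ℕ), algebraMap A FA h * t0 ^ (-(m : ℤ)) ∈ W ↔ Polynomial.X ^ m ∣ theta h := by
  obtain ⟨V, hV⟩ := exists_val (F₀ := FA) (theta : A →+* Polynomial A) osva_theta_injective
  have hne : ∀ a : A, a ≠ 0 → theta a ≠ 0 := fun a ha h0 =>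
    ha (osva_theta_injective (by rw [h0, map_zero]))
  let o : A → ℕ := fun a => (theta a).natTrailingDegree
  have hinj := IsFractionRing.injective A FA
  have key : ∀ a b : A, a ≠ 0 → b ≠ 0 →
      (algebraMap A FA a / algebraMap A FA b ∈ V ↔ o b ≤ o a) := by
    intro a b ha hb
    rw [hV a b hb]
    constructor
    · intro h
      have h1 := h (o b) ((osva_dvd_iff (hne b hb) _).2 le_rfl)
      exact (osva_dvd_iff (hne a ha) _).1 h1
    · intro h M hM
      have h1 := (osva_dvd_iff (hne b hb) _).1 hM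
      exact (osva_dvd_iff (hne a ha) _).2 (h1.trans h)
  have omul : ∀ a b : A, a ≠ 0 → b ≠ 0 → o (a * b) = o a + o b := by
    intro a b ha hb
    change (theta (a * b)).natTrailingDegree = _
    rw [map_mul, Polynomial.natTrailingDegree_mul (hne a ha) (hne b hb)]
  have htt : (tt 0 : A) ≠ 0 := X_ne_zero _
  have opow : ∀ m : ℕ, o (tt 0 ^ m) = m := by
    intro m
    change (theta (tt 0 ^ m)).natTrailingDegree = m
    rw [map_pow, theta_tt, mul_pow, ← map_pow, Polynomial.natTrailingDegree_mul,
      Polynomial.natTrailingDegree_C, Polynomial.natTrailingDegree_X_pow, zero_add]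
    · rw [Ne, Polynomial.C_eq_zero]
      exact pow_ne_zero _ htt
    · exact pow_ne_zero _ Polynomial.X_ne_zero
  have oone : o 1 = 0 := by
    have := opow 0
    rwa [pow_zero] at this
  have ht0 : t0 ≠ 0 := by
    rw [t0, map_ne_zero_iff _ hinj]
    exact htt
  have hunit : ∀ a b : A, a ≠ 0 → b ≠ 0 → o a = o b →
      algebraMap A FA a / algebraMap A FA b ∈ V ∧
        (algebraMap A FA a / algebraMap A FA b)⁻¹ ∈ V := by
    intro a b ha hb h
    refine ⟨(key a b ha hb).2 h.ge, ?_⟩
    rw [inv_div]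
    exact (key b a hb ha).2 h.le
  have hthird : ∀ (h : A) (m : ℕ), algebraMap A FA h * t0 ^ (-(m : ℤ)) ∈ V ↔
      Polynomial.X ^ m ∣ theta h := by
    intro h m
    have e1 : algebraMap A FA h * t0 ^ (-(m : ℤ)) =
        algebraMap A FA h / algebraMap A FA (tt 0 ^ m) := by
      rw [zpow_neg, zpow_natCast, map_pow, div_eq_mul_inv]
      rfl
    rcases eq_or_ne h 0 with rfl | hh
    · rw [map_zero, zero_mul, map_zero]
      exact ⟨fun _ => dvd_zero _, fun _ => V.zero_mem⟩
    · rw [e1, key h _ hh (pow_ne_zero _ htt), opow, osva_dvd_iff (hne h hh)]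
  refine ⟨V, ⟨ht0, ?_, ?_, ?_⟩, ?_, hthird⟩
  · have := (key (tt 0) 1 htt one_ne_zero).2 (by
      rw [oone]
      exact Nat.zero_le _)
    rwa [map_one, div_one] at this
  · intro h
    have h1 : algebraMap A FA 1 / algebraMap A FA (tt 0) ∈ V := by
      rw [map_one, one_div]
      exact h
    rw [key 1 (tt 0) one_ne_zero htt, oone] at h1
    have := opow 1
    rw [pow_one] at this
    omega
  · intro h hh
    obtain ⟨a, b, hb, rfl⟩ := IsFractionRing.div_surjective (A := A) h
    have hb0 : b ≠ 0 := nonZeroDivisors.ne_zero hb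
    have ha0 : a ≠ 0 := by
      rintro rfl
      exact hh (by simp)
    have hbF : algebraMap A FA b ≠ 0 := (map_ne_zero_iff _ hinj).2 hb0
    refine ⟨(o b : ℤ) - o a, ?_⟩
    have e : algebraMap A FA a / algebraMap A FA b * t0 ^ ((o b : ℤ) - o a) =
        algebraMap A FA (a * tt 0 ^ (o b)) / algebraMap A FA (b * tt 0 ^ (o a)) := by
      rw [map_mul, map_mul, map_pow, map_pow, zpow_sub₀ ht0, zpow_natCast, zpow_natCast]
      change _ = algebraMap A FA a * t0 ^ (o b) / (algebraMap A FA b * t0 ^ (o a))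
      field_simp
    rw [e]
    refine hunit _ _ (mul_ne_zero ha0 (pow_ne_zero _ htt)) (mul_ne_zero hb0 (pow_ne_zero _ htt)) ?_
    rw [omul _ _ ha0 (pow_ne_zero _ htt), omul _ _ hb0 (pow_ne_zero _ htt), opow, opow, add_comm]
  · intro P hP
    have hlead := osvaLead_ne P hP
    have hnum : osvaNum P ≠ 0 := by
      intro h0
      have h1 := theta_osvaNum P
      rw [h0, map_zero] at h1
      have h2 := h1.symm
      rw [mul_eq_zero, Polynomial.C_eq_zero] at h2
      rcases h2 with h2 | h2
      · exact hlead h2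
      · exact pow_ne_zero _ Polynomial.X_ne_zero h2
    have honum : o (osvaNum P) = 2 * P.totalDegree := by
      change (theta (osvaNum P)).natTrailingDegree = _
      rw [theta_osvaNum, Polynomial.natTrailingDegree_mul, Polynomial.natTrailingDegree_C,
        Polynomial.natTrailingDegree_X_pow, zero_add]
      · rw [Ne, Polynomial.C_eq_zero]
        exact hlead
      · exact pow_ne_zero _ Polynomial.X_ne_zero
    have e : aeval (zq 0) P = algebraMap A FA (osvaNum P) /
        algebraMap A FA (tt 0 ^ (2 * P.totalDegree)) := by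
      rw [osvaNum_eq, map_pow]
      change _ = _ / t0 ^ _
      rw [mul_div_assoc, div_self (pow_ne_zero _ ht0), mul_one]
    rw [e]
    refine ⟨div_ne_zero ((map_ne_zero_iff _ hinj).2 hnum)
      ((map_ne_zero_iff _ hinj).2 (pow_ne_zero _ htt)), ?_⟩
    exact hunit _ _ hnum (pow_ne_zero _ htt) (by rw [honum, opow])

end H5ML

end S_OsvA

section S_OsvB

/-!
# OSVB: ramification of the monomial valuation over the invariants
-/

namespace H5ML

open MvPolynomial

/-- The substitution `ϖ ↦ -ϖ`. -/
noncomputable def osvb_nu : Polynomial A →ₐ[ℂ] Polynomial A :=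
  (Polynomial.aeval (-Polynomial.X : Polynomial A) : Polynomial A →ₐ[A] Polynomial A).restrictScalars ℂ

theorem osvb_nu_X : osvb_nu Polynomial.X = -Polynomial.X := by
  simp [osvb_nu]

theorem osvb_nu_C (a : A) : osvb_nu (Polynomial.C a) = Polynomial.C a := by
  simp [osvb_nu]

theorem osvb_theta_s (a : A) : theta (act (.sr 0) a) = osvb_nu (theta a) := by
  have h : theta.comp (act (.sr 0)) = osvb_nu.comp theta := by
    apply MvPolynomial.algHom_ext
    rintro (i | i | l)
    · change theta (act (.sr 0) (xx i)) = osvb_nu (theta (xx i))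
      rw [act_xx_sr, mul_zero, chi_zero, map_one, one_mul, theta_yy, theta_xx, map_add, map_mul,
        map_mul, map_pow, osvb_nu_X, osvb_nu_C, osvb_nu_C]
      ring
    · change theta (act (.sr 0) (yy i)) = osvb_nu (theta (yy i))
      rw [act_yy_sr, mul_zero, neg_zero, chi_zero, map_one, one_mul, theta_yy, theta_xx, map_sub,
        map_mul, map_mul, map_pow, osvb_nu_X, osvb_nu_C, osvb_nu_C]
      ring
    · change theta (act (.sr 0) (tt l)) = osvb_nu (theta (tt l))
      rw [act_tt_sr, map_neg, theta_tt, map_mul, osvb_nu_X, osvb_nu_C]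
      ring
  exact DFunLike.congr_fun h a

theorem osvb_coeff (p : Polynomial A) (n : ℕ) : (osvb_nu p).coeff n = (-1) ^ n * p.coeff n := by
  induction p using Polynomial.induction_on' with
  | add p q hp hq => rw [map_add, Polynomial.coeff_add, hp, hq, Polynomial.coeff_add, mul_add]
  | monomial k a =>
    have h1 : osvb_nu (Polynomial.monomial k a)
        = Polynomial.C ((-1) ^ k) * (Polynomial.C a * Polynomial.X ^ k) := by
      rw [← Polynomial.C_mul_X_pow_eq_monomial, map_mul, map_pow, osvb_nu_X, osvb_nu_C,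
        neg_pow (Polynomial.X : Polynomial A) k]
      simp only [map_pow, map_neg, map_one]
      ring
    rw [h1, Polynomial.coeff_C_mul, Polynomial.coeff_C_mul_X_pow,
      ← Polynomial.C_mul_X_pow_eq_monomial, Polynomial.coeff_C_mul_X_pow]
    split_ifs with h
    · rw [h]
    · simp

theorem osvb_even (r : R) (k : ℕ)
    (h : Polynomial.X ^ (2 * k + 1) ∣ theta (algebraMap R A r)) :
    Polynomial.X ^ (2 * k + 2) ∣ theta (algebraMap R A r) := by
  rw [Polynomial.X_pow_dvd_iff] at h ⊢
  intro d hd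
  rcases Nat.lt_or_ge d (2 * k + 1) with h1 | h1
  · exact h d h1
  · have h2 : d = 2 * k + 1 := by omega
    subst h2
    have h3 := R_smul (.sr 0) r
    rw [smul_eq] at h3
    have h4 := osvb_theta_s (algebraMap R A r)
    rw [h3] at h4
    have h5 := osvb_coeff (theta (algebraMap R A r)) (2 * k + 1)
    rw [← h4, pow_succ, pow_mul, neg_one_sq, one_pow, one_mul, neg_one_mul] at h5
    exact self_eq_neg.mp h5

theorem osvb_map (r : R) : algebraMap KR FA (algebraMap R KR r) =
    algebraMap A FA (algebraMap R A r) := by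
  rw [← IsScalarTower.algebraMap_apply R KR FA, IsScalarTower.algebraMap_apply R A FA]

theorem osvb_R (W : ValuationSubring FA) (hT : IsUnif W t0)
    (hW : ∀ (h : A) (m : ℕ), algebraMap A FA h * t0 ^ (-(m : ℤ)) ∈ W ↔
      Polynomial.X ^ m ∣ theta h) (r : R) (hr : r ≠ 0) :
    ∃ k : ℤ, OrdEq W t0 (algebraMap KR FA (algebraMap R KR r)) (2 * k) := by
  have hne : algebraMap KR FA (algebraMap R KR r) ≠ 0 := by
    intro h0
    apply hr
    have h1 : algebraMap R KR r = 0 := (map_eq_zero_iff _ (algebraMap KR FA).injective).1 h0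
    exact (map_eq_zero_iff _ (IsFractionRing.injective R KR)).1 h1
  obtain ⟨n, hn⟩ := exists_ordEq hT hne
  have key : ∀ m : ℕ, (m : ℤ) ≤ n ↔ Polynomial.X ^ m ∣ theta (algebraMap R A r) := by
    intro m
    rw [← hW, ← osvb_map, hn.mul_mem_iff hT]
  have h0 : 0 ≤ n := by
    have := (key 0).2 (by simp)
    simpa using this
  obtain ⟨m, rfl⟩ := Int.eq_ofNat_of_zero_le h0
  rcases Nat.even_or_odd' m with ⟨k, rfl | rfl⟩
  · refine ⟨k, ?_⟩
    have : ((2 * k : ℕ) : ℤ) = 2 * (k : ℤ) := by push_cast; ring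
    rwa [this] at hn
  · exfalso
    have h1 := (key (2 * k + 1)).1 le_rfl
    have h2 := (key (2 * k + 2)).2 (osvb_even r k h1)
    push_cast at h2
    omega

theorem osvb_K (W : ValuationSubring FA) (hT : IsUnif W t0)
    (hW : ∀ (h : A) (m : ℕ), algebraMap A FA h * t0 ^ (-(m : ℤ)) ∈ W ↔
      Polynomial.X ^ m ∣ theta h) (h : KR) (hh : h ≠ 0) :
    ∃ k : ℤ, OrdEq W t0 (algebraMap KR FA h) (2 * k) := by
  obtain ⟨a, b, hb, rfl⟩ := IsFractionRing.div_surjective (A := R) h
  have hb0 : b ≠ 0 := nonZeroDivisors.ne_zero hb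
  have ha0 : a ≠ 0 := by
    rintro rfl
    apply hh
    rw [map_zero, zero_div]
  obtain ⟨k, hk⟩ := osvb_R W hT hW a ha0
  obtain ⟨j, hj⟩ := osvb_R W hT hW b hb0
  refine ⟨k - j, ?_⟩
  have h1 := hk.mul hj.inv hT
  rw [map_div₀, div_eq_mul_inv]
  have h2 : 2 * (k - j) = 2 * k + -(2 * j) := by ring
  rw [h2]
  exact h1

theorem osvb_tsq : ∃ r : R, algebraMap R A r = tt 0 ^ 2 := by
  apply exists_R
  rintro (k | k)
  · rw [smul_eq, map_pow, act_tt_r]
  · rw [smul_eq, map_pow, act_tt_sr, neg_sq]

/-- Proof. `sr 0` multiplies `lin 0 v` by `(-1)^wt v` (`act_xx_sr` and so on with `k = 0`), so for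
`a ∈ A` one has `theta (sr 0 • a) = (theta a) (-ϖ)` (both sides are algebra homomorphisms which
agree on the variables: `theta (y_i) = Q ϖ² - P ϖ`, `theta (x_i) = Q ϖ² + P ϖ`). Hence if
`a` is invariant, `theta a` is a polynomial in `ϖ²`, and its order is even. Every `h ∈ KR` is
`a / b` with `a, b ∈ R`, so its order in `W` is even. The element `t_0² ∈ R` has order two. So
for `O = W ∩ KR`, `t_0²` is a uniformizer of `O` and every uniformizer of `O` has order two in
`W`. -/
theorem ramified (W : ValuationSubring FA) (hT : IsUnif W t0)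
    (hW : ∀ (h : A) (m : ℕ), algebraMap A FA h * t0 ^ (-(m : ℤ)) ∈ W ↔
      Polynomial.X ^ m ∣ theta h) :
    (∃ t, IsUnif (W.comap (algebraMap KR FA)) t) ∧
    ∀ t, IsUnif (W.comap (algebraMap KR FA)) t → OrdEq W t0 (algebraMap KR FA t) 2 := by
  obtain ⟨r, hr⟩ := osvb_tsq
  set T : KR := algebraMap R KR r with hTdef
  have hmT : algebraMap KR FA T = t0 ^ (2 : ℤ) := by
    rw [hTdef, osvb_map, hr, map_pow]
    rfl
  have hT0 : T ≠ 0 := by
    intro h0
    rw [h0, map_zero] at hmT
    exact (zpow_ne_zero 2 hT.1) hmT.symm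
  have hO2 : OrdEq W t0 (algebraMap KR FA T) 2 := by
    rw [hmT]
    exact ordEq_zpow hT 2
  have hU : IsUnif (W.comap (algebraMap KR FA)) T := by
    refine ⟨hT0, ?_, ?_, ?_⟩
    · rw [ValuationSubring.mem_comap]
      exact (hO2.mem_iff hT).2 (by norm_num)
    · rw [ValuationSubring.mem_comap, map_inv₀, hO2.inv.mem_iff hT]
      norm_num
    · intro h hh
      obtain ⟨k, hk⟩ := osvb_K W hT hW h hh
      refine ⟨-k, ?_⟩
      have h1 : algebraMap KR FA (h * T ^ (-k)) = algebraMap KR FA h * t0 ^ (-(2 * k)) := by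
        rw [map_mul, map_zpow₀, hmT, ← zpow_mul]
        congr 2
        ring
      rw [ValuationSubring.mem_comap, ValuationSubring.mem_comap, map_inv₀, h1]
      exact hk.2
  refine ⟨⟨T, hU⟩, fun t ht => ?_⟩
  obtain ⟨n, hn⟩ := exists_ordEq hU ht.1
  have hn1 : n = 1 := (hn.isUnif_iff hU).1 ht
  subst hn1
  obtain ⟨h0, h1, h2⟩ := hn
  rw [ValuationSubring.mem_comap] at h1 h2
  have h3 : algebraMap KR FA (t * T ^ (-1 : ℤ)) = algebraMap KR FA t * t0 ^ (-2 : ℤ) := by
    rw [map_mul, map_zpow₀, hmT, ← zpow_mul]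
    norm_num
  rw [map_inv₀, h3] at h2
  rw [h3] at h1
  refine ⟨?_, h1, h2⟩
  intro h4
  exact h0 ((map_eq_zero_iff _ (algebraMap KR FA).injective).1 h4)

end H5ML

end S_OsvB

section S_OsvC

/-!
# OSVC: the centre of the monomial valuation
-/

namespace H5ML

open MvPolynomial

theorem osvc_coeff (h : A) : (theta h).coeff 0 = C (constantCoeff h) := by
  induction h using MvPolynomial.induction_on with
  | C c => rw [theta_C]; simp
  | add p q hp hq => rw [map_add, Polynomial.coeff_add, hp, hq, map_add, C_add]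
  | mul_X p v hp =>
    rw [map_mul, Polynomial.mul_coeff_zero, hp, map_mul, constantCoeff_X, mul_zero, C_0]
    rcases v with i | i | l
    · have := theta_xx i
      rw [xx] at this
      rw [this]
      simp
    · have := theta_yy i
      rw [yy] at this
      rw [this]
      simp
    · have := theta_tt l
      rw [tt] at this
      rw [this]
      simp

theorem osvc_dvd (h : A) : Polynomial.X ∣ theta h ↔ constantCoeff h = 0 := by
  rw [Polynomial.X_dvd_iff, osvc_coeff, C_eq_zero]

theorem osvc_nonunits {F : Type} [Field F] (W : ValuationSubring F) {t : F} (hT : IsUnif W t)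
    (a : F) : a ∈ W.nonunits ↔ a * t⁻¹ ∈ W := by
  obtain ⟨ht0, htW, htI, hex⟩ := hT
  have htn : t ∈ W.nonunits := by
    have h1 := W.inv_mem_nonunits_iff (x := t⁻¹)
    rw [inv_inv] at h1
    exact h1.mpr (Or.inr htI)
  constructor
  · intro ha
    by_cases ha0 : a = 0
    · rw [ha0, zero_mul]
      exact W.zero_mem
    · obtain ⟨n, hn1, hn2⟩ := hex a ha0
      have hai : a⁻¹ ∉ W := by
        have h1 := W.inv_mem_nonunits_iff (x := a⁻¹)
        rw [inv_inv] at h1
        rcases h1.mp ha with h2 | h2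
        · exact absurd (inv_eq_zero.mp h2) ha0
        · exact h2
      have hn : n < 0 := by
        by_contra hn
        push Not at hn
        apply hai
        obtain ⟨m, rfl⟩ := Int.eq_ofNat_of_zero_le hn
        have h1 : a⁻¹ = (a * t ^ (m : ℤ))⁻¹ * t ^ m := by
          rw [zpow_natCast]
          field_simp
        rw [h1]
        exact W.mul_mem _ _ hn2 (pow_mem htW m)
      obtain ⟨m, hm⟩ : ∃ m : ℕ, n = -(m : ℤ) - 1 := ⟨(-n - 1).toNat, by omega⟩
      have h1 : a * t⁻¹ = (a * t ^ n) * t ^ m := by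
        rw [hm, zpow_sub₀ ht0, zpow_neg, zpow_natCast, zpow_one]
        field_simp
      rw [h1]
      exact W.mul_mem _ _ hn1 (pow_mem htW m)
  · intro ha
    have h1 : a = t * (a * t⁻¹) := by field_simp
    rw [h1]
    exact nonunit_mul htn ha

/-- Proof. `r ∈ R` lies in `W` (`m = 0`) and it is a nonunit of `W` iff `ϖ ∣ theta r` iff the
constant coefficient of `r` is zero (`theta r` at `ϖ = 0` is the constant coefficient of `r`,
since all variables are mapped to multiples of `ϖ`). -/
theorem overPoint_W (W : ValuationSubring FA) (hT : IsUnif W t0)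
    (hW : ∀ (h : A) (m : ℕ), algebraMap A FA h * t0 ^ (-(m : ℤ)) ∈ W ↔
      Polynomial.X ^ m ∣ theta h) :
    OverPoint x0 (W.comap (algebraMap KR FA)) := by
  have hmap : ∀ r : R, algebraMap KR FA (algebraMap R KR r) =
      algebraMap A FA (algebraMap R A r) := by
    intro r
    rw [← IsScalarTower.algebraMap_apply R KR FA, IsScalarTower.algebraMap_apply R A FA]
  have hR : ∀ r : R, algebraMap KR FA (algebraMap R KR r) ∈ W := by
    intro r
    have h1 := (hW (algebraMap R A r) 0).mpr (by simp)
    simp only [Nat.cast_zero, neg_zero, zpow_zero, mul_one] at h1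
    rw [hmap]
    exact h1
  refine ⟨fun r => ValuationSubring.mem_comap.mpr (hR r), fun r => ?_⟩
  have h1 : r ∈ x0 ↔ constantCoeff (algebraMap R A r) = 0 := Iff.rfl
  rw [h1, ← osvc_dvd]
  have h2 := hW (algebraMap R A r) 1
  rw [pow_one] at h2
  rw [← h2, Nat.cast_one, zpow_neg, zpow_one, ← osvc_nonunits W hT, ← hmap]
  set x := algebraMap R KR r
  have h3 : ∀ y : KR, y ∈ (W.comap (algebraMap KR FA)).nonunits ↔
      y⁻¹ = 0 ∨ y⁻¹ ∉ W.comap (algebraMap KR FA) := by
    intro y
    have h4 := (W.comap (algebraMap KR FA)).inv_mem_nonunits_iff (x := y⁻¹)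
    rwa [inv_inv] at h4
  have h5 : ∀ y : FA, y ∈ W.nonunits ↔ y⁻¹ = 0 ∨ y⁻¹ ∉ W := by
    intro y
    have h4 := W.inv_mem_nonunits_iff (x := y⁻¹)
    rwa [inv_inv] at h4
  rw [h3, h5, ValuationSubring.mem_comap, map_inv₀, inv_eq_zero, inv_eq_zero,
    map_eq_zero_iff _ (algebraMap KR FA).injective]

end H5ML

end S_OsvC
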