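import Mathlib
import Pool.Agent.H5.MD.P1
import Pool.Agent.H5.MD.P2

section S_ResA

/-!
# RESA: the restriction to the curve of elements of large value
-/

namespace H5ML

open MvPolynomial


/-- Dual numbers over `ℂ[X]`. -/
abbrev resa_S := DualNumber (Polynomial ℂ)

/-- The inclusion. -/
noncomputable def resa_i : Polynomial ℂ →+* resa_S := TrivSqZeroExt.inlHom (Polynomial ℂ) (Polynomial ℂ)

/-- The dual element. -/
noncomputable def resa_e : resa_S := DualNumber.eps

theorem resa_e_sq : resa_e * resa_e = 0 := DualNumber.eps_mul_eps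

/-- `z_i`. -/
noncomputable def resa_z (θ : Fin 3 → ℤ) (i : Fin 3) : resa_S :=
  resa_i (Polynomial.X ^ u i) * (1 + resa_i ((Polynomial.X - 1) * Polynomial.C (θ i : ℂ)) * resa_e)

theorem resa_w (θ : Fin 3 → ℤ) (i : Fin 3) :
    ∃ w : resa_S, resa_i (Polynomial.X - 1) * w = resa_z θ i - 1 := by
  obtain ⟨g, hg⟩ := sub_dvd_pow_sub_pow (Polynomial.X : Polynomial ℂ) 1 (u i)
  rw [one_pow] at hg
  refine ⟨resa_i g + resa_i (Polynomial.X ^ u i * Polynomial.C (θ i : ℂ)) * resa_e, ?_⟩
  have h1 : resa_i (Polynomial.X - 1) * resa_i g = resa_i (Polynomial.X ^ u i) - 1 := by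
    rw [← map_mul, ← hg, map_sub, map_one]
  rw [mul_add, h1, resa_z, mul_add, map_mul, map_mul]
  ring

/-- The polynomial ring over the dual numbers. -/
abbrev resa_M := MvPolynomial (Fin 3 ⊕ Fin 5) resa_S

/-- Images of the variables under the first substitution. -/
noncomputable def resa_gX (θ : Fin 3 → ℤ) (w : Fin 3 → resa_S) : Ix → resa_M
  | .inl i => X (Sum.inl i) * C (resa_i (Polynomial.C (1 / 2)) * (resa_z θ i + 1))
  | .inr (.inl i) => X (Sum.inl i) * C (resa_i (Polynomial.C (1 / 2)) * w i)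
  | .inr (.inr l) => X (Sum.inr l)

/-- Images of the variables under the second substitution. -/
noncomputable def resa_pX (θ : Fin 3 → ℤ) : Ix → resa_M
  | .inl i => X (Sum.inl i) * C (resa_i (Polynomial.X - 1) * resa_z θ i)
  | .inr (.inl i) => X (Sum.inl i) * C (-resa_i (Polynomial.X - 1))
  | .inr (.inr l) => X (Sum.inr l) * C (resa_i (Polynomial.X - 1))

/-- The coefficient map. -/
noncomputable def resa_c : ℂ →+* resa_M := (C : resa_S →+* resa_M).comp (resa_i.comp Polynomial.C)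

/-- The second substitution. -/
noncomputable def resa_P (θ : Fin 3 → ℤ) : A →+* resa_M := eval₂Hom resa_c (resa_pX θ)

theorem resa_comp (θ : Fin 3 → ℤ) (w : Fin 3 → resa_S)
    (hw : ∀ i, resa_i (Polynomial.X - 1) * w i = resa_z θ i - 1) (s : A) :
    Polynomial.eval₂RingHom (eval₂Hom resa_c (resa_gX θ w)) (C (resa_i (Polynomial.X - 1)))
      (theta s) = resa_P θ s := by
  have h2 : resa_i (Polynomial.C (1 / 2)) * 2 = 1 := by
    have : (2 : resa_S) = resa_i (Polynomial.C 2) := by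
      rw [map_ofNat, map_ofNat]
    rw [this, ← map_mul, ← Polynomial.C_mul]
    norm_num
  have h : ((Polynomial.eval₂RingHom (eval₂Hom resa_c (resa_gX θ w))
      (C (resa_i (Polynomial.X - 1)))).comp (theta : A →+* Polynomial A)) = resa_P θ := by
    apply MvPolynomial.ringHom_ext
    · intro r
      show Polynomial.eval₂RingHom (eval₂Hom resa_c (resa_gX θ w))
        (C (resa_i (Polynomial.X - 1))) (theta (C r)) = resa_P θ (C r)
      rw [theta_C, Polynomial.coe_eval₂RingHom, Polynomial.eval₂_C, resa_P, eval₂Hom_C, eval₂Hom_C]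
    · rintro (i | i | l)
      · show Polynomial.eval₂RingHom (eval₂Hom resa_c (resa_gX θ w))
          (C (resa_i (Polynomial.X - 1))) (theta (xx i)) = resa_P θ (xx i)
        rw [theta_xx, Polynomial.coe_eval₂RingHom, Polynomial.eval₂_add, Polynomial.eval₂_mul,
          Polynomial.eval₂_mul, Polynomial.eval₂_C, Polynomial.eval₂_C, Polynomial.eval₂_pow,
          Polynomial.eval₂_X, resa_P, xx, yy, eval₂Hom_X', eval₂Hom_X', eval₂Hom_X']
        show X (Sum.inl i) * C (resa_i (Polynomial.C (1 / 2)) * w i) *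
          C (resa_i (Polynomial.X - 1)) ^ 2 +
          X (Sum.inl i) * C (resa_i (Polynomial.C (1 / 2)) * (resa_z θ i + 1)) *
          C (resa_i (Polynomial.X - 1)) = X (Sum.inl i) * C (resa_i (Polynomial.X - 1) * resa_z θ i)
        have e : (resa_i (Polynomial.C (1 / 2)) * w i) * resa_i (Polynomial.X - 1) ^ 2 +
            (resa_i (Polynomial.C (1 / 2)) * (resa_z θ i + 1)) * resa_i (Polynomial.X - 1) =
            resa_i (Polynomial.X - 1) * resa_z θ i := by
          linear_combination (resa_i (Polynomial.C (1 / 2)) * resa_i (Polynomial.X - 1)) * hw i +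
            (resa_i (Polynomial.X - 1) * resa_z θ i) * h2
        rw [← e]
        simp only [map_mul, map_add, map_pow]
        ring
      · show Polynomial.eval₂RingHom (eval₂Hom resa_c (resa_gX θ w))
          (C (resa_i (Polynomial.X - 1))) (theta (yy i)) = resa_P θ (yy i)
        rw [theta_yy, Polynomial.coe_eval₂RingHom, Polynomial.eval₂_sub, Polynomial.eval₂_mul,
          Polynomial.eval₂_mul, Polynomial.eval₂_C, Polynomial.eval₂_C, Polynomial.eval₂_pow,
          Polynomial.eval₂_X, resa_P, xx, yy, eval₂Hom_X', eval₂Hom_X', eval₂Hom_X']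
        show X (Sum.inl i) * C (resa_i (Polynomial.C (1 / 2)) * w i) *
          C (resa_i (Polynomial.X - 1)) ^ 2 -
          X (Sum.inl i) * C (resa_i (Polynomial.C (1 / 2)) * (resa_z θ i + 1)) *
          C (resa_i (Polynomial.X - 1)) = X (Sum.inl i) * C (-resa_i (Polynomial.X - 1))
        have e : (resa_i (Polynomial.C (1 / 2)) * w i) * resa_i (Polynomial.X - 1) ^ 2 -
            (resa_i (Polynomial.C (1 / 2)) * (resa_z θ i + 1)) * resa_i (Polynomial.X - 1) =
            -resa_i (Polynomial.X - 1) := by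
          linear_combination (resa_i (Polynomial.C (1 / 2)) * resa_i (Polynomial.X - 1)) * hw i -
            (resa_i (Polynomial.X - 1)) * h2
        rw [← e]
        simp only [map_mul, map_add, map_sub, map_pow]
        ring
      · show Polynomial.eval₂RingHom (eval₂Hom resa_c (resa_gX θ w))
          (C (resa_i (Polynomial.X - 1))) (theta (tt l)) = resa_P θ (tt l)
        rw [theta_tt, Polynomial.coe_eval₂RingHom, Polynomial.eval₂_mul,
          Polynomial.eval₂_C, Polynomial.eval₂_X, resa_P, tt, eval₂Hom_X', eval₂Hom_X']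
        rfl
  exact congrArg (fun F : A →+* resa_M => F s) h

/-- The exponent of the monomial `λ^d T^e`. -/
noncomputable def resa_m (d : Fin 3 → ℕ) (e : Fin 5 → ℕ) : (Fin 3 ⊕ Fin 5) →₀ ℕ :=
  Finsupp.equivFunOnFinite.symm (Sum.elim d e)

theorem resa_mono (θ : Fin 3 → ℤ) (σ : Ix →₀ ℕ) (a : ℂ) :
    resa_P θ (monomial σ a) = monomial (resa_m (fun i => σ (.inl i) + σ (.inr (.inl i)))
      (fun l => σ (.inr (.inr l))))
      (resa_i (Polynomial.C a) * (resa_i (Polynomial.X - 1) ^ (∑ i, (σ (.inl i) + σ (.inr (.inl i))) +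
        ∑ l, σ (.inr (.inr l))) * (-1) ^ (∑ i, σ (.inr (.inl i))) *
        ∏ i, resa_z θ i ^ σ (.inl i))) := by
  rw [resa_P, coe_eval₂Hom, eval₂_monomial, Finsupp.prod_fintype _ _ (fun _ => pow_zero _),
    Fintype.prod_sum_type, Fintype.prod_sum_type, monomial_eq,
    Finsupp.prod_fintype _ _ (fun _ => pow_zero _), Fintype.prod_sum_type]
  have h1 : ∀ i : Fin 3, resa_pX θ (Sum.inl i) ^ σ (Sum.inl i) =
      X (Sum.inl i) ^ σ (Sum.inl i) * (C (resa_i (Polynomial.X - 1)) ^ σ (Sum.inl i) *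
        C (resa_z θ i ^ σ (Sum.inl i))) := by
    intro i
    rw [map_pow, ← mul_pow, ← mul_pow, ← map_mul]
    rfl
  have h2 : ∀ i : Fin 3, resa_pX θ (Sum.inr (Sum.inl i)) ^ σ (Sum.inr (Sum.inl i)) =
      X (Sum.inl i) ^ σ (Sum.inr (Sum.inl i)) * (C (resa_i (Polynomial.X - 1)) ^ σ (Sum.inr (Sum.inl i)) *
        (-1) ^ σ (Sum.inr (Sum.inl i))) := by
    intro i
    have h0 : resa_pX θ (Sum.inr (Sum.inl i)) = X (Sum.inl i) * (C (resa_i (Polynomial.X - 1)) * -1) := by
      show X (Sum.inl i) * C (-resa_i (Polynomial.X - 1)) = _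
      rw [map_neg]
      ring
    rw [← mul_pow, ← mul_pow, h0]
  have h3 : ∀ l : Fin 5, resa_pX θ (Sum.inr (Sum.inr l)) ^ σ (Sum.inr (Sum.inr l)) =
      X (Sum.inr l) ^ σ (Sum.inr (Sum.inr l)) * C (resa_i (Polynomial.X - 1)) ^ σ (Sum.inr (Sum.inr l)) := by
    intro l
    rw [← mul_pow]
    rfl
  rw [Finset.prod_congr rfl (fun i _ => h1 i), Finset.prod_congr rfl (fun i _ => h2 i),
    Finset.prod_congr rfl (fun l _ => h3 l)]
  rw [Finset.prod_mul_distrib, Finset.prod_mul_distrib, Finset.prod_mul_distrib,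
    Finset.prod_mul_distrib, Finset.prod_mul_distrib, Finset.prod_pow_eq_pow_sum,
    Finset.prod_pow_eq_pow_sum, Finset.prod_pow_eq_pow_sum, Finset.prod_pow_eq_pow_sum]
  have h4 : ∀ i : Fin 3, (X (Sum.inl i) : resa_M) ^ (resa_m (fun i => σ (.inl i) + σ (.inr (.inl i)))
      (fun l => σ (.inr (.inr l)))) (Sum.inl i) = X (Sum.inl i) ^ σ (Sum.inl i) *
        X (Sum.inl i) ^ σ (Sum.inr (Sum.inl i)) := by
    intro i
    rw [← pow_add]
    rfl
  have h5 : ∀ l : Fin 5, (X (Sum.inr l) : resa_M) ^ (resa_m (fun i => σ (.inl i) + σ (.inr (.inl i)))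
      (fun l => σ (.inr (.inr l)))) (Sum.inr l) = X (Sum.inr l) ^ σ (Sum.inr (Sum.inr l)) := by
    intro l
    rfl
  rw [Finset.prod_congr rfl (fun i _ => h4 i), Finset.prod_congr rfl (fun i _ => h5 i),
    Finset.prod_mul_distrib, Finset.sum_add_distrib, pow_add, pow_add]
  simp only [map_mul, map_pow, map_neg, map_one, map_prod]
  have h6 : resa_c a = C (resa_i (Polynomial.C a)) := rfl
  rw [h6]
  ring

theorem resa_coeff (θ : Fin 3 → ℤ) (d : Fin 3 → ℕ) (e : Fin 5 → ℕ) (s : A) :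
    coeff (resa_m d e) (resa_P θ s) = ∑ b ∈ Finset.Iic d,
      resa_i (Polynomial.C (coeff (mon b (d - b) e) s)) *
        (resa_i (Polynomial.X - 1) ^ (∑ i, d i + ∑ l, e l) * (-1) ^ (∑ i, (d - b) i) *
        ∏ i, resa_z θ i ^ b i) := by
  classical
  induction s using MvPolynomial.induction_on' with
  | add p q hp hq =>
    rw [map_add, coeff_add, hp, hq, ← Finset.sum_add_distrib]
    apply Finset.sum_congr rfl
    intro b _
    rw [coeff_add, Polynomial.C_add, RingHom.map_add, add_mul]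
  | monomial σ a =>
    rw [resa_mono, coeff_monomial]
    split_ifs with h
    · have hd : ∀ i, σ (.inl i) + σ (.inr (.inl i)) = d i := by
        intro i
        have := congrArg (fun f : (Fin 3 ⊕ Fin 5) →₀ ℕ => f (Sum.inl i)) h
        exact this
      have he : ∀ l, σ (.inr (.inr l)) = e l := by
        intro l
        have := congrArg (fun f : (Fin 3 ⊕ Fin 5) →₀ ℕ => f (Sum.inr l)) h
        exact this
      have hσ : σ = mon (fun i => σ (.inl i)) (d - fun i => σ (.inl i)) e := by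
        ext v
        rcases v with i | i | l
        · rfl
        · show σ (.inr (.inl i)) = d i - σ (.inl i)
          have := hd i
          omega
        · exact he l
      have e1 : ∑ i, (σ (.inl i) + σ (.inr (.inl i))) = ∑ i, d i :=
        Finset.sum_congr rfl (fun i _ => hd i)
      have e2 : ∑ l, σ (.inr (.inr l)) = ∑ l, e l := Finset.sum_congr rfl (fun l _ => he l)
      have e3 : ∑ i, σ (.inr (.inl i)) = ∑ i, (d - fun i => σ (.inl i)) i := by
        apply Finset.sum_congr rfl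
        intro i _
        show σ (.inr (.inl i)) = d i - σ (.inl i)
        have := hd i
        omega
      have e4 : coeff (mon (fun i => σ (.inl i)) (d - fun i => σ (.inl i)) e)
          (monomial σ a) = a := by
        rw [← hσ, coeff_monomial, if_pos rfl]
      rw [Finset.sum_eq_single (fun i => σ (.inl i))]
      · rw [e4, e1, e2, e3]
      · intro b _ hb
        rw [coeff_monomial, if_neg, map_zero, map_zero, zero_mul]
        intro h'
        apply hb
        funext i
        have := congrArg (fun f : Ix →₀ ℕ => f (Sum.inl i)) h'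
        exact this.symm
      · intro hb
        exfalso
        apply hb
        rw [Finset.mem_Iic]
        intro i
        have := hd i
        show σ (.inl i) ≤ d i
        omega
    · symm
      apply Finset.sum_eq_zero
      intro b hb
      rw [coeff_monomial, if_neg, map_zero, map_zero, zero_mul]
      intro h'
      apply h
      subst h'
      ext v
      rcases v with i | l
      · show b i + (d i - b i) = d i
        have : b i ≤ d i := (Finset.mem_Iic.mp hb) i
        omega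
      · rfl

theorem resa_pow (a : Polynomial ℂ) (n : ℕ) :
    (1 + resa_i a * resa_e) ^ n = 1 + resa_i ((n : Polynomial ℂ) * a) * resa_e := by
  induction n with
  | zero => simp
  | succ n ih =>
    rw [pow_succ, ih]
    have h := resa_e_sq
    push_cast
    simp only [map_mul, map_add, map_one]
    linear_combination (resa_i (n : Polynomial ℂ) * resa_i a * resa_i a) * h

theorem resa_mul3 (a b c : Polynomial ℂ) :
    (1 + resa_i a * resa_e) * (1 + resa_i b * resa_e) * (1 + resa_i c * resa_e) =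
      1 + resa_i (a + b + c) * resa_e := by
  have h := resa_e_sq
  simp only [map_add]
  linear_combination (resa_i a * resa_i b + resa_i a * resa_i c + resa_i b * resa_i c +
    resa_i a * resa_i b * resa_i c * resa_e) * h

theorem resa_prod (θ : Fin 3 → ℤ) (b : Fin 3 → ℕ) :
    ∏ i, resa_z θ i ^ b i = resa_i (Polynomial.X ^ hgt b) *
      (1 + resa_i ((Polynomial.X - 1) * Polynomial.C (∑ i, (θ i : ℂ) * b i)) * resa_e) := by
  rw [Fin.prod_univ_three]
  simp only [resa_z, mul_pow, resa_pow]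
  have h := resa_mul3 ((b 0 : Polynomial ℂ) * ((Polynomial.X - 1) * Polynomial.C (θ 0 : ℂ)))
    ((b 1 : Polynomial ℂ) * ((Polynomial.X - 1) * Polynomial.C (θ 1 : ℂ)))
    ((b 2 : Polynomial ℂ) * ((Polynomial.X - 1) * Polynomial.C (θ 2 : ℂ)))
  have h2 : (b 0 : Polynomial ℂ) * ((Polynomial.X - 1) * Polynomial.C (θ 0 : ℂ)) +
      (b 1 : Polynomial ℂ) * ((Polynomial.X - 1) * Polynomial.C (θ 1 : ℂ)) +
      (b 2 : Polynomial ℂ) * ((Polynomial.X - 1) * Polynomial.C (θ 2 : ℂ)) =
      (Polynomial.X - 1) * Polynomial.C (∑ i, (θ i : ℂ) * b i) := by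
    rw [Fin.sum_univ_three]
    simp only [map_add, map_mul, map_natCast]
    ring
  rw [h2] at h
  rw [← h]
  have h3 : (Polynomial.X : Polynomial ℂ) ^ hgt b = (Polynomial.X ^ u 0) ^ b 0 * (Polynomial.X ^ u 1) ^ b 1 *
      (Polynomial.X ^ u 2) ^ b 2 := by
    rw [← pow_mul, ← pow_mul, ← pow_mul, ← pow_add, ← pow_add]
    rfl
  rw [h3]
  simp only [map_mul, map_pow]
  ring

/-- The value of `s` controls the order at `τ = 1` of the restriction to the curve and of its
logarithmic derivative in the direction `θ`.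

Proof. Write `D = |d| + |e|`, `θ = (θ_0, θ_1, θ_2)` integers. If `2 q ≤ D` both claims are trivial.
Consider the polynomial ring `S = ℂ[κ][ϖ]` (`Polynomial (Polynomial ℂ)`) and the ring homomorphism
from `A[ϖ]` to `MvPolynomial (Fin 3 ⊕ Fin 5) S`, `ϖ ↦ ϖ`,
`xx i ↦ λ_i (z_i + 1) / 2`, `yy i ↦ λ_i (z_i - 1) / (2 ϖ)`, `tt l ↦ T_l`, where `λ_i`, `T_l` are the
new variables and `z_i = (1 + ϖ) ^ u_i * (1 + ϖ κ θ_i)`, so `z_i - 1` is divisible by `ϖ` in `S`.
The composition with `theta` maps `x_i` to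
`λ_i (z_i - 1) ϖ / 2 + λ_i (z_i + 1) ϖ / 2 = λ_i ϖ z_i`, `y_i` to
`λ_i (z_i - 1) ϖ / 2 - λ_i (z_i + 1) ϖ / 2 = - λ_i ϖ` and `t_l` to `T_l ϖ`. The coefficient of
`λ^d T^e` of the image of `s` is therefore
`ϖ^D ∑_{b ≤ d} coeff (mon b (d - b) e) s * (-1)^{|d - b|} z^b`. If `ϖ^{2q} ∣ theta s` then
`ϖ^{2q}` divides the image, hence this coefficient (`MvPolynomial.C_dvd_iff_dvd_coeff`), so
`ϖ^{2q - D}` divides `∑_b (-1)^{|b|} coeff (..) s * z^b` (up to the sign `(-1)^{|d|}`).
Setting `κ = 0` gives the first claim after the substitution `τ = 1 + ϖ`. The coefficient of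
`κ^1` of `z^b` is `ϖ (θ·b) (1 + ϖ)^{u·b}`; this gives the second claim. -/
theorem res_div (s : A) (q : ℕ) (hq : Polynomial.X ^ (2 * q) ∣ theta s) (d : Fin 3 → ℕ)
    (e : Fin 5 → ℕ) (θ : Fin 3 → ℤ) :
    (Polynomial.X - 1) ^ (2 * q - (∑ i, d i + ∑ l, e l)) ∣ resPoly s d e ∧
    (Polynomial.X - 1) ^ (2 * q - (∑ i, d i + ∑ l, e l) - 1) ∣
      ∑ b ∈ Finset.Iic d, Polynomial.C ((∑ i, (θ i : ℂ) * b i) *
        ((-1) ^ (∑ i, b i) * coeff (mon b (d - b) e) s)) * Polynomial.X ^ hgt b := by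
  classical
  rcases Nat.lt_or_ge (∑ i, d i + ∑ l, e l) (2 * q) with hD | hD
  swap
  · rw [Nat.sub_eq_zero_of_le hD]
    simp
  choose w hw using resa_w θ
  set D := ∑ i, d i + ∑ l, e l with hDdef
  have hdvd : resa_i (Polynomial.X - 1) ^ (2 * q) ∣ coeff (resa_m d e) (resa_P θ s) := by
    have h1 : (C (resa_i (Polynomial.X - 1)) : resa_M) ^ (2 * q) ∣ resa_P θ s := by
      rw [← resa_comp θ w hw s]
      have h2 := map_dvd (Polynomial.eval₂RingHom (eval₂Hom resa_c (resa_gX θ w))
        (C (resa_i (Polynomial.X - 1)))) hq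
      rw [map_pow, Polynomial.coe_eval₂RingHom, Polynomial.eval₂_X] at h2
      exact h2
    rw [← map_pow] at h1
    exact (MvPolynomial.C_dvd_iff_dvd_coeff _ _).mp h1 _
  rw [resa_coeff, ← hDdef] at hdvd
  -- the two components
  set P1 : Polynomial ℂ := resPoly s d e with hP1
  set P2 : Polynomial ℂ := ∑ b ∈ Finset.Iic d, Polynomial.C ((∑ i, (θ i : ℂ) * b i) *
        ((-1) ^ (∑ i, b i) * coeff (mon b (d - b) e) s)) * Polynomial.X ^ hgt b with hP2
  have hsum : (∑ b ∈ Finset.Iic d,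
      resa_i (Polynomial.C (coeff (mon b (d - b) e) s)) *
        (resa_i (Polynomial.X - 1) ^ D * (-1) ^ (∑ i, (d - b) i) *
        ∏ i, resa_z θ i ^ b i)) = resa_i (Polynomial.X - 1) ^ D * ((-1) ^ (∑ i, d i) *
        (resa_i P1 + resa_i ((Polynomial.X - 1) * P2) * resa_e)) := by
    rw [hP1, hP2, resPoly, map_sum, Finset.mul_sum, map_sum, Finset.sum_mul,
      ← Finset.sum_add_distrib, Finset.mul_sum, Finset.mul_sum]
    apply Finset.sum_congr rfl
    intro b hb
    have hbd : b ≤ d := Finset.mem_Iic.mp hb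
    rw [resa_prod]
    have hsg : ((-1 : resa_S)) ^ (∑ i, (d - b) i) = (-1) ^ (∑ i, d i) * (-1) ^ (∑ i, b i) := by
      have h1 : ∑ i, d i = ∑ i, (d - b) i + ∑ i, b i := by
        rw [← Finset.sum_add_distrib]
        apply Finset.sum_congr rfl
        intro i _
        have : b i ≤ d i := hbd i
        rw [Pi.sub_apply]
        omega
      rw [h1, pow_add, mul_assoc, ← mul_pow]
      simp
    rw [hsg]
    simp only [map_mul, map_pow, map_neg, map_one]
    ring
  rw [hsum] at hdvd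
  obtain ⟨Q, hQ⟩ := hdvd
  have hreg : ∀ a : resa_S, resa_i ((Polynomial.X - 1) ^ D) * a = 0 → a = 0 := by
    intro a ha
    have hne : ((Polynomial.X - 1 : Polynomial ℂ)) ^ D ≠ 0 :=
      pow_ne_zero _ (by simpa using Polynomial.X_sub_C_ne_zero (1 : ℂ))
    have h1 : TrivSqZeroExt.fst (resa_i ((Polynomial.X - 1) ^ D) * a) = 0 := by rw [ha]; rfl
    have h2 : TrivSqZeroExt.snd (resa_i ((Polynomial.X - 1) ^ D) * a) = 0 := by rw [ha]; rfl
    simp only [resa_i, TrivSqZeroExt.inlHom_apply, TrivSqZeroExt.fst_mul, TrivSqZeroExt.snd_mul,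
      TrivSqZeroExt.fst_inl, TrivSqZeroExt.snd_inl, smul_zero, add_zero, smul_eq_mul,
      mul_eq_zero, hne, false_or] at h1 h2
    exact TrivSqZeroExt.ext h1 h2
  have hsq : ((-1 : resa_S)) ^ (∑ i, d i) * (-1) ^ (∑ i, d i) = 1 := by
    rw [← mul_pow]
    simp
  have hkey : resa_i P1 + resa_i ((Polynomial.X - 1) * P2) * resa_e =
      resa_i ((Polynomial.X - 1) ^ (2 * q - D)) * ((-1) ^ (∑ i, d i) * Q) := by
    rw [← sub_eq_zero]
    apply hreg
    have h1 : (Polynomial.X - 1 : Polynomial ℂ) ^ (2 * q) = (Polynomial.X - 1) ^ D *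
        (Polynomial.X - 1) ^ (2 * q - D) := by
      rw [← pow_add]
      congr 1
      omega
    rw [← map_pow, ← map_pow, h1] at hQ
    simp only [map_mul] at hQ ⊢
    linear_combination ((-1 : resa_S)) ^ (∑ i, d i) * hQ -
      (resa_i ((Polynomial.X - 1) ^ D) * (resa_i P1 + resa_i (Polynomial.X - 1) * resa_i P2 * resa_e)) * hsq
  have hf := congrArg TrivSqZeroExt.fst hkey
  have hs := congrArg TrivSqZeroExt.snd hkey
  set Q' := (-1 : resa_S) ^ (∑ i, d i) * Q with hQ'
  clear_value Q'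
  simp only [resa_i, resa_e, TrivSqZeroExt.inlHom_apply, TrivSqZeroExt.fst_mul,
    TrivSqZeroExt.snd_mul, TrivSqZeroExt.fst_add, TrivSqZeroExt.snd_add,
    TrivSqZeroExt.fst_inl, TrivSqZeroExt.snd_inl, smul_zero, add_zero, smul_eq_mul,
    DualNumber.fst_eps, DualNumber.snd_eps, mul_zero, mul_one, zero_add] at hf hs
  constructor
  · exact ⟨_, hf⟩
  · obtain ⟨n, hn⟩ : ∃ n, 2 * q - D = n + 1 := ⟨2 * q - D - 1, by omega⟩
    rw [hn] at hs ⊢
    rw [Nat.add_sub_cancel]
    have hne : (Polynomial.X - 1 : Polynomial ℂ) ≠ 0 := by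
      simpa using Polynomial.X_sub_C_ne_zero (1 : ℂ)
    refine ⟨Q'.snd, ?_⟩
    apply mul_left_cancel₀ hne
    rw [hs, pow_succ]
    ring

end H5ML

end S_ResA

section S_Res

/-!
# RES: the bound for the degrees
-/

namespace H5ML

open MvPolynomial

/-- Scaling the variables scales the coefficients. -/
theorem res_coeff_scale (a : Ix → ℂ) (s : A) (m : Ix →₀ ℕ) :
    coeff m (aeval (fun v => (C (a v) * X v : A)) s) = (m.prod fun v n => a v ^ n) * coeff m s := by
  induction s using MvPolynomial.induction_on' with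
  | monomial n c =>
    rw [aeval_monomial, coeff_monomial]
    have h : (n.prod fun v k => (C (a v) * X v : A) ^ k) =
        C (n.prod fun v k => a v ^ k) * monomial n 1 := by
      rw [monomial_eq, C_1, one_mul, Finsupp.prod, Finsupp.prod, Finsupp.prod, map_prod,
        ← Finset.prod_mul_distrib]
      refine Finset.prod_congr rfl fun v _ => ?_
      rw [mul_pow, ← C_pow]
    rw [h, ← mul_assoc, algebraMap_eq, ← C_mul, C_mul_monomial, mul_one, coeff_monomial]
    split_ifs with h1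
    · rw [h1, mul_comm]
    · rw [mul_zero]
  | add p q hp hq => rw [map_add, coeff_add, coeff_add, hp, hq, mul_add]

theorem res_chi_pow (a : ZMod 241) (n : ℕ) : chi a ^ n = chi (n * a) := by
  induction n with
  | zero => rw [pow_zero, Nat.cast_zero, zero_mul, chi_zero]
  | succ n ih => rw [pow_succ, ih, ← chi_add]; congr 1; push_cast; ring

/-- The character on the monomial `x^b y^c t^e`. -/
theorem res_chi_mon (k : ZMod 241) (b c : Fin 3 → ℕ) (e : Fin 5 → ℕ) (a : Ix → ℂ)
    (ha : ∀ v, actX (.r k) v = C (a v) * X v) (s : A) :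
    coeff (mon b c e) (act (.r k) s) =
      chi ((hgt b : ZMod 241) * k - (hgt c : ZMod 241) * k) * coeff (mon b c e) s := by
  have h1 : act (.r k) s = aeval (fun v => (C (a v) * X v : A)) s := by
    rw [act]
    congr 2
    funext v
    exact ha v
  rw [h1, res_coeff_scale]
  congr 1
  have hx : ∀ i : Fin 3, a (.inl i) = chi (u i * k) := by
    intro i
    have h := ha (.inl i)
    change C (chi (u i * k)) * X _ = C (a _) * X _ at h
    have := mul_right_cancel₀ (X_ne_zero (R := ℂ) (Sum.inl i : Ix)) h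
    exact (C_injective Ix ℂ this).symm
  have hy : ∀ i : Fin 3, a (.inr (.inl i)) = chi (-(u i * k)) := by
    intro i
    have h := ha (.inr (.inl i))
    change C (chi (-(u i * k))) * X _ = C (a _) * X _ at h
    have := mul_right_cancel₀ (X_ne_zero (R := ℂ) (Sum.inr (Sum.inl i) : Ix)) h
    exact (C_injective Ix ℂ this).symm
  have ht : ∀ l : Fin 5, a (.inr (.inr l)) = 1 := by
    intro l
    have h := ha (.inr (.inr l))
    change X _ = C (a _) * X _ at h
    have h2 : (C 1 : A) * X (Sum.inr (Sum.inr l) : Ix) =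
        C (a (.inr (.inr l))) * X (Sum.inr (Sum.inr l) : Ix) := by
      rw [C_1, one_mul]; exact h
    have := mul_right_cancel₀ (X_ne_zero (R := ℂ) (Sum.inr (Sum.inr l) : Ix)) h2
    exact (C_injective Ix ℂ this).symm
  rw [Finsupp.prod_fintype _ _ (fun v => pow_zero _), Fintype.prod_sum_type, Fintype.prod_sum_type]
  have e1 : ∀ i : Fin 3, a (.inl i) ^ (mon b c e) (.inl i) = chi (b i * (u i * k)) := by
    intro i
    rw [hx, res_chi_pow]; rfl
  have e2 : ∀ i : Fin 3, a (.inr (.inl i)) ^ (mon b c e) (.inr (.inl i)) =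
      chi (c i * (-(u i * k))) := by
    intro i
    rw [hy, res_chi_pow]; rfl
  have e3 : ∀ l : Fin 5, a (.inr (.inr l)) ^ (mon b c e) (.inr (.inr l)) = 1 := by
    intro l
    rw [ht, one_pow]
  simp only [e1, e2, e3, Finset.prod_const_one, mul_one, Fin.prod_univ_three, ← chi_add]
  congr 1
  simp only [hgt, u]
  simp only [Matrix.cons_val_zero, Matrix.cons_val_one, Matrix.cons_val]
  push_cast
  ring

theorem res_actX (k : ZMod 241) : ∃ a : Ix → ℂ, ∀ v, actX (.r k) v = C (a v) * X v := by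
  refine ⟨fun v => match v with
    | .inl i => chi (u i * k)
    | .inr (.inl i) => chi (-(u i * k))
    | .inr (.inr _) => 1, ?_⟩
  rintro (i | i | l)
  · rfl
  · rfl
  · change X _ = C 1 * X _
    rw [C_1, one_mul]

theorem res_hgt_sub {b d : Fin 3 → ℕ} (h : b ≤ d) : hgt (d - b) + hgt b = hgt d := by
  have h0 : b 0 ≤ d 0 := h 0
  have h1 : b 1 ≤ d 1 := h 1
  have h2 : b 2 ≤ d 2 := h 2
  simp only [hgt, Pi.sub_apply]
  omega

theorem res_hgt_le {b d : Fin 3 → ℕ} (h : b ≤ d) : hgt b ≤ hgt d := by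
  have := res_hgt_sub h
  omega

theorem res_hgt_inj {b d : Fin 3 → ℕ} (h : b ≤ d) (hh : hgt b = hgt d) : b = d := by
  have h0 : b 0 ≤ d 0 := h 0
  have h1 : b 1 ≤ d 1 := h 1
  have h2 : b 2 ≤ d 2 := h 2
  simp only [hgt] at hh
  funext i
  fin_cases i
  · change b 0 = d 0; omega
  · change b 1 = d 1; omega
  · change b 2 = d 2; omega

/-- Invariance under the rotations restricts the exponents. -/
theorem res_congr (s : A) (hs : ∀ k : ZMod 241, act (.r k) s = s) {b d : Fin 3 → ℕ}
    (hb : b ≤ d) (e : Fin 5 → ℕ) (hc : coeff (mon b (d - b) e) s ≠ 0) :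
    (2 * hgt b : ZMod 241) = hgt d := by
  obtain ⟨a, ha⟩ := res_actX 1
  have h := res_chi_mon 1 b (d - b) e a ha s
  rw [hs 1] at h
  have h1 : chi ((hgt b : ZMod 241) * 1 - (hgt (d - b) : ZMod 241) * 1) = 1 := by
    apply mul_right_cancel₀ hc
    rw [one_mul]
    exact h.symm
  rw [chi_eq_one_iff, mul_one, mul_one, sub_eq_zero] at h1
  have h2 : ((hgt (d - b) + hgt b : ℕ) : ZMod 241) = hgt d := by rw [res_hgt_sub hb]
  rw [← h2]
  push_cast
  rw [← h1]
  ring

theorem res_coeff (d : Fin 3 → ℕ) (w : (Fin 3 → ℕ) → ℂ) (k : ℕ) :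
    (∑ b ∈ Finset.Iic d, Polynomial.C (w b) * Polynomial.X ^ hgt b).coeff k =
      ∑ b ∈ Finset.Iic d, if k = hgt b then w b else 0 := by
  rw [Polynomial.finsetSum_coeff]
  refine Finset.sum_congr rfl fun b _ => ?_
  rw [Polynomial.coeff_C_mul_X_pow]

theorem res_coeff_ne (d : Fin 3 → ℕ) (w : (Fin 3 → ℕ) → ℂ) (k : ℕ)
    (h : (∑ b ∈ Finset.Iic d, Polynomial.C (w b) * Polynomial.X ^ hgt b).coeff k ≠ 0) :
    ∃ b, b ≤ d ∧ k = hgt b ∧ w b ≠ 0 := by
  rw [res_coeff] at h
  obtain ⟨b, hb, h1⟩ := Finset.exists_ne_zero_of_sum_ne_zero h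
  rw [ne_eq, ite_eq_right_iff, not_forall] at h1
  obtain ⟨h2, h3⟩ := h1
  exact ⟨b, Finset.mem_Iic.1 hb, h2, h3⟩

theorem res_coeff_top (d : Fin 3 → ℕ) (w : (Fin 3 → ℕ) → ℂ) :
    (∑ b ∈ Finset.Iic d, Polynomial.C (w b) * Polynomial.X ^ hgt b).coeff (hgt d) = w d := by
  rw [res_coeff, Finset.sum_eq_single d]
  · rw [if_pos rfl]
  · intro b hb hne
    rw [if_neg]
    intro h
    exact hne (res_hgt_inj (Finset.mem_Iic.1 hb) h.symm)
  · intro h
    exact absurd (Finset.mem_Iic.2 le_rfl) h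

/-- Congruent numbers with the same quotient are equal. -/
theorem res_inj {k l c : ℕ} (hk : (2 * k : ZMod 241) = c) (hl : (2 * l : ZMod 241) = c)
    (h : k / 241 = l / 241) : k = l := by
  have h1 : ((2 * k : ℕ) : ZMod 241) = ((2 * l : ℕ) : ZMod 241) := by
    push_cast
    rw [hk, hl]
  rw [ZMod.natCast_eq_natCast_iff, Nat.ModEq] at h1
  omega

theorem res_dvd {k μ : ℕ} (hk : (2 * k : ZMod 241) = ((241 * μ : ℕ) : ZMod 241)) : 241 ∣ k := by
  have h1 : ((2 * k : ℕ) : ZMod 241) = ((241 * μ : ℕ) : ZMod 241) := by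
    push_cast at hk ⊢
    rw [hk]
  rw [ZMod.natCast_eq_natCast_iff, Nat.ModEq] at h1
  omega

theorem res_241 {b : Fin 3 → ℕ} (h : hgt b = 241) :
    (12 : ℤ) * b 0 + 16 * b 1 - 29 * b 2 = 0 := by
  simp only [hgt] at h
  have h0 : b 0 ≤ 16 := by omega
  have h2 : b 2 ≤ 10 := by omega
  have h1 : b 1 ≤ 12 := by omega
  generalize b 0 = x at *
  generalize b 1 = y at *
  generalize b 2 = z at *
  interval_cases z <;> omega

/-- The bound for the degrees of the parts which do not vanish on the curve.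

Proof. If `2 q ≤ |d| + |e|` the inequality is clear, and equality means `2 q = |d| + |e|` and
`hgt d = 0`, so `d = 0` and the second claim is `4 * 2 q = 8 q`. Otherwise put
`μ = 2 q - |d| - |e| ≥ 1`.
By `hs` (invariance under the rotation `r 1`, whose action multiplies the monomial
`x^b y^{d-b} t^e` by `χ (2 hgt b - hgt d)`), a nonzero coefficient at `mon b (d - b) e` implies
`2 hgt b ≡ hgt d mod 241`. So the exponents occurring in `resPoly s d e` lie in one residue class
modulo `241` (`2` is invertible) and in `[0, hgt d]`. If `hgt d < 241 μ` there are at most `μ`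
such exponents (`{k ≤ hgt d : k ≡ c mod 241}` has at most `μ` elements), and the first part of
`res_div` with `few` gives `resPoly s d e = 0`. Hence `hgt d ≥ 241 μ`, which is the first claim.

Let `hgt d = 241 μ`. Then `2 hgt b ≡ 0`, so `241 ∣ hgt b` for the `b` which occur. The polynomial
`F = resPoly s d e` has its exponents in `{0, 241, ..., 241 μ}`; if one of these coefficients
vanished, `few` would give `F = 0`. So the coefficient of `X ^ (241 μ)` is nonzero; the only
`b ≤ d` with `hgt b = hgt d` is `b = d`. So `c_d := coeff (mon d 0 e) s ≠ 0`.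
Take `θ = (12, 16, -29)`, `G` the sum in the second part of `res_div`, divisible by
`(X - 1) ^ (μ - 1)`. Its exponents lie in `{0, 241, ..., 241 μ}`; the coefficient at `0` is `0`
(`hgt b = 0` implies `b = 0`, `θ·0 = 0`), the coefficient at `241` is `0` because
`hgt b = 241` implies `b = (3, 5, 4)` or `b = (7, 2, 4)` (finite check) and `θ·b = 0` for both.
So at most `μ - 1` exponents remain and `G = 0` by `few`. (For `μ = 1` everything is at exponents
`0, 241`.) The coefficient of `X ^ (241 μ)` of `G` is `± (θ·d) c_d`, so `θ·d = 0`: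
`12 d_0 + 16 d_1 = 29 d_2`. With `15 d_0 + 20 d_1 + 24 d_2 = 241 μ`: multiplying by `4`,
`5 * 29 d_2 + 96 d_2 = 241 d_2 = 964 μ`, so `d_2 = 4 μ`, i.e.
`d_2 + 4 (|d| + |e|) = 8 q`. -/
theorem res_bound (s : A) (hs : ∀ k : ZMod 241, act (.r k) s = s) (q : ℕ)
    (hq : Polynomial.X ^ (2 * q) ∣ theta s) (d : Fin 3 → ℕ) (e : Fin 5 → ℕ)
    (h : resPoly s d e ≠ 0) :
    241 * (2 * q) ≤ hgt d + 241 * (∑ i, d i + ∑ l, e l) ∧
    (241 * (2 * q) = hgt d + 241 * (∑ i, d i + ∑ l, e l) →
      d 2 + 4 * (∑ i, d i + ∑ l, e l) = 8 * q) := by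
  obtain ⟨hdiv1, hdiv2⟩ := res_div s q hq d e ![12, 16, -29]
  obtain ⟨D, hD⟩ : ∃ D, D = ∑ i, d i + ∑ l, e l := ⟨_, rfl⟩
  rw [← hD] at hdiv1 hdiv2 ⊢
  by_cases hle : 2 * q ≤ D
  · refine ⟨by omega, fun heq => ?_⟩
    have h0 : hgt d = 0 := by omega
    simp only [hgt] at h0
    omega
  push Not at hle
  obtain ⟨μ, hμ⟩ : ∃ μ, μ = 2 * q - D := ⟨_, rfl⟩
  rw [← hμ] at hdiv1 hdiv2
  have hμ1 : 1 ≤ μ := by omega
  -- the first polynomial
  obtain ⟨w, hw⟩ : ∃ w : (Fin 3 → ℕ) → ℂ,
      w = fun b => (-1) ^ (∑ i, b i) * coeff (mon b (d - b) e) s := ⟨_, rfl⟩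
  have hF : resPoly s d e = ∑ b ∈ Finset.Iic d, Polynomial.C (w b) * Polynomial.X ^ hgt b := by
    rw [hw]
    rfl
  have hwc : ∀ b, b ≤ d → w b ≠ 0 → (2 * hgt b : ZMod 241) = hgt d := by
    intro b hb hwb
    apply res_congr s hs hb e
    intro h0
    apply hwb
    rw [hw]
    change (-1) ^ (∑ i, b i) * coeff (mon b (d - b) e) s = 0
    rw [h0, mul_zero]
  have hexp : ∀ k, (resPoly s d e).coeff k ≠ 0 → k ≤ hgt d ∧ (2 * k : ZMod 241) = hgt d := by
    intro k hk
    rw [hF] at hk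
    obtain ⟨b, hb, hkb, hwb⟩ := res_coeff_ne d w k hk
    rw [hkb]
    exact ⟨res_hgt_le hb, hwc b hb hwb⟩
  -- a bound for the support
  have hcard : (∀ k, (resPoly s d e).coeff k ≠ 0 → k < 241 * μ) → False := by
    intro hlt
    apply h
    apply few μ _ _ hdiv1
    calc (resPoly s d e).support.card ≤ (Finset.range μ).card := by
          apply Finset.card_le_card_of_injOn (fun k => k / 241)
          · intro k hk
            rw [Finset.mem_coe, Polynomial.mem_support_iff] at hk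
            rw [Finset.mem_coe, Finset.mem_range]
            exact Nat.div_lt_of_lt_mul (hlt k hk)
          · intro k hk l hl hkl
            rw [Finset.mem_coe, Polynomial.mem_support_iff] at hk hl
            exact res_inj (hexp k hk).2 (hexp l hl).2 hkl
      _ = μ := Finset.card_range μ
  have hge : 241 * μ ≤ hgt d := by
    by_contra hlt
    push Not at hlt
    exact hcard fun k hk => lt_of_le_of_lt (hexp k hk).1 hlt
  refine ⟨by omega, fun heq => ?_⟩
  have heq' : hgt d = 241 * μ := by omega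
  -- the top coefficient is nonzero
  have hwd : w d ≠ 0 := by
    intro h0
    apply hcard
    intro k hk
    have h1 := (hexp k hk).1
    rcases Nat.lt_or_ge k (241 * μ) with h2 | h2
    · exact h2
    · exfalso
      have h3 : k = hgt d := by omega
      rw [h3, hF, res_coeff_top] at hk
      exact hk h0
  -- the second polynomial
  obtain ⟨w', hw'⟩ : ∃ w' : (Fin 3 → ℕ) → ℂ,
      w' = fun b => (∑ i, ((![12, 16, -29] : Fin 3 → ℤ) i : ℂ) * b i) * w b := ⟨_, rfl⟩
  obtain ⟨P, hP⟩ : ∃ P, P = ∑ b ∈ Finset.Iic d, Polynomial.C (w' b) * Polynomial.X ^ hgt b :=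
    ⟨_, rfl⟩
  have hdivP : (Polynomial.X - 1) ^ (μ - 1) ∣ P := by
    rw [hP, hw', hw]
    exact hdiv2
  have hth : ∀ b : Fin 3 → ℕ, (∑ i, ((![12, 16, -29] : Fin 3 → ℤ) i : ℂ) * b i) =
      (((12 : ℤ) * b 0 + 16 * b 1 - 29 * b 2 : ℤ) : ℂ) := by
    intro b
    rw [Fin.sum_univ_three]
    simp only [Matrix.cons_val_zero, Matrix.cons_val_one, Matrix.cons_val]
    push_cast
    ring
  have hexpP : ∀ k, P.coeff k ≠ 0 → k ≤ 241 * μ ∧ (2 * k : ZMod 241) = hgt d ∧ 2 ≤ k / 241 := by
    intro k hk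
    rw [hP] at hk
    obtain ⟨b, hb, hkb, hwb⟩ := res_coeff_ne d w' k hk
    have hwb0 : w b ≠ 0 := by
      intro h0
      apply hwb
      rw [hw']
      change _ * w b = 0
      rw [h0, mul_zero]
    have hthb : (12 : ℤ) * b 0 + 16 * b 1 - 29 * b 2 ≠ 0 := by
      intro h0
      apply hwb
      rw [hw']
      change (∑ i, ((![12, 16, -29] : Fin 3 → ℤ) i : ℂ) * b i) * w b = 0
      rw [hth, h0, Int.cast_zero, zero_mul]
    have hc := hwc b hb hwb0
    have hle2 := res_hgt_le hb
    rw [hkb]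
    refine ⟨by omega, hc, ?_⟩
    have hdv : 241 ∣ hgt b := by
      apply res_dvd (μ := μ)
      rw [hc, heq']
    obtain ⟨j, hj⟩ := hdv
    rw [hj, Nat.mul_div_cancel_left _ (by norm_num)]
    by_contra hlt
    push Not at hlt
    interval_cases j
    · have h0 : hgt b = 0 := by omega
      simp only [hgt] at h0
      omega
    · exact hthb (res_241 (by omega))
  have hP0 : P = 0 := by
    apply few (μ - 1) P _ hdivP
    calc P.support.card ≤ (Finset.range (μ - 1)).card := by
          apply Finset.card_le_card_of_injOn (fun k => k / 241 - 2)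
          · intro k hk
            rw [Finset.mem_coe, Polynomial.mem_support_iff] at hk
            rw [Finset.mem_coe, Finset.mem_range]
            obtain ⟨h1, h2, h3⟩ := hexpP k hk
            have h4 : k / 241 ≤ μ := Nat.div_le_of_le_mul h1
            change k / 241 - 2 < μ - 1
            omega
          · intro k hk l hl hkl
            rw [Finset.mem_coe, Polynomial.mem_support_iff] at hk hl
            have h1 := hexpP k hk
            have h2 := hexpP l hl
            apply res_inj h1.2.1 h2.2.1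
            change k / 241 - 2 = l / 241 - 2 at hkl
            omega
      _ = μ - 1 := Finset.card_range _
  have htop := res_coeff_top d w'
  rw [← hP, hP0, Polynomial.coeff_zero, hw'] at htop
  have h5 : (((12 : ℤ) * d 0 + 16 * d 1 - 29 * d 2 : ℤ) : ℂ) = 0 := by
    rw [← hth]
    rcases mul_eq_zero.1 htop.symm with h6 | h6
    · exact h6
    · exact absurd h6 hwd
  have h6 : (12 : ℤ) * d 0 + 16 * d 1 - 29 * d 2 = 0 := by exact_mod_cast h5
  simp only [hgt] at heq'
  omega

end H5ML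

end S_Res

section S_Thf

/-!
# THF: the value of `ftil` and `gtil`
-/

namespace H5ML

open MvPolynomial

theorem thf_one {B : Type*} [CommRing B] (U V Q : B) (hU : U = 2 * Q - V) (b d : ℕ) (hbd : b ≤ d) :
    U ^ b * V ^ (d - b) = (-1) ^ b * ∑ a ∈ Finset.range (d + 1),
      (-2 * Q) ^ a * V ^ (d - a) * ((b.choose a : ℕ) : B) := by
  have h1 : U = (-1) * ((-2 * Q) + V) := by
    rw [hU]
    ring
  rw [h1, mul_pow, add_pow, mul_assoc, Finset.sum_mul]
  congr 1
  have h2 : Finset.range (b + 1) ⊆ Finset.range (d + 1) := by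
    intro x hx
    rw [Finset.mem_range] at hx ⊢
    omega
  rw [← Finset.sum_subset h2]
  · apply Finset.sum_congr rfl
    intro a ha
    rw [Finset.mem_range] at ha
    have h3 : V ^ (d - a) = V ^ (b - a) * V ^ (d - b) := by
      rw [← pow_add]
      congr 1
      omega
    rw [h3]
    ring
  · intro a _ ha
    rw [Finset.mem_range] at ha
    rw [Nat.choose_eq_zero_of_lt (by omega)]
    simp

theorem thf_gen {B : Type*} [CommRing B] (c : ℂ →+* B) (p : B) (U V Q v r : Fin 3 → B)
    (hU : ∀ i, U i = 2 * Q i - V i) (hV : ∀ i, V i = p * v i) (hQ : ∀ i, Q i = p ^ 2 * r i)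
    (m : ℕ) (d : Fin 3 → ℕ) (f : (Fin 3 → ℕ) → ℂ)
    (hf : ∀ α : Fin 3 → ℕ, ∑ i, α i < m →
      ∑ b ∈ Finset.Iic d, f b * ∏ i, ((b i).choose (α i) : ℂ) = 0) :
    p ^ (∑ i, d i + m) ∣ ∑ b ∈ Finset.Iic d, c (f b * (-1) ^ (∑ i, b i)) *
      ∏ i, (U i ^ b i * V i ^ (d i - b i)) := by
  classical
  have h1 : ∑ b ∈ Finset.Iic d, c (f b * (-1) ^ (∑ i, b i)) *
      ∏ i, (U i ^ b i * V i ^ (d i - b i)) =
      ∑ α ∈ Fintype.piFinset (fun i => Finset.range (d i + 1)),
        c (∑ b ∈ Finset.Iic d, f b * ∏ i, ((b i).choose (α i) : ℂ)) *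
          ∏ i, ((-2 * Q i) ^ α i * V i ^ (d i - α i)) := by
    have h2 : ∀ b ∈ Finset.Iic d, c (f b * (-1) ^ (∑ i, b i)) *
        ∏ i, (U i ^ b i * V i ^ (d i - b i)) =
        ∑ α ∈ Fintype.piFinset (fun i => Finset.range (d i + 1)),
          c (f b * ∏ i, ((b i).choose (α i) : ℂ)) *
            ∏ i, ((-2 * Q i) ^ α i * V i ^ (d i - α i)) := by
      intro b hb
      have hbd : ∀ i, b i ≤ d i := Finset.mem_Iic.mp hb
      rw [Finset.prod_congr rfl (fun i _ => thf_one (U i) (V i) (Q i) (hU i) (b i) (d i) (hbd i)),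
        Finset.prod_mul_distrib, Finset.prod_pow_eq_pow_sum, Finset.prod_univ_sum, ← mul_assoc]
      have h3 : c (f b * (-1) ^ (∑ i, b i)) * (-1) ^ (∑ i, b i) = c (f b) := by
        rw [map_mul, map_pow, map_neg, map_one, mul_assoc, ← mul_pow]
        simp
      rw [h3, Finset.mul_sum]
      apply Finset.sum_congr rfl
      intro α _
      rw [Finset.prod_mul_distrib, map_mul, map_prod]
      simp only [map_natCast]
      ring
    rw [Finset.sum_congr rfl h2, Finset.sum_comm]
    apply Finset.sum_congr rfl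
    intro α _
    rw [← Finset.sum_mul, ← map_sum]
  rw [h1]
  apply Finset.dvd_sum
  intro α hα
  rcases Nat.lt_or_ge (∑ i, α i) m with hm | hm
  · rw [hf α hm, map_zero, zero_mul]
    exact dvd_zero _
  · apply Dvd.dvd.mul_left
    have h4 : ∏ i, ((-2 * Q i) ^ α i * V i ^ (d i - α i)) =
        p ^ (∑ i, (d i + α i)) * ∏ i, ((-2 * r i) ^ α i * v i ^ (d i - α i)) := by
      rw [← Finset.prod_pow_eq_pow_sum, ← Finset.prod_mul_distrib]
      apply Finset.prod_congr rfl
      intro i _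
      have hi : α i ≤ d i := by
        have := Fintype.mem_piFinset.mp hα i
        rw [Finset.mem_range] at this
        omega
      rw [hQ, hV, mul_pow]
      have h5 : p ^ (d i + α i) = p ^ (2 * α i) * p ^ (d i - α i) := by
        rw [← pow_add]
        congr 1
        omega
      rw [h5, mul_pow, mul_pow, mul_pow, ← pow_mul]
      ring
    rw [h4]
    apply Dvd.dvd.mul_right
    apply pow_dvd_pow
    rw [Finset.sum_add_distrib]
    omega

theorem thf_map {A' B : Type*} [CommRing A'] [CommRing B] (T : A' →+* B) (c : ℂ →+* B)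
    (c' : ℂ →+* A') (h : ∀ z, T (c' z) = c z) (x y : Fin 3 → A') (U V : Fin 3 → B)
    (hU : ∀ i, U i = T (x i)) (hV : ∀ i, V i = T (y i)) (d : Fin 3 → ℕ)
    (f : (Fin 3 → ℕ) → ℂ) :
    T (∑ b ∈ Finset.Iic d, c' (f b * (-1) ^ (∑ i, b i)) * ∏ i, (x i ^ b i * y i ^ (d i - b i))) =
      ∑ b ∈ Finset.Iic d, c (f b * (-1) ^ (∑ i, b i)) * ∏ i, (U i ^ b i * V i ^ (d i - b i)) := by
  rw [map_sum]
  apply Finset.sum_congr rfl
  intro b _
  rw [map_mul, map_prod, h]
  congr 1
  apply Finset.prod_congr rfl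
  intro i _
  rw [map_mul, map_pow, map_pow, hU, hV]

/-- Proof. Put `Qᵢ = C (yy i) ϖ²`, `Yᵢ = theta (yy i) = Qᵢ - C (xx i) ϖ` (divisible by `ϖ`). Then
`theta (xx i) = 2 Qᵢ - Yᵢ = -(Yᵢ - 2 Qᵢ)`, so
`theta (xx i) ^ b * Yᵢ ^ (d - b) = (-1) ^ b ∑_a choose (b, a) (-2 Qᵢ) ^ a Yᵢ ^ (d - a)` (for
`b ≤ d`; the sum over `a ≤ b`, or over `a ≤ d` since `choose (b, a) = 0` for `a > b`). Taking the
product over `i` and the sum over `b` (the signs cancel):
`theta (ftil d f) = ∑_{α ≤ d} (∑_b f b ∏ choose (b i, α i)) ∏ (-2 Qᵢ) ^ α i Yᵢ ^ (d i - α i)`.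
The terms with `∑ α < m` vanish by `hf`, the others are divisible by
`ϖ ^ (2 |α| + |d| - |α|) = ϖ ^ (|d| + |α|)`. -/
theorem theta_ftil (m : ℕ) (d : Fin 3 → ℕ) (f : (Fin 3 → ℕ) → ℂ)
    (hf : ∀ α : Fin 3 → ℕ, ∑ i, α i < m →
      ∑ b ∈ Finset.Iic d, f b * ∏ i, ((b i).choose (α i) : ℂ) = 0) :
    Polynomial.X ^ (∑ i, d i + m) ∣ theta (ftil d f) := by
  obtain ⟨c, hc⟩ : ∃ c : ℂ →+* Polynomial A, ∀ z, c z = Polynomial.C (C z) :=
    ⟨(Polynomial.C : A →+* Polynomial A).comp (C : ℂ →+* A), fun z => rfl⟩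
  obtain ⟨T, hT⟩ : ∃ T : A →+* Polynomial A, ∀ x, T x = theta x :=
    ⟨(theta : A →+* Polynomial A), fun _ => rfl⟩
  obtain ⟨Q, hQ⟩ : ∃ Q : Fin 3 → Polynomial A, ∀ i, Q i = Polynomial.X ^ 2 * Polynomial.C (yy i) :=
    ⟨_, fun _ => rfl⟩
  obtain ⟨v, hv⟩ : ∃ v : Fin 3 → Polynomial A, ∀ i, v i =
    Polynomial.C (yy i) * Polynomial.X - Polynomial.C (xx i) := ⟨_, fun _ => rfl⟩
  obtain ⟨U, hU⟩ : ∃ U : Fin 3 → Polynomial A, ∀ i, U i = T (xx i) := ⟨_, fun _ => rfl⟩
  obtain ⟨V, hV⟩ : ∃ V : Fin 3 → Polynomial A, ∀ i, V i = T (yy i) := ⟨_, fun _ => rfl⟩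
  have hTC : ∀ z : ℂ, T (C z) = c z := fun z => by rw [hT, theta_C, hc]
  have e := thf_map T c (C : ℂ →+* A) hTC xx yy U V hU hV d f
  have e' : theta (ftil d f) = _ := (hT _).symm.trans e
  rw [e']
  refine thf_gen c Polynomial.X U V Q v (fun i => Polynomial.C (yy i)) ?_ ?_ hQ m d f hf
  · intro i
    rw [hU, hV, hQ, hT, hT, theta_xx, theta_yy]
    ring
  · intro i
    rw [hV, hv, hT, theta_yy]
    ring

/-- Proof. The same as `theta_ftil` with the roles of `x` and `y` exchanged: with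
`Zᵢ = theta (xx i)`, `theta (yy i) = 2 Qᵢ - Zᵢ`. (Or apply to `theta_ftil` the automorphism
`ϖ ↦ -ϖ` of `A[ϖ]`, which maps `theta (yy i)` to `theta (xx i)` and conversely.) -/
theorem theta_gtil (m : ℕ) (d : Fin 3 → ℕ) (f : (Fin 3 → ℕ) → ℂ)
    (hf : ∀ α : Fin 3 → ℕ, ∑ i, α i < m →
      ∑ b ∈ Finset.Iic d, f b * ∏ i, ((b i).choose (α i) : ℂ) = 0) :
    Polynomial.X ^ (∑ i, d i + m) ∣ theta (gtil d f) := by
  obtain ⟨c, hc⟩ : ∃ c : ℂ →+* Polynomial A, ∀ z, c z = Polynomial.C (C z) :=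
    ⟨(Polynomial.C : A →+* Polynomial A).comp (C : ℂ →+* A), fun z => rfl⟩
  obtain ⟨T, hT⟩ : ∃ T : A →+* Polynomial A, ∀ x, T x = theta x :=
    ⟨(theta : A →+* Polynomial A), fun _ => rfl⟩
  obtain ⟨Q, hQ⟩ : ∃ Q : Fin 3 → Polynomial A, ∀ i, Q i = Polynomial.X ^ 2 * Polynomial.C (yy i) :=
    ⟨_, fun _ => rfl⟩
  obtain ⟨v, hv⟩ : ∃ v : Fin 3 → Polynomial A, ∀ i, v i =
    Polynomial.C (yy i) * Polynomial.X + Polynomial.C (xx i) := ⟨_, fun _ => rfl⟩
  obtain ⟨U, hU⟩ : ∃ U : Fin 3 → Polynomial A, ∀ i, U i = T (yy i) := ⟨_, fun _ => rfl⟩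
  obtain ⟨V, hV⟩ : ∃ V : Fin 3 → Polynomial A, ∀ i, V i = T (xx i) := ⟨_, fun _ => rfl⟩
  have hTC : ∀ z : ℂ, T (C z) = c z := fun z => by rw [hT, theta_C, hc]
  have e := thf_map T c (C : ℂ →+* A) hTC yy xx U V hU hV d f
  have e' : theta (gtil d f) = _ := (hT _).symm.trans e
  rw [e']
  refine thf_gen c Polynomial.X U V Q v (fun i => Polynomial.C (yy i)) ?_ ?_ hQ m d f hf
  · intro i
    rw [hU, hV, hQ, hT, hT, theta_xx, theta_yy]
    ring
  · intro i
    rw [hV, hv, hT, theta_xx]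
    ring

end H5ML

end S_Thf

section S_Thg

/-!
# THG: invariance of `ftil * gtil`
-/

namespace H5ML

open MvPolynomial

/-- The common form of `ftil` and `gtil`. -/
noncomputable def thg_T (d : Fin 3 → ℕ) (f : (Fin 3 → ℕ) → ℂ) (α β : Fin 3 → A) : A :=
  ∑ b ∈ Finset.Iic d, C (f b * (-1) ^ (∑ i, b i)) * ∏ i, (α i ^ b i * β i ^ (d i - b i))

theorem thg_act (d : Fin 3 → ℕ) (f : (Fin 3 → ℕ) → ℂ) (α β : Fin 3 → A) (g : G) :
    act g (thg_T d f α β) = thg_T d f (fun i => act g (α i)) (fun i => act g (β i)) := by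
  have hC : ∀ (c : ℂ), act g (C c) = C c := fun c => by simp [act]
  simp only [thg_T, map_sum, map_mul, map_prod, map_pow, hC]

theorem thg_chi_pow (a : ZMod 241) (n : ℕ) : chi a ^ n = chi (n * a) := by
  induction n with
  | zero => simp [chi_zero]
  | succ n ih => rw [pow_succ, ih, ← chi_add]; congr 1; push_cast; ring

theorem thg_chi_sum (a : Fin 3 → ZMod 241) : ∏ i, chi (a i) = chi (∑ i, a i) := by
  simp only [Fin.prod_univ_three, Fin.sum_univ_three, chi_add]

theorem thg_scalar (d b : Fin 3 → ℕ) (hb : b ≤ d) (h : 241 ∣ hgt b) (k : ZMod 241) :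
    ∏ i, (chi (u i * k) ^ b i * chi (-(u i * k)) ^ (d i - b i)) = chi (-(k * hgt d)) := by
  have h1 : ((hgt b : ℕ) : ZMod 241) = 0 := (ZMod.natCast_eq_zero_iff _ _).2 h
  simp only [thg_chi_pow, ← chi_add]
  rw [thg_chi_sum]
  congr 1
  rw [hgt_eq] at h1
  rw [hgt_eq]
  push_cast at h1 ⊢
  have h2 : ∀ i, ((d i - b i : ℕ) : ZMod 241) = (d i : ZMod 241) - b i := fun i => by
    rw [Nat.cast_sub (hb i)]
  simp only [h2]
  rw [Fin.sum_univ_three] at h1 ⊢
  rw [Fin.sum_univ_three]
  linear_combination (2 * k) * h1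

theorem thg_smul (d : Fin 3 → ℕ) (f : (Fin 3 → ℕ) → ℂ) (hf : ∀ b, f b ≠ 0 → 241 ∣ hgt b)
    (α β : Fin 3 → A) (k : ZMod 241) :
    thg_T d f (fun i => C (chi (u i * k)) * α i) (fun i => C (chi (-(u i * k))) * β i) =
      C (chi (-(k * hgt d))) * thg_T d f α β := by
  unfold thg_T
  rw [Finset.mul_sum]
  refine Finset.sum_congr rfl fun b hb => ?_
  by_cases h : f b = 0
  · simp [h]
  · have h1 := thg_scalar d b (Finset.mem_Iic.1 hb) (hf b h) k
    have h2 : ∏ i, ((C (chi (u i * k)) * α i) ^ b i * (C (chi (-(u i * k))) * β i) ^ (d i - b i)) =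
        C (∏ i, (chi (u i * k) ^ b i * chi (-(u i * k)) ^ (d i - b i))) *
          ∏ i, (α i ^ b i * β i ^ (d i - b i)) := by
      rw [map_prod, ← Finset.prod_mul_distrib]
      refine Finset.prod_congr rfl fun i _ => ?_
      rw [C_mul, C_pow, C_pow]
      ring
    rw [h2, h1]
    ring

theorem thg_ftil (d : Fin 3 → ℕ) (f : (Fin 3 → ℕ) → ℂ) : ftil d f = thg_T d f xx yy := rfl

theorem thg_gtil (d : Fin 3 → ℕ) (f : (Fin 3 → ℕ) → ℂ) : gtil d f = thg_T d f yy xx := rfl

/-- Proof. `act (r k)` multiplies `∏ xx i ^ b i * yy i ^ (d i - b i)` by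
`χ (k (2 hgt b - hgt d)) = χ (- k hgt d)` because `241 ∣ hgt b` (and `hgt (d - b) = hgt d - hgt b`
for `b ≤ d`), and `∏ yy i ^ b i * xx i ^ (d i - b i)` by `χ (k hgt d)`. So
`act (r k) ftil = C (χ (-k hgt d)) ftil`, `act (r k) gtil = C (χ (k hgt d)) gtil`. Similarly
`act (sr k) ftil = C (χ (-k hgt d)) gtil` and `act (sr k) gtil = C (χ (k hgt d)) ftil`. -/
theorem ftil_mul_gtil_inv (d : Fin 3 → ℕ) (f : (Fin 3 → ℕ) → ℂ)
    (hf : ∀ b, f b ≠ 0 → 241 ∣ hgt b) (g : G) : g • (ftil d f * gtil d f) = ftil d f * gtil d f := by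
  rw [smul_eq, map_mul, thg_ftil, thg_gtil, thg_act, thg_act]
  have key : ∀ k : ZMod 241, (C (chi (-(k * hgt d))) : A) * C (chi (-(-k * hgt d))) = 1 := by
    intro k
    rw [← C_mul, ← chi_add]
    have : -(k * (hgt d : ZMod 241)) + -(-k * hgt d) = 0 := by ring
    rw [this, chi_zero, C_1]
  rcases g with k | k
  · simp only [act_xx_r, act_yy_r]
    have e1 := thg_smul d f hf xx yy k
    have e2 := thg_smul d f hf yy xx (-k)
    have e3 : ∀ i, (u i : ZMod 241) * -k = -(u i * k) := fun i => by ring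
    simp only [e3, neg_neg] at e2
    rw [e1, e2]
    linear_combination (thg_T d f xx yy * thg_T d f yy xx) * key k
  · simp only [act_xx_sr, act_yy_sr]
    have e1 := thg_smul d f hf yy xx k
    have e2 := thg_smul d f hf xx yy (-k)
    have e3 : ∀ i, (u i : ZMod 241) * -k = -(u i * k) := fun i => by ring
    simp only [e3, neg_neg] at e2
    rw [e1, e2]
    linear_combination (thg_T d f xx yy * thg_T d f yy xx) * key k

end H5ML

end S_Thg

section S_Exf

/-!
# EXF: existence of polynomials with support in a lattice and a multiple point at `(1,1,1)`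
-/

namespace H5ML

open MvPolynomial in
/-- The polynomial `choose (X i) k`. -/
noncomputable def exf_ch (i : Fin 3) (k : ℕ) : MvPolynomial (Fin 3) ℂ :=
  C ((k.factorial : ℂ)⁻¹) * ∏ j ∈ Finset.range k, (X i - C (j : ℂ))

open MvPolynomial in
theorem exf_ch_deg (i : Fin 3) (k : ℕ) : (exf_ch i k).totalDegree ≤ k := by
  unfold exf_ch
  refine (totalDegree_mul _ _).trans ?_
  rw [totalDegree_C, zero_add]
  refine (totalDegree_finsetProd _ _).trans ?_
  refine (Finset.sum_le_card_nsmul _ _ 1 ?_).trans ?_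
  · intro j _
    refine (totalDegree_sub _ _).trans ?_
    rw [totalDegree_X, totalDegree_C]
    simp
  · simp

open MvPolynomial in
theorem exf_ch_eval (i : Fin 3) (k : ℕ) (b : Fin 3 → ℕ) :
    eval (fun i => (b i : ℂ)) (exf_ch i k) = ((b i).choose k : ℂ) := by
  unfold exf_ch
  rw [map_mul, eval_C, map_prod]
  have h : ∏ j ∈ Finset.range k, eval (fun i => (b i : ℂ)) (X i - C (j : ℂ)) =
      ∏ j ∈ Finset.range k, ((b i : ℂ) - j) := by
    refine Finset.prod_congr rfl fun j _ => ?_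
    simp
  rw [h, ← descPochhammer_eval_eq_prod_range, descPochhammer_eval_eq_descFactorial,
    Nat.descFactorial_eq_factorial_mul_choose]
  push_cast
  have : (k.factorial : ℂ) ≠ 0 := by exact_mod_cast k.factorial_ne_zero
  field_simp

/-- There is `f` supported on the lattice points of the box `b ≤ d` with `f 0 = 1` all of whose
binomial moments of order `< m` vanish.

Proof. Let `P` be the set of the `b ≤ d`, `b ≠ 0`, `241 ∣ hgt b` and let `T` be the finite set of
the `α` with `∑ α < m`. We look for `f : P → ℂ` with `∑_{b ∈ P} f b B (b, α) = - B (0, α)` for all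
`α ∈ T`, where `B (b, α) = ∏ (b i).choose (α i)`. By linear algebra (a vector of a finite
dimensional space which is killed by every functional killing a family of vectors lies in the
span of the family) such an `f` exists as soon as every `c : T → ℂ` with
`∑_α c α B (b, α) = 0` for all `b ∈ P` satisfies `∑_α c α B (0, α) = 0`. Now
`φ (X) = ∑_α c α ∏ choose (X_i, α_i)` is a polynomial of total degree `< m` (if `m ≥ 1`; for
`m = 0` take `f = Pi.single 0 1`), `choose (X, k) = (k!)⁻¹ X (X - 1) ⋯ (X - k + 1)`, which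
vanishes on the lattice points of the box with offset `(1, 0, 0)` and size `d - (1, 0, 0)`, and
`nnv` applies, so `φ (0) = 0`. -/
theorem exists_f (m : ℕ) (d : Fin 3 → ℕ) (h0 : 4 * m + 9 ≤ d 0) (h1 : 3 * m + 6 ≤ d 1)
    (h2 : 5 * m + 5 ≤ d 2) (hu : 241 * m + 375 ≤ hgt d) :
    ∃ f : (Fin 3 → ℕ) → ℂ, f 0 = 1 ∧ (∀ b, f b ≠ 0 → b ≤ d ∧ 241 ∣ hgt b) ∧
      ∀ α : Fin 3 → ℕ, ∑ i, α i < m →
        ∑ b ∈ Finset.Iic d, f b * ∏ i, ((b i).choose (α i) : ℂ) = 0 := by
  classical
  rcases Nat.eq_zero_or_pos m with hm | hm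
  · subst hm
    refine ⟨Pi.single 0 1, by simp, ?_, ?_⟩
    · intro b hb
      have hb0 : b = 0 := by
        by_contra hne
        exact hb (by rw [Pi.single_eq_of_ne hne])
      subst hb0
      exact ⟨fun i => Nat.zero_le _, by simp [hgt]⟩
    · intro α hα
      exact absurd hα (Nat.not_lt_zero _)
  -- the index sets
  set T : Finset (Fin 3 → ℕ) := (Finset.Iic (fun _ => m)).filter fun α => ∑ i, α i < m with hT
  have hTm : ∀ α : Fin 3 → ℕ, ∑ i, α i < m → α ∈ T := by
    intro α hα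
    rw [hT, Finset.mem_filter, Finset.mem_Iic]
    refine ⟨fun i => ?_, hα⟩
    have := Finset.single_le_sum (f := α) (fun j _ => Nat.zero_le _) (Finset.mem_univ i)
    show α i ≤ m
    omega
  set P : Finset (Fin 3 → ℕ) := (Finset.Iic d).filter fun b => b ≠ 0 ∧ 241 ∣ hgt b with hP
  set B : (Fin 3 → ℕ) → (T → ℂ) := fun b α => ∏ i, ((b i).choose ((α : Fin 3 → ℕ) i) : ℂ) with hB
  have key : B 0 ∈ Submodule.span ℂ (B '' (P : Set (Fin 3 → ℕ))) := by
    by_contra hnot
    obtain ⟨L, hL0, hL⟩ := Submodule.exists_le_ker_of_notMem hnot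
    apply hL0
    set φ : MvPolynomial (Fin 3) ℂ := ∑ α : T, MvPolynomial.C (L (fun j => if α = j then 1 else 0)) *
      ∏ i, exf_ch i ((α : Fin 3 → ℕ) i) with hφ
    have hφe : ∀ b : Fin 3 → ℕ, MvPolynomial.eval (fun i => (b i : ℂ)) φ = L (B b) := by
      intro b
      rw [LinearMap.pi_apply_eq_sum_univ L (B b), hφ, map_sum]
      refine Finset.sum_congr rfl fun α _ => ?_
      rw [map_mul, MvPolynomial.eval_C, map_prod, smul_eq_mul, mul_comm]
      congr 1
      rw [hB]
      refine Finset.prod_congr rfl fun i _ => ?_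
      exact exf_ch_eval i _ b
    have hφd : φ.totalDegree < m := by
      rw [hφ]
      refine lt_of_le_of_lt (MvPolynomial.totalDegree_finsetSum _ _) ?_
      rw [Finset.sup_lt_iff (by simpa using hm)]
      intro α _
      refine lt_of_le_of_lt (MvPolynomial.totalDegree_mul _ _) ?_
      rw [MvPolynomial.totalDegree_C, zero_add]
      refine lt_of_le_of_lt (MvPolynomial.totalDegree_finsetProd _ _) ?_
      refine lt_of_le_of_lt (Finset.sum_le_sum fun i _ => exf_ch_deg i _) ?_
      exact (Finset.mem_filter.mp α.2).2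
    have hh : hgt d = 15 * d 0 + 20 * d 1 + 24 * d 2 := rfl
    have hv := nnv m φ hφd ![1, 0, 0] ![(d 0 : ℤ) - 1, d 1, d 2]
      (by simp; omega) (by simp; omega) (by simp; omega) (by simp; omega) (by
        intro b hb hdvd
        have hb0 := hb 0
        have hb1 := hb 1
        have hb2 := hb 2
        simp at hb0 hb1 hb2
        have hn : ∀ i, 0 ≤ b i := by
          intro i
          fin_cases i
          · simp; omega
          · simp; omega
          · simp; omega
        have hbb : (fun i => (b i : ℂ)) = fun i => (((b i).toNat : ℕ) : ℂ) := by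
          funext i
          have : ((b i).toNat : ℤ) = b i := Int.toNat_of_nonneg (hn i)
          exact_mod_cast congrArg (fun z : ℤ => (z : ℂ)) this.symm
        rw [hbb, hφe (fun i => (b i).toNat)]
        have hmem : (fun i => (b i).toNat) ∈ P := by
          rw [hP, Finset.mem_filter, Finset.mem_Iic]
          refine ⟨?_, ?_, ?_⟩
          · intro i
            fin_cases i
            · simp; omega
            · simp; omega
            · simp; omega
          · intro h
            have := congrFun h 0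
            simp at this
            omega
          · have : ((hgt fun i => (b i).toNat : ℕ) : ℤ) = 15 * b 0 + 20 * b 1 + 24 * b 2 := by
              unfold hgt
              have e0 := Int.toNat_of_nonneg (hn 0)
              have e1 := Int.toNat_of_nonneg (hn 1)
              have e2 := Int.toNat_of_nonneg (hn 2)
              push_cast
              rw [e0, e1, e2]
            rw [← this] at hdvd
            exact_mod_cast hdvd
        exact hL (Submodule.subset_span ⟨_, hmem, rfl⟩)) 0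
    rw [← hφe 0]
    simpa using hv
  rw [Submodule.mem_span_image_finset_iff_exists_fun] at key
  obtain ⟨c, hc⟩ := key
  have h0P : (0 : Fin 3 → ℕ) ∉ P := by
    rw [hP, Finset.mem_filter]
    rintro ⟨_, h, _⟩
    exact h rfl
  refine ⟨fun b => if b = 0 then 1 else if h : b ∈ P then - c ⟨b, h⟩ else 0, by simp, ?_, ?_⟩
  · intro b hb
    by_cases hb0 : b = 0
    · subst hb0
      exact ⟨fun i => Nat.zero_le _, by simp [hgt]⟩
    · by_cases hbP : b ∈ P
      · have := hbP
        rw [hP, Finset.mem_filter, Finset.mem_Iic] at this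
        exact ⟨this.1, this.2.2⟩
      · exact absurd (by simp [hb0, hbP]) hb
  · intro α hα
    have hsub : insert 0 P ⊆ Finset.Iic d := by
      intro b hb
      rw [Finset.mem_insert] at hb
      rcases hb with rfl | hb
      · rw [Finset.mem_Iic]
        exact fun i => Nat.zero_le _
      · rw [hP, Finset.mem_filter] at hb
        exact hb.1
    rw [← Finset.sum_subset hsub, Finset.sum_insert h0P]
    · have h1 := congrFun hc ⟨α, hTm α hα⟩
      rw [Finset.sum_apply] at h1
      have h2 : ∑ b ∈ P, (if b = 0 then (1 : ℂ) else if h : b ∈ P then - c ⟨b, h⟩ else 0) *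
          ∏ i, ((b i).choose (α i) : ℂ) = - ∑ b : P, c b * B b ⟨α, hTm α hα⟩ := by
        rw [← Finset.sum_coe_sort, ← Finset.sum_neg_distrib]
        refine Finset.sum_congr rfl fun b _ => ?_
        have hb0 : (b : Fin 3 → ℕ) ≠ 0 := fun h => h0P (h ▸ b.2)
        rw [if_neg hb0, dif_pos b.2]
        ring
      rw [h2]
      have h3 : ∑ b : P, c b * B b ⟨α, hTm α hα⟩ = B 0 ⟨α, hTm α hα⟩ := by
        rw [← h1]
        rfl
      rw [h3]
      simp [hB]
    · intro b _ hb
      rw [Finset.mem_insert, not_or] at hb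
      simp only [hb.1, hb.2, if_false, dif_neg, not_false_eq_true, zero_mul]

end H5ML

end S_Exf

section S_Core

/-!
# CORE: the graded ring of the valuation is not finitely generated
-/

namespace H5ML

open MvPolynomial

theorem mon_inj {b c b' c' : Fin 3 → ℕ} {e e' : Fin 5 → ℕ} (h : mon b c e = mon b' c' e') :
    b = b' ∧ c = c' ∧ e = e' := by
  have h1 : Sum.elim b (Sum.elim c e) = Sum.elim b' (Sum.elim c' e') := by
    simpa [mon] using h
  refine ⟨?_, ?_, ?_⟩
  · funext i
    simpa using congrFun h1 (.inl i)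
  · funext i
    simpa using congrFun h1 (.inr (.inl i))
  · funext i
    simpa using congrFun h1 (.inr (.inr i))

theorem degree_mon (b c : Fin 3 → ℕ) (e : Fin 5 → ℕ) :
    (mon b c e).sum (fun _ k => k) = ∑ i, b i + ∑ i, c i + ∑ l, e l := by
  rw [Finsupp.sum_fintype _ _ (fun _ => rfl)]
  simp [mon, Fintype.sum_sum_type, add_assoc]

/-- If the part of degree `(d, e)` is nonzero on the curve then `|d| + |e|` is at most the total
degree. -/
theorem degree_le_of_resPoly (s : A) (d : Fin 3 → ℕ) (e : Fin 5 → ℕ) (h : resPoly s d e ≠ 0) :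
    ∑ i, d i + ∑ l, e l ≤ s.totalDegree := by
  obtain ⟨b, hb, hne⟩ : ∃ b ∈ Finset.Iic d, coeff (mon b (d - b) e) s ≠ 0 := by
    by_contra hc
    push Not at hc
    apply h
    unfold resPoly
    refine Finset.sum_eq_zero fun b hb => ?_
    rw [hc b hb]
    simp
  have h1 := MvPolynomial.le_totalDegree (p := s) (MvPolynomial.mem_support_iff.mpr hne)
  rw [degree_mon] at h1
  have h2 : ∑ i, b i + ∑ i, (d - b) i = ∑ i, d i := by
    rw [← Finset.sum_add_distrib]
    refine Finset.sum_congr rfl fun i _ => ?_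
    have : b i ≤ d i := (Finset.mem_Iic.mp hb) i
    simp only [Pi.sub_apply]
    omega
  omega

theorem wgt_bound (H q : ℕ) (hH : 1 ≤ H) (d : Fin 3 → ℕ) (e : Fin 5 → ℕ)
    (h1 : 241 * (2 * q) ≤ hgt d + 241 * (∑ i, d i + ∑ l, e l))
    (h2 : 241 * (2 * q) = hgt d + 241 * (∑ i, d i + ∑ l, e l) →
      d 2 + 4 * (∑ i, d i + ∑ l, e l) = 8 * q)
    (h3 : 5 * (∑ i, d i + ∑ l, e l) ≤ H) :
    482 * q * H - 8 * q ≤ wgt H d e := by
  set S := ∑ l, e l with hS
  have e0 : lw H 0 = 256 * H - 4 := by simp [lw, u]; ring_nf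
  have e1 : lw H 1 = 261 * H - 4 := by simp [lw, u]; ring_nf
  have e2 : lw H 2 = 265 * H - 5 := by simp [lw, u]; ring_nf
  have e3 : lt H = 241 * H - 4 := by simp [lt]; ring_nf
  have hw : wgt H d e + (4 * d 0 + 4 * d 1 + 5 * d 2 + 4 * S) =
      H * (hgt d + 241 * (d 0 + d 1 + d 2 + S)) := by
    unfold wgt
    rw [Fin.sum_univ_three, e0, e1, e2, e3, ← hS]
    obtain ⟨H', rfl⟩ : ∃ H', H = H' + 1 := ⟨H - 1, by omega⟩
    have a0 : 256 * (H' + 1) - 4 = 256 * H' + 252 := by omega
    have a1 : 261 * (H' + 1) - 4 = 261 * H' + 257 := by omega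
    have a2 : 265 * (H' + 1) - 5 = 265 * H' + 260 := by omega
    have a3 : 241 * (H' + 1) - 4 = 241 * H' + 237 := by omega
    rw [a0, a1, a2, a3]
    unfold hgt
    ring
  rw [Fin.sum_univ_three] at h1 h2 h3
  rcases Nat.lt_or_ge (241 * (2 * q)) (hgt d + 241 * (d 0 + d 1 + d 2 + S)) with hlt | hge
  · have h4 : H * (241 * (2 * q) + 1) ≤ H * (hgt d + 241 * (d 0 + d 1 + d 2 + S)) :=
      Nat.mul_le_mul_left H hlt
    have h5 : H * (241 * (2 * q) + 1) = 482 * q * H + H := by ring
    omega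
  · have heq : 241 * (2 * q) = hgt d + 241 * (d 0 + d 1 + d 2 + S) := le_antisymm h1 hge
    have h4 := h2 heq
    rw [← heq] at hw
    have h5 : H * (241 * (2 * q)) = 482 * q * H := by ring
    omega

theorem core (q : ℕ) (hq : 1 ≤ q) (I : Finset A)
    (hI : ∀ s ∈ I, (∀ k : ZMod 241, act (.r k) s = s) ∧ Polynomial.X ^ (2 * q) ∣ theta s) :
    ∃ (H k j : ℕ) (M : ℕ) (b : A), 1 ≤ H ∧ 1 ≤ k ∧ 1 ≤ j ∧ (∀ g : G, g • b = b) ∧
      Polynomial.X ^ (2 * (q * j)) ∣ theta b ∧ (∀ s ∈ I, Polynomial.X ^ M ∣ psi H k s) ∧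
      ¬ Polynomial.X ^ (M * j) ∣ psi H k b := by
  classical
  set H : ℕ := 1 + 5 * ∑ s ∈ I, s.totalDegree with hH
  have hH1 : 1 ≤ H := by omega
  set M : ℕ := 482 * q * H - 8 * q with hM
  set r : ℕ := 10390 * H with hr
  set d : Fin 3 → ℕ := ![61 * (q * r) + 9, 45 * (q * r) + 6, 75 * (q * r) + 5] with hd
  have hd0 : d 0 = 61 * (q * r) + 9 := rfl
  have hd1 : d 1 = 45 * (q * r) + 6 := rfl
  have hd2 : d 2 = 75 * (q * r) + 5 := rfl
  obtain ⟨f, f0, fs, fm⟩ := exists_f (15 * (q * r)) d (by omega) (by omega) (by omega)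
    (by rw [hgt, hd0, hd1, hd2]; omega)
  refine ⟨H, M + 1, 196 * r, M, ftil d f * gtil d f, hH1, by omega, ?_, ?_, ?_, ?_, ?_⟩
  · omega
  · exact ftil_mul_gtil_inv d f fun b hb => (fs b hb).2
  · rw [map_mul]
    have h1 := theta_ftil _ d f fm
    have h2 := theta_gtil _ d f fm
    refine dvd_trans (pow_dvd_pow _ ?_) (by
      have := mul_dvd_mul h1 h2
      rwa [← pow_add] at this)
    rw [Fin.sum_univ_three, hd0, hd1, hd2]
    have : q * (196 * r) = 196 * (q * r) := by ring
    omega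
  · intro s hs
    refine psi_dvd H (M + 1) M (by omega) s fun d' e' hne => ?_
    have hb := res_bound s (hI s hs).1 q (hI s hs).2 d' e' hne
    refine wgt_bound H q hH1 d' e' hb.1 hb.2 ?_
    have h1 := degree_le_of_resPoly s d' e' hne
    have h2 : s.totalDegree ≤ ∑ s ∈ I, s.totalDegree :=
      Finset.single_le_sum (f := fun s : A => s.totalDegree) (fun _ _ => Nat.zero_le _) hs
    omega
  · intro hdiv
    refine psi_ftil_gtil H (M + 1) (by omega) d f f0 (dvd_trans (pow_dvd_pow _ ?_) hdiv)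
    have e0 : lw H 0 = 256 * H - 4 := by simp [lw, u]; ring_nf
    have e1 : lw H 1 = 261 * H - 4 := by simp [lw, u]; ring_nf
    have e2 : lw H 2 = 265 * H - 5 := by simp [lw, u]; ring_nf
    rw [Fin.sum_univ_three, e0, e1, e2, hd0, hd1, hd2]
    obtain ⟨H', hH'⟩ : ∃ H', H = H' + 1 := ⟨H - 1, by omega⟩
    have a0 : 256 * H - 4 = 256 * H' + 252 := by omega
    have a1 : 261 * H - 4 = 261 * H' + 257 := by omega
    have a2 : 265 * H - 5 = 265 * H' + 260 := by omega
    rw [a0, a1, a2]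
    have hMe : M + 8 * q = 482 * q * H := by
      have : 8 * q ≤ 482 * q * H := by
        calc 8 * q ≤ 482 * q * 1 := by omega
          _ ≤ 482 * q * H := Nat.mul_le_mul_left _ hH1
      omega
    have hMr : M * (196 * r) + 1568 * (q * r) = 94472 * (q * r) * H := by
      have : (M + 8 * q) * (196 * r) = 482 * q * H * (196 * r) := by rw [hMe]
      nlinarith
    have hqr : 10390 * H ≤ q * r := by
      rw [hr]
      calc 10390 * H = 1 * (10390 * H) := by ring
        _ ≤ q * (10390 * H) := Nat.mul_le_mul_right _ hq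
    set Q := q * r with hQ
    have hexp : 2 * ((256 * H' + 252) * (61 * Q + 9) + (261 * H' + 257) * (45 * Q + 6) +
        (265 * H' + 260) * (75 * Q + 5)) + 1598 * Q + 170 = 94472 * Q * H + 10390 * H := by
      rw [hH']
      ring
    omega

end H5ML

end S_Core
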