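import Mathlib

/-!
# Prime divisors over an affine variety, log discrepancies, divisorial contractions

`R` is a finitely generated normal domain over `ℂ` with fraction field `K`, so `X = Spec R`.
A prime divisor over `X` is a discrete valuation ring `O` of `K` containing `R` whose residue
field has transcendence degree `dim X - 1` over `ℂ` (Zariski).
-/

open AlgebraicGeometry CategoryTheory

namespace MLD

section Field

variable {K : Type} [Field K]

/-- `t` is a uniformizer of the valuation ring `O`: `t` lies in `O`, is not a unit of `O`, and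
every nonzero `h ∈ K` is a power of `t` times a unit of `O`. Such a `t` exists exactly when `O`
is a discrete valuation ring. -/
def IsUnif (O : ValuationSubring K) (t : K) : Prop :=
  t ≠ 0 ∧ t ∈ O ∧ t⁻¹ ∉ O ∧ ∀ h : K, h ≠ 0 → ∃ n : ℤ, h * t ^ n ∈ O ∧ (h * t ^ n)⁻¹ ∈ O

/-- The normalised valuation of `O` is at least `n` on `h` (`ord_O (h) ≥ n`, with
`ord_O (0) = ∞`). -/
def OrdGe (O : ValuationSubring K) (n : ℕ) (h : K) : Prop :=
  ∃ t : K, IsUnif O t ∧ h * (t ^ n)⁻¹ ∈ O

variable [Algebra ℂ K]

/-- The `y i` lie in `O` and their residues are algebraically independent over `ℂ`: every nonzero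
polynomial in the `y i` is a unit of `O`. -/
def ResIndep {n : ℕ} (O : ValuationSubring K) (y : Fin n → K) : Prop :=
  ∀ P : MvPolynomial (Fin n) ℂ, P ≠ 0 →
    MvPolynomial.aeval y P ≠ 0 ∧ MvPolynomial.aeval y P ∈ O ∧ (MvPolynomial.aeval y P)⁻¹ ∈ O

/-- `O` is a discrete valuation ring of `K` with residue field of transcendence degree at least
`n` over `ℂ`. For `K` of transcendence degree `n + 1` these are the prime divisors of `K / ℂ`. -/
def IsDiv (n : ℕ) (O : ValuationSubring K) : Prop :=
  (∃ t, IsUnif O t) ∧ ∃ y : Fin n → K, ResIndep O y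

/-- The Kähler differentials of the field `K` over `ℂ`. -/
def Om (K : Type) [Field K] [Algebra ℂ K] : Type := Ω[K⁄ℂ]

noncomputable instance : AddCommGroup (Om K) := (inferInstance : AddCommGroup Ω[K⁄ℂ])

noncomputable instance : Module K (Om K) := (inferInstance : Module K Ω[K⁄ℂ])

/-- The differential `dz`. -/
noncomputable def dd (z : K) : Om K := KaehlerDifferential.D ℂ K z

/-- The differential form `d z_0 ∧ ⋯ ∧ d z_{n-1}`, in the exterior algebra of the `K`-vector
space of differentials. -/
noncomputable def dwedge {n : ℕ} (z : Fin n → K) : ExteriorAlgebra K (Om K) :=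
  ExteriorAlgebra.ιMulti K n fun i => dd (z i)

/-- The log discrepancy of the prime divisor `O` with respect to the rational form `ω` of degree
`n + 1` (where `n + 1 = dim X`) is `a`, i.e. `ord_O (ω) = a - 1`: for a uniformizer `t` and
elements `y_1, …, y_n` of `O` with algebraically independent residues,
`ω = ε t ^ (a - 1) dt ∧ dy_1 ∧ ⋯ ∧ dy_n` with `ε` a unit of `O`. If `ω` generates the canonical
sheaf of `X` then this is the log discrepancy `a(E, X, 0)` of the prime divisor `E`
given by `O`. -/
def HasLogDisc (n : ℕ) (O : ValuationSubring K) (ω : ExteriorAlgebra K (Om K)) (a : ℤ) : Prop :=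
  ∃ (t : K) (y : Fin n → K) (ε : K), IsUnif O t ∧ ResIndep O y ∧ ε ≠ 0 ∧ ε ∈ O ∧ ε⁻¹ ∈ O ∧
    ω = (ε * t ^ (a - 1)) • dwedge (Fin.cons t y : Fin (n + 1) → K)

end Field

section Ring

variable {R K : Type} [CommRing R] [Field K] [Algebra R K]

/-- `O` contains `R`. -/
def Over (R : Type) {K : Type} [CommRing R] [Field K] [Algebra R K] (O : ValuationSubring K) :
    Prop :=
  ∀ r : R, algebraMap R K r ∈ O

/-- `O` contains `R` and its centre on `Spec R` is the prime `x`. -/
def OverPoint (x : Ideal R) (O : ValuationSubring K) : Prop :=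
  Over R O ∧ ∀ r : R, r ∈ x ↔ algebraMap R K r ∈ O.nonunits

/-- The localization of `R` at the prime `p`, inside `K`. -/
def locAt (K : Type) [Field K] [Algebra R K] (p : Ideal R) : Set K :=
  {h | ∃ a b : R, b ∉ p ∧ h * algebraMap R K b = algebraMap R K a}

variable [Algebra ℂ K]

/-- `ω` has neither zeros nor poles on the normal variety `Spec R` (so `K_X` is Cartier and `ω`
generates the canonical sheaf): at every prime `p` of height one the localization `R_p` is a
prime divisor of log discrepancy one. -/
def CanonicalGen (n : ℕ) (R : Type) {K : Type} [CommRing R] [Field K] [Algebra R K] [Algebra ℂ K]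
    (ω : ExteriorAlgebra K (Om K)) : Prop :=
  ∀ p : Ideal R, p.IsPrime → p.height = 1 →
    ∃ O : ValuationSubring K, (O : Set K) = locAt K p ∧ HasLogDisc n O ω 1

/-- Kawamata log terminal: every prime divisor over `Spec R` has a log discrepancy, it is unique,
and it is positive. -/
def Klt (n : ℕ) (R : Type) {K : Type} [CommRing R] [Field K] [Algebra R K] [Algebra ℂ K]
    (ω : ExteriorAlgebra K (Om K)) : Prop :=
  ∀ O : ValuationSubring K, IsDiv n O → Over R O →
    ∃ a : ℤ, 0 < a ∧ HasLogDisc n O ω a ∧ ∀ b : ℤ, HasLogDisc n O ω b → b = a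

/-- The minimal log discrepancy of `Spec R` at the closed point `x` is `m`. -/
def IsMld (n : ℕ) (x : Ideal R) (ω : ExteriorAlgebra K (Om K)) (m : ℤ) : Prop :=
  (∃ O : ValuationSubring K, IsDiv n O ∧ OverPoint x O ∧ HasLogDisc n O ω m) ∧
    ∀ O : ValuationSubring K, IsDiv n O → OverPoint x O → ∀ a : ℤ, HasLogDisc n O ω a → m ≤ a

end Ring

section Scheme

/-- The generic point `Spec K → Y` of an integral scheme `Y` whose function field is identified
with `K` by `φ`. -/
noncomputable def genPt {K : Type} [Field K] (Y : Scheme.{0}) [IsIntegral Y]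
    (φ : Y.functionField ≃+* K) : Spec (CommRingCat.of K) ⟶ Y :=
  Spec.map (CommRingCat.ofHom (φ : Y.functionField →+* K)) ≫ Y.fromSpecStalk (genericPoint Y)

/-- The inclusion of the local ring of `Y` at `y` in `K`. -/
noncomputable def stalkTo {K : Type} [Field K] (Y : Scheme.{0}) [IsIntegral Y]
    (φ : Y.functionField ≃+* K) (y : Y) : Y.presheaf.stalk y →+* K :=
  (φ : Y.functionField →+* K).comp (algebraMap (Y.presheaf.stalk y) Y.functionField)

/-- A birational morphism `f : Y → X = Spec R`: an integral scheme `Y` over `Spec R` with function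
field `K`, the fraction field of `R`. -/
structure Model (R K : Type) [CommRing R] [Field K] [Algebra R K] where
  /-- the scheme `Y` -/
  Y : Scheme.{0}
  /-- the morphism `f : Y → Spec R` -/
  f : Y ⟶ Spec (CommRingCat.of R)
  integral : IsIntegral Y
  /-- the function field of `Y` is `K` -/
  φ : Y.functionField ≃+* K
  /-- `f` maps the generic point of `Y` to that of `Spec R`, by the inclusion `R ⊆ K` -/
  gen : genPt Y φ ≫ f = Spec.map (CommRingCat.ofHom (algebraMap R K))

attribute [instance] Model.integral

variable {R K : Type} [CommRing R] [Field K] [Algebra R K]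

/-- The local ring of `Y` at `y`, inside `K`. -/
noncomputable def Model.loc (M : Model R K) (y : M.Y) : Subring K :=
  (stalkTo M.Y M.φ y).range

/-- The stalk at `y` of the divisorial sheaf `𝒪_Y(-nE)` inside `K`, where `E` is the closure of
the point `η`, whose local ring is `O`. -/
def Model.stalkMinus (M : Model R K) (O : ValuationSubring K) (η : M.Y) (n : ℕ) (y : M.Y) :
    Set K :=
  {h | h ∈ M.loc y ∧ (η ⤳ y → OrdGe O n h)}

/-- All local rings of `Y` are integrally closed. -/
def Model.Normal (M : Model R K) : Prop := ∀ y : M.Y, IsIntegrallyClosed (M.Y.presheaf.stalk y)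

/-- The locus where `f` is not a local isomorphism is exactly the closure `E` of `η`. -/
def Model.ExcEq (M : Model R K) (η : M.Y) : Prop :=
  ∀ y : M.Y, η ⤳ y ↔ (M.loc y : Set K) ≠ locAt K (M.f y).asIdeal

/-- `-E` is `f`-ample: every point has an affine open neighbourhood which is the
non-vanishing locus of a section `s` of `𝒪_Y(-nE)` for some `n ≥ 1`. -/
def Model.Ample (M : Model R K) (O : ValuationSubring K) (η : M.Y) : Prop :=
  ∀ y : M.Y, ∃ n : ℕ, 1 ≤ n ∧ ∃ s : R, OrdGe O n (algebraMap R K s) ∧
    ∃ U : M.Y.Opens, IsAffineOpen U ∧ y ∈ U ∧ ∀ y' : M.Y, y' ∈ U ↔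
      M.stalkMinus O η n y' = {h | ∃ g ∈ M.loc y', h = algebraMap R K s * g}

/-- A divisorial contraction `f : Y → X = Spec R` of the prime divisor `E` over `X` given by `O`:
a proper birational morphism from a normal integral scheme `Y` whose exceptional locus is the
prime divisor `E` and such that `-E` is ample over `X` (so `f` is projective). -/
structure DivisorialContraction (R : Type) {K : Type} [CommRing R] [Field K] [Algebra R K]
    (O : ValuationSubring K) extends Model R K where
  proper : IsProper f
  normal : toModel.Normal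
  /-- the generic point of `E` -/
  η : Y
  loc_η : (toModel.loc η : Set K) = O
  exc : toModel.ExcEq η
  ample : toModel.Ample O η

/-- The prime divisor `E` with centre `x` on `Spec R` given by `O` admits a divisorial contraction
over some affine open neighbourhood `Spec S`, `S = R[1/g]`, of `x`. -/
def Extractable (x : Ideal R) (O : ValuationSubring K) : Prop :=
  ∃ (g : R) (S : Type) (_ : CommRing S) (_ : Algebra R S) (_ : Algebra S K)
    (_ : IsScalarTower R S K), g ∉ x ∧ IsLocalization.Away g S ∧
      Nonempty (DivisorialContraction S O)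

end Scheme

end MLD
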