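import Mathlib
import Pool.Agent.H5.MD.Stmt
import Pool.Agent.H5.MD.P1
import Pool.Agent.H5.MD.P2
import Pool.Agent.H5.MD.P4
import Pool.Agent.H5.MD.P5
import Pool.Agent.H5.MD.P6
import Pool.Agent.H5.MD.P7
import Pool.Agent.H5.MD.P8

section S_Asm

/-!
# Assembly
-/

open scoped TensorProduct

namespace H5ML

open MvPolynomial

theorem zc_basis : Algebra.IsAlgebraic (IntermediateField.adjoin ℂ (Set.range zc)) FA :=
  (tb_fin essFiniteType_FA trdeg_FA zc zc_indep).1

theorem algebraic_FA : Algebra.IsAlgebraic KR FA := by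
  have := IsGaloisGroup.isGalois G KR FA
  exact this.to_normal.toIsAlgebraic

/-- The map `R → FA`. -/
theorem map_R (r : R) :
    algebraMap KR FA (algebraMap R KR r) = algebraMap A FA (algebraMap R A r) := by
  rw [← IsScalarTower.algebraMap_apply R KR FA, ← IsScalarTower.algebraMap_apply R A FA]

theorem map_C (c : ℂ) :
    algebraMap KR FA (algebraMap R KR (algebraMap ℂ R c)) = algebraMap ℂ FA c := by
  rw [map_R, ← IsScalarTower.algebraMap_apply ℂ R A, ← IsScalarTower.algebraMap_apply ℂ A FA]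

theorem map_C' (c : ℂ) : algebraMap ℂ KR c = algebraMap R KR (algebraMap ℂ R c) :=
  IsScalarTower.algebraMap_apply ℂ R KR c

/-- Units of `O` have order zero in an extension. -/
theorem ordEq_map_unit {O : ValuationSubring KR} {W : ValuationSubring FA} {T : FA}
    (hc : ∀ x : KR, algebraMap KR FA x ∈ W ↔ x ∈ O) {x : KR} (h0 : x ≠ 0) (h1 : x ∈ O)
    (h2 : x⁻¹ ∈ O) : OrdEq W T (algebraMap KR FA x) 0 := by
  rw [ordEq_zero_iff]
  refine ⟨by simpa using h0, (hc x).2 h1, ?_⟩
  rw [← map_inv₀]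
  exact (hc _).2 h2

/-- The order in an extension is the ramification index times the order. -/
theorem ordEq_map {O : ValuationSubring KR} {W : ValuationSubring FA} {T : FA}
    (hT : IsUnif W T)
    (hc : ∀ x : KR, algebraMap KR FA x ∈ W ↔ x ∈ O) {t : KR} (ht : IsUnif O t) {e : ℤ}
    (he : OrdEq W T (algebraMap KR FA t) e) {x : KR} {n : ℤ} (hx : OrdEq O t x n) :
    OrdEq W T (algebraMap KR FA x) (e * n) := by
  have h1 : x = (x * t ^ (-n)) * t ^ n := by
    rw [mul_assoc, ← zpow_add₀ ht.1]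
    simp
  rw [h1, map_mul, map_zpow₀]
  have h2 := ordEq_map_unit (T := T) hc (mul_ne_zero hx.1 (zpow_ne_zero _ ht.1)) hx.2.1 hx.2.2
  have h3 := h2.mul (he.zpow hT n) hT
  rwa [zero_add, mul_comm n e] at h3

/-- The extension `W` of `O`, with ramification index the order of the inertia group. -/
theorem exists_ext (O : ValuationSubring KR) {t : KR} (ht : IsUnif O t) (hO : Over R O) :
    ∃ (W : ValuationSubring FA) (T : FA), IsUnif W T ∧
      (∀ x : KR, algebraMap KR FA x ∈ W ↔ x ∈ O) ∧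
      ∀ t', IsUnif O t' → OrdEq W T (algebraMap KR FA t') (Nat.card (inert G W)) := by
  have hC : ∀ c : ℂ, algebraMap ℂ KR c ∈ O := fun c => by
    rw [map_C']
    exact hO _
  obtain ⟨W, T, hT, hc, he⟩ := ext_val (F := FA) G ht hC
  refine ⟨W, T, hT, hc, fun t' ht' => ?_⟩
  have h1 : OrdEq O t t' 1 := (ordEq_self ht').congr_unif ht' ht
  simpa using ordEq_map hT hc ht he h1

theorem const_mem_W {O : ValuationSubring KR} {W : ValuationSubring FA}
    (hc : ∀ x : KR, algebraMap KR FA x ∈ W ↔ x ∈ O) (hO : Over R O) (c : ℂ) :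
    algebraMap ℂ FA c ∈ W := by
  rw [← map_C, hc]
  exact hO _

theorem A_mem_W {O : ValuationSubring KR} {W : ValuationSubring FA}
    (hc : ∀ x : KR, algebraMap KR FA x ∈ W ↔ x ∈ O) (hO : Over R O) (a : A) :
    algebraMap A FA a ∈ W := by
  refine contains_A W (fun r => ?_) a
  rw [← map_R, hc]
  exact hO _

theorem nonunit_map {O : ValuationSubring KR} {W : ValuationSubring FA}
    (hc : ∀ x : KR, algebraMap KR FA x ∈ W ↔ x ∈ O) (x : KR) :
    algebraMap KR FA x ∈ W.nonunits ↔ x ∈ O.nonunits := by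
  rw [W.mem_nonunits_iff_or, O.mem_nonunits_iff_or, ← map_inv₀, hc]
  simp

theorem centre_W {O : ValuationSubring KR} {W : ValuationSubring FA}
    (hc : ∀ x : KR, algebraMap KR FA x ∈ W ↔ x ∈ O) (hO : OverPoint x0 O) (v : Ix) :
    algebraMap A FA (X v) ∈ W.nonunits := by
  refine centre_A W (fun r => ?_) (fun r hr => ?_) v
  · rw [← map_R, hc]
    exact hO.1 _
  · rw [← map_R, nonunit_map hc]
    exact (hO.2 r).1 hr

theorem jac_mem {W : ValuationSubring FA} {T : FA} {D : Fin (10 + 1) → Derivation ℂ FA FA}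
    (hD : IsFrame W T D) (hA : ∀ a : A, algebraMap A FA a ∈ W) : jac D zc ∈ W :=
  det_mem _ fun _ i => hD.2.1 i _ (hA _)

theorem card_pos' (W : ValuationSubring FA) : 1 ≤ Nat.card (inert G W) := Nat.card_pos

theorem sum11 (f : Fin (10 + 1) → ℤ) :
    ∑ j, f j = f 0 + f 1 + f 2 + f 3 + f 4 + f 5 + f 6 + f 7 + f 8 + f 9 + f 10 := by
  simp only [Fin.sum_univ_succ, Fin.sum_univ_zero]
  simp only [Fin.succ_zero_eq_one, Fin.succ_one_eq_two, add_zero]
  change f 0 + (f 1 + (f 2 + (f 3 + (f 4 + (f 5 + (f 6 + (f 7 + (f 8 + (f 9 + f 10))))))))) = _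
  ring

/-- Kawamata log terminal singularities. -/
theorem klt_R (ω : ⋀[KR]^(10 + 1) Ω[KR⁄ℂ]) (h0 : ω ≠ 0) (hω : IsPull zc ω) :
    Klt R ω := by
  intro O hO hR
  obtain ⟨a, ha⟩ := exists_logDisc essFiniteType_KR trdeg_KR O hO ω h0
  refine ⟨a, ?_, ha, fun b hb => logDisc_unique essFiniteType_KR trdeg_KR O ω a b ha hb⟩
  obtain ⟨t, ht⟩ := hO.1
  obtain ⟨W, T, hT, hc, he⟩ := exists_ext O ht hR
  obtain ⟨D, hD, hJ⟩ := rh essFiniteType_FA trdeg_FA hc hT _ (card_pos' W) he zc ω hω a ha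
  have h1 := (hJ.mem_iff hT).1 (jac_mem hD (A_mem_W hc hR))
  have h2 : (1 : ℤ) ≤ Nat.card (inert G W) * a := by omega
  by_contra hneg
  push Not at hneg
  have h3 : (Nat.card (inert G W) : ℤ) * a ≤ 0 :=
    mul_nonpos_of_nonneg_of_nonpos (by positivity) hneg
  omega

theorem lin_ne_zero (k : ZMod 241) (v : Ix) : lin k v ≠ 0 := by
  intro h
  rcases v with i | i | l
  · have h1 := congrArg (MvPolynomial.eval (fun w : Ix => if w = .inl i then (1 : ℂ) else 0)) h
    simp [lin, xx, yy] at h1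
  · have h1 := congrArg (MvPolynomial.eval (fun w : Ix => if w = .inl i then (1 : ℂ) else 0)) h
    simp [lin, xx, yy] at h1
  · have h1 := congrArg (MvPolynomial.eval (fun _ : Ix => (1 : ℂ))) h
    simp [lin, tt] at h1

theorem zk_ne_zero (k : ZMod 241) (j : Fin (10 + 1)) : zk k j ≠ 0 := by
  unfold zk
  rw [Ne, FaithfulSMul.algebraMap_eq_zero_iff A FA]
  exact lin_ne_zero k _

theorem zc_ne_zero (j : Fin (10 + 1)) : zc j ≠ 0 := by
  unfold zc
  rw [Ne, FaithfulSMul.algebraMap_eq_zero_iff A FA]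
  exact X_ne_zero (idx j)

/-- Lower bound in terms of the orders of a system of coordinates. -/
theorem lower {W : ValuationSubring FA} {T : FA} (hT : IsUnif W T)
    {D : Fin (10 + 1) → Derivation ℂ FA FA} (hD : IsFrame W T D) (ζ : Fin (10 + 1) → FA)
    {a : Fin (10 + 1) → ℤ} (ha : ∀ j, OrdEq W T (ζ j) (a j)) {m : ℤ}
    (hJ : OrdEq W T (jac D ζ) m) : ∑ j, a j ≤ m + 1 := by
  have h1 := lb hD ζ a ha
  have h2 : (1 : ℤ) - ∑ j, a j = -(∑ j, a j - 1) := by ring
  rw [h2, hJ.mul_mem_iff hT] at h1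
  omega

/-- Analysis of a prime divisor over the point `x0`: the log discrepancy is at least `7`, and if
it is `7` then we know the value of every invariant. -/
theorem analysis (ω : ⋀[KR]^(10 + 1) Ω[KR⁄ℂ]) (hω : IsPull zc ω) (O : ValuationSubring KR)
    (hO : OverPoint x0 O) (a : ℤ) (h : HasLogDisc O ω a) :
    7 ≤ a ∧ (a = 7 → ∀ (r : R) (n : ℕ), OrdGe O n (algebraMap R KR r) ↔
      Polynomial.X ^ (2 * n) ∣ theta (algebraMap R A r)) := by
  obtain ⟨t, y, ε, ht, hy, -⟩ := id h
  obtain ⟨W, T, hT, hc, he⟩ := exists_ext O ht hO.1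
  obtain ⟨D, hD, hJ⟩ := rh essFiniteType_FA trdeg_FA hc hT _ (card_pos' W) he zc ω hω a h
  have hC := const_mem_W hc hO.1
  have hA := A_mem_W hc hO.1
  have hcen := centre_W hc hO
  choose o ho using fun j => exists_ordEq hT (zc_ne_zero j)
  have ho1 : ∀ j, 1 ≤ o j := fun j => ((ho j).nonunit_iff hT).1 (hcen _)
  have hlow := lower hT hD zc ho hJ
  rcases inert_cases W T hT hC hcen with h1 | ⟨h1, h2, h3⟩ | ⟨h1, k, hk⟩
  · have h2 : (11 : ℤ) ≤ ∑ j, o j := by
      have := Finset.sum_le_sum fun j (_ : j ∈ Finset.univ) => ho1 j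
      simpa using this
    have h3 := h2.trans hlow
    rw [h1] at h3
    push_cast at h3
    exact ⟨by omega, fun ha => by omega⟩
  · have x0' := h2 0 (o 1) (o 4) (ho 1) (ho 4)
    have x1' := h2 1 (o 2) (o 5) (ho 2) (ho 5)
    have x2' := h2 2 (o 3) (o 6) (ho 3) (ho 6)
    have y0 := h3 0 (o 0) (ho 0)
    have y1 := h3 1 (o 7) (ho 7)
    have y2 := h3 2 (o 8) (ho 8)
    have y3 := h3 3 (o 9) (ho 9)
    have y4 := h3 4 (o 10) (ho 10)
    rw [sum11] at hlow
    have h4 : 1928 ≤ (Nat.card (inert G W) : ℤ) * a := by omega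
    have h5 : 8 ≤ a := by
      by_contra hneg
      push Not at hneg
      have h6 : (Nat.card (inert G W) : ℤ) ≤ 241 := by exact_mod_cast h1
      have h7 : (0 : ℤ) ≤ Nat.card (inert G W) := by positivity
      nlinarith
    exact ⟨by omega, fun ha => by omega⟩
  · obtain ⟨c, hc0, hcJ⟩ := jac_zk k
    choose o' ho' using fun j => exists_ordEq hT (zk_ne_zero k j)
    have hJ' : OrdEq W T (jac D (zk k)) (Nat.card (inert G W) * a - 1) := by
      rw [hcJ]
      have := (OrdEq.of_ne_zero_of_const (t := T) hC c hc0).mul hJ hT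
      rwa [zero_add] at this
    have hlow' := lower hT hD (zk k) ho' hJ'
    have hge : ∀ j, (wt (idx j) : ℤ) ≤ o' j := fun j => hk (idx j) (o' j) (ho' j)
    have hsum : (14 : ℤ) ≤ ∑ j, o' j := by
      rw [← sum_wt]
      exact Finset.sum_le_sum fun j _ => hge j
    have hlow2 := hsum.trans hlow'
    rw [h1] at hlow2
    push_cast at hlow2
    refine ⟨by omega, fun ha => ?_⟩
    subst ha
    have heq : ∀ j, o' j = wt (idx j) := by
      have h14 : ∑ j, (o' j - wt (idx j)) = 0 := by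
        rw [Finset.sum_sub_distrib, sum_wt]
        rw [h1] at hlow'
        have h15 := le_antisymm hlow' hsum
        rw [h15]
        norm_num
      have := (Finset.sum_eq_zero_iff_of_nonneg fun j _ => sub_nonneg.2 (hge j)).1 h14
      intro j
      have := this j (Finset.mem_univ _)
      omega
    have hT0 : IsUnif W t0 := by
      have h2 := ho' 0
      rw [heq 0, zk_zero] at h2
      exact (h2.isUnif_iff hT).2 rfl
    have hord : ∀ j, OrdEq W t0 (zk k j) (wt (idx j)) := fun j => by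
      have := ho' j
      rw [heq j] at this
      exact this.congr_unif hT hT0
    have he' : ∀ t', IsUnif O t' → OrdEq W t0 (algebraMap KR FA t') (Nat.card (inert G W)) :=
      fun t' ht' => (he t' ht').congr_unif hT hT0
    obtain ⟨D', hD', hJ2⟩ :=
      rh essFiniteType_FA trdeg_FA hc hT0 _ (card_pos' W) he' zc ω hω 7 h
    have hJ3 : OrdEq W t0 (jac D' (zk k)) (∑ j, (wt (idx j) : ℤ) - 1) := by
      rw [hcJ, sum_wt]
      have := (OrdEq.of_ne_zero_of_const (t := t0) hC c hc0).mul hJ2 hT0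
      rw [h1] at this
      simpa using this
    have hres : ResIndep W (zq k) := by
      have := eqc hD' (zk k) (zk_zero k) (fun j => (wt (idx j) : ℤ)) hord hJ3
      exact this
    intro r n
    rcases eq_or_ne r 0 with rfl | hr
    · simp only [map_zero, dvd_zero, iff_true]
      exact ⟨t, ht, by rw [zero_mul]; exact O.zero_mem⟩
    · have hr' : algebraMap R KR r ≠ 0 := by
        rwa [Ne, FaithfulSMul.algebraMap_eq_zero_iff R KR]
      obtain ⟨N, hN⟩ := exists_ordEq ht hr'
      have h2 := ordEq_map hT0 hc ht (he' t ht) hN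
      rw [h1, map_R] at h2
      rw [hN.ordGe_iff ht, ← thetak_dvd_iff k _ (fun j => R_smul _ r) (2 * n),
        ← mono_val W k hT0 hres, h2.mul_mem_iff hT0]
      push_cast
      omega

/-- The constant term of `psi H k a` is the constant term of `a`. -/
theorem psi_coeff_zero (H k : ℕ) (hH : 1 ≤ H) (a : A) :
    (psi H k a).coeff 0 = Polynomial.C (MvPolynomial.C (MvPolynomial.constantCoeff a)) := by
  have h : (Polynomial.constantCoeff (R := Polynomial A)).comp (psi H k : A →+* Polynomial (Polynomial A)) =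
      ((Polynomial.C (R := A)).comp (MvPolynomial.C (σ := Ix) (R := ℂ))).comp
        (MvPolynomial.constantCoeff (σ := Ix) (R := ℂ)) := by
    apply MvPolynomial.ringHom_ext
    · intro c
      simp [psi]
    · rintro (i | i | l)
      · have hl : lw H i ≠ 0 := by
          have h1 : 15 ≤ u i := by fin_cases i <;> simp [u]
          have h2 : H * (15 + 241) ≤ H * (u i + 241) := Nat.mul_le_mul_left H (by omega)
          unfold lw
          split_ifs <;> omega
        simp [psi, psiX, hl.symm]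
      · have hl : lw H i ≠ 0 := by
          have h1 : 15 ≤ u i := by fin_cases i <;> simp [u]
          have h2 : H * (15 + 241) ≤ H * (u i + 241) := Nat.mul_le_mul_left H (by omega)
          unfold lw
          split_ifs <;> omega
        simp [psi, psiX, hl.symm]
      · have hl : lt H ≠ 0 := by
          unfold lt
          omega
        simp [psi, psiX, hl.symm]
  have := congrArg (fun φ : A →+* Polynomial A => φ a) h
  simpa using this

/-- The valuation which shows that the sections of `𝒪(-qE)` are not bounded below. -/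
theorem exists_bad_val (ω : ⋀[KR]^(10 + 1) Ω[KR⁄ℂ]) (hω : IsPull zc ω) (O : ValuationSubring KR)
    (hO : OverPoint x0 O) (h : HasLogDisc O ω 7) (q : ℕ) (hq : 1 ≤ q) (I : Finset R)
    (hI : ∀ s ∈ I, OrdGe O q (algebraMap R KR s)) :
    ∃ V : ValuationSubring KR, (∀ r : R, algebraMap R KR r ∈ V) ∧
      (∀ g : R, g ∉ x0 → (algebraMap R KR g)⁻¹ ∈ V) ∧
      ∃ (j : ℕ) (b : R), OrdGe O (q * j) (algebraMap R KR b) ∧
        ∀ s ∈ I, ∀ c ∈ V, algebraMap R KR b ≠ algebraMap R KR s ^ j * c := by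
  classical
  have huniq := (analysis ω hω O hO 7 h).2 rfl
  obtain ⟨H, k, j, M, b, hH, hk, hj, hb, hbθ, hIM, hbM⟩ := core q hq (I.image (algebraMap R A)) (by
    intro s hs
    obtain ⟨r, hr, rfl⟩ := Finset.mem_image.1 hs
    exact ⟨fun k => R_smul _ r, (huniq r q).1 (hI r hr)⟩)
  obtain ⟨rb, rfl⟩ := exists_R b hb
  obtain ⟨V, hV⟩ := exists_val (F₀ := FA) (psi H k : A →+* Polynomial (Polynomial A))
    (psi_injective H k)
  have hVA : ∀ a : A, algebraMap A FA a ∈ V := fun a => by
    have := (hV a 1 one_ne_zero).2 (by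
      intro M hM
      have hM0 : M = 0 := by
        rw [map_one] at hM
        by_contra hne
        have h2 := dvd_trans (dvd_pow_self Polynomial.X hne) hM
        exact Polynomial.not_isUnit_X (isUnit_of_dvd_one h2)
      subst hM0
      simp)
    simpa using this
  refine ⟨V.comap (algebraMap KR FA), fun r => ?_, fun g hg => ?_, j, rb, (huniq rb _).2 hbθ, ?_⟩
  · change algebraMap KR FA _ ∈ V
    rw [map_R]
    exact hVA _
  · change algebraMap KR FA _ ∈ V
    have hg0 : MvPolynomial.constantCoeff (algebraMap R A g) ≠ 0 := hg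
    have hgA : algebraMap R A g ≠ 0 := fun h0 => hg0 (by rw [h0, map_zero])
    have h1 := (hV 1 (algebraMap R A g) hgA).2 (by
      intro M hM
      have hM0 : M = 0 := by
        by_contra hne
        have h2 : Polynomial.X ∣ psi H k (algebraMap R A g) :=
          dvd_trans (dvd_pow_self Polynomial.X hne) hM
        rw [Polynomial.X_dvd_iff, psi_coeff_zero H k hH] at h2
        apply hg0
        have h3 := Polynomial.C_injective (h2.trans Polynomial.C_0.symm)
        exact MvPolynomial.C_injective Ix ℂ (h3.trans (map_zero _).symm)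
      subst hM0
      simp)
    rw [map_one, one_div] at h1
    rwa [map_inv₀, map_R]
  · intro s hs c hcV hc
    have hcV' : algebraMap KR FA c ∈ V := hcV
    have h1 := congrArg (algebraMap KR FA) hc
    rw [map_mul, map_pow, map_R, map_R] at h1
    have hsM := hIM _ (Finset.mem_image_of_mem (algebraMap R A) hs)
    rcases eq_or_ne (algebraMap R A s) 0 with hs0 | hs0
    · rw [hs0, map_zero, zero_pow (by omega), zero_mul,
        FaithfulSMul.algebraMap_eq_zero_iff A FA] at h1
      apply hbM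
      rw [h1, map_zero]
      exact dvd_zero _
    · have hs1 : (algebraMap R A s) ^ j ≠ 0 := pow_ne_zero _ hs0
      have hs2 : algebraMap A FA ((algebraMap R A s) ^ j) ≠ 0 := by
        rwa [Ne, FaithfulSMul.algebraMap_eq_zero_iff A FA]
      have h2 : algebraMap KR FA c =
          algebraMap A FA (algebraMap R A rb) / algebraMap A FA ((algebraMap R A s) ^ j) := by
        rw [eq_div_iff hs2, h1, map_pow, mul_comm]
      rw [h2, hV _ _ hs1] at hcV'
      apply hbM
      refine hcV' _ ?_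
      rw [map_pow, pow_mul]
      exact pow_dvd_pow_of_dvd hsM j

/-- No prime divisor over the point which computes the minimal log discrepancy admits a
divisorial contraction, over any affine open neighbourhood `Spec S` of the point. -/
theorem no_contraction (ω : ⋀[KR]^(10 + 1) Ω[KR⁄ℂ]) (hω : IsPull zc ω) (O : ValuationSubring KR)
    (hO : OverPoint x0 O) (h : HasLogDisc O ω 7) (g : R) (hg : g ∉ x0) (S : Type) [CommRing S]
    [Algebra R S] [IsLocalization.Away g S] [Algebra S KR] [IsScalarTower R S KR]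
    (C : DivisorialContraction S O) : False := by
  classical
  obtain ⟨t, y, ε, ht, hy, -⟩ := id h
  obtain ⟨q, hq, I, hI, hgeo⟩ := geo C ⟨t, ht⟩
  have hg0 : algebraMap R KR g ≠ 0 := by
    intro h0
    apply hg
    have : g = 0 := IsFractionRing.injective R KR (h0.trans (map_zero _).symm)
    rw [this]
    exact x0.zero_mem
  choose n r hr using fun z : S => IsLocalization.Away.surj g z
  have hrK : ∀ z : S, algebraMap R KR (r z) = algebraMap S KR z * algebraMap R KR g ^ n z := by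
    intro z
    rw [IsScalarTower.algebraMap_apply R S KR, ← hr z, map_mul, map_pow,
      ← IsScalarTower.algebraMap_apply R S KR]
  obtain ⟨V, hVR, hVg, j, b, hb, hVb⟩ := exists_bad_val ω hω O hO h q hq (I.image r) (by
    intro s hs
    obtain ⟨z, hz, rfl⟩ := Finset.mem_image.1 hs
    obtain ⟨t', ht', hzt⟩ := hI z hz
    refine ⟨t', ht', ?_⟩
    rw [hrK, mul_right_comm]
    exact mul_mem hzt (pow_mem (hO.1 g) _))
  obtain ⟨s, hs, hsj⟩ := hgeo V (fun z => by
    have h1 : algebraMap S KR z = algebraMap R KR (r z) * ((algebraMap R KR g)⁻¹) ^ n z := by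
      rw [hrK, inv_pow, mul_assoc, mul_inv_cancel₀ (pow_ne_zero _ hg0), mul_one]
    rw [h1]
    exact mul_mem (hVR _) (pow_mem (hVg g hg) _))
  obtain ⟨c, hcV, hc⟩ := hsj j (algebraMap R S b) (by
    rwa [← IsScalarTower.algebraMap_apply R S KR])
  rw [← IsScalarTower.algebraMap_apply R S KR] at hc
  refine hVb (r s) (Finset.mem_image_of_mem r hs) (((algebraMap R KR g)⁻¹) ^ (n s * j) * c)
    (mul_mem (pow_mem (hVg g hg) _) hcV) ?_
  rw [hc, hrK, mul_pow, ← pow_mul]
  have h2 : algebraMap R KR g ^ (n s * j) * (algebraMap R KR g)⁻¹ ^ (n s * j) = 1 := by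
    rw [inv_pow, mul_inv_cancel₀ (pow_ne_zero _ hg0)]
  rw [mul_assoc, ← mul_assoc (algebraMap R KR g ^ (n s * j)), h2, one_mul]

/-- The minimal log discrepancy is attained with value `7`. -/
theorem exists_seven (ω : ⋀[KR]^(10 + 1) Ω[KR⁄ℂ]) (h0 : ω ≠ 0) (hω : IsPull zc ω) :
    ∃ O : ValuationSubring KR, IsDiv 10 O ∧ OverPoint x0 O ∧ HasLogDisc O ω 7 := by
  obtain ⟨W, hT, hres, hW⟩ := exists_W
  obtain ⟨⟨t, ht⟩, hram⟩ := ramified W hT hW
  have hc : ∀ x : KR, algebraMap KR FA x ∈ W ↔ x ∈ W.comap (algebraMap KR FA) :=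
    fun x => Iff.rfl
  obtain ⟨y, hy⟩ := rindep hc algebraic_FA _ hres
  have hdiv : IsDiv 10 (W.comap (algebraMap KR FA)) := ⟨⟨t, ht⟩, y, hy⟩
  refine ⟨W.comap (algebraMap KR FA), hdiv, overPoint_W W hT hW, ?_⟩
  obtain ⟨a, ha⟩ := exists_logDisc essFiniteType_KR trdeg_KR _ hdiv ω h0
  obtain ⟨D, hD, hJ⟩ := rh essFiniteType_FA trdeg_FA hc hT 2 (by norm_num) hram zc ω hω a ha
  obtain ⟨D2, hD2W, hD2⟩ := exists_frame essFiniteType_FA trdeg_FA hT hres
  have hfr : IsFrame W t0 D2 := ⟨hT, hD2W, zq 0, hres, hD2⟩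
  obtain ⟨ε, e0, e1, e2, hε⟩ := frame_cmp essFiniteType_FA trdeg_FA hD hfr (zk 0)
  have hex := jac_exact hT.1 hD2 (fun j => (wt (idx j.succ) : ℤ)) (zk 0) (zk_zero 0) (fun j => by
    unfold zq
    rw [mul_comm (zk 0 j.succ), ← mul_assoc, ← zpow_add₀ hT.1]
    simp)
  obtain ⟨c, hc0, hcJ⟩ := jac_zk 0
  have h13 : ∑ j : Fin 10, (wt (idx j.succ) : ℤ) = 13 := by decide
  have h1 : OrdEq W t0 (jac D (zk 0)) 13 := by
    rw [hε, hex, h13]
    exact (ordEq_zpow hT 13).unit_mul e0 e1 e2 hT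
  have h2 : OrdEq W t0 (jac D (zk 0)) (((2 : ℕ) : ℤ) * a - 1) := by
    rw [hcJ]
    have := (OrdEq.of_ne_zero_of_const (t := t0) hres.const_mem c hc0).mul hJ hT
    rwa [zero_add] at this
  have h3 := h1.unique h2 hT
  have h4 : a = 7 := by
    push_cast at h3
    omega
  rwa [h4] at ha

/-- The canonical form. -/
theorem canonical_R (ω : ⋀[KR]^(10 + 1) Ω[KR⁄ℂ]) (h0 : ω ≠ 0) (hω : IsPull zc ω) :
    CanonicalGen R ω := by
  intro p hp hp1
  obtain ⟨f, hf, hfp⟩ := exists_irreducible p hp hp1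
  obtain ⟨W, hT, hW⟩ := exists_adic f hf
  obtain ⟨ε, hε⟩ := adic_resIndep f hf W hW
  obtain ⟨hloc, t, ht⟩ := comap_eq_locAt finiteType_R isIntegrallyClosed_R p hp hp1 f hf hfp W hW
  have hc : ∀ x : KR, algebraMap KR FA x ∈ W ↔ x ∈ W.comap (algebraMap KR FA) :=
    fun x => Iff.rfl
  obtain ⟨y, hy⟩ := rindep hc algebraic_FA _ hε
  have hdiv : IsDiv 10 (W.comap (algebraMap KR FA)) := ⟨⟨t, ht⟩, y, hy⟩
  refine ⟨W.comap (algebraMap KR FA), hloc, ?_⟩
  obtain ⟨a, ha⟩ := exists_logDisc essFiniteType_KR trdeg_KR _ hdiv ω h0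
  -- the ramification index
  obtain ⟨e, he⟩ := exists_ordEq hT (h := algebraMap KR FA t) (by simpa using ht.1)
  have he1 : 1 ≤ e := by
    refine (he.nonunit_iff hT).1 ?_
    rw [nonunit_map hc, ValuationSubring.mem_nonunits_iff_or]
    exact Or.inr ht.2.2.1
  obtain ⟨e', rfl⟩ := Int.eq_ofNat_of_zero_le (show 0 ≤ e by omega)
  have he2 : ∀ t', IsUnif (W.comap (algebraMap KR FA)) t' →
      OrdEq W (algebraMap A FA f) (algebraMap KR FA t') e' := fun t' ht' => by
    have h1 : OrdEq (W.comap (algebraMap KR FA)) t t' 1 := (ordEq_self ht').congr_unif ht' ht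
    simpa using ordEq_map hT hc ht he h1
  obtain ⟨D, hD, hJ⟩ := rh essFiniteType_FA trdeg_FA hc hT e' (by exact_mod_cast he1) he2 zc ω
    hω a ha
  have h2 := adic_jac zc_indep zc_basis f hf W hW _ D hD
  have h3 := hJ.unique h2 hT
  have h4 : (e' : ℤ) * a = 1 := by omega
  have h5 : a = 1 := by
    rcases Int.eq_one_or_neg_one_of_mul_eq_one' h4 with h | h
    · exact h.2
    · omega
  rwa [h5] at ha

end H5ML

end S_Asm

section S_Main

/-!
# Main theorem
-/

open scoped TensorProduct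
open AlgebraicGeometry CategoryTheory

namespace H5ML

section Bridge

variable {K : Type} [Field K] [Algebra ℂ K]

theorem hasLogDisc_iff {n : ℕ} (O : ValuationSubring K) (ω : ⋀[K]^(n + 1) Ω[K⁄ℂ]) (a : ℤ) :
    MLD.HasLogDisc n O ((ω : ExteriorAlgebra K Ω[K⁄ℂ]) : ExteriorAlgebra K (MLD.Om K)) a ↔
      HasLogDisc O ω a := by
  constructor
  · rintro ⟨t, y, ε, ht, hy, h1, h2, h3, h4⟩
    exact ⟨t, y, ε, ht, hy, h1, h2, h3, Subtype.ext h4⟩
  · rintro ⟨t, y, ε, ht, hy, h1, h2, h3, h4⟩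
    exact ⟨t, y, ε, ht, hy, h1, h2, h3, congrArg Subtype.val h4⟩

end Bridge

section Geo

variable {R K : Type} [CommRing R] [Field K] [Algebra R K]

theorem gen_key (B : CommRingCat) {C : CommRingCat} (g : B ⟶ C) (h : (⊤ : (Spec B).Opens) ≤ ⊤) :
    (Scheme.ΓSpecIso B).inv ≫ (Spec B).presheaf.map (homOfLE h).op ≫
      (Scheme.ΓSpecIso B).hom ≫ g = g := by
  have h1 : (homOfLE h).op = 𝟙 _ := rfl
  rw [h1, (Spec B).presheaf.map_id]
  simp

theorem gen_apply (M : MLD.Model R K) (r : R) :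
    M.φ ((M.Y.presheaf.germ ⊤ (genericPoint M.Y) trivial).hom
      (M.f.appTop.hom ((Scheme.ΓSpecIso (.of R)).inv.hom r))) = algebraMap R K r := by
  have h := congrArg (fun g => Scheme.Hom.appTop g ≫ (Scheme.ΓSpecIso (CommRingCat.of K)).hom) M.gen
  simp only [MLD.genPt, Scheme.Hom.comp_appTop, Category.assoc, Scheme.ΓSpecIso_naturality,
    Scheme.fromSpecStalk_appTop] at h
  have h2 := congrArg (fun g => (Scheme.ΓSpecIso (CommRingCat.of R)).inv ≫ g) h
  simp only [Iso.inv_hom_id_assoc] at h2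
  have h3 := gen_key (M.Y.presheaf.stalk (genericPoint M.Y))
    (CommRingCat.ofHom (M.φ : M.Y.functionField →+* K)) le_rfl
  have h4 : (Scheme.ΓSpecIso (CommRingCat.of R)).inv ≫ M.f.appTop ≫
      M.Y.presheaf.germ ⊤ (genericPoint M.Y) trivial ≫
        CommRingCat.ofHom (M.φ : M.Y.functionField →+* K) = CommRingCat.ofHom (algebraMap R K) := by
    refine Eq.trans ?_ h2
    congr 3
    exact h3.symm
  have h5 := congrArg (fun g : CommRingCat.of R ⟶ CommRingCat.of K => g.hom r) h4
  exact h5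

/-- The contraction in the terms of the other definitions. -/
noncomputable def transfer {O : ValuationSubring K} (C : MLD.DivisorialContraction R O) :
    DivisorialContraction R O where
  Y := C.Y
  f := C.f
  integral := C.integral
  proper := C.proper
  φ := C.φ
  φ_comp := gen_apply C.toModel
  normal := C.normal
  η := C.η
  loc_η := C.loc_η
  exc := C.exc
  ample := C.ample

end Geo

theorem main : ∃ (R K : Type) (_ : CommRing R) (_ : IsDomain R) (_ : Field K) (_ : Algebra ℂ R)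
    (_ : Algebra R K) (_ : Algebra ℂ K) (_ : IsScalarTower ℂ R K) (_ : IsFractionRing R K)
    (x : Ideal R) (ω : ExteriorAlgebra K (MLD.Om K)),
    Algebra.FiniteType ℂ R ∧ IsIntegrallyClosed R ∧ Algebra.trdeg ℂ K = 11 ∧ x.IsMaximal ∧
    MLD.CanonicalGen 10 R ω ∧ MLD.Klt 10 R ω ∧ MLD.IsMld 10 x ω 7 ∧
    ∀ O : ValuationSubring K, MLD.OverPoint x O → MLD.HasLogDisc 10 O ω 7 →
      ¬ MLD.Extractable x O := by
  have hfin : Finite G := inferInstance
  obtain ⟨ω, h0, hω⟩ := exists_pull (K := KR) (F := FA) G trdeg_KR trdeg_FA essFiniteType_FA zc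
    zc_indep linear_action
  refine ⟨R, KR, inferInstance, inferInstance, inferInstance, inferInstance, inferInstance,
    inferInstance, inferInstance, inferInstance, x0,
    ((ω : ExteriorAlgebra KR Ω[KR⁄ℂ]) : ExteriorAlgebra KR (MLD.Om KR)), finiteType_R,
    isIntegrallyClosed_R, ?_, isMaximal_x0, ?_, ?_, ?_, ?_⟩
  · have := trdeg_KR
    norm_num at this
    exact this
  · intro p hp hp1
    obtain ⟨O, hO, h⟩ := canonical_R ω h0 hω p hp hp1
    exact ⟨O, hO, (hasLogDisc_iff O ω 1).2 h⟩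
  · intro O hO hR
    obtain ⟨a, ha, h, hu⟩ := klt_R ω h0 hω O hO hR
    exact ⟨a, ha, (hasLogDisc_iff O ω a).2 h, fun b hb => hu b ((hasLogDisc_iff O ω b).1 hb)⟩
  · constructor
    · obtain ⟨O, hO, hx, h⟩ := exists_seven ω h0 hω
      exact ⟨O, hO, hx, (hasLogDisc_iff O ω 7).2 h⟩
    · intro O _ hO a ha
      exact (analysis ω hω O hO a ((hasLogDisc_iff O ω a).1 ha)).1
  · rintro O hO h ⟨g, S, _, _, _, _, hg, _, ⟨C⟩⟩
    exact no_contraction ω hω O hO ((hasLogDisc_iff O ω 7).1 h) g hg S (transfer C)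

end H5ML

end S_Main
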